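import Mathlib

/-!
# Combinatorics: a form of the Delta-system lemma
-/

open Cardinal Ordinal Set

namespace Pool.Agent.Helper96.Fc

theorem exists_bound {κ : Cardinal.{0}} (hκ : κ.IsRegular) {B : Type} (hB : #B < κ)
    (f : B → κ.ord.ToType) : ∃ k, ∀ b, f b < k := by
  by_contra h
  push Not at h
  have h0 : IsCofinal (Set.range f) := fun k => by
    obtain ⟨b, hb⟩ := h k
    exact ⟨f b, ⟨b, rfl⟩, hb⟩
  have h1 := Order.cof_le h0
  rw [cof_toType, hκ.cof_ord] at h1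
  exact absurd hB (not_lt.2 (h1.trans mk_range_le))

theorem exists_gt' {κ : Cardinal.{0}} (hκ : κ.IsRegular) (a : κ.ord.ToType) : ∃ b, a < b := by
  obtain ⟨k, hk⟩ := exists_bound hκ (B := Unit)
    (by rw [mk_unit]; exact one_lt_aleph0.trans_le hκ.aleph0_le) (fun _ => a)
  exact ⟨k, hk ()⟩

theorem exists_bound2 {κ : Cardinal.{0}} (hκ : κ.IsRegular) {B : Type} (hB : #B < κ)
    (f : B → κ.ord.ToType) (a : κ.ord.ToType) : ∃ k, a < k ∧ ∀ b, f b < k := by
  obtain ⟨k, hk⟩ := exists_bound hκ hB f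
  obtain ⟨l, hl⟩ := exists_gt' hκ (max a k)
  exact ⟨l, (le_max_left _ _).trans_lt hl, fun b => (hk b).trans ((le_max_right _ _).trans_lt hl)⟩

theorem mk_Iio_lt' {κ : Cardinal.{0}} (a : κ.ord.ToType) : #(Iio a) < κ := by
  have h := Cardinal.mk_Iio_lt a (by simp)
  rwa [mk_ord_toType] at h

theorem mk_Iic_lt {κ : Cardinal.{0}} (hκ : ℵ₀ ≤ κ) (a : κ.ord.ToType) : #(Iic a) < κ := by
  have h1 : Iic a = insert a (Iio a) := by
    ext x; simp [le_iff_eq_or_lt]
  rw [h1]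
  refine (mk_insert_le).trans_lt ?_
  exact add_lt_of_lt hκ (mk_Iio_lt' a) (one_lt_aleph0.trans_le hκ)

theorem exists_gt_of_not_small {κ : Cardinal.{0}} (hκ : ℵ₀ ≤ κ) {T : Set κ.ord.ToType}
    (hT : ¬ #T < κ) (a : κ.ord.ToType) : ∃ b ∈ T, a < b := by
  by_contra h
  push Not at h
  exact hT ((mk_le_mk_of_subset (fun x hx => h x hx)).trans_lt (mk_Iic_lt hκ a))

/-- the assumptions on the two cardinals of a cut -/
structure Cls (τ θ : Cardinal.{0}) : Prop where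
  rτ : τ.IsRegular
  rθ : θ.IsRegular
  lt : τ < θ
  pow : ∀ a < θ, ∀ b < τ, a ^ b < θ

section

variable {τ θ : Cardinal.{0}}

theorem Cls.small_subsets (h : Cls τ θ) {α : Type} {S : Set α} (hS : #S < θ) :
    #{R : Set α // R ⊆ S ∧ #R < τ} < θ := by
  have h1 : #{R : Set α // R ⊆ S ∧ #R < τ} ≤
      Cardinal.sum (fun k : τ.ord.ToType => #{R : Set α // R ⊆ S ∧ #R ≤ #(Iio k)}) := by
    rw [← mk_sigma]
    have key : ∀ R : {R : Set α // R ⊆ S ∧ #R < τ}, ∃ k : τ.ord.ToType, #(Iio k) = #R.1 := by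
      intro R
      have h2 : (#R.1).ord < τ.ord := ord_lt_ord.2 R.2.2
      refine ⟨ToType.mk ⟨(#R.1).ord, h2⟩, ?_⟩
      have h3 := card_typein (r := ((· < ·) : τ.ord.ToType → τ.ord.ToType → Prop))
        (ToType.mk ⟨(#R.1).ord, h2⟩)
      have h4 : typein (α := τ.ord.ToType) (· < ·) (ToType.mk ⟨(#R.1).ord, h2⟩) =
          (#R.1).ord := by
        simp [ToType.mk]
      rw [h4, card_ord] at h3
      exact h3.symm
    choose k hk using key
    refine mk_le_of_injective (f := fun R => ⟨k R, R.1, R.2.1, (hk R).symm.le⟩) ?_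
    intro R R' hRR'
    simp only [Sigma.mk.injEq] at hRR'
    obtain ⟨h5, h6⟩ := hRR'
    have h7 : ∀ (k k' : τ.ord.ToType) (x : {R : Set α // R ⊆ S ∧ #R ≤ #(Iio k)})
        (y : {R : Set α // R ⊆ S ∧ #R ≤ #(Iio k')}), k = k' → HEq x y → x.1 = y.1 := by
      rintro k _ x y rfl hxy
      rw [eq_of_heq hxy]
    exact Subtype.ext (h7 _ _ _ _ h5 h6)
  refine h1.trans_lt (sum_lt_of_isRegular h.rθ (by rw [mk_ord_toType]; exact h.lt) ?_)
  intro k
  refine (mk_bounded_subset_le S _).trans_lt (h.pow _ ?_ _ (mk_Iio_lt' k))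
  exact max_lt hS (h.rτ.aleph0_le.trans_lt h.lt)

/-- closing off -/
theorem Cls.close (h : Cls τ θ) {α : Type} (F : Set α → Set α)
    (hF : ∀ R : Set α, #R < τ → #(F R) < θ) :
    ∃ S : Set α, #S < θ ∧ ∀ R ⊆ S, #R < τ → F R ⊆ S := by
  let step : Set α → Set α := fun S => S ∪ ⋃ R : {R : Set α // R ⊆ S ∧ #R < τ}, F R.1
  have hstep : ∀ S : Set α, #S < θ → #(step S) < θ := by
    intro S hS
    refine (mk_union_le _ _).trans_lt (add_lt_of_lt h.rθ.aleph0_le hS ?_)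
    rw [card_iUnion_lt_iff_forall_of_isRegular h.rθ (h.small_subsets hS)]
    exact fun R => hF R.1 R.2.2
  let St : τ.ord.ToType → Set α := WellFoundedLT.fix (fun k g => ⋃ j : Iio k, step (g j.1 j.2))
  have hSt : ∀ k, St k = ⋃ j : Iio k, step (St j.1) := by
    intro k
    exact WellFoundedLT.fix_eq _ _
  have hcard : ∀ k, #(St k) < θ := by
    intro k
    induction k using WellFoundedLT.induction with
    | _ k ih =>
      rw [hSt, card_iUnion_lt_iff_forall_of_isRegular h.rθ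
        ((mk_Iio_lt' k).trans h.lt)]
      exact fun j => hstep _ (ih j.1 j.2)
  have hmono : ∀ j k, j < k → step (St j) ⊆ St k := by
    intro j k hjk
    rw [hSt k]
    exact subset_iUnion (fun j : Iio k => step (St j.1)) ⟨j, hjk⟩
  refine ⟨⋃ k, St k, ?_, ?_⟩
  · rw [card_iUnion_lt_iff_forall_of_isRegular h.rθ (by rw [mk_ord_toType]; exact h.lt)]
    exact hcard
  · intro R hR hRτ
    have key : ∀ r : R, ∃ k, r.1 ∈ St k := fun r => mem_iUnion.1 (hR r.2)
    choose k hk using key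
    obtain ⟨l, hl⟩ := exists_bound h.rτ hRτ k
    have hRl : R ⊆ St l := fun r hr =>
      hmono _ _ (hl ⟨r, hr⟩) (Or.inl (hk ⟨r, hr⟩))
    obtain ⟨l', hl'⟩ := exists_gt' h.rτ l
    refine (Subset.trans ?_ (hmono l l' hl')).trans (subset_iUnion St l')
    exact (subset_iUnion (fun R : {R : Set α // R ⊆ St l ∧ #R < τ} => F R.1)
      ⟨R, hRl, hRτ⟩).trans subset_union_right

/-- **The root lemma.** -/
theorem Cls.root (h : Cls τ θ) {α C : Type} (s : θ.ord.ToType → Set α) (hs : ∀ ξ, #(s ξ) < τ)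
    (f : θ.ord.ToType → C) (hC : #C < θ) :
    ∃ (R : Set α) (c : C), #R < τ ∧ ∀ A : Set α, #A < θ → R ⊆ A → ∀ β, ∃ ξ > β,
      s ξ ∩ A = R ∧ f ξ = c := by
  classical
  by_contra hcon
  push Not at hcon
  have hne : Nonempty θ.ord.ToType := by
    rw [nonempty_toType_iff]
    exact (h.rθ.ord_pos).ne'
  choose A hA hRA β hβ using hcon
  let F : Set α → Set α := fun R => if hR : #R < τ then ⋃ c : C, A R c hR else ∅
  have hF : ∀ R : Set α, #R < τ → #(F R) < θ := by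
    intro R hR
    simp only [F, dif_pos hR]
    rw [card_iUnion_lt_iff_forall_of_isRegular h.rθ hC]
    exact fun c => hA R c hR
  obtain ⟨S, hS, hcl⟩ := h.close F hF
  have h1 : #({R : Set α // R ⊆ S ∧ #R < τ} × C) < θ := by
    rw [mk_prod, Cardinal.lift_id, Cardinal.lift_id]
    exact mul_lt_of_lt h.rθ.aleph0_le (h.small_subsets hS) hC
  obtain ⟨ξ, hξ⟩ := exists_bound h.rθ h1 (fun x => β x.1.1 x.2 x.1.2.2)
  have h2 : #(s ξ ∩ S : Set α) < τ := (mk_le_mk_of_subset inter_subset_left).trans_lt (hs ξ)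
  have h3 := hξ (⟨s ξ ∩ S, inter_subset_right, h2⟩, f ξ)
  refine hβ (s ξ ∩ S) (f ξ) h2 ξ h3 ?_ rfl
  have h4 : A (s ξ ∩ S) (f ξ) h2 ⊆ S := by
    have h5 := hcl (s ξ ∩ S) inter_subset_right h2
    simp only [F, dif_pos h2] at h5
    exact (subset_iUnion (fun c => A (s ξ ∩ S) c h2) (f ξ)).trans h5
  have h5 := hRA (s ξ ∩ S) (f ξ) h2
  ext a
  constructor
  · rintro ⟨h6, h7⟩
    exact ⟨h6, h4 h7⟩
  · rintro ⟨h6, h7⟩
    exact ⟨h6, h5 ⟨h6, h7⟩⟩

/-- **Thinning out.** -/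
theorem Cls.thin (h : Cls τ θ) {α C : Type} (s : θ.ord.ToType → Set α) (hs : ∀ ξ, #(s ξ) < τ)
    (f : θ.ord.ToType → C) (hC : #C < θ) (B : θ.ord.ToType → Set α) (hB : ∀ ξ, #(B ξ) < θ) :
    ∃ (R : Set α) (c : C) (e : θ.ord.ToType → θ.ord.ToType), #R < τ ∧ StrictMono e ∧
      (∀ k, f (e k) = c ∧ R ⊆ s (e k)) ∧ ∀ j k, j < k → s (e k) ∩ B (e j) ⊆ R := by
  classical
  obtain ⟨R, c, hR, hroot⟩ := h.root s hs f hC
  have hbd : ∀ (k : θ.ord.ToType) (g : (y : θ.ord.ToType) → y < k → θ.ord.ToType),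
      ∃ β, ∀ j (hj : j < k), g j hj < β := by
    intro k g
    obtain ⟨β, hβ⟩ := exists_bound h.rθ (B := Iio k) (mk_Iio_lt' k) (fun j => g j.1 j.2)
    exact ⟨β, fun j hj => hβ ⟨j, hj⟩⟩
  choose β hβ using hbd
  let A : (k : θ.ord.ToType) → ((y : θ.ord.ToType) → y < k → θ.ord.ToType) → Set α :=
    fun k g => R ∪ ⋃ j : Iio k, B (g j.1 j.2)
  have hA : ∀ k g, #(A k g) < θ := by
    intro k g
    refine (mk_union_le _ _).trans_lt (add_lt_of_lt h.rθ.aleph0_le (hR.trans h.lt) ?_)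
    rw [card_iUnion_lt_iff_forall_of_isRegular h.rθ (mk_Iio_lt' k)]
    exact fun j => hB _
  have hex := fun k g => hroot (A k g) (hA k g) subset_union_left (β k g)
  choose F hF1 hF2 hF3 using hex
  let e : θ.ord.ToType → θ.ord.ToType := WellFoundedLT.fix F
  have he : ∀ k, e k = F k (fun y _ => e y) := fun k => WellFoundedLT.fix_eq _ _
  refine ⟨R, c, e, hR, ?_, ?_, ?_⟩
  · intro j k hjk
    rw [he k]
    exact (hβ k (fun y _ => e y) j hjk).trans (hF1 _ _)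
  · intro k
    rw [he k]
    refine ⟨hF3 _ _, ?_⟩
    have h1 := hF2 k (fun y _ => e y)
    intro a ha
    rw [← h1] at ha
    exact ha.1
  · intro j k hjk a ha
    have h1 := hF2 k (fun y _ => e y)
    rw [← he k] at h1
    rw [← h1]
    exact ⟨ha.1, Or.inr (mem_iUnion.2 ⟨⟨j, hjk⟩, ha.2⟩)⟩

end

end Pool.Agent.Helper96.Fc
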