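import Pool.Agent.Helper96.Fc.ZFC

/-!
# Existence of good pairs `(X, G)`
-/

open Ordinal

set_option linter.unusedSectionVars false

namespace Pool.Agent.Helper96.Fc

/-- code of a formula -/
def Fml.enc : {m : ℕ} → Fml m → ℕ
  | _, .mem i j => Nat.pair 0 (Nat.pair i.1 j.1)
  | _, .eq i j => Nat.pair 1 (Nat.pair i.1 j.1)
  | _, .neg φ => Nat.pair 2 φ.enc
  | _, .and φ ψ => Nat.pair 3 (Nat.pair φ.enc ψ.enc)
  | _, .all φ => Nat.pair 4 φ.enc

theorem Fml.enc_inj {m : ℕ} (φ : Fml m) : ∀ ψ : Fml m, φ.enc = ψ.enc → φ = ψ := by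
  induction φ with
  | mem i j =>
    intro ψ h
    cases ψ <;> simp only [Fml.enc, Nat.pair_eq_pair] at h
    · obtain ⟨-, h1, h2⟩ := h
      rw [Fin.ext h1, Fin.ext h2]
    all_goals omega
  | eq i j =>
    intro ψ h
    cases ψ <;> simp only [Fml.enc, Nat.pair_eq_pair] at h
    · omega
    · obtain ⟨-, h1, h2⟩ := h
      rw [Fin.ext h1, Fin.ext h2]
    all_goals omega
  | neg φ ih =>
    intro ψ h
    cases ψ <;> simp only [Fml.enc, Nat.pair_eq_pair] at h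
    · omega
    · omega
    · rw [ih _ h.2]
    all_goals omega
  | and φ ψ ih1 ih2 =>
    intro χ h
    cases χ <;> simp only [Fml.enc, Nat.pair_eq_pair] at h
    · omega
    · omega
    · omega
    · rw [ih1 _ h.2.1, ih2 _ h.2.2]
    · omega
  | all φ ih =>
    intro ψ h
    cases ψ <;> simp only [Fml.enc, Nat.pair_eq_pair] at h
    · omega
    · omega
    · omega
    · omega
    · rw [ih _ h.2]

instance : Countable (Σ m, Fml m) := by
  have : Function.Injective (fun x : Σ m, Fml m => (x.1, x.2.enc)) := by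
    rintro ⟨m, φ⟩ ⟨n, ψ⟩ h
    simp only [Prod.mk.injEq] at h
    obtain ⟨rfl, h2⟩ := h
    rw [Fml.enc_inj φ ψ h2]
  exact this.countable

instance : Countable (Σ m, Fml (m + 1)) := by
  have : Function.Injective (fun x : Σ m, Fml (m + 1) => (x.1, x.2.enc)) := by
    rintro ⟨m, φ⟩ ⟨n, ψ⟩ h
    simp only [Prod.mk.injEq] at h
    obtain ⟨rfl, h2⟩ := h
    rw [Fml.enc_inj φ ψ h2]
  exact this.countable

instance : Countable (Σ m, Fml (m + 2)) := by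
  have : Function.Injective (fun x : Σ m, Fml (m + 2) => (x.1, x.2.enc)) := by
    rintro ⟨m, φ⟩ ⟨n, ψ⟩ h
    simp only [Prod.mk.injEq] at h
    obtain ⟨rfl, h2⟩ := h
    rw [Fml.enc_inj φ ψ h2]
  exact this.countable

variable {P : Type} [PartialOrder P] [OrderTop P]

/-- the basic operations, as relations -/
def O0 : ℕ → List (Obj P) → Obj P → Prop
  | 0, l, z => ∃ x y, l = [Sum.inl x, Sum.inl y] ∧ z = Sum.inl (upN x y)
  | 1, l, z => ∃ x, l = [Sum.inl x] ∧ z = Sum.inl (unN x)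
  | 2, l, z => ∃ x, l = [Sum.inl x] ∧ z = Sum.inl (powN x)
  | 3, l, z => ∃ x y, l = [Sum.inl x, Sum.inl y] ∧ z = Sum.inl (subN x y)
  | 4, l, z => ∃ x, l = [Sum.inl x] ∧ z = Sum.inl (numN x)
  | 5, l, z => ∃ x, l = [Sum.inl x] ∧ z = Sum.inl (ordN P (len x))
  | 6, l, z => ∃ x y, l = [Sum.inl x, Sum.inl y] ∧ z = Sum.inl (ordN P (cidx x y))
  | 7, l, z => ∃ x y, l = [Sum.inl (pairN x y)] ∧ z = Sum.inl x
  | 8, l, z => ∃ x y, l = [Sum.inl (pairN x y)] ∧ z = Sum.inl y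
  | 9, l, z => l = [] ∧ z = Sum.inl (ordN P 0)
  | 10, l, z => l = [] ∧ z = Sum.inl (ordN P ω)
  | 11, l, z => ∃ a, l = [Sum.inl (ordN P a)] ∧ z = Sum.inl (ordN P (a + 1))
  | _, _, _ => False

theorem O0_fun : ∀ (k : ℕ) (l : List (Obj P)) (y z : Obj P), O0 k l y → O0 k l z → y = z := by
  intro k l y z hy hz
  match k, hy, hz with
  | 0, hy, hz =>
    obtain ⟨a, b, rfl, rfl⟩ := hy
    obtain ⟨c, d, h, rfl⟩ := hz
    simp only [List.cons.injEq, Sum.inl.injEq, and_true] at h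
    rw [h.1, h.2]
  | 1, hy, hz =>
    obtain ⟨a, rfl, rfl⟩ := hy
    obtain ⟨c, h, rfl⟩ := hz
    simp only [List.cons.injEq, Sum.inl.injEq, and_true] at h
    rw [h]
  | 2, hy, hz =>
    obtain ⟨a, rfl, rfl⟩ := hy
    obtain ⟨c, h, rfl⟩ := hz
    simp only [List.cons.injEq, Sum.inl.injEq, and_true] at h
    rw [h]
  | 3, hy, hz =>
    obtain ⟨a, b, rfl, rfl⟩ := hy
    obtain ⟨c, d, h, rfl⟩ := hz
    simp only [List.cons.injEq, Sum.inl.injEq, and_true] at h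
    rw [h.1, h.2]
  | 4, hy, hz =>
    obtain ⟨a, rfl, rfl⟩ := hy
    obtain ⟨c, h, rfl⟩ := hz
    simp only [List.cons.injEq, Sum.inl.injEq, and_true] at h
    rw [h]
  | 5, hy, hz =>
    obtain ⟨a, rfl, rfl⟩ := hy
    obtain ⟨c, h, rfl⟩ := hz
    simp only [List.cons.injEq, Sum.inl.injEq, and_true] at h
    rw [h]
  | 6, hy, hz =>
    obtain ⟨a, b, rfl, rfl⟩ := hy
    obtain ⟨c, d, h, rfl⟩ := hz
    simp only [List.cons.injEq, Sum.inl.injEq, and_true] at h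
    rw [h.1, h.2]
  | 7, hy, hz =>
    obtain ⟨a, b, rfl, rfl⟩ := hy
    obtain ⟨c, d, h, rfl⟩ := hz
    simp only [List.cons.injEq, Sum.inl.injEq, and_true] at h
    rw [(pairN_inj h).1]
  | 8, hy, hz =>
    obtain ⟨a, b, rfl, rfl⟩ := hy
    obtain ⟨c, d, h, rfl⟩ := hz
    simp only [List.cons.injEq, Sum.inl.injEq, and_true] at h
    rw [(pairN_inj h).2]
  | 9, hy, hz => rw [hy.2, hz.2]
  | 10, hy, hz => rw [hy.2, hz.2]
  | 11, hy, hz =>
    obtain ⟨a, rfl, rfl⟩ := hy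
    obtain ⟨c, h, rfl⟩ := hz
    simp only [List.cons.injEq, Sum.inl.injEq, and_true] at h
    rw [ordN_inj' h]
  | (n + 12), hy, hz => exact hy.elim

theorem ofFn_inl_inj {m : ℕ} {u v : Fin m → Nm P}
    (h : List.ofFn (fun i => (Sum.inl (u i) : Obj P)) = List.ofFn (fun i => Sum.inl (v i))) :
    u = v := by
  have h3 := List.ofFn_injective h
  funext i
  exact Sum.inl.inj (congrFun h3 i)

/-- **Existence of good pairs.** -/
theorem exists_good {K : Type} [Countable K] (R : K → P → List (Obj P) → Prop)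
    (O : K → List (Obj P) → Obj P → Prop)
    (hO : ∀ k l y z, O k l y → O k l z → y = z) (p₀ : P) :
    ∃ (X : Set (Obj P)) (G : Set P), X.Countable ∧ p₀ ∈ G ∧ Basic X G ∧ Clos X ∧
      (∀ k, GenR X G (R k)) ∧ (∀ k l y, (∀ a ∈ l, a ∈ X) → O k l y → y ∈ X) := by
  classical
  let O1 : (Σ m, Fml (m + 1)) → List (Obj P) → Obj P → Prop := fun k l z =>
    ∃ (x : Nm P) (v : Fin k.1 → Nm P), l = Sum.inl x :: List.ofFn (fun i => Sum.inl (v i)) ∧
      z = Sum.inl (sepN k.2 x v)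
  let O2 : (Σ m, Fml (m + 2)) → List (Obj P) → Obj P → Prop := fun k l z =>
    ∃ (x : Nm P) (v : Fin k.1 → Nm P), l = Sum.inl x :: List.ofFn (fun i => Sum.inl (v i)) ∧
      z = Sum.inl (colN k.2 x v)
  let O3 : (Σ m, Fml (m + 2)) → List (Obj P) → Obj P → Prop := fun k l z =>
    ∃ (p : P) (x : Nm P) (v : Fin k.1 → Nm P),
      l = Sum.inr p :: Sum.inl x :: List.ofFn (fun i => Sum.inl (v i)) ∧
      z = Sum.inl (wit k.2 p x v)
  have hO1 : ∀ k l y z, O1 k l y → O1 k l z → y = z := by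
    rintro k l y z ⟨x, v, rfl, rfl⟩ ⟨x', v', h, rfl⟩
    obtain ⟨h1, h2⟩ := List.cons.inj h
    rw [Sum.inl.inj h1, ofFn_inl_inj h2]
  have hO2 : ∀ k l y z, O2 k l y → O2 k l z → y = z := by
    rintro k l y z ⟨x, v, rfl, rfl⟩ ⟨x', v', h, rfl⟩
    obtain ⟨h1, h2⟩ := List.cons.inj h
    rw [Sum.inl.inj h1, ofFn_inl_inj h2]
  have hO3 : ∀ k l y z, O3 k l y → O3 k l z → y = z := by
    rintro k l y z ⟨p, x, v, rfl, rfl⟩ ⟨p', x', v', h, rfl⟩
    obtain ⟨h0, h1⟩ := List.cons.inj h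
    obtain ⟨h1, h2⟩ := List.cons.inj h1
    rw [Sum.inr.inj h0, Sum.inl.inj h1, ofFn_inl_inj h2]
  let OO : (K ⊕ ℕ ⊕ (Σ m, Fml (m + 1)) ⊕ (Σ m, Fml (m + 2)) ⊕ (Σ m, Fml (m + 2))) →
      List (Obj P) → Obj P → Prop := fun k =>
    match k with
    | .inl k => O k
    | .inr (.inl k) => O0 k
    | .inr (.inr (.inl k)) => O1 k
    | .inr (.inr (.inr (.inl k))) => O2 k
    | .inr (.inr (.inr (.inr k))) => O3 k
  have hOO : ∀ k l y z, OO k l y → OO k l z → y = z := by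
    rintro (k | k | k | k | k)
    · exact hO k
    · exact O0_fun k
    · exact hO1 k
    · exact hO2 k
    · exact hO3 k
  let RR : (K ⊕ ℕ ⊕ (Σ m, Fml m) ⊕ (Σ m, Fml (m + 1))) → P → List (Obj P) → Prop := fun k =>
    match k with
    | .inl k => R k
    | .inr (.inl 0) => RMem
    | .inr (.inl _) => RNeq
    | .inr (.inr (.inl k)) => RDec k.2
    | .inr (.inr (.inr k)) => RAll k.2
  obtain ⟨X, G, hX, -, hops, hp₀, hG, hgen⟩ := exists_generic
    (K := (K ⊕ ℕ ⊕ (Σ m, Fml (m + 1)) ⊕ (Σ m, Fml (m + 2)) ⊕ (Σ m, Fml (m + 2))) ⊕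
      (K ⊕ ℕ ⊕ (Σ m, Fml m) ⊕ (Σ m, Fml (m + 1))))
    (fun k => match k with
      | .inl _ => fun _ _ => False
      | .inr k => RR k)
    (fun k l => match k with
      | .inl k => if h : ∃ y, OO k l y then h.choose else Sum.inr p₀
      | .inr _ => Sum.inr p₀)
    ∅ Set.countable_empty p₀
  have hc : ∀ k l y, (∀ a ∈ l, a ∈ X) → OO k l y → y ∈ X := by
    intro k l y hl hy
    have h := hops (.inl k) l hl
    have h1 : ∃ y, OO k l y := ⟨y, hy⟩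
    simp only [dif_pos h1] at h
    rwa [hOO k l _ _ h1.choose_spec hy] at h
  have l1 : ∀ {a : Obj P}, a ∈ X → ∀ b ∈ [a], b ∈ X := by
    intro a ha b hb
    rw [List.mem_singleton] at hb
    rwa [hb]
  have l2 : ∀ {a c : Obj P}, a ∈ X → c ∈ X → ∀ b ∈ [a, c], b ∈ X := by
    intro a c ha hc b hb
    rcases List.mem_cons.1 hb with rfl | hb
    · exact ha
    · exact l1 hc b hb
  have l0 : ∀ b ∈ ([] : List (Obj P)), b ∈ X := by simp
  have lc : ∀ {a : Obj P} {l : List (Obj P)}, a ∈ X → (∀ b ∈ l, b ∈ X) → ∀ b ∈ a :: l, b ∈ X := by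
    intro a l ha hl b hb
    rcases List.mem_cons.1 hb with rfl | hb
    · exact ha
    · exact hl b hb
  refine ⟨X, G, hX, hp₀, ⟨hG, hgen (.inr (.inr (.inl 0))), hgen (.inr (.inr (.inl 1))),
    fun m φ => hgen (.inr (.inr (.inr (.inl ⟨m, φ⟩)))),
    fun m φ => hgen (.inr (.inr (.inr (.inr ⟨m, φ⟩))))⟩, ?_,
    fun k => hgen (.inr (.inl k)), fun k => hc (.inl k)⟩
  constructor
  · exact fun x y hx hy => hc (.inr (.inl 0)) _ _ (l2 hx hy) ⟨x, y, rfl, rfl⟩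
  · exact fun x hx => hc (.inr (.inl 1)) _ _ (l1 hx) ⟨x, rfl, rfl⟩
  · exact fun x hx => hc (.inr (.inl 2)) _ _ (l1 hx) ⟨x, rfl, rfl⟩
  · exact fun x y hx hy => hc (.inr (.inl 3)) _ _ (l2 hx hy) ⟨x, y, rfl, rfl⟩
  · exact fun m φ x v hx hv => hc (.inr (.inr (.inl ⟨m, φ⟩))) _ _ (lc hx (mem_ofFn hv))
      ⟨x, v, rfl, rfl⟩
  · exact fun m φ x v hx hv => hc (.inr (.inr (.inr (.inl ⟨m, φ⟩)))) _ _ (lc hx (mem_ofFn hv))
      ⟨x, v, rfl, rfl⟩
  · exact fun m φ p x v hp hx hv => hc (.inr (.inr (.inr (.inr ⟨m, φ⟩)))) _ _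
      (lc hp (lc hx (mem_ofFn hv))) ⟨p, x, v, rfl, rfl⟩
  · exact fun x hx => hc (.inr (.inl 4)) _ _ (l1 hx) ⟨x, rfl, rfl⟩
  · exact fun x hx => hc (.inr (.inl 5)) _ _ (l1 hx) ⟨x, rfl, rfl⟩
  · exact fun x y hx hy => hc (.inr (.inl 6)) _ _ (l2 hx hy) ⟨x, y, rfl, rfl⟩
  · exact fun x y hx => hc (.inr (.inl 7)) _ _ (l1 hx) ⟨x, y, rfl, rfl⟩
  · exact fun x y hx => hc (.inr (.inl 8)) _ _ (l1 hx) ⟨x, y, rfl, rfl⟩
  · exact hc (.inr (.inl 9)) _ _ l0 ⟨rfl, rfl⟩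
  · exact hc (.inr (.inl 10)) _ _ l0 ⟨rfl, rfl⟩
  · exact fun a ha => hc (.inr (.inl 11)) _ _ (l1 ha) ⟨a, rfl, rfl⟩

theorem Mod_countable {X : Set (Obj P)} {G : Set P} (hX : X.Countable) : (Mod X G).Countable := by
  have h1 : (Sum.inl ⁻¹' X : Set (Nm P)).Countable :=
    hX.preimage Sum.inl_injective
  have h2 : Mod X G = (val X G) '' (Sum.inl ⁻¹' X) := by
    ext a
    rfl
  rw [h2]
  exact h1.image _

end Pool.Agent.Helper96.Fc
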