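import Pool.Agent.Helper96.Fc.Root

/-!
# The cardinals of the construction
-/

open Cardinal Ordinal Set

namespace Pool.Agent.Helper96.Fc

theorem mk_fun_le_of_cover {B C K : Type} [LinearOrder K] (S : K → Set C) (hmono : Monotone S)
    (hcov : ∀ x, ∃ k, x ∈ S k) (hbd : ∀ f : B → K, ∃ k, ∀ b, f b < k) :
    #(B → C) ≤ Cardinal.sum (fun k => #(B → S k)) := by
  rw [← mk_sigma]
  choose κ hκ using hcov
  choose k hk using hbd
  refine mk_le_of_injective (f := fun f => ⟨k (κ ∘ f), fun b => ⟨f b,
    hmono (hk (κ ∘ f) b).le (hκ (f b))⟩⟩) ?_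
  intro f g hfg
  simp only [Sigma.mk.injEq] at hfg
  obtain ⟨h5, h6⟩ := hfg
  have h7 : ∀ (k k' : K) (x : B → S k) (y : B → S k'), k = k' → HEq x y →
      ∀ b, (x b).1 = (y b).1 := by
    rintro k _ x y rfl hxy b
    rw [eq_of_heq hxy]
  funext b
  exact h7 _ _ _ _ h5 h6 b

theorem exists_Iio_eq {κ ν : Cardinal.{0}} (h : ν < κ) : ∃ k : κ.ord.ToType, #(Iio k) = ν := by
  have h2 : ν.ord < κ.ord := ord_lt_ord.2 h
  refine ⟨ToType.mk ⟨ν.ord, h2⟩, ?_⟩
  have h3 := card_typein (r := ((· < ·) : κ.ord.ToType → κ.ord.ToType → Prop))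
    (ToType.mk ⟨ν.ord, h2⟩)
  have h4 : typein (α := κ.ord.ToType) (· < ·) (ToType.mk ⟨ν.ord, h2⟩) = ν.ord := by
    simp [ToType.mk]
  rw [h4, card_ord] at h3
  exact h3.symm

theorem mk_initial_le {c d : Cardinal.{0}} : #{x : c.ord.ToType | #(Iio x) < d} ≤ d := by
  have key : ∀ x : {x : c.ord.ToType | #(Iio x) < d},
      typein (α := c.ord.ToType) (· < ·) x.1 < d.ord := by
    intro x
    rw [lt_ord]
    have h3 := card_typein (r := ((· < ·) : c.ord.ToType → c.ord.ToType → Prop)) x.1
    rw [h3]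
    exact x.2
  have h : #{x : c.ord.ToType | #(Iio x) < d} ≤ #d.ord.ToType := by
    refine mk_le_of_injective (f := fun x => ToType.mk
      ⟨typein (α := c.ord.ToType) (· < ·) x.1, key x⟩) ?_
    intro x y hxy
    have h1 := ToType.mk.injective hxy
    have h2 := typein_injective _ (congrArg Subtype.val h1)
    exact Subtype.ext h2
  rwa [mk_ord_toType] at h

theorem regular_pow_le {κ e : Cardinal.{0}} (hκ : κ.IsRegular) (he : e < κ)
    (h : ∀ a < κ, a ^ e ≤ κ) : κ ^ e ≤ κ := by
  have h1 := mk_fun_le_of_cover (B := e.out) (C := κ.ord.ToType) (K := κ.ord.ToType)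
    (fun k => Iio k) (fun a b hab x hx => lt_of_lt_of_le hx hab)
    (fun x => exists_gt' hκ x) (fun f => exists_bound hκ (by rwa [mk_out]) f)
  have h2 : #(e.out → κ.ord.ToType) = κ ^ e := by
    rw [← power_def, mk_out, mk_ord_toType]
  rw [h2] at h1
  refine h1.trans ?_
  refine (sum_le_sum _ (fun _ => κ) ?_).trans ?_
  · intro k
    rw [← power_def, mk_out]
    exact h _ (mk_Iio_lt' k)
  · rw [sum_const', mk_ord_toType]
    exact (mul_eq_self hκ.aleph0_le).le

theorem le_two_powerlt {κ : Cardinal.{0}} : κ ≤ 2 ^< κ := by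
  by_contra h
  push Not at h
  have h1 := le_powerlt 2 h
  exact absurd (cantor (2 ^< κ)) (not_lt.2 h1)

theorem powerlt_pow_le {κ b : Cardinal.{0}} (hκ : κ.IsRegular) (hb : b < κ) :
    (2 ^< κ) ^ b ≤ 2 ^< κ := by
  have hinf : ℵ₀ ≤ 2 ^< κ := hκ.aleph0_le.trans le_two_powerlt
  have h1 := mk_fun_le_of_cover (B := b.out) (C := (2 ^< κ).ord.ToType) (K := κ.ord.ToType)
    (fun k => {x | #(Iio x) < 2 ^ #(Iio k)})
    (fun a b hab x hx => lt_of_lt_of_le hx (power_le_power_left two_ne_zero
      (mk_le_mk_of_subset (Iio_subset_Iio hab)))) ?_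
    (fun f => exists_bound hκ (by rwa [mk_out]) f)
  · have h2 : #(b.out → (2 ^< κ).ord.ToType) = (2 ^< κ) ^ b := by
      rw [← power_def, mk_out, mk_ord_toType]
    rw [h2] at h1
    refine h1.trans ?_
    refine (sum_le_sum _ (fun _ => 2 ^< κ) ?_).trans ?_
    · intro k
      rw [← power_def, mk_out]
      refine (power_le_power_right mk_initial_le).trans ?_
      rw [← power_mul]
      exact le_powerlt 2 (mul_lt_of_lt hκ.aleph0_le (mk_Iio_lt' k) hb)
    · rw [sum_const', mk_ord_toType]
      exact (mul_le_mul_left le_two_powerlt _).trans (mul_eq_self hinf).le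
  · intro x
    by_contra hcon
    push Not at hcon
    have h2 : 2 ^< κ ≤ #(Iio x) := by
      rw [powerlt_le]
      intro ν hν
      obtain ⟨k, rfl⟩ := exists_Iio_eq hν
      exact not_lt.1 (hcon k)
    exact absurd (mk_Iio_lt' x) (not_lt.2 h2)

/-- the cardinals that become `ℵ_n` -/
noncomputable def kap : ℕ → Cardinal.{0}
  | 0 => ℵ₀
  | n + 1 => Order.succ (2 ^< kap n)

/-- their supremum -/
noncomputable def kapω : Cardinal.{0} := ⨆ n, kap n

/-- the cardinals that become `2 ^ ℵ_n` -/
noncomputable def lam : ℕ → Cardinal.{0}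
  | 0 => Order.succ (2 ^ kapω)
  | n + 1 => Order.succ (2 ^ lam n)

/-- their supremum -/
noncomputable def lamω : Cardinal.{0} := ⨆ n, lam n

/-- the cardinals that become `2 ^ 2 ^ ℵ_n` -/
noncomputable def mu : ℕ → Cardinal.{0}
  | 0 => Order.succ (2 ^ (2 : Cardinal.{0}) ^ lamω)
  | n + 1 => Order.succ (mu n)

/-- their supremum -/
noncomputable def muω : Cardinal.{0} := ⨆ n, mu n

theorem aleph0_le_kap (n : ℕ) : ℵ₀ ≤ kap n := by
  induction n with
  | zero => exact le_rfl
  | succ n ih => exact (ih.trans le_two_powerlt).trans (Order.le_succ _)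

theorem kap_reg (n : ℕ) : (kap n).IsRegular := by
  cases n with
  | zero => exact isRegular_aleph0
  | succ n => exact isRegular_succ ((aleph0_le_kap n).trans le_two_powerlt)

theorem kap_lt_succ (n : ℕ) : kap n < kap (n + 1) :=
  le_two_powerlt.trans_lt (Order.lt_succ _)

theorem kap_strictMono : StrictMono kap := strictMono_nat_of_lt_succ kap_lt_succ

theorem kap_le_kapω (n : ℕ) : kap n ≤ kapω := le_ciSup Cardinal.bddAbove_of_small n

theorem aleph0_le_kapω : ℵ₀ ≤ kapω := kap_le_kapω 0

theorem kapω_lt_lam (n : ℕ) : kapω < lam n := by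
  induction n with
  | zero => exact (cantor _).trans (Order.lt_succ _)
  | succ n ih => exact ih.trans ((cantor _).trans (Order.lt_succ _))

theorem kap_lt_lam (m n : ℕ) : kap m < lam n := (kap_le_kapω m).trans_lt (kapω_lt_lam n)

theorem aleph0_le_lam (n : ℕ) : ℵ₀ ≤ lam n := aleph0_le_kapω.trans (kapω_lt_lam n).le

theorem lam_reg (n : ℕ) : (lam n).IsRegular := by
  cases n with
  | zero => exact isRegular_succ (aleph0_le_kapω.trans (cantor _).le)
  | succ n => exact isRegular_succ ((aleph0_le_lam n).trans (cantor _).le)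

theorem lam_lt_succ (n : ℕ) : lam n < lam (n + 1) := (cantor _).trans (Order.lt_succ _)

theorem lam_strictMono : StrictMono lam := strictMono_nat_of_lt_succ lam_lt_succ

theorem lam_le_lamω (n : ℕ) : lam n ≤ lamω := le_ciSup Cardinal.bddAbove_of_small n

theorem aleph0_le_lamω : ℵ₀ ≤ lamω := (aleph0_le_lam 0).trans (lam_le_lamω 0)

theorem twolam_lt_mu (n : ℕ) : 2 ^ lamω < mu n := by
  induction n with
  | zero => exact (cantor _).trans (Order.lt_succ _)
  | succ n ih => exact ih.trans (Order.lt_succ _)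

theorem lamω_lt_mu (n : ℕ) : lamω < mu n := (cantor _).trans (twolam_lt_mu n)

theorem lam_lt_mu (m n : ℕ) : lam m < mu n := (lam_le_lamω m).trans_lt (lamω_lt_mu n)

theorem aleph0_le_mu (n : ℕ) : ℵ₀ ≤ mu n := aleph0_le_lamω.trans (lamω_lt_mu n).le

theorem mu_reg (n : ℕ) : (mu n).IsRegular := by
  cases n with
  | zero => exact isRegular_succ (aleph0_le_lamω.trans ((cantor _).trans (cantor _)).le)
  | succ n => exact isRegular_succ (aleph0_le_mu n)

theorem mu_strictMono : StrictMono mu := strictMono_nat_of_lt_succ fun _ => Order.lt_succ _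

theorem mu_le_muω (n : ℕ) : mu n ≤ muω := le_ciSup Cardinal.bddAbove_of_small n

theorem lam_pow (n : ℕ) : lam n ^ kapω ≤ lam n := by
  refine regular_pow_le (lam_reg n) (kapω_lt_lam n) ?_
  have key : ∀ x : Cardinal.{0}, kapω ≤ x → ∀ a < Order.succ ((2 : Cardinal.{0}) ^ x),
      a ^ kapω ≤ Order.succ ((2 : Cardinal.{0}) ^ x) := by
    intro x hx a ha
    refine (power_le_power_right (Order.lt_succ_iff.1 ha)).trans ?_
    rw [← power_mul, mul_eq_left (aleph0_le_kapω.trans hx) hx (aleph0_pos.trans_le aleph0_le_kapω).ne']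
    exact (Order.lt_succ _).le
  cases n with
  | zero => exact key _ le_rfl
  | succ n => exact key _ (kapω_lt_lam n).le

theorem aleph0_le_twolam : ℵ₀ ≤ (2 : Cardinal.{0}) ^ lamω := aleph0_le_lamω.trans (cantor _).le

theorem mu_pow2 (n : ℕ) : mu n ^ ((2 : Cardinal.{0}) ^ lamω) ≤ mu n := by
  induction n with
  | zero =>
    refine regular_pow_le (mu_reg 0) (twolam_lt_mu 0) ?_
    intro a ha
    refine (power_le_power_right (Order.lt_succ_iff.1 ha)).trans ?_
    rw [← power_mul, mul_eq_self aleph0_le_twolam]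
    exact (Order.lt_succ _).le
  | succ n ih =>
    refine regular_pow_le (mu_reg (n + 1)) (twolam_lt_mu (n + 1)) ?_
    intro a ha
    exact ((power_le_power_right (Order.lt_succ_iff.1 ha)).trans ih).trans (Order.le_succ _)

theorem mu_pow (n : ℕ) : mu n ^ lamω ≤ mu n :=
  (power_le_power_left (aleph0_pos.trans_le (aleph0_le_mu n)).ne' (cantor _).le).trans (mu_pow2 n)

theorem cls_kap (n : ℕ) : Cls (kap n) (kap (n + 1)) where
  rτ := kap_reg n
  rθ := kap_reg (n + 1)
  lt := kap_lt_succ n
  pow := by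
    intro a ha b hb
    refine Order.lt_succ_iff.2 ?_
    exact (power_le_power_right (Order.lt_succ_iff.1 ha)).trans (powerlt_pow_le (kap_reg n) hb)

theorem cls_mid : Cls (Order.succ kapω) (lam 0) where
  rτ := isRegular_succ aleph0_le_kapω
  rθ := lam_reg 0
  lt := (Order.succ_le_of_lt (cantor _)).trans_lt (Order.lt_succ _)
  pow := by
    intro a ha b hb
    refine Order.lt_succ_iff.2 ?_
    refine (power_le_power_right (Order.lt_succ_iff.1 ha)).trans ?_
    rw [← power_mul]
    refine power_le_power_left two_ne_zero ?_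
    exact (mul_le_mul_right (Order.lt_succ_iff.1 hb) _).trans (mul_eq_self aleph0_le_kapω).le

theorem cls_lam (n : ℕ) : Cls (lam n) (lam (n + 1)) where
  rτ := lam_reg n
  rθ := lam_reg (n + 1)
  lt := lam_lt_succ n
  pow := by
    intro a ha b hb
    refine Order.lt_succ_iff.2 ?_
    refine (power_le_power_right (Order.lt_succ_iff.1 ha)).trans ?_
    rw [← power_mul]
    refine power_le_power_left two_ne_zero ?_
    exact (mul_le_mul_right hb.le _).trans (mul_eq_self (aleph0_le_lam n)).le

theorem cls_mu (n : ℕ) : Cls (Order.succ lamω) (mu n) where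
  rτ := isRegular_succ aleph0_le_lamω
  rθ := mu_reg n
  lt := (Order.succ_le_of_lt (cantor _)).trans_lt (twolam_lt_mu n)
  pow := by
    intro a ha b hb
    cases n with
    | zero =>
      refine Order.lt_succ_iff.2 ?_
      refine (power_le_power_right (Order.lt_succ_iff.1 ha)).trans ?_
      rw [← power_mul]
      refine power_le_power_left two_ne_zero ?_
      exact (mul_le_mul_right ((Order.lt_succ_iff.1 hb).trans (cantor _).le) _).trans
        (mul_eq_self aleph0_le_twolam).le
    | succ n =>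
      refine Order.lt_succ_iff.2 ?_
      refine (power_le_power_right (Order.lt_succ_iff.1 ha)).trans ?_
      refine (power_le_power_left ?_ (Order.lt_succ_iff.1 hb)).trans (mu_pow n)
      exact (aleph0_pos.trans_le (aleph0_le_mu n)).ne'

theorem cls_two : Cls (Order.succ lamω) (Order.succ ((2 : Cardinal.{0}) ^ lamω)) where
  rτ := isRegular_succ aleph0_le_lamω
  rθ := isRegular_succ aleph0_le_twolam
  lt := (Order.succ_le_of_lt (cantor _)).trans_lt (Order.lt_succ _)
  pow := by
    intro a ha b hb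
    refine Order.lt_succ_iff.2 ?_
    refine (power_le_power_right (Order.lt_succ_iff.1 ha)).trans ?_
    rw [← power_mul]
    refine power_le_power_left two_ne_zero ?_
    exact (mul_le_mul_right (Order.lt_succ_iff.1 hb) _).trans (mul_eq_self aleph0_le_lamω).le

end Pool.Agent.Helper96.Fc
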