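import Pool.Agent.Helper96.Fc.Nice

/-!
# Sequences of points: the set `∏ μ_n`, and the colouring of its quadruples

In the extension the elements of `∏ μ_n` (of the ground model) represent the subsets of `λ_ω`.
-/

open Cardinal Ordinal Set

namespace Pool.Agent.Helper96.Fc

/-- elements of the product of the `μ_n` -/
structure Sq where
  /-- the values -/
  v : ℕ → Pt
  /-- the bounds -/
  lt : ∀ n, od (v n) < (mu n).ord

theorem Sq.ext' {c d : Sq} (h : ∀ n, c.v n = d.v n) : c = d := by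
  cases c
  cases d
  congr
  exact funext h

open Classical in
noncomputable instance : LinearOrder Sq :=
  linearOrderOfSTO (WellOrderingRel : Sq → Sq → Prop)

instance : WellFoundedLT Sq :=
  ⟨(inferInstance : IsWellOrder Sq WellOrderingRel).wf⟩

/-- `c` and `d` have the same values below `n` -/
def Eqb (n : ℕ) (c d : Sq) : Prop := ∀ k < n, c.v k = d.v k

/-- `n` is the first difference of `c` and `d` -/
def Dfn (n : ℕ) (c d : Sq) : Prop := Eqb n c d ∧ c.v n ≠ d.v n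

/-- `q` decides that the branches of `c` and `d` split at `(n, t)` -/
def Sp (q : Pos) (n : ℕ) (c d : Sq) (t : Pt) : Prop :=
  Eqb n c d ∧ Fd q (.inr n) (c.v n) (d.v n) t

/-- `q` decides that the branches of `c` and `d` agree up to `(n, t)` -/
def Clo (q : Pos) (n : ℕ) (c d : Sq) (t : Pt) : Prop :=
  Eqb n c d ∧ ∀ u ≤ t, ∃ β, Bit q (.inr n) (c.v n) u β ∧ Bit q (.inr n) (d.v n) u β

/-- triples of type A of nodes of the level `n` -/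
def TAn (q : Pos) (n : ℕ) (t₀ t₁ t₂ : Pt) : Prop :=
  t₀ < t₁ ∧ t₁ < t₂ ∧ ∃ δ b, Spl q (.inl n) t₀ t₁ δ b ∧ Spl q (.inl n) t₂ t₁ δ b

/-- pairs of type B of nodes of the level `n`, for a third node of the level `m` -/
def TBn (q : Pos) (n m : ℕ) (t₀ t₁ : Pt) : Prop :=
  n < m ∧ t₀ < t₁ ∧ ∃ δ b ν, Spl q (.inl n) t₀ t₁ δ b ∧ od ν = m ∧ Bit q (.inl 0) δ ν b

/-- caterpillars, one level -/
def CatA (q : Pos) (a b c d : Sq) : Prop :=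
  a < b ∧ b < c ∧ b < d ∧ ∃ n t₀ t₁ t₂, Sp q n a b t₀ ∧ Sp q n a c t₀ ∧ Sp q n a d t₀ ∧
    Sp q n b c t₁ ∧ Sp q n b d t₁ ∧ Sp q n c d t₂ ∧ TAn q n t₀ t₁ t₂

/-- caterpillars, two levels -/
def CatB (q : Pos) (a b c d : Sq) : Prop :=
  a < b ∧ b < c ∧ b < d ∧ ∃ n m t₀ t₁, Sp q n a b t₀ ∧ Sp q n a c t₀ ∧ Sp q n a d t₀ ∧
    Sp q n b c t₁ ∧ Sp q n b d t₁ ∧ Dfn m c d ∧ TBn q n m t₀ t₁

/-- balanced quadruples, crossing pairs -/
def BalC (q : Pos) (a b c d : Sq) : Prop :=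
  a < c ∧ c < b ∧ b < d ∧ ∃ n t, Sp q n a c t ∧ Clo q n a b t ∧ Clo q n c d t

/-- balanced quadruples, the pair of the lower level precedes the pair of the higher level -/
def BalN (q : Pos) (a b c d : Sq) : Prop :=
  a < c ∧ a < d ∧ b < c ∧ b < d ∧ ∃ n t m m', Sp q n a c t ∧ Clo q n a b t ∧ Clo q n c d t ∧
    Dfn m a b ∧ Dfn m' c d ∧ m < m'

/-- the quadruples of colour 1 -/
def Col4s (q : Pos) (a b c d : Sq) : Prop :=
  CatA q a b c d ∨ CatB q a b c d ∨ BalC q a b c d ∨ BalN q a b c d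

theorem Sp.mono {q r : Pos} {n : ℕ} {c d : Sq} {t : Pt} (h : Sp q n c d t) (hr : r ≤ q) :
    Sp r n c d t := by
  obtain ⟨h1, b, hb⟩ := h
  exact ⟨h1, b, hb.mono hr⟩

theorem Clo.mono {q r : Pos} {n : ℕ} {c d : Sq} {t : Pt} (h : Clo q n c d t) (hr : r ≤ q) :
    Clo r n c d t := by
  refine ⟨h.1, fun u hu => ?_⟩
  obtain ⟨β, h1, h2⟩ := h.2 u hu
  exact ⟨β, h1.mono hr, h2.mono hr⟩

theorem TAn.mono {q r : Pos} {n : ℕ} {t₀ t₁ t₂ : Pt} (h : TAn q n t₀ t₁ t₂) (hr : r ≤ q) :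
    TAn r n t₀ t₁ t₂ := by
  obtain ⟨h1, h2, δ, b, h3, h4⟩ := h
  exact ⟨h1, h2, δ, b, h3.mono hr, h4.mono hr⟩

theorem TBn.mono {q r : Pos} {n m : ℕ} {t₀ t₁ : Pt} (h : TBn q n m t₀ t₁) (hr : r ≤ q) :
    TBn r n m t₀ t₁ := by
  obtain ⟨h1, h2, δ, b, ν, h3, h4, h5⟩ := h
  exact ⟨h1, h2, δ, b, ν, h3.mono hr, h4, h5.mono hr⟩

theorem Col4s.mono {q r : Pos} {a b c d : Sq} (h : Col4s q a b c d) (hr : r ≤ q) :
    Col4s r a b c d := by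
  rcases h with ⟨o1, o2, o3, n, t₀, t₁, t₂, h1, h2, h3, h4, h5, h6, h7⟩ |
    ⟨o1, o2, o3, n, m, t₀, t₁, h1, h2, h3, h4, h5, h6, h7⟩ | ⟨o1, o2, o3, n, t, h1, h2, h3⟩ |
    ⟨o1, o2, o3, o4, n, t, m, m', h1, h2, h3, h4, h5, h6⟩
  · exact Or.inl ⟨o1, o2, o3, n, t₀, t₁, t₂, h1.mono hr, h2.mono hr, h3.mono hr, h4.mono hr,
      h5.mono hr, h6.mono hr, h7.mono hr⟩
  · exact Or.inr (Or.inl ⟨o1, o2, o3, n, m, t₀, t₁, h1.mono hr, h2.mono hr, h3.mono hr,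
      h4.mono hr, h5.mono hr, h6, h7.mono hr⟩)
  · exact Or.inr (Or.inr (Or.inl ⟨o1, o2, o3, n, t, h1.mono hr, h2.mono hr, h3.mono hr⟩))
  · exact Or.inr (Or.inr (Or.inr ⟨o1, o2, o3, o4, n, t, m, m', h1.mono hr, h2.mono hr,
      h3.mono hr, h4, h5, h6⟩))

theorem Fd.ne {q : Pos} {i : Lv} {x y t : Pt} (h : Fd q i x y t) : x ≠ y := by
  rintro rfl
  obtain ⟨b, h1⟩ := h
  have := h1.2.1.unique h1.2.2
  cases b <;> simp at this

/-- the four points of a quadruple of colour 1 are distinct -/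
theorem Col4s.ne {q : Pos} {a b c d : Sq} (h : Col4s q a b c d) :
    a ≠ b ∧ a ≠ c ∧ a ≠ d ∧ b ≠ c ∧ b ≠ d ∧ c ≠ d := by
  have ne1 : ∀ {n c d t}, Sp q n c d t → c ≠ d := by
    rintro n c d t h rfl
    exact h.2.ne rfl
  have ne2 : ∀ {n c d}, Dfn n c d → c ≠ d := by
    rintro n c d h rfl
    exact h.2 rfl
  rcases h with ⟨o1, o2, o3, n, t₀, t₁, t₂, h1, h2, h3, h4, h5, h6, h7⟩ |
    ⟨o1, o2, o3, n, m, t₀, t₁, h1, h2, h3, h4, h5, h6, h7⟩ | ⟨o1, o2, o3, n, t, h1, h2, h3⟩ |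
    ⟨o1, o2, o3, o4, n, t, m, m', h1, h2, h3, h4, h5, h6⟩
  · exact ⟨o1.ne, (o1.trans o2).ne, (o1.trans o3).ne, o2.ne, o3.ne, ne1 h6⟩
  · exact ⟨o1.ne, (o1.trans o2).ne, (o1.trans o3).ne, o2.ne, o3.ne, ne2 h6⟩
  · exact ⟨(o1.trans o2).ne, o1.ne, ((o1.trans o2).trans o3).ne, o2.ne', o3.ne, (o2.trans o3).ne⟩
  · exact ⟨ne2 h4, o1.ne, o2.ne, o3.ne, o4.ne, ne2 h5⟩

end Pool.Agent.Helper96.Fc
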