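import Pool.Agent.Helper96.Fc.Sq

/-!
# Blocks of codes
-/

open Cardinal Ordinal Set

namespace Pool.Agent.Helper96.Fc

/-- A block: a comb of codes with conditions. -/
structure Blk (Φ : Pos → Sq → Pt → Prop) (M : ℕ) (q₂ q₃ : Pos) (n N : ℕ) (s : ℕ → Pt)
    (D : Set Pt) (y : Pt → Sq) (r : Pt → Pos) : Prop where
  le : q₃ ≤ q₂
  lev : M < n
  rle : ∀ d ∈ D, r d ≤ q₂
  inn : ∀ d ∈ D, ∃ ξ, Φ (r d) (y d) ξ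
  node : ∀ d ∈ D, ∀ k < n, (y d).v k = s k
  fd : ∀ d ∈ D, ∀ d' ∈ D, d < d' → Fd q₂ (.inr n) ((y d).v n) ((y d').v n) d
  mono : ∀ d ∈ D, ∀ d' ∈ D, d < d' → y d < y d'
  high : ∀ d ∈ D, hi (cutK M).J (r d).1 ⊆ q₃.1
  cpt : ∀ d ∈ D, ∀ d' ∈ D, Cpt (r d).1 (r d').1
  small : ∀ q ≤ q₃, #{d : Pt | d ∈ D ∧ ¬ Cpt q.1 (r d).1} < kap M
  row : ∀ d ∈ D, ∀ x ε b, Bit (r d) (.inl 0) x ε b → od ε < N
  bdd : ∀ T ⊆ D, #T < kap M → ∃ e ∈ D, ∀ t ∈ T, t < e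
  card : #D ≤ kap M

end Pool.Agent.Helper96.Fc
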