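import Pool.Agent.Helper96.Fc.Nice

/-!
# The combinatorial core of the first theorem
-/

open Cardinal Ordinal Set

namespace Pool.Agent.Helper96.Fc

/-- the point of an index below `κ_n` -/
noncomputable def ptK (n : ℕ) (η : (kap n).ord.ToType) : Pt :=
  ToType.mk ⟨(ToType.toOrd η).1, show (ToType.toOrd η).1 < muω.ord from
    lt_trans (show (ToType.toOrd η).1 < (kap n).ord from (ToType.toOrd η).2)
      (ord_lt_ord.2 ((kap_lt_lam n 0).trans ((lam_lt_mu 0 0).trans_le (mu_le_muω 0))))⟩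

theorem od_ptK (n : ℕ) (η : (kap n).ord.ToType) : od (ptK n η) = (ToType.toOrd η).1 := od_mk _

theorem od_ptK_lt (n : ℕ) (η : (kap n).ord.ToType) : od (ptK n η) < (kap n).ord := by
  rw [od_ptK]
  exact (ToType.toOrd η).2

theorem ptK_inj (n : ℕ) : Function.Injective (ptK n) := by
  intro a b h
  have h1 := congrArg od h
  rw [od_ptK, od_ptK] at h1
  exact ToType.mk.symm.injective (Subtype.ext h1)

/-- pairwise compatible low parts -/
theorem pw (c : Cut) (r : c.θ.ord.ToType → Pos) {C : Type} (hC : #C < c.θ)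
    (f : c.θ.ord.ToType → C) :
    ∃ e : c.θ.ord.ToType → c.θ.ord.ToType, StrictMono e ∧ (∃ v, ∀ k, f (e k) = v) ∧
      ∀ j k, Cpt (lo c.J (r (e j)).1) (lo c.J (r (e k)).1) := by
  obtain ⟨R, v, e, -, he, hf, hR⟩ := c.cls.thin (fun ξ => lo c.J (r ξ).1)
    (fun ξ => c.low _ (r ξ).2) f hC (fun ξ => {t : Cell × Bool | (t.1, !t.2) ∈ lo c.J (r ξ).1})
    (fun ξ => (mk_flip.trans_lt (c.low _ (r ξ).2)).trans c.cls.lt)
  have key : ∀ a b, a < b → Cpt (lo c.J (r (e a)).1) (lo c.J (r (e b)).1) := by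
    intro a b hab cc x y hx hy
    by_contra hxy
    have hba : x = !y := by
      revert hxy
      cases x <;> cases y <;> simp
    rw [hba] at hx
    have h3 := (hf a).2 (hR a b hab ⟨hy, hx⟩)
    have := (r (e a)).2.func _ _ _ h3.1 hx.1
    cases y <;> simp at this
  refine ⟨e, he, ⟨v, fun k => (hf k).1⟩, ?_⟩
  intro j k
  rcases lt_trichotomy j k with h | rfl | h
  · exact key j k h
  · exact fun cc x y hx hy => (r (e j)).2.func _ _ _ hx.1 hy.1
  · exact (key k j h).symm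

/-- all high parts agree -/
def Chn (J : Set Lv) {ι : Type} (r : ι → Pos) : Prop :=
  ∀ j k, Cpt (hi J (r j).1) (hi J (r k).1)

theorem cpt_of_parts {J : Set Lv} {p q : Set (Cell × Bool)} (h1 : Cpt (lo J p) (lo J q))
    (h2 : Cpt (hi J p) (hi J q)) : Cpt p q := by
  intro c b b' hb hb'
  by_cases h : c.1 ∈ J
  · exact h1 c b b' ⟨hb, h⟩ ⟨hb', h⟩
  · exact h2 c b b' ⟨hb, h⟩ ⟨hb', h⟩

theorem Desc.chn {c : Cut} {p : Pos} {D : Type*} {Ψ : c.θ.ord.ToType → Pos → Pos → D → Prop}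
    {b r : c.θ.ord.ToType → Pos} {d : c.θ.ord.ToType → D} (h : Desc c p Ψ b r d) :
    Chn c.J r := by
  have key : ∀ j k, j ≤ k → Cpt (hi c.J (r j).1) (hi c.J (r k).1) := by
    intro j k hjk cc x y hx hy
    exact (r k).2.func cc x y (h.rhi' hjk hx) hy.1
  intro j k
  rcases le_total j k with h | h
  · exact key j k h
  · exact (key k j h).symm

/-- **Amalgamation with the same information on the marked columns.** -/
theorem shape_amalg (M m : ℕ) (hm : m ≤ M) (r : (cutK M).θ.ord.ToType → Pos)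
    (hr : Chn (cutK M).J r) (x : (cutK M).θ.ord.ToType → Pt) (hx : Function.Injective x) :
    ∃ e : (cutK M).θ.ord.ToType → (cutK M).θ.ord.ToType, StrictMono e ∧
      (∀ j k, Cpt (r (e j)).1 (r (e k)).1) ∧
      (∀ j k, j ≠ k → ¬ Tch (r (e j)) (.inl m) (x (e k))) ∧
      ∀ j k ε b, Bit (r (e j)) (.inl m) (x (e j)) ε b → Bit (r (e k)) (.inl m) (x (e k)) ε b := by
  let S : Set (Pt × Bool) := {t | od t.1 < (kap m).ord}
  have hkm : kap m ≤ muω := (kap_lt_lam m 0).le.trans ((lam_lt_mu 0 0).le.trans (mu_le_muω 0))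
  have hS : #S < kap (M + 1) := by
    have h1 : #S ≤ #({x : Pt // od x < (kap m).ord} × Bool) := by
      refine mk_le_of_injective (f := fun t : S => (⟨t.1.1, t.2⟩, t.1.2)) ?_
      rintro ⟨⟨a, b⟩, h1⟩ ⟨⟨c, d⟩, h2⟩ h
      simpa using h
    refine h1.trans_lt ?_
    have h2 : #({x : Pt // od x < (kap m).ord} × Bool) = kap m * 2 := by
      rw [mk_prod, Cardinal.lift_id, Cardinal.lift_id, mk_od_lt hkm]
      simp
    rw [h2]
    refine mul_lt_of_lt (aleph0_le_kap _) ?_ ?_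
    · exact kap_strictMono (Nat.lt_succ_of_le hm)
    · exact (natCast_lt_aleph0 (n := 2)).trans_le (aleph0_le_kap _)
  have hC := (cls_kap M).small_subsets hS
  have hsh : ∀ ξ, {t : Pt × Bool | Bit (r ξ) (.inl m) (x ξ) t.1 t.2} ⊆ S ∧
      #{t : Pt × Bool | Bit (r ξ) (.inl m) (x ξ) t.1 t.2} < kap M := by
    intro ξ
    refine ⟨fun t ht => ht.lt, ?_⟩
    refine lt_of_le_of_lt ?_ (((r ξ).2.size (.inl m)).trans_le (kap_strictMono.monotone hm))
    refine mk_le_of_injective (f := fun t : {t : Pt × Bool | Bit (r ξ) (.inl m) (x ξ) t.1 t.2} =>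
      (⟨(((.inl m : Lv), x ξ, t.1.1), t.1.2), t.2, rfl⟩ :
        {t : Cell × Bool | t ∈ (r ξ).1 ∧ t.1.1 = .inl m})) ?_
    rintro ⟨⟨a, b⟩, h1⟩ ⟨⟨c, d⟩, h2⟩ h
    simpa using h
  obtain ⟨e, he, ⟨v, hv⟩, ha⟩ := amalg (cutK M) r x hx hC (fun ξ => ⟨_, hsh ξ⟩)
  refine ⟨e, he, ?_, ?_, ?_⟩
  · intro j k
    rcases eq_or_ne j k with rfl | hjk
    · exact fun cc x y hx hy => (r (e j)).2.func _ _ _ hx hy
    · exact cpt_of_parts (ha j k hjk).1 (hr _ _)
  · intro j k hjk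
    exact (ha j k hjk).2 (.inl m) ⟨m, hm, rfl⟩
  · intro j k ε b hb
    have h1 := (hv j).trans (hv k).symm
    have h2 : {t : Pt × Bool | Bit (r (e j)) (.inl m) (x (e j)) t.1 t.2} =
        {t : Pt × Bool | Bit (r (e k)) (.inl m) (x (e k)) t.1 t.2} := congrArg Subtype.val h1
    have h3 : (ε, b) ∈ {t : Pt × Bool | Bit (r (e j)) (.inl m) (x (e j)) t.1 t.2} := hb
    rw [h2] at h3
    exact h3

theorem sort3 {α ι : Type*} [LinearOrder α] (x : ι → α) (a b c : ι) (h1 : x a ≠ x b)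
    (h2 : x a ≠ x c) (h3 : x b ≠ x c) : ∃ j k l, x j < x k ∧ x k < x l ∧
      (j = a ∨ j = b ∨ j = c) ∧ (k = a ∨ k = b ∨ k = c) ∧ (l = a ∨ l = b ∨ l = c) := by
  rcases lt_or_gt_of_ne h1 with h4 | h4 <;> rcases lt_or_gt_of_ne h2 with h5 | h5 <;>
    rcases lt_or_gt_of_ne h3 with h6 | h6
  · exact ⟨a, b, c, h4, h6, by simp, by simp, by simp⟩
  · exact ⟨a, c, b, h5, h6, by simp, by simp, by simp⟩
  · exact absurd (h4.trans h6) (not_lt.2 h5.le)
  · exact ⟨c, a, b, h5, h4, by simp, by simp, by simp⟩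
  · exact ⟨b, a, c, h4, h5, by simp, by simp, by simp⟩
  · exact absurd (h5.trans h6) (not_lt.2 h4.le)
  · exact ⟨b, c, a, h6, h5, by simp, by simp, by simp⟩
  · exact ⟨c, b, a, h6, h4, by simp, by simp, by simp⟩

/-- **Three points make a triple of type A.** -/
theorem three (M m : ℕ) (hm : m ≤ M) (r : (cutK M).θ.ord.ToType → Pos)
    (hr : Chn (cutK M).J r) (x : (cutK M).θ.ord.ToType → Pt) (hx : Function.Injective x)
    (hlev : ∀ ξ, At m (x ξ)) :
    ∃ q j k l, q ≤ r j ∧ q ≤ r k ∧ q ≤ r l ∧ TA q (x j) (x k) (x l) := by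
  classical
  obtain ⟨e, he, h1, h2, h3⟩ := shape_amalg M m hm r hr x hx
  have hne : Nonempty (cutK M).θ.ord.ToType := by
    rw [nonempty_toType_iff]
    exact ((cutK M).cls.rθ.ord_pos).ne'
  obtain ⟨a⟩ := hne
  obtain ⟨b, hab⟩ := exists_gt' (cutK M).cls.rθ a
  obtain ⟨c, hbc⟩ := exists_gt' (cutK M).cls.rθ b
  have hxe : Function.Injective (x ∘ e) := hx.comp he.injective
  obtain ⟨j, k, l, hjk, hkl, -, -, -⟩ := sort3 (x ∘ e) a b c (hxe.ne hab.ne)
    (hxe.ne (hab.trans hbc).ne) (hxe.ne hbc.ne)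
  have njk : j ≠ k := fun h => by rw [h] at hjk; exact lt_irrefl _ hjk
  have nkl : k ≠ l := fun h => by rw [h] at hkl; exact lt_irrefl _ hkl
  have njl : j ≠ l := fun h => by rw [h] at hjk; exact lt_asymm hjk hkl
  have hc1 : IsCond ((r (e j)).1 ∪ (r (e k)).1) := (r (e j)).2.union (r (e k)).2 (h1 j k)
  have hc2 : IsCond (((r (e j)).1 ∪ (r (e k)).1) ∪ (r (e l)).1) := by
    refine hc1.union (r (e l)).2 ?_
    rintro cc y z (hy | hy) hz
    · exact h1 j l cc y z hy hz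
    · exact h1 k l cc y z hy hz
  let q₀ : Pos := ⟨((r (e j)).1 ∪ (r (e k)).1) ∪ (r (e l)).1, hc2⟩
  have q0j : q₀ ≤ r (e j) := fun t ht => Or.inl (Or.inl ht)
  have q0k : q₀ ≤ r (e k) := fun t ht => Or.inl (Or.inr ht)
  have q0l : q₀ ≤ r (e l) := fun t ht => Or.inr ht
  have hbit : ∀ s ∈ ({j, k, l} : Set (cutK M).θ.ord.ToType), ∀ ε b,
      Bit q₀ (.inl m) (x (e s)) ε b → Bit (r (e s)) (.inl m) (x (e s)) ε b := by
    intro s hs ε b hb
    have key : ∀ t ∈ ({j, k, l} : Set (cutK M).θ.ord.ToType),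
        Bit (r (e t)) (.inl m) (x (e s)) ε b → Bit (r (e s)) (.inl m) (x (e s)) ε b := by
      intro t _ ht
      by_cases hts : t = s
      · rw [hts] at ht; exact ht
      · exact (h2 t s hts ⟨ε, b, ht⟩).elim
    rcases hb with (hb | hb) | hb
    · exact key j (by simp) hb
    · exact key k (by simp) hb
    · exact key l (by simp) hb
  have hle : ∀ s ∈ ({j, k, l} : Set (cutK M).θ.ord.ToType), q₀ ≤ r (e s) := by
    rintro s (rfl | rfl | rfl)
    · exact q0j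
    · exact q0k
    · exact q0l
  obtain ⟨q, hq, δ, -, -, hA, hB, -⟩ := ext_same q₀ (.inl m) {x (e j), x (e k), x (e l)}
    (by simp) (by
      rintro _ (rfl | rfl | rfl)
      · exact (hlev _).1
      · exact (hlev _).1
      · exact (hlev _).1) (by
      have key : ∀ s ∈ ({j, k, l} : Set (cutK M).θ.ord.ToType),
          ∀ t ∈ ({j, k, l} : Set (cutK M).θ.ord.ToType), ∀ ε b,
          Bit q₀ (.inl m) (x (e s)) ε b → Bit q₀ (.inl m) (x (e t)) ε b := by
        intro s hs t ht ε b hb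
        exact (h3 s t ε b (hbit s hs ε b hb)).mono (hle t ht)
      have conv : ∀ y ∈ ({x (e j), x (e k), x (e l)} : Set Pt),
          ∃ s ∈ ({j, k, l} : Set (cutK M).θ.ord.ToType), y = x (e s) := by
        rintro _ (rfl | rfl | rfl)
        · exact ⟨j, by simp, rfl⟩
        · exact ⟨k, by simp, rfl⟩
        · exact ⟨l, by simp, rfl⟩
      intro y hy z hz ε b hb
      obtain ⟨s, hs, rfl⟩ := conv y hy
      obtain ⟨t, ht, rfl⟩ := conv z hz
      exact key s hs t ht ε b hb) ∅ (by rw [mk_eq_zero]; exact rho_pos _)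
    (fun y => decide (y = x (e k)))
  refine ⟨q, e j, e k, e l, hq.trans q0j, hq.trans q0k, hq.trans q0l, hjk, hkl, m,
    hlev _, hlev _, hlev _, δ, false, ⟨hA _ (by simp) _ (by simp), ?_, ?_⟩,
    ⟨hA _ (by simp) _ (by simp), ?_, ?_⟩⟩
  · have := hB (x (e j)) (by simp)
    rwa [decide_eq_false (show ¬ x (e j) = x (e k) from hxe.ne njk)] at this
  · have := hB (x (e k)) (by simp)
    rwa [decide_eq_true rfl] at this
  · have := hB (x (e l)) (by simp)
    rwa [decide_eq_false (show ¬ x (e l) = x (e k) from hxe.ne nkl.symm)] at this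
  · have := hB (x (e k)) (by simp)
    rwa [decide_eq_true rfl] at this

/-- deciding one cell -/
theorem ext_one (q : Pos) (i : Lv) (x ε : Pt) (b : Bool) (hx : od x < (sig i).ord)
    (hε : od ε < (rho i).ord) (hno : ∀ b', ¬ Bit q i x ε b') : ∃ q' ≤ q, Bit q' i x ε b := by
  have h1 : IsCond {((i, x, ε), b)} := by
    constructor
    · rintro c b1 b2 h1 h2
      rw [mem_singleton_iff] at h1 h2
      rw [← (Prod.mk.inj h1).2] at h2
      exact (Prod.mk.inj h2).2.symm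
    · rintro c b1 h1
      rw [mem_singleton_iff] at h1
      obtain ⟨rfl, rfl⟩ := Prod.mk.inj h1
      exact ⟨hx, hε⟩
    · intro j
      refine lt_of_le_of_lt (mk_le_mk_of_subset (t := {((i, x, ε), b)}) (fun t ht => ht.1)) ?_
      rw [mk_singleton]
      exact one_lt_aleph0.trans_le (rho_reg j).aleph0_le
  refine ⟨⟨q.1 ∪ {((i, x, ε), b)}, q.2.union h1 ?_⟩, subset_union_left, Or.inr rfl⟩
  intro c b1 b2 hb1 hb2
  rw [mem_singleton_iff] at hb2
  obtain ⟨rfl, rfl⟩ := Prod.mk.inj hb2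
  exact (hno b1 hb1).elim

/-- deciding few cells of a column -/
theorem ext_dec (q : Pos) (i : Lv) (x : Pt) (hx : od x < (sig i).ord) (S : Set Pt)
    (hS : #S < rho i) :
    ∃ q' ≤ q, ∀ s ∈ S, od s < (rho i).ord → ∃ b, Bit q' i x s b := by
  let E : Set (Cell × Bool) := {t | t.1.1 = i ∧ t.1.2.1 = x ∧ t.1.2.2 ∈ S ∧
    od t.1.2.2 < (rho i).ord ∧ t.2 = false ∧ ∀ b, ¬ Bit q i x t.1.2.2 b}
  have hE : IsCond E := by
    constructor
    · rintro c b b' ⟨-, -, -, -, h1, -⟩ ⟨-, -, -, -, h2, -⟩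
      exact h1.trans h2.symm
    · rintro ⟨i', x', ε⟩ b ⟨h1, h2, -, h3, -⟩
      simp only at h1 h2 h3 ⊢
      subst h1 h2
      exact ⟨hx, h3⟩
    · intro j
      by_cases hj : j = i
      · subst hj
        refine lt_of_le_of_lt ?_ hS
        refine mk_le_of_injective (f := fun t : {t : Cell × Bool | t ∈ E ∧ t.1.1 = j} =>
          (⟨t.1.1.2.2, t.2.1.2.2.1⟩ : S)) ?_
        rintro ⟨⟨⟨i1, x1, ε1⟩, b1⟩, ⟨⟨h1, h2, h3, h4, h5, h8⟩, h6⟩⟩
          ⟨⟨⟨i2, x2, ε2⟩, b2⟩, ⟨⟨h1', h2', h3', h4', h5', h8'⟩, h6'⟩⟩ h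
        simp only [Subtype.mk.injEq, Prod.mk.injEq] at h h1 h2 h5 h1' h2' h5' ⊢
        exact ⟨⟨h1.trans h1'.symm, h2.trans h2'.symm, h⟩, h5.trans h5'.symm⟩
      · have : {t : Cell × Bool | t ∈ E ∧ t.1.1 = j} = ∅ := by
          ext t
          simp only [mem_ofPred_eq, mem_empty_iff_false, iff_false]
          rintro ⟨h1, h2⟩
          exact hj (h2.symm.trans h1.1)
        rw [this, mk_eq_zero]
        exact rho_pos j
  refine ⟨⟨q.1 ∪ E, q.2.union hE ?_⟩, subset_union_left, ?_⟩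
  · rintro ⟨i', x', ε⟩ b b' h1 ⟨h2, h3, -, -, -, h4⟩
    simp only at h2 h3 h4
    subst h2 h3
    exact (h4 b h1).elim
  · intro s hs hsρ
    by_cases h : ∃ b, Bit q i x s b
    · obtain ⟨b, hb⟩ := h
      exact ⟨b, Or.inl hb⟩
    · push Not at h
      exact ⟨false, Or.inr ⟨rfl, rfl, hs, hsρ, rfl, h⟩⟩

section main

variable {Φ : Pos → Pt → Pt → Prop} {p : Pos}

/-- points of unbounded levels -/
theorem claim1 (hmono : ∀ r r' x ξ, Φ r x ξ → r' ≤ r → Φ r' x ξ)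
    (hfun : ∀ r x ξ ξ', Φ r x ξ → Φ r x ξ' → ξ = ξ')
    (hlam : ∀ r x ξ, Φ r x ξ → od x < lamω.ord)
    (hp : ∀ ξ, od ξ < kapω.ord → ∀ q ≤ p, ∃ r ≤ q, ∃ x, Φ r x ξ)
    (hI : ∀ q ≤ p, ∀ x y z ξ η ζ, Φ q x ξ → Φ q y η → Φ q z ζ → ¬ Col3 q x y z)
    (M : ℕ) (p' : Pos) (hp' : p' ≤ p) :
    ∃ q ≤ p', ∃ x ξ m, Φ q x ξ ∧ M < m ∧ At m x := by
  by_contra hcon
  push Not at hcon
  have hpt : ∀ η, od (ptK (M + 1) η) < kapω.ord := fun η =>
    (od_ptK_lt _ _).trans_le (ord_le_ord.2 (kap_le_kapω _))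
  obtain ⟨b, r, x, hD⟩ := exists_desc (cutK M) p' (fun η _ r x => Φ r x (ptK (M + 1) η))
    (fun η b hb _ => by
      obtain ⟨r, hr, x, hx⟩ := hp _ (hpt η) b (hb.trans hp')
      exact ⟨r, hr, x, hx⟩)
  have hlev : ∀ η, ∃ m, m ≤ M ∧ At m (x η) := by
    intro η
    obtain ⟨m, hm⟩ := exists_At_of_lt (hlam _ _ _ (hD.psi η))
    refine ⟨m, ?_, hm⟩
    by_contra h
    exact hcon (r η) (hD.rp η) (x η) _ m (hD.psi η) (not_le.1 h) hm
  choose m hmM hm using hlev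
  obtain ⟨e, he, ⟨v, hv⟩, hpw⟩ := pw (cutK M) r (C := ℕ)
    (by
      rw [mk_nat]
      exact (aleph0_le_kap M).trans_lt (kap_lt_succ M)) m
  have hinj : Function.Injective (fun k => x (e k)) := by
    intro j k hjk
    have hc : Cpt (r (e j)).1 (r (e k)).1 := cpt_of_parts (hpw j k) (hD.chn _ _)
    let q : Pos := ⟨_, (r (e j)).2.union (r (e k)).2 hc⟩
    have h1 : Φ q (x (e j)) (ptK (M + 1) (e j)) := hmono _ _ _ _ (hD.psi _) subset_union_left
    have h2 : Φ q (x (e k)) (ptK (M + 1) (e k)) := hmono _ _ _ _ (hD.psi _) subset_union_right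
    simp only at hjk
    rw [← hjk] at h2
    exact he.injective (ptK_inj _ (hfun _ _ _ _ h1 h2))
  have hvM : v ≤ M := by
    have hne : Nonempty (cutK M).θ.ord.ToType := by
      rw [nonempty_toType_iff]
      exact ((cutK M).cls.rθ.ord_pos).ne'
    obtain ⟨a⟩ := hne
    rw [← hv a]
    exact hmM _
  obtain ⟨q, j, k, l, hj, hk, hl, hTA⟩ := three M v hvM (fun k => r (e k))
    (fun j k => hD.chn _ _) (fun k => x (e k)) hinj (fun k => by rw [← hv k]; exact hm (e k))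
  exact hI q (hj.trans ((hD.rp _).trans hp')) _ _ _ _ _ _ (hmono _ _ _ _ (hD.psi _) hj)
    (hmono _ _ _ _ (hD.psi _) hk) (hmono _ _ _ _ (hD.psi _) hl) (Or.inl hTA)

theorem exists_nat_bound (q : Pos) (δ : Pt) : ∃ N : ℕ, ∀ n > N, ∀ ν b, od ν = (n : Ordinal.{0}) →
    ¬ Bit q (.inl 0) δ ν b := by
  have h1 : {n : ℕ | ∃ ν b, od ν = (n : Ordinal.{0}) ∧ Bit q (.inl 0) δ ν b}.Finite := by
    have h2 : {t : Cell × Bool | t ∈ q.1 ∧ t.1.1 = .inl 0}.Finite := by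
      rw [← lt_aleph0_iff_set_finite]
      exact q.2.size (.inl 0)
    have h3 : ∀ n : ℕ, (n : Ordinal.{0}) < muω.ord := by
      intro n
      refine (natCast_lt_omega0 n).trans_le ?_
      rw [← ord_aleph0]
      exact ord_le_ord.2 ((aleph0_le_mu 0).trans (mu_le_muω 0))
    refine Set.Finite.of_finite_image (f := fun n : ℕ => (ToType.mk ⟨(n : Ordinal.{0}), h3 n⟩ : Pt)) ?_ ?_
    · refine (h2.image (fun t => t.1.2.2)).subset ?_
      rintro _ ⟨n, ⟨ν, b, h4, h5⟩, rfl⟩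
      refine ⟨_, ⟨h5, rfl⟩, ?_⟩
      apply od_inj
      rw [od_mk]
      exact h4
    · intro a _ b _ hab
      have h4 := congrArg Subtype.val (ToType.mk.injective hab)
      exact Nat.cast_injective h4
  obtain ⟨N, hN⟩ := h1.bddAbove
  refine ⟨N, fun n hn ν b h2 h3 => ?_⟩
  exact absurd (hN ⟨ν, b, h2, h3⟩) (not_le.2 hn)

theorem mk_cols {q : Pos} {i : Lv} : #{s : Pt | ∃ ε b, Bit q i s ε b} < rho i := by
  refine lt_of_le_of_lt ?_ (q.2.size i)
  have : {s : Pt | ∃ ε b, Bit q i s ε b} ⊆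
      (fun t : Cell × Bool => t.1.2.1) '' {t : Cell × Bool | t ∈ q.1 ∧ t.1.1 = i} := by
    rintro s ⟨ε, b, hb⟩
    exact ⟨((i, s, ε), b), ⟨hb, rfl⟩, rfl⟩
  exact (mk_le_mk_of_subset this).trans mk_image_le

/-- **The core of the first theorem.** -/
theorem q1core (hmono : ∀ r r' x ξ, Φ r x ξ → r' ≤ r → Φ r' x ξ)
    (hfun : ∀ r x ξ ξ', Φ r x ξ → Φ r x ξ' → ξ = ξ')
    (hlam : ∀ r x ξ, Φ r x ξ → od x < lamω.ord)
    (hp : ∀ ξ, od ξ < kapω.ord → ∀ q ≤ p, ∃ r ≤ q, ∃ x, Φ r x ξ) :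
    ∃ q ≤ p, ∃ x y z ξ η ζ, Φ q x ξ ∧ Φ q y η ∧ Φ q z ζ ∧ Col3 q x y z := by
  classical
  by_contra hcon
  have hI : ∀ q ≤ p, ∀ x y z ξ η ζ, Φ q x ξ → Φ q y η → Φ q z ζ → ¬ Col3 q x y z := by
    intro q hq x y z ξ η ζ h1 h2 h3 h4
    exact hcon ⟨q, hq, x, y, z, ξ, η, ζ, h1, h2, h3, h4⟩
  have hcl := claim1 hmono hfun hlam hp hI
  -- the set of levels
  obtain ⟨q0, hq0, -, T, hT, hT1, hT2⟩ := nice (cutK 0) (Z := ℕ)
    (by
      rw [mk_nat]
      exact (aleph0_le_kap 0).trans_lt (kap_lt_succ 0))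
    (fun n r => ∃ x ξ, Φ r x ξ ∧ At n x)
    (by
      rintro n r r' ⟨x, ξ, h1, h2⟩ hr
      exact ⟨x, ξ, hmono _ _ _ _ h1 hr, h2⟩) p
  let S : Set Pt := ⋃ t : T, {s : Pt | ∃ ε b, Bit t.1.2 (.inl 0) s ε b}
  have hS : #S < kap 1 := by
    rw [card_iUnion_lt_iff_forall_of_isRegular (kap_reg 1) hT]
    exact fun t => mk_cols.trans (kap_lt_succ 0)
  have hpt : ∀ η, od (ptK 2 η) < kapω.ord := fun η =>
    (od_ptK_lt _ _).trans_le (ord_le_ord.2 (kap_le_kapω _))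
  obtain ⟨b, r, x, hD⟩ := exists_desc (cutK 1) q0 (fun η _ r x => Φ r x (ptK 2 η) ∧
      ∀ m ≥ 1, At m x → ∀ s ∈ S, od s < (kap m).ord → ∃ b, Bit r (.inl m) x s b)
    (fun η b hb _ => by
      obtain ⟨r, hr, x, hx⟩ := hp _ (hpt η) b (hb.trans hq0)
      obtain ⟨m, hm⟩ := exists_At_of_lt (hlam _ _ _ hx)
      by_cases hm1 : 1 ≤ m
      · obtain ⟨r', hr', h1⟩ := ext_dec r (.inl m) x hm.1 S
          (hS.trans_le (kap_strictMono.monotone hm1))
        refine ⟨r', hr'.trans hr, x, hmono _ _ _ _ hx hr', ?_⟩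
        intro m' _ hm' s hs hs'
        rw [hm'.unique hm] at hs' ⊢
        exact h1 s hs hs'
      · refine ⟨r, hr, x, hx, ?_⟩
        intro m' hm'1 hm'
        rw [hm'.unique hm] at hm'1
        exact (hm1 hm'1).elim)
  have hlev : ∀ η, ∃ m, At m (x η) := fun η => exists_At_of_lt (hlam _ _ _ (hD.psi η).1)
  choose m hm using hlev
  obtain ⟨e, he, ⟨v, hv⟩, hpw⟩ := pw (cutK 1) r (C := ℕ)
    (by
      rw [mk_nat]
      exact (aleph0_le_kap 1).trans_lt (kap_lt_succ 1)) m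
  have hcpt : ∀ j k, Cpt (r (e j)).1 (r (e k)).1 := fun j k =>
    cpt_of_parts (hpw j k) (hD.chn _ _)
  have hinj : Function.Injective (fun k => x (e k)) := by
    intro j k hjk
    let q : Pos := ⟨_, (r (e j)).2.union (r (e k)).2 (hcpt j k)⟩
    have h1 : Φ q (x (e j)) (ptK 2 (e j)) := hmono _ _ _ _ (hD.psi _).1 subset_union_left
    have h2 : Φ q (x (e k)) (ptK 2 (e k)) := hmono _ _ _ _ (hD.psi _).1 subset_union_right
    simp only at hjk
    rw [← hjk] at h2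
    exact he.injective (ptK_inj _ (hfun _ _ _ _ h1 h2))
  have hAt : ∀ k, At v (x (e k)) := fun k => by rw [← hv k]; exact hm (e k)
  rcases Nat.lt_or_ge v 2 with hv2 | hv2
  · obtain ⟨q, j, k, l, hj, hk, hl, hTA⟩ := three 1 v (by omega) (fun k => r (e k))
      (fun j k => hD.chn _ _) (fun k => x (e k)) hinj hAt
    exact hI q (hj.trans ((hD.rp _).trans hq0)) _ _ _ _ _ _ (hmono _ _ _ _ (hD.psi _).1 hj)
      (hmono _ _ _ _ (hD.psi _).1 hk) (hmono _ _ _ _ (hD.psi _).1 hl) (Or.inl hTA)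
  · -- two points with the same column on `S`
    have hC : #(S → Bool) < (cutK 1).θ := by
      have h1 : #(S → Bool) = 2 ^ #S := by
        rw [← power_def]; simp
      rw [h1]
      exact (le_powerlt 2 hS).trans_lt (Order.lt_succ _)
    obtain ⟨j, k, hjk, hf, -⟩ := cc (cutK 1) (fun k => r (e k)) hC
      (fun k s => decide (Bit (r (e k)) (.inl v) (x (e k)) s.1 true))
    have hbit : ∀ s ∈ S, od s < (kap v).ord → ∃ b, Bit (r (e j)) (.inl v) (x (e j)) s b ∧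
        Bit (r (e k)) (.inl v) (x (e k)) s b := by
      intro s hs hsv
      obtain ⟨b1, hb1⟩ := (hD.psi (e j)).2 v (by omega) (hAt j) s hs hsv
      obtain ⟨b2, hb2⟩ := (hD.psi (e k)).2 v (by omega) (hAt k) s hs hsv
      have h1 := congrFun hf ⟨s, hs⟩
      simp only [decide_eq_decide] at h1
      have : b1 = b2 := by
        cases b1
        · cases b2
          · rfl
          · exact absurd (hb1.unique (h1.2 hb2)) (by simp)
        · exact ((h1.1 hb1).unique hb2)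
      exact ⟨b1, hb1, this ▸ hb2⟩
    let q1 : Pos := ⟨_, (r (e j)).2.union (r (e k)).2 (hcpt j k)⟩
    have q1j : q1 ≤ r (e j) := fun t ht => Or.inl ht
    have q1k : q1 ≤ r (e k) := fun t ht => Or.inr ht
    obtain ⟨q2, hq2, hFd, -⟩ := ext_all q1
      (fun i => if i = .inl v then {x (e j), x (e k)} else ∅)
      (by
        intro i
        refine (lt_aleph0_iff_set_finite.2 ?_).trans_le (rho_reg i).aleph0_le
        by_cases hi : i = .inl v <;> simp [hi])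
      (by
        intro i y hy
        by_cases hi : i = .inl v
        · simp only [hi, if_true] at hy
          subst hi
          rcases hy with rfl | rfl
          · exact (hAt _).1
          · exact (hAt _).1
        · simp [hi] at hy)
    have hFd' := hFd (.inl v) (x (e j)) (by simp) (x (e k)) (by simp) (hinj.ne hjk.ne)
    obtain ⟨δ, b0, hδ⟩ := hFd'
    have hδS : δ ∉ S := by
      intro hs
      obtain ⟨b1, h1, h2⟩ := hbit δ hs hδ.2.1.lt
      have h3 := (h1.mono (hq2.trans q1j)).unique hδ.2.1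
      have h4 := (h2.mono (hq2.trans q1k)).unique hδ.2.2
      rw [h3] at h4
      cases b0 <;> simp at h4
    -- order the two points
    obtain ⟨y, z, b1, hyz, hS1, hy, hz, hAy, hAz⟩ : ∃ y z b1, y < z ∧
        Spl q2 (.inl v) y z δ b1 ∧ (∃ ξ, Φ q2 y ξ) ∧ (∃ ξ, Φ q2 z ξ) ∧ At v y ∧ At v z := by
      have f1 : ∃ ξ, Φ q2 (x (e j)) ξ := ⟨_, hmono _ _ _ _ (hD.psi (e j)).1 (hq2.trans q1j)⟩
      have f2 : ∃ ξ, Φ q2 (x (e k)) ξ := ⟨_, hmono _ _ _ _ (hD.psi (e k)).1 (hq2.trans q1k)⟩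
      rcases lt_or_gt_of_ne (hinj.ne hjk.ne) with h | h
      · exact ⟨_, _, b0, h, hδ, f1, f2, hAt _, hAt _⟩
      · exact ⟨_, _, !b0, h, hδ.symm, f2, f1, hAt _, hAt _⟩
    obtain ⟨N, hN⟩ := exists_nat_bound q2 δ
    have q2q0 : q2 ≤ q0 := (hq2.trans q1j).trans (hD.rp _)
    obtain ⟨q3, hq3, a, ξ, n, ha, hn, hna⟩ := hcl (max v N) q2 (q2q0.trans hq0)
    obtain ⟨l, hl, hlc⟩ := hT2 n q3 (hq3.trans q2q0) ⟨a, ξ, ha, hna⟩
    obtain ⟨-, s, hs, ⟨a', ξ', ha', hna'⟩, hsl⟩ := hT1 _ hl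
    let q4 : Pos := ⟨l.1 ∪ q2.1, l.2.union q2.2 (hlc.mono Subset.rfl hq3)⟩
    have q4q2 : q4 ≤ q2 := subset_union_right
    have q4s : q4 ≤ s := by
      intro t ht
      rw [hsl] at ht
      rcases ht with ht | ht
      · exact Or.inl ht
      · exact Or.inr (q2q0 ht)
    have hnω : (n : Ordinal.{0}) < muω.ord := by
      refine (natCast_lt_omega0 n).trans_le ?_
      rw [← ord_aleph0]
      exact ord_le_ord.2 ((aleph0_le_mu 0).trans (mu_le_muω 0))
    obtain ⟨ν, hν⟩ := exists_od hnω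
    obtain ⟨q5, hq5, hbit5⟩ := ext_one q4 (.inl 0) δ ν b1
      (hδ.2.1.lt.trans (ord_lt_ord.2 (kap_lt_lam v 0)))
      (by
        rw [hν]
        change (n : Ordinal.{0}) < (kap 0).ord
        change (n : Ordinal.{0}) < (ℵ₀).ord
        rw [ord_aleph0]
        exact natCast_lt_omega0 n)
      (by
        rintro b' (hb' | hb')
        · exact hδS (mem_iUnion.2 ⟨⟨_, hl⟩, ν, b', hb'⟩)
        · exact hN n ((le_max_right _ _).trans_lt hn) ν b' hν hb')
    obtain ⟨ξy, hy⟩ := hy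
    obtain ⟨ξz, hz⟩ := hz
    refine hI q5 ?_ y z a' ξy ξz ξ' (hmono _ _ _ _ hy (hq5.trans q4q2))
      (hmono _ _ _ _ hz (hq5.trans q4q2)) (hmono _ _ _ _ ha' (hq5.trans q4s)) ?_
    · exact hq5.trans (q4q2.trans (q2q0.trans hq0))
    · exact Or.inr ⟨n, hna', hyz, v, (le_max_left _ _).trans_lt hn, hAy, hAz, δ, b1, ν,
        hS1.mono (hq5.trans q4q2), hν, hbit5⟩

end main

end Pool.Agent.Helper96.Fc
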