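import Pool.Agent.Helper96.Fc.Blk
import Pool.Agent.Helper27.Fc96.Four
import Pool.Agent.Helper96.Fc.Q1core

/-!
# Construction of blocks
-/

open Cardinal Ordinal Set

namespace Pool.Agent.Helper96.Fc

open Pool.Agent.Helper96.Split

/-- a large set of points contains an increasing sequence of the given regular length -/
theorem exists_strictMono {θ : Cardinal.{0}} {S : Set Pt} (hS : θ ≤ #S) :
    ∃ u : θ.ord.ToType → Pt, StrictMono u ∧ ∀ k, u k ∈ S := by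
  have h1 : θ.ord ≤ type ((· < ·) : S → S → Prop) :=
    (ord_le_ord.2 hS).trans (ord_le_type _)
  have h2 : type ((· < ·) : θ.ord.ToType → θ.ord.ToType → Prop) ≤
      type ((· < ·) : S → S → Prop) := by
    rw [type_toType]
    exact h1
  obtain ⟨f⟩ := type_le_iff'.1 h2
  exact ⟨fun k => (f k).1, fun a b hab => f.map_rel_iff.2 hab, fun k => (f k).2⟩

/-- few codes represent all values below `κ_{M+1}` -/
theorem blkA1 (Φ : Pos → Sq → Pt → Prop)
    (hmono : ∀ r r' x ξ, Φ r x ξ → r' ≤ r → Φ r' x ξ)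
    (p : Pos) (hp : ∀ ξ, od ξ < kapω.ord → ∀ q ≤ p, ∃ r ≤ q, ∃ x, Φ r x ξ) (M : ℕ) :
    ∃ q₁ ≤ p, ∃ X : Set Sq, #X < kap (M + 2) ∧
      ∀ q ≤ q₁, ∀ ξ, od ξ < (kap (M + 1)).ord → ∃ r ≤ q, ∃ x ∈ X, Φ r x ξ := by
  have hZ : #{ξ : Pt // od ξ < (kap (M + 1)).ord} < (cutK (M + 1)).θ := by
    rw [mk_od_lt (Q2c.kap_le_muω _)]
    exact kap_lt_succ (M + 1)
  obtain ⟨q₁, hq₁, -, T, hT, hT1, hT2⟩ := nice (cutK (M + 1)) hZ
    (fun z r => ∃ x, Φ r x z.1)
    (fun z r r' ⟨x, hx⟩ hr => ⟨x, hmono r r' x z.1 hx hr⟩) p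
  have hch : ∀ t : T, ∃ s ≤ q₁, ∃ x, Φ s x t.1.1.1 ∧ s.1 = t.1.2.1 ∪ q₁.1 := by
    intro t
    obtain ⟨-, s, hs, ⟨x, hx⟩, hs2⟩ := hT1 t.1 t.2
    exact ⟨s, hs, x, hx, hs2⟩
  choose s hs x hx hs2 using hch
  refine ⟨q₁, hq₁, Set.range x, mk_range_le.trans_lt hT, ?_⟩
  intro q hq ξ hξ
  obtain ⟨r, hr, x', hx'⟩ := hp ξ (hξ.trans_le (ord_le_ord.2 (kap_le_kapω _))) q (hq.trans hq₁)
  obtain ⟨l, hl, hl2⟩ := hT2 ⟨ξ, hξ⟩ r (hr.trans hq) ⟨x', hx'⟩
  refine ⟨⟨l.1 ∪ r.1, l.2.union r.2 hl2⟩, ?_, x ⟨_, hl⟩, mem_range_self _, ?_⟩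
  · refine le_trans ?_ hr
    exact subset_union_right
  · refine hmono (s ⟨_, hl⟩) _ _ _ (hx ⟨_, hl⟩) ?_
    intro t ht
    rw [hs2] at ht
    rcases ht with ht | ht
    · exact Or.inl ht
    · exact Or.inr (hr.trans hq ht)

/-- deciding all splits of few codes -/
theorem blkA2 (q₁ : Pos) (X : Set Sq) (n : ℕ) (hX : #X < kap n) :
    ∃ q₂ ≤ q₁, ∀ m, ∀ x ∈ X, ∀ y ∈ X, x.v m ≠ y.v m → ∃ δ, Fd q₂ (.inr m) (x.v m) (y.v m) δ := by
  let Y : Lv → Set Pt := fun i => match i with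
    | .inl _ => ∅
    | .inr m => (fun x : Sq => x.v m) '' X
  obtain ⟨q₂, hq₂, h1, -⟩ := ext_all q₁ Y (by
    rintro (m | m)
    · change #(∅ : Set Pt) < _
      rw [mk_eq_zero]
      exact rho_pos _
    · exact mk_image_le.trans_lt (hX.trans (kap_lt_lam n m))) (by
    rintro (m | m) x hx
    · exact hx.elim
    · obtain ⟨c, -, rfl⟩ := hx
      exact c.lt m)
  refine ⟨q₂, hq₂, ?_⟩
  intro m x hx y hy hne
  exact h1 (.inr m) _ ⟨x, hx, rfl⟩ _ ⟨y, hy, rfl⟩ hne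

/-- **Many sequences have a common node with many successors.** -/
theorem blk_tree (M : ℕ) (hM : 1 ≤ M) (x : (cutK M).θ.ord.ToType → Sq)
    (hx : Function.Injective x) :
    ∃ (n : ℕ) (s : ℕ → Pt) (e : (cutK M).θ.ord.ToType → (cutK M).θ.ord.ToType),
      (∀ k, ∀ i < n, (x (e k)).v i = s i) ∧ Function.Injective (fun k => (x (e k)).v n) := by
  classical
  have hreg : (kap (M + 1)).IsRegular := kap_reg (M + 1)
  have hmk : #((cutK M).θ.ord.ToType) = kap (M + 1) := mk_ord_toType _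
  -- restrictions
  let T : (n : ℕ) → Set (Fin n → Pt) := fun n => Set.range (fun η => fun i : Fin n => (x η).v i)
  have hT : ∃ n, kap (M + 1) ≤ #(T n) := by
    by_contra hcon
    push Not at hcon
    have h1 : #((cutK M).θ.ord.ToType) ≤ #(∀ n, T n) := by
      refine mk_le_of_injective (f := fun η n => ⟨fun i : Fin n => (x η).v i, η, rfl⟩) ?_
      intro η ζ h
      apply hx
      apply Sq.ext'
      intro n
      have h2 := congrArg Subtype.val (congrFun h (n + 1))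
      exact congrFun h2 (Fin.last n)
    have h2 : #(∀ n, T n) ≤ (2 ^< kap M) ^ ℵ₀ := by
      rw [mk_pi]
      refine (prod_le_prod _ (fun _ => 2 ^< kap M) (fun n => ?_)).trans ?_
      · exact Order.lt_succ_iff.1 (hcon n)
      · rw [prod_const, mk_nat]
        simp
    have h3 : (2 ^< kap M) ^ ℵ₀ ≤ 2 ^< kap M := by
      refine powerlt_pow_le (kap_reg M) ?_
      exact kap_strictMono (show 0 < M from hM)
    have h4 := (h1.trans (h2.trans h3)).trans_lt (Order.lt_succ (2 ^< kap M))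
    rw [hmk] at h4
    exact lt_irrefl _ h4
  have hT0 : ¬ kap (M + 1) ≤ #(T 0) := by
    intro h
    have h1 : #(T 0) ≤ 1 := by
      refine (mk_subtype_le _).trans ?_
      simp
    exact absurd (h.trans h1) (not_le.2 (one_lt_aleph0.trans_le (aleph0_le_kap _)))
  have hmin := Nat.find_spec hT
  obtain ⟨n, hn⟩ : ∃ n, Nat.find hT = n + 1 := by
    cases h : Nat.find hT with
    | zero => rw [h] at hmin; exact (hT0 hmin).elim
    | succ n => exact ⟨n, rfl⟩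
  rw [hn] at hmin
  have hlt : #(T n) < kap (M + 1) := by
    have := Nat.find_min hT (m := n) (by omega)
    exact not_le.1 this
  -- successors
  let A : T n → Set Pt := fun s => {z | ∃ η, (fun i : Fin n => (x η).v i) = s.1 ∧ (x η).v n = z}
  have hA : ∃ s : T n, kap (M + 1) ≤ #(A s) := by
    by_contra hcon
    push Not at hcon
    have h1 : #(T (n + 1)) ≤ #(Σ s : T n, A s) := by
      have hch : ∀ t : T (n + 1), ∃ η, (fun i : Fin (n + 1) => (x η).v i) = t.1 := fun t => t.2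
      choose η hη using hch
      refine mk_le_of_injective (f := fun t => ⟨⟨fun i : Fin n => (x (η t)).v i, η t, rfl⟩,
        ⟨(x (η t)).v n, η t, rfl, rfl⟩⟩) ?_
      intro t t' h
      apply Subtype.ext
      rw [← hη t, ← hη t']
      have h2 : (fun i : Fin n => (x (η t)).v i) = fun i : Fin n => (x (η t')).v i :=
        congrArg (fun z : (Σ s : T n, A s) => z.1.1) h
      have h3 : (x (η t)).v n = (x (η t')).v n :=
        congrArg (fun z : (Σ s : T n, A s) => z.2.1) h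
      funext i
      rcases Nat.lt_succ_iff_lt_or_eq.1 i.2 with hi | hi
      · exact congrFun h2 ⟨i.1, hi⟩
      · rw [hi]
        exact h3
    have h2 : #(Σ s : T n, A s) < kap (M + 1) := by
      rw [mk_sigma]
      exact sum_lt_of_isRegular hreg hlt hcon
    exact absurd (hmin.trans h1) (not_le.2 h2)
  obtain ⟨s, hs⟩ := hA
  rw [← hmk] at hs
  obtain ⟨g⟩ := hs
  have hch : ∀ k, ∃ η, (fun i : Fin n => (x η).v i) = s.1 ∧ (x η).v n = (g k).1 := fun k => (g k).2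
  choose e he1 he2 using hch
  obtain ⟨z₀, -⟩ := exists_od (a := 0) ((isSuccLimit_ord
    ((aleph0_le_mu 0).trans (mu_le_muω 0))).bot_lt)
  refine ⟨n, fun i => if h : i < n then s.1 ⟨i, h⟩ else z₀, e, ?_, ?_⟩
  · intro k i hi
    simp only [dif_pos hi]
    rw [← he1 k]
  · intro j k hjk
    simp only [he2] at hjk
    exact g.injective (Subtype.ext hjk)

/-- a well-order of the branches that corresponds to the order of the codes -/
theorem exists_order2 {ι : Type} (o : ι → Sq) (ho : Function.Injective o) (F : ι → (Pt → Bool))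
    (hF : Function.Injective F) :
    ∃ R : (Pt → Bool) → (Pt → Bool) → Prop, IsWellOrder (Pt → Bool) R ∧
      ∀ j k, R (F j) (F k) ↔ o j < o k := by
  classical
  let g : (Pt → Bool) → Sq ⊕ (Pt → Bool) := fun h =>
    if hx : ∃ j, F j = h then Sum.inl (o hx.choose) else Sum.inr h
  have hg1 : ∀ j, g (F j) = Sum.inl (o j) := by
    intro j
    have hex : ∃ j', F j' = F j := ⟨j, rfl⟩
    have h1 : g (F j) = Sum.inl (o hex.choose) := dif_pos hex
    rw [h1, hF hex.choose_spec]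
  have hinj : Function.Injective g := by
    intro h h' hh
    by_cases hx : ∃ j, F j = h
    · obtain ⟨j, rfl⟩ := hx
      rw [hg1 j] at hh
      by_cases hx' : ∃ j, F j = h'
      · obtain ⟨j', rfl⟩ := hx'
        rw [hg1 j'] at hh
        rw [ho (Sum.inl.inj hh)]
      · have h1 : g h' = Sum.inr h' := dif_neg hx'
        rw [h1] at hh
        cases hh
    · have h0 : g h = Sum.inr h := dif_neg hx
      rw [h0] at hh
      by_cases hx' : ∃ j, F j = h'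
      · obtain ⟨j', rfl⟩ := hx'
        rw [hg1 j'] at hh
        cases hh
      · have h1 : g h' = Sum.inr h' := dif_neg hx'
        rw [h1] at hh
        exact Sum.inr.inj hh
  let s : Sq ⊕ (Pt → Bool) → Sq ⊕ (Pt → Bool) → Prop := Sum.Lex (· < ·) WellOrderingRel
  have hs : IsWellOrder (Sq ⊕ (Pt → Bool)) s := inferInstance
  refine ⟨g ⁻¹'o s, (RelEmbedding.preimage ⟨g, hinj⟩ s).isWellOrder, ?_⟩
  intro j k
  change s (g (F j)) (g (F k)) ↔ o j < o k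
  rw [hg1 j, hg1 k]
  exact Sum.lex_inl_inl

/-- A comb of codes before the last thinning. -/
structure Cmb (Φ : Pos → Sq → Pt → Prop) (M : ℕ) (q₂ : Pos) (n N : ℕ) (s : ℕ → Pt)
    (D D₁ : Set Pt) (y : Pt → Sq) (k : Pt → (cutK M).θ.ord.ToType)
    (r : (cutK M).θ.ord.ToType → Pos) : Prop where
  sub : D₁ ⊆ D
  large : kap (M + 1) ≤ #D₁
  le : ∀ η, r η ≤ q₂
  high : ∀ ζ η, ζ ≤ η → hi (cutK M).J (r ζ).1 ⊆ (r η).1
  kinj : ∀ d ∈ D, ∀ d' ∈ D, d < d' → k d ≠ k d'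
  inn : ∀ d ∈ D, ∃ ξ, Φ (r (k d)) (y d) ξ
  node : ∀ d ∈ D, ∀ i < n, (y d).v i = s i
  fd : ∀ d ∈ D, ∀ d' ∈ D, d < d' → Fd q₂ (.inr n) ((y d).v n) ((y d').v n) d
  mono : ∀ d ∈ D, ∀ d' ∈ D, d < d' → y d < y d'
  cpt : ∀ d ∈ D, ∀ d' ∈ D, Cpt (r (k d)).1 (r (k d')).1
  row : ∀ d ∈ D, ∀ x ε b, Bit (r (k d)) (.inl 0) x ε b → od ε < N
  next : ∀ d ∈ D₁, ∃ d' ∈ D, d < d'

/-- rows of a condition at the lowest level are bounded -/
theorem exists_row (q : Pos) : ∃ N : ℕ, ∀ x ε b, Bit q (.inl 0) x ε b → od ε < N := by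
  obtain ⟨δ, hδ, hδ2⟩ := exists_pt_gt (.inl 0) (eps q (.inl 0)) (mk_eps q (.inl 0))
  have hω : (rho (.inl 0)).ord = ω := ord_aleph0
  rw [hω] at hδ
  obtain ⟨N, hN⟩ := lt_omega0.1 hδ
  refine ⟨N, fun x ε b hb => ?_⟩
  rw [← hN, od_lt_od]
  exact hδ2 ε ⟨x, b, hb⟩ hb.lt

/-- **Combs of codes.** -/
theorem exists_cmb (Φ : Pos → Sq → Pt → Prop)
    (hmono : ∀ r r' x ξ, Φ r x ξ → r' ≤ r → Φ r' x ξ)
    (hfun : ∀ r x ξ ξ', Φ r x ξ → Φ r x ξ' → ξ = ξ')
    (p : Pos) (hp : ∀ ξ, od ξ < kapω.ord → ∀ q ≤ p, ∃ r ≤ q, ∃ x, Φ r x ξ)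
    (hI : ∀ q ≤ p, ∀ a b c d ξa ξb ξc ξd, Φ q a ξa → Φ q b ξb → Φ q c ξc → Φ q d ξd →
      ¬ Col4s q a b c d)
    (M : ℕ) (hM : 1 ≤ M) (p' : Pos) (hp' : p' ≤ p) :
    ∃ q₂ ≤ p', ∃ n N s D D₁ y k r, Cmb Φ M q₂ n N s D D₁ y k r := by
  classical
  obtain ⟨q₁, hq₁, X, hX, hΦ⟩ := blkA1 Φ hmono p'
    (fun ξ hξ q hq => hp ξ hξ q (hq.trans hp')) M
  obtain ⟨q₂, hq₂, hfd⟩ := blkA2 q₁ X (M + 2) hX
  have hqp : q₂ ≤ p := hq₂.trans (hq₁.trans hp')
  obtain ⟨b, r, x, hD⟩ := exists_desc (cutK M) q₂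
    (fun η _ r x => Φ r x (Q2c.toPt (M + 1) η) ∧ x ∈ X)
    (fun η b hb _ => by
      obtain ⟨r, hr, x, hx, h⟩ := hΦ b (hb.trans hq₂) (Q2c.toPt (M + 1) η) (Q2c.od_toPt_lt η)
      exact ⟨r, hr, x, h, hx⟩)
  choose rw hrw using fun η => exists_row (r η)
  have hℕ : #ℕ < (cutK M).θ := by
    rw [mk_nat]
    exact (aleph0_le_kap M).trans_lt (kap_lt_succ M)
  obtain ⟨e, he, ⟨N, hN⟩, hcp⟩ := amalg (cutK M) r (Q2c.toPt (M + 1)) (Q2c.toPt_inj _) hℕ rw
  have hcpt : ∀ j k, Cpt (r (e j)).1 (r (e k)).1 := by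
    intro j k
    by_cases h : j = k
    · subst h
      exact Q2c.Cpt.refl _
    · exact hD.cpt (hcp j k h).1
  have hinj : Function.Injective (fun k => x (e k)) := by
    intro j k hjk
    obtain ⟨q, hqj, hqk⟩ := Pos.compat_iff.2 (hcpt j k)
    have h1 := hmono _ _ _ _ (hD.psi (e j)).1 hqj
    have h2 := hmono _ _ _ _ (hD.psi (e k)).1 hqk
    simp only at hjk
    rw [hjk] at h1
    have h3 := hfun _ _ _ _ h1 h2
    exact he.injective (Q2c.toPt_inj _ h3)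
  obtain ⟨n, s, f, hf1, hf2⟩ := blk_tree M hM (fun k => x (e k)) hinj
  have hfinj : Function.Injective f := by
    intro j k hjk
    apply hf2
    simp only
    rw [hjk]
  -- the codes and their conditions
  let o : (cutK M).θ.ord.ToType → Sq := fun k => x (e (f k))
  have ho : Function.Injective o := fun j k hjk => hfinj (hinj hjk)
  have hoX : ∀ k, o k ∈ X := fun k => (hD.psi _).2
  have hFd : ∀ j k, j ≠ k → ∃ δ, Fd q₂ (.inr n) ((o j).v n) ((o k).v n) δ := by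
    intro j k hjk
    exact hfd n _ (hoX j) _ (hoX k) (fun h => hjk (hf2 h))
  let F : (cutK M).θ.ord.ToType → (Pt → Bool) := fun k => Q2c.brn q₂ (.inr n) ((o k).v n)
  have hFinj : Function.Injective F := by
    intro j k h
    by_contra hjk
    obtain ⟨δ, hδ⟩ := hFd j k hjk
    exact (Q2c.fd_brn hδ).ne h
  obtain ⟨R, hR, hRlt⟩ := exists_order2 o ho F hFinj
  have hcard : kap (M + 1) ≤ #(Set.range F) := by
    rw [mk_range_eq _ hFinj]
    exact (mk_ord_toType (kap (M + 1))).symm.le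
  have hnode : ∀ j k, Eqb n (o j) (o k) := fun j k i hi => (hf1 j i hi).trans (hf1 k i hi).symm
  have hcr : NoCross R (Set.range F) := by
    rintro _ ⟨ja, rfl⟩ _ ⟨jb, rfl⟩ _ ⟨jc, rfl⟩ _ ⟨jd, rfl⟩ t hac hab hcd ⟨h1, h2, h3⟩
    simp only [hRlt] at h1 h2 h3
    have hjac : ja ≠ jc := by rintro rfl; exact lt_irrefl _ h1
    have hjab : ja ≠ jb := by rintro rfl; exact lt_asymm h1 h2
    have hjcd : jc ≠ jd := by rintro rfl; exact lt_asymm h2 h3
    obtain ⟨q, hq, -⟩ := Q2c.exists_union (fun i : Fin 4 => r (e (f (![ja, jb, jc, jd] i))))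
      (fun i j => hcpt _ _)
    have hqa : q ≤ r (e (f ja)) := hq 0
    have hqb : q ≤ r (e (f jb)) := hq 1
    have hqc : q ≤ r (e (f jc)) := hq 2
    have hqd : q ≤ r (e (f jd)) := hq 3
    have hqq : q ≤ q₂ := hqa.trans (hD.rp _)
    refine hI q (hqq.trans hqp) (o ja) (o jb) (o jc) (o jd) _ _ _ _
      (hmono _ _ _ _ (hD.psi (e (f ja))).1 hqa)
      (hmono _ _ _ _ (hD.psi (e (f jb))).1 hqb) (hmono _ _ _ _ (hD.psi (e (f jc))).1 hqc)
      (hmono _ _ _ _ (hD.psi (e (f jd))).1 hqd) ?_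
    refine Or.inr (Or.inr (Or.inl ⟨h1, h2, h3, n, t, ⟨hnode _ _, ?_⟩, ⟨hnode _ _, ?_⟩,
      ⟨hnode _ _, ?_⟩⟩))
    · obtain ⟨δ, hδ⟩ := hFd ja jc hjac
      have h4 := (Q2c.fd_brn hδ).unique hac
      subst h4
      exact hδ.mono hqq
    · obtain ⟨δ, hδ⟩ := hFd ja jb hjab
      intro u hu
      obtain ⟨β, h5, h6⟩ := Q2c.agr_brn hδ hab u hu
      exact ⟨β, h5.mono hqq, h6.mono hqq⟩
    · obtain ⟨δ, hδ⟩ := hFd jc jd hjcd
      intro u hu
      obtain ⟨β, h5, h6⟩ := Q2c.agr_brn hδ hcd u hu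
      exact ⟨β, h5.mono hqq, h6.mono hqq⟩
  obtain ⟨D, D₁, y, h1, h2, h3, h4, h5⟩ := comb (R := R) (kap_reg (M + 1)) hcard hcr
  have hne : Nonempty (cutK M).θ.ord.ToType := by
    rw [nonempty_toType_iff]
    exact ((cutK M).cls.rθ.ord_pos).ne'
  have hk : ∀ d, ∃ k, d ∈ D → F k = y d := by
    intro d
    by_cases hd : d ∈ D
    · obtain ⟨k, hk⟩ := h3 d hd
      exact ⟨k, fun _ => hk⟩
    · exact ⟨hne.some, fun h => (hd h).elim⟩
  choose k hk using hk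
  have hkne : ∀ d ∈ D, ∀ d' ∈ D, d < d' → k d ≠ k d' := by
    intro d hd d' hd' hlt hkk
    have h6 := (h4 d hd d' hd' hlt).1.ne
    rw [← hk d hd, ← hk d' hd', hkk] at h6
    exact h6 rfl
  refine ⟨q₂, hq₂.trans hq₁, n, N, s, D, D₁, fun d => o (k d), fun d => e (f (k d)), r,
    ⟨h1, h2, hD.rp, fun ζ η hζη => hD.rhi' hζη, ?_, fun d _ => ⟨_, (hD.psi _).1⟩,
      fun d _ i hi => hf1 _ i hi, ?_, ?_, fun d _ d' _ => hcpt _ _, ?_, h5⟩⟩
  · intro d hd d' hd' hlt h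
    exact hkne d hd d' hd' hlt (hfinj (he.injective h))
  · intro d hd d' hd' hlt
    obtain ⟨δ, hδ⟩ := hFd (k d) (k d') (hkne d hd d' hd' hlt)
    have h6 := (h4 d hd d' hd' hlt).1
    rw [← hk d hd, ← hk d' hd'] at h6
    have h7 := (Q2c.fd_brn hδ).unique h6
    subst h7
    exact hδ
  · intro d hd d' hd' hlt
    have h6 := (h4 d hd d' hd' hlt).2
    rw [← hk d hd, ← hk d' hd', hRlt] at h6
    exact h6
  · intro d hd x' ε b' hb'
    have h6 := hrw _ _ _ _ hb'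
    rw [hN] at h6
    exact h6

end Pool.Agent.Helper96.Fc
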