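import Pool.Agent.Helper96.Fc.Blk2

/-!
# Construction of blocks, end
-/

open Cardinal Ordinal Set

namespace Pool.Agent.Helper96.Fc

section

variable {Φ : Pos → Sq → Pt → Prop} {M : ℕ} {q₂ : Pos} {n N : ℕ} {s : ℕ → Pt} {D D₁ : Set Pt}
  {y : Pt → Sq} {k : Pt → (cutK M).θ.ord.ToType} {r : (cutK M).θ.ord.ToType → Pos}

/-- **The level of a comb is high.** -/
theorem Cmb.high_level (hmono : ∀ r r' x ξ, Φ r x ξ → r' ≤ r → Φ r' x ξ) (p : Pos)
    (hI : ∀ q ≤ p, ∀ a b c d ξa ξb ξc ξd, Φ q a ξa → Φ q b ξb → Φ q c ξc → Φ q d ξd →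
      ¬ Col4s q a b c d) (h : Cmb Φ M q₂ n N s D D₁ y k r) (hq₂ : q₂ ≤ p) : M < n := by
  classical
  by_contra hnM
  rw [not_lt] at hnM
  have hemb : #((cutK M).θ.ord.ToType) ≤ #D₁ := by
    have h1 : #((cutK M).θ.ord.ToType) = kap (M + 1) := mk_ord_toType _
    rw [h1]
    exact h.large
  obtain ⟨g⟩ := hemb
  have hgD : ∀ η, (g η).1 ∈ D := fun η => h.sub (g η).2
  have hJ : (Sum.inl n : Lv) ∈ (cutK M).J := ⟨n, hnM, rfl⟩
  let ρ : Pt → Pos := fun d => r (k d)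
  have hshape : ∀ η, {z : Pt × Bool | Bit (ρ (g η).1) (.inl n) (g η).1 z.1 z.2} ⊆
      {z | od z.1 < (kap M).ord} ∧
      #{z : Pt × Bool | Bit (ρ (g η).1) (.inl n) (g η).1 z.1 z.2} < kap M := by
    intro η
    refine ⟨?_, ?_⟩
    · intro z hz
      have h1 : Bit (ρ (g η).1) (.inl n) (g η).1 z.1 z.2 := hz
      exact h1.lt.trans_le (ord_le_ord.2 (kap_strictMono.monotone hnM))
    · refine lt_of_le_of_lt ?_ ((cutK M).low _ (ρ (g η).1).2)
      refine mk_le_of_injective (f := fun z : {z : Pt × Bool | Bit (ρ (g η).1) (.inl n)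
        (g η).1 z.1 z.2} => (⟨((Sum.inl n, (g η).1, z.1.1), z.1.2), z.2, hJ⟩ :
          lo (cutK M).J (ρ (g η).1).1)) ?_
      intro z z' hzz
      have h1 := congrArg Subtype.val hzz
      have h2 := congrArg (fun t : Cell × Bool => t.1.2.2) h1
      have h3 := congrArg (fun t : Cell × Bool => t.2) h1
      exact Subtype.ext (Prod.ext h2 h3)
  obtain ⟨e, he, ⟨v, hv⟩, hcp⟩ := amalg (cutK M) (fun η => ρ (g η).1) (fun η => (g η).1)
    (fun η ζ hηζ => g.injective (Subtype.ext hηζ)) (Q2c.mk_shapes_lt M)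
    (fun η => ⟨_, hshape η⟩)
  have hsh : ∀ k, {z : Pt × Bool | Bit (ρ (g (e k)).1) (.inl n) (g (e k)).1 z.1 z.2} = v.1 :=
    fun k => congrArg Subtype.val (hv k)
  have hinf : (Set.range fun k => (g (e k)).1).Infinite := by
    have : Infinite (cutK M).θ.ord.ToType := by
      rw [infinite_iff]
      have h1 : #((cutK M).θ.ord.ToType) = kap (M + 1) := mk_ord_toType _
      rw [h1]
      exact aleph0_le_kap _
    refine Set.infinite_range_of_injective ?_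
    intro j k hjk
    exact he.injective (g.injective (Subtype.ext hjk))
  obtain ⟨F, hF, hF4⟩ := hinf.exists_subset_card_eq 4
  let d : Fin 4 ↪o Pt := F.orderEmbOfFin hF4
  have hd : ∀ i, ∃ k, (g (e k)).1 = d i := fun i => hF (F.orderEmbOfFin_mem hF4 i)
  choose κ hκ using hd
  have hkne : ∀ i j, i ≠ j → κ i ≠ κ j := by
    intro i j hij hkk
    apply hij
    apply d.injective
    rw [← hκ i, ← hκ j, hkk]
  have hdD₁ : ∀ i, d i ∈ D₁ := fun i => hκ i ▸ (g _).2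
  have hdD : ∀ i, d i ∈ D := fun i => h.sub (hdD₁ i)
  have hdσ : ∀ i, od (d i) < (sig (.inl n)).ord := by
    intro i
    obtain ⟨d', hd', hlt⟩ := h.next _ (hdD₁ i)
    exact (h.fd _ (hdD i) _ hd' hlt).lt
  have hsh' : ∀ i, {z : Pt × Bool | Bit (ρ (d i)) (.inl n) (d i) z.1 z.2} = v.1 := by
    intro i
    have h1 := hsh (κ i)
    rw [hκ i] at h1
    exact h1
  have htch : ∀ i j, i ≠ j → ¬ Tch (ρ (d i)) (.inl n) (d j) := by
    intro i j hij
    have h1 := (hcp (κ i) (κ j) (hkne i j hij)).2 _ hJ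
    simp only [hκ] at h1
    exact h1
  obtain ⟨q, hq, hq'⟩ := Q2c.exists_union (fun i => ρ (d i))
    (fun i j => h.cpt _ (hdD i) _ (hdD j))
  have hlt : ∀ i j, i < j → d i < d j := fun i j hij => d.strictMono hij
  have hown : ∀ i ε b, Bit q (.inl n) (d i) ε b → Bit (ρ (d i)) (.inl n) (d i) ε b := by
    intro i ε b hb
    obtain ⟨j, hj⟩ := hq' _ hb
    by_cases hij : j = i
    · subst hij
      exact hj
    · exact (htch j i hij ⟨ε, b, hj⟩).elim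
  have hsame : ∀ x ∈ Set.range d, ∀ x' ∈ Set.range d, ∀ ε b, Bit q (.inl n) x ε b →
      Bit q (.inl n) x' ε b := by
    rintro _ ⟨i, rfl⟩ _ ⟨j, rfl⟩ ε b hb
    have h1 := hown i ε b hb
    have h2 : (ε, b) ∈ {z : Pt × Bool | Bit (ρ (d i)) (.inl n) (d i) z.1 z.2} := h1
    rw [hsh' i, ← hsh' j] at h2
    exact Bit.mono (q := ρ (d j)) h2 (hq j)
  obtain ⟨q', hq'q, δ, -, -, hagr, hbit, -⟩ := ext_same q (.inl n) (Set.range d)
    (Set.finite_range d) (by rintro _ ⟨i, rfl⟩; exact hdσ i) hsame ∅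
    (by rw [mk_eq_zero]; exact rho_pos _) (fun x => decide (x = d 1))
  have hqr : ∀ i, q' ≤ ρ (d i) := fun i => hq'q.trans (hq i)
  have hqq₂ : q' ≤ q₂ := (hqr 0).trans (h.le _)
  have hin : ∀ i, ∃ ξ, Φ q' (y (d i)) ξ := by
    intro i
    obtain ⟨ξ, hξ⟩ := h.inn _ (hdD i)
    exact ⟨ξ, hmono _ _ _ _ hξ (hqr i)⟩
  have hb0 : Bit q' (.inl n) (d 0) δ false := by
    have h1 := hbit (d 0) ⟨0, rfl⟩
    rwa [decide_eq_false (hlt 0 1 (by decide)).ne] at h1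
  have hb1 : Bit q' (.inl n) (d 1) δ true := by
    have h1 := hbit (d 1) ⟨1, rfl⟩
    rwa [decide_eq_true rfl] at h1
  have hb2 : Bit q' (.inl n) (d 2) δ false := by
    have h1 := hbit (d 2) ⟨2, rfl⟩
    rwa [decide_eq_false (hlt 1 2 (by decide)).ne'] at h1
  have hTA : TAn q' n (d 0) (d 1) (d 2) :=
    ⟨hlt 0 1 (by decide), hlt 1 2 (by decide), δ, false,
      ⟨hagr _ ⟨0, rfl⟩ _ ⟨1, rfl⟩, hb0, hb1⟩, ⟨hagr _ ⟨2, rfl⟩ _ ⟨1, rfl⟩, hb2, hb1⟩⟩
  obtain ⟨ξ0, h0⟩ := hin 0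
  obtain ⟨ξ1, h1⟩ := hin 1
  obtain ⟨ξ2, h2⟩ := hin 2
  obtain ⟨ξ3, h3⟩ := hin 3
  have hfd : ∀ i j, i < j → Sp q' n (y (d i)) (y (d j)) (d i) := fun i j hij =>
    ⟨fun l hl => (h.node _ (hdD i) l hl).trans (h.node _ (hdD j) l hl).symm,
      (h.fd _ (hdD i) _ (hdD j) (hlt i j hij)).mono hqq₂⟩
  have hy : ∀ i j, i < j → y (d i) < y (d j) := fun i j hij =>
    h.mono _ (hdD i) _ (hdD j) (hlt i j hij)
  exact hI q' (hqq₂.trans hq₂) _ _ _ _ _ _ _ _ h0 h1 h2 h3 (Or.inl ⟨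
    hy 0 1 (by decide), hy 1 2 (by decide), hy 1 3 (by decide), n, d 0, d 1, d 2,
    hfd 0 1 (by decide), hfd 0 2 (by decide), hfd 0 3 (by decide), hfd 1 2 (by decide),
    hfd 1 3 (by decide), hfd 2 3 (by decide), hTA⟩)

/-- **The last thinning.** -/
theorem Cmb.blk (h : Cmb Φ M q₂ n N s D D₁ y k r) (hn : M < n) :
    ∃ q₃ D', Blk Φ M q₂ q₃ n N s D' y (fun d => r (k d)) := by
  classical
  obtain ⟨u, hu, huD⟩ := exists_strictMono h.large
  change (cutK M).θ.ord.ToType → Pt at u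
  have huD' : ∀ j, u j ∈ D := fun j => h.sub (huD j)
  -- low parts
  let L : (cutK M).θ.ord.ToType → Set (Cell × Bool) := fun j => lo (cutK M).J (r (k (u j))).1
  obtain ⟨R, c0, e, -, he, hR1, hR2⟩ := (cutK M).cls.thin L (fun j => (cutK M).low _ (r _).2)
    (C := Unit) (fun _ => ())
    (by rw [mk_unit]; exact one_lt_aleph0.trans_le (cutK M).cls.rθ.aleph0_le) L
    (fun j => ((cutK M).low _ (r _).2).trans (cutK M).cls.lt)
  -- the first `κ_M` elements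
  have hle : (kap M).ord ≤ (cutK M).θ.ord := ord_le_ord.2 (kap_lt_succ M).le
  have hle' : type ((· < ·) : (kap M).ord.ToType → (kap M).ord.ToType → Prop) ≤
      type ((· < ·) : (cutK M).θ.ord.ToType → (cutK M).θ.ord.ToType → Prop) := by
    rw [type_toType, type_toType]
    exact hle
  obtain ⟨W⟩ := type_le_iff'.1 hle'
  let w : (kap M).ord.ToType → (cutK M).θ.ord.ToType := W
  have hw : StrictMono w := fun a b hab => W.map_rel_iff.2 hab
  let f : (kap M).ord.ToType → Pt := fun i => u (e (w i))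
  have hf : StrictMono f := fun a b hab => hu (he (hw hab))
  -- an index above all indices
  have hbig : ∃ j, ∀ i, k (f i) < k (u (e j)) := by
    obtain ⟨b, hb⟩ := exists_bound (cutK M).cls.rθ (B := (kap M).ord.ToType)
      (by rw [mk_ord_toType]; exact kap_lt_succ M) (fun i => k (f i))
    have hinj : Function.Injective (fun j => k (u (e j))) := by
      intro a c hac
      by_contra hne
      rcases lt_or_gt_of_ne hne with hlt | hlt
      · exact h.kinj _ (huD' _) _ (huD' _) (hu (he hlt)) hac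
      · exact h.kinj _ (huD' _) _ (huD' _) (hu (he hlt)) hac.symm
    have hnot : ¬ #(Set.range (fun j => k (u (e j)))) < (cutK M).θ := by
      rw [mk_range_eq _ hinj, mk_ord_toType]
      exact lt_irrefl _
    obtain ⟨_, ⟨j, rfl⟩, hj⟩ := exists_gt_of_not_small (cutK M).cls.rθ.aleph0_le hnot b
    exact ⟨j, fun i => (hb i).trans hj⟩
  obtain ⟨j, hj⟩ := hbig
  let Q : Set (Cell × Bool) := q₂.1 ∪ R ∪ ⋃ i, hi (cutK M).J (r (k (f i))).1
  have hQ : Q ⊆ (r (k (u (e j)))).1 := by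
    rintro t ((ht | ht) | ht)
    · exact h.le _ ht
    · exact ((hR1 j).2 ht).1
    · obtain ⟨i, hi⟩ := mem_iUnion.1 ht
      exact h.high _ _ (hj i).le hi
  have hQc : IsCond Q := (r (k (u (e j)))).2.mono hQ
  have hDf : ∀ i, f i ∈ D := fun i => huD' _
  refine ⟨⟨Q, hQc⟩, Set.range f, ?_⟩
  constructor
  · exact fun t ht => Or.inl (Or.inl ht)
  · exact hn
  · exact fun d _ => h.le _
  · rintro _ ⟨i, rfl⟩
    exact h.inn _ (hDf i)
  · rintro _ ⟨i, rfl⟩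
    exact h.node _ (hDf i)
  · rintro _ ⟨i, rfl⟩ _ ⟨i', rfl⟩
    exact h.fd _ (hDf i) _ (hDf i')
  · rintro _ ⟨i, rfl⟩ _ ⟨i', rfl⟩
    exact h.mono _ (hDf i) _ (hDf i')
  · rintro _ ⟨i, rfl⟩ t ht
    exact Or.inr (mem_iUnion.2 ⟨i, ht⟩)
  · rintro _ ⟨i, rfl⟩ _ ⟨i', rfl⟩
    exact h.cpt _ (hDf i) _ (hDf i')
  · -- few incompatible conditions
    intro q hq
    have key : ∀ d : {d : Pt | d ∈ Set.range f ∧ ¬ Cpt q.1 (r (k d)).1}, ∃ t : Cell × Bool,
        t ∈ lo (cutK M).J q.1 ∧ ∃ i, f i = d.1 ∧ (t.1, !t.2) ∈ L (e (w i)) ∧ (t.1, !t.2) ∉ R := by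
      rintro ⟨_, ⟨i, rfl⟩, hc⟩
      unfold Cpt at hc
      push Not at hc
      obtain ⟨c, b, b', h1, h2, h3⟩ := hc
      have hcJ : c.1 ∈ (cutK M).J := by
        by_contra hcJ
        have h4 : (c, b') ∈ Q := Or.inr (mem_iUnion.2 ⟨i, h2, hcJ⟩)
        exact h3 (q.2.func _ _ _ h1 (hq h4))
      have hb : b' = !b := by
        revert h3
        cases b <;> cases b' <;> simp
      subst hb
      refine ⟨(c, b), ⟨h1, hcJ⟩, i, rfl, ⟨h2, hcJ⟩, ?_⟩
      intro h4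
      have h5 : (c, !b) ∈ Q := Or.inl (Or.inr h4)
      exact h3 (q.2.func _ _ _ h1 (hq h5))
    choose t ht1 ht2 using key
    refine lt_of_le_of_lt ?_ ((cutK M).low _ q.2)
    refine mk_le_of_injective (f := fun d => (⟨t d, ht1 d⟩ : lo (cutK M).J q.1)) ?_
    intro d d' hdd
    have htt : t d = t d' := congrArg Subtype.val hdd
    obtain ⟨i, hi, h1, h2⟩ := ht2 d
    obtain ⟨i', hi', h1', h2'⟩ := ht2 d'
    rw [← htt] at h1'
    have hii : i = i' := by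
      by_contra hne
      rcases lt_or_gt_of_ne hne with hlt | hlt
      · exact h2 (hR2 _ _ (hw hlt) ⟨h1', h1⟩)
      · exact h2 (hR2 _ _ (hw hlt) ⟨h1, h1'⟩)
    apply Subtype.ext
    rw [← hi, ← hi', hii]
  · rintro _ ⟨i, rfl⟩
    exact h.row _ (hDf i)
  · intro T hT hTc
    have hch : ∀ t : T, ∃ i, f i = t.1 := fun t => hT t.2
    choose g hg using hch
    obtain ⟨b, hb⟩ := exists_bound (kap_reg M) hTc g
    refine ⟨f b, ⟨b, rfl⟩, fun t ht => ?_⟩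
    have h1 := hf (hb ⟨t, ht⟩)
    rwa [hg] at h1
  · refine mk_range_le.trans ?_
    rw [mk_ord_toType]

end

/-- **Existence of blocks.** -/
theorem exists_blk (Φ : Pos → Sq → Pt → Prop)
    (hmono : ∀ r r' x ξ, Φ r x ξ → r' ≤ r → Φ r' x ξ)
    (hfun : ∀ r x ξ ξ', Φ r x ξ → Φ r x ξ' → ξ = ξ')
    (p : Pos) (hp : ∀ ξ, od ξ < kapω.ord → ∀ q ≤ p, ∃ r ≤ q, ∃ x, Φ r x ξ)
    (hI : ∀ q ≤ p, ∀ a b c d ξa ξb ξc ξd, Φ q a ξa → Φ q b ξb → Φ q c ξc → Φ q d ξd →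
      ¬ Col4s q a b c d)
    (M : ℕ) (hM : 1 ≤ M) (p' : Pos) (hp' : p' ≤ p) :
    ∃ q₂ ≤ p', ∃ q₃ n N s D y r, Blk Φ M q₂ q₃ n N s D y r := by
  obtain ⟨q₂, hq₂, n, N, s, D, D₁, y, k, r, h⟩ := exists_cmb Φ hmono hfun p hp hI M hM p' hp'
  obtain ⟨q₃, D', hb⟩ := h.blk (h.high_level hmono p hI (hq₂.trans hp'))
  exact ⟨q₂, hq₂, q₃, n, N, s, D', y, _, hb⟩

end Pool.Agent.Helper96.Fc
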