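import Pool.Agent.Helper96.Fc.Good
import Pool.Agent.Helper96.Fc.Q1core

/-!
# Names for columns, codes of subsets, collapses
-/

open Cardinal Ordinal Set

set_option linter.unusedSectionVars false

namespace Pool.Agent.Helper96.Fc

/-- canonical name of a point -/
noncomputable def oN (x : Pt) : Nm Pos := ordN Pos (od x)

theorem oN_inj {x y : Pt} (h : oN x = oN y) : x = y := od_inj (ordN_inj' h)

theorem oN_inj' {x y : Pt} {p : Pos} (h : FEq (oN x) (oN y) p) : x = y := od_inj (ordN_inj h)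

/-- name of the column -/
noncomputable def clmN (i : Lv) (x : Pt) : Nm Pos :=
  Nm.mk {t : Pt × Pos // Bit t.2 i x t.1 true} (fun t => oN t.1.1) (fun t => t.1.2)

/-- name coded by a set of pairs -/
noncomputable def cdN (T : Set (Pt × Pos)) : Nm Pos :=
  Nm.mk T (fun t => oN t.1.1) (fun t => t.1.2)

/-- name of a finite family -/
def finN {P : Type} [PartialOrder P] [OrderTop P] {k : ℕ} (v : Fin k → Nm P) : Nm P :=
  Nm.mk (Fin k) v (fun _ => ⊤)

theorem finN_inj {P : Type} [PartialOrder P] [OrderTop P] {k : ℕ} {v w : Fin k → Nm P}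
    (h : finN v = finN w) : v = w := eq_of_heq (Nm.mk.inj h).2.1

/-- the cut of a coordinate -/
noncomputable def cutOf : Lv → Cut
  | .inl n => cutK n
  | .inr n => cutL n

theorem rho_lt_cutOf (i : Lv) : rho i < (cutOf i).θ := by
  rcases i with n | n
  · exact kap_lt_succ n
  · exact lam_lt_succ n

/-- codes -/
def IsCode (i : Lv) (T : Set (Pt × Pos)) : Prop :=
  #T < (cutOf i).θ ∧ ∀ t ∈ T, od t.1 < (rho i).ord ∧ ∀ e ∈ t.2.1, e.1.1 ∈ (cutOf i).J

theorem mk_small_le {α : Type} {σ χ : Cardinal.{0}} (h1 : #α ≤ σ) (h2 : σ ^ χ ≤ σ) (h3 : ℵ₀ ≤ σ) :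
    #{T : Set α // #T ≤ χ} ≤ σ :=
  (mk_bounded_set_le α χ).trans ((power_le_power_right (max_le h1 h3)).trans h2)

/-- the exponent attached to a coordinate -/
noncomputable def chi : Lv → Cardinal.{0}
  | .inl _ => kapω
  | .inr _ => lamω

theorem sig_pow (i : Lv) : sig i ^ chi i ≤ sig i := by
  rcases i with n | n
  · exact lam_pow n
  · exact mu_pow n

theorem aleph0_le_sig (i : Lv) : ℵ₀ ≤ sig i := by
  rcases i with n | n
  · exact aleph0_le_lam n
  · exact aleph0_le_mu n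

theorem cutOf_θ_le (i : Lv) : (cutOf i).θ ≤ chi i := by
  rcases i with n | n
  · exact kap_le_kapω _
  · exact lam_le_lamω _

theorem sig_mono_of_mem {i j : Lv} (h : j ∈ (cutOf i).J) : sig j ≤ sig i ∧ rho j ≤ rho i := by
  rcases i with n | n
  · obtain ⟨m, hm, rfl⟩ := h
    exact ⟨lam_strictMono.monotone hm, kap_strictMono.monotone hm⟩
  · rcases j with m | m
    · exact ⟨(lam_lt_mu _ _).le, (kap_lt_lam _ _).le⟩
    · exact ⟨mu_strictMono.monotone (h m rfl), lam_strictMono.monotone (h m rfl)⟩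

theorem mk_low_le (i : Lv) : #{l : Pos // ∀ e ∈ l.1, e.1.1 ∈ (cutOf i).J} ≤ sig i := by
  -- cells
  let C : Type := Lv × {x : Pt // od x < (sig i).ord} × {x : Pt // od x < (rho i).ord} × Bool
  have hC : #C ≤ sig i := by
    have h1 : #C = #Lv * (sig i * (rho i * 2)) := by
      simp only [C, mk_prod, Cardinal.lift_id]
      rw [mk_od_lt (sig_le i), mk_od_lt ((rho_lt_sig i).le.trans (sig_le i))]
      simp
    rw [h1]
    refine (mul_le_mul' (mk_le_aleph0) (mul_le_mul' le_rfl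
      (mul_le_mul' (rho_lt_sig i).le ((natCast_lt_aleph0 (n := 2)).le.trans
        (aleph0_le_sig i))))).trans ?_
    rw [mul_eq_self (aleph0_le_sig i), mul_eq_self (aleph0_le_sig i),
      mul_eq_right (aleph0_le_sig i) (aleph0_le_sig i) aleph0_ne_zero]
  have h2 : #{l : Pos // ∀ e ∈ l.1, e.1.1 ∈ (cutOf i).J} ≤ #{T : Set C // #T ≤ chi i} := by
    refine mk_le_of_injective (f := fun l => ⟨{c : C |
      (((c.1, c.2.1.1, c.2.2.1.1) : Cell), c.2.2.2) ∈ l.1.1}, ?_⟩) ?_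
    · have h3 := (cutOf i).low _ l.1.2
      have h4 : lo (cutOf i).J l.1.1 = l.1.1 := by
        ext t
        exact ⟨fun h => h.1, fun h => ⟨h, l.2 t h⟩⟩
      rw [h4] at h3
      refine (lt_of_le_of_lt ?_ (h3.trans (cutOf i).cls.lt)).le.trans (cutOf_θ_le i)
      refine mk_le_of_injective (f := fun c : {c : C |
        (((c.1, c.2.1.1, c.2.2.1.1) : Cell), c.2.2.2) ∈ l.1.1} => (⟨_, c.2⟩ : l.1.1)) ?_
      rintro ⟨⟨a1, ⟨b1, hb1⟩, ⟨c1, hc1⟩, d1⟩, h5⟩ ⟨⟨a2, ⟨b2, hb2⟩, ⟨c2, hc2⟩, d2⟩, h6⟩ h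
      simp only [Subtype.mk.injEq, Prod.mk.injEq] at h
      obtain ⟨⟨rfl, rfl, rfl⟩, rfl⟩ := h
      rfl
    · intro l l' hll'
      have h3 := congrArg Subtype.val hll'
      simp only at h3
      have key : ∀ l l' : {l : Pos // ∀ e ∈ l.1, e.1.1 ∈ (cutOf i).J},
          {c : C | (((c.1, c.2.1.1, c.2.2.1.1) : Cell), c.2.2.2) ∈ l.1.1} =
          {c : C | (((c.1, c.2.1.1, c.2.2.1.1) : Cell), c.2.2.2) ∈ l'.1.1} → l.1.1 ⊆ l'.1.1 := by
        intro l l' h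
        rintro ⟨⟨j, x, ε⟩, b⟩ ht
        have h4 := sig_mono_of_mem (l.2 _ ht)
        have h5 := l.1.2.dom _ _ ht
        have h6 : ((j, ⟨x, h5.1.trans_le (ord_le_ord.2 h4.1)⟩,
            ⟨ε, h5.2.trans_le (ord_le_ord.2 h4.2)⟩, b) : C) ∈
            {c : C | (((c.1, c.2.1.1, c.2.2.1.1) : Cell), c.2.2.2) ∈ l.1.1} := ht
        rw [h] at h6
        exact h6
      exact Subtype.ext (Subtype.ext (Subset.antisymm (key l l' h3) (key l' l h3.symm)))
  exact h2.trans (mk_small_le hC (sig_pow i) (aleph0_le_sig i))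

theorem mk_code_le (i : Lv) : #{T : Set (Pt × Pos) // IsCode i T} ≤ sig i := by
  let C : Type := {x : Pt // od x < (rho i).ord} × {l : Pos // ∀ e ∈ l.1, e.1.1 ∈ (cutOf i).J}
  have hC : #C ≤ sig i := by
    have h1 : #C = rho i * #{l : Pos // ∀ e ∈ l.1, e.1.1 ∈ (cutOf i).J} := by
      simp only [C, mk_prod, Cardinal.lift_id]
      rw [mk_od_lt ((rho_lt_sig i).le.trans (sig_le i))]
    rw [h1]
    refine (mul_le_mul' (rho_lt_sig i).le (mk_low_le i)).trans ?_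
    rw [mul_eq_self (aleph0_le_sig i)]
  have h2 : #{T : Set (Pt × Pos) // IsCode i T} ≤ #{T : Set C // #T ≤ chi i} := by
    refine mk_le_of_injective (f := fun T => ⟨{c : C | (c.1.1, c.2.1) ∈ T.1}, ?_⟩) ?_
    · refine le_trans ?_ (T.2.1.le.trans (cutOf_θ_le i))
      refine mk_le_of_injective (f := fun c : {c : C | (c.1.1, c.2.1) ∈ T.1} =>
        (⟨_, c.2⟩ : T.1)) ?_
      rintro ⟨⟨⟨a1, ha1⟩, ⟨b1, hb1⟩⟩, h5⟩ ⟨⟨⟨a2, ha2⟩, ⟨b2, hb2⟩⟩, h6⟩ h
      simp only [Subtype.mk.injEq, Prod.mk.injEq] at h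
      obtain ⟨rfl, rfl⟩ := h
      rfl
    · intro T T' hTT'
      have h3 := congrArg Subtype.val hTT'
      simp only at h3
      have key : ∀ T T' : {T : Set (Pt × Pos) // IsCode i T},
          {c : C | (c.1.1, c.2.1) ∈ T.1} = {c : C | (c.1.1, c.2.1) ∈ T'.1} → T.1 ⊆ T'.1 := by
        intro T T' h
        rintro ⟨x, l⟩ ht
        have h6 : ((⟨x, (T.2.2 _ ht).1⟩, ⟨l, (T.2.2 _ ht).2⟩) : C) ∈
            {c : C | (c.1.1, c.2.1) ∈ T.1} := ht
        rw [h] at h6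
        exact h6
      exact Subtype.ext (Subset.antisymm (key T T' h3) (key T' T h3.symm))
  exact h2.trans (mk_small_le hC (sig_pow i) (aleph0_le_sig i))

theorem exists_enc (i : Lv) : ∃ enc : Pt → Set (Pt × Pos),
    (∀ x, IsCode i (enc x)) ∧ ∀ T, IsCode i T → ∃ x, od x < (sig i).ord ∧ enc x = T := by
  classical
  have h1 : #{T : Set (Pt × Pos) // IsCode i T} ≤ #{x : Pt // od x < (sig i).ord} := by
    rw [mk_od_lt (sig_le i)]
    exact mk_code_le i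
  obtain ⟨f⟩ := h1
  have h0 : IsCode i ∅ := by
    refine ⟨?_, fun t ht => ht.elim⟩
    rw [mk_eq_zero]
    exact (cutOf i).cls.rθ.pos
  refine ⟨fun x => if h : ∃ T, (f T).1 = x then h.choose.1 else ∅, ?_, ?_⟩
  · intro x
    by_cases h : ∃ T, (f T).1 = x
    · simp only [dif_pos h]
      exact h.choose.2
    · simp only [dif_neg h]
      exact h0
  · intro T hT
    refine ⟨(f ⟨T, hT⟩).1, (f ⟨T, hT⟩).2, ?_⟩
    have h : ∃ T', (f T').1 = (f ⟨T, hT⟩).1 := ⟨_, rfl⟩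
    simp only [dif_pos h]
    have := f.injective (Subtype.ext h.choose_spec)
    rw [this]

/-- enumeration of the codes -/
noncomputable def enc (i : Lv) : Pt → Set (Pt × Pos) := (exists_enc i).choose

theorem enc_code (i : Lv) (x : Pt) : IsCode i (enc i x) := (exists_enc i).choose_spec.1 x

theorem enc_surj (i : Lv) {T : Set (Pt × Pos)} (hT : IsCode i T) :
    ∃ x, od x < (sig i).ord ∧ enc i x = T := (exists_enc i).choose_spec.2 T hT

/-- agreement of two names on `ρ_i` -/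
def Agn (i : Lv) (y z : Nm Pos) (q : Pos) : Prop :=
  ∀ ε, od ε < (rho i).ord → ∀ r ≤ q, (FMem (oN ε) y r ↔ FMem (oN ε) z r)

/-- **Every name of a subset of `ρ_i` is below a dense set of conditions equal to a coded one.** -/
theorem dense_code' (i : Lv) (y : Nm Pos) (q : Pos) :
    ∃ q' ≤ q, lo (cutOf i).J q'.1 = lo (cutOf i).J q.1 ∧
      ∃ x, od x < (sig i).ord ∧ Agn i y (cdN (enc i x)) q' := by
  obtain ⟨q', hq', hlo, T, hT1, hT2, hT3⟩ := nice (cutOf i) (Z := {ε : Pt // od ε < (rho i).ord})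
    (by
      rw [mk_od_lt ((rho_lt_sig i).le.trans (sig_le i))]
      exact rho_lt_cutOf i)
    (fun ε r => FMem (oN ε.1) y r) (fun ε r r' h hr => h.mono hr) q
  have hcode : IsCode i ((fun t : {ε : Pt // od ε < (rho i).ord} × Pos => (t.1.1, t.2)) '' T) := by
    refine ⟨mk_image_le.trans_lt hT1, ?_⟩
    rintro _ ⟨t, ht, rfl⟩
    exact ⟨t.1.2, (hT2 t ht).1⟩
  obtain ⟨x, hx, hxT⟩ := enc_surj i hcode
  refine ⟨q', hq', hlo, x, hx, ?_⟩
  intro ε hε r hr
  rw [hxT]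
  constructor
  · intro h s hs
    obtain ⟨l, hl, hlc⟩ := hT3 ⟨ε, hε⟩ s (hs.trans hr) (h.mono hs)
    obtain ⟨t, ht1, ht2⟩ := Pos.compat_iff.2 hlc
    exact ⟨t, ht2, ⟨(ε, l), ⟨_, hl, rfl⟩⟩, ht1, FEq.refl _ _⟩
  · intro h
    apply FMem.dense
    intro s hs
    obtain ⟨s', hs', ⟨⟨ε', l⟩, ⟨⟨ε'', l'⟩, hl, he⟩⟩, h1, h2⟩ := h s hs
    simp only [Prod.mk.injEq] at he
    obtain ⟨rfl, rfl⟩ := he
    change s' ≤ l' at h1
    change FEq (oN ε) (oN ε''.1) s' at h2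
    have h3 := oN_inj' h2
    obtain ⟨-, s0, hs0, hA, hs0e⟩ := hT2 _ hl
    simp only at hA hs0e
    rw [← h3] at hA
    refine ⟨s', hs', hA.mono ?_⟩
    intro t ht
    rw [hs0e] at ht
    rcases ht with ht | ht
    · exact h1 ht
    · exact (hs'.trans (hs.trans hr)) ht

theorem dense_code (i : Lv) (y : Nm Pos) (q : Pos) :
    ∃ q' ≤ q, ∃ x, od x < (sig i).ord ∧ Agn i y (cdN (enc i x)) q' := by
  obtain ⟨q', hq', -, x, hx, h⟩ := dense_code' i y q
  exact ⟨q', hq', x, hx, h⟩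

/-- `q` decides the column below `z` -/
def Dcd (q : Pos) (i : Lv) (x z : Pt) : Prop := ∀ ε < z, ∃ b, Bit q i x ε b

/-- the decided part -/
def rd (q : Pos) (i : Lv) (x z : Pt) : Set Pt := {ε | ε < z ∧ Bit q i x ε true}

theorem kap_le_muω (n : ℕ) : kap n ≤ muω :=
  (kap_lt_lam n 0).le.trans ((lam_lt_mu 0 0).le.trans (mu_le_muω 0))

theorem exists_pairing (n : ℕ) : ∃ h : Pt → Pt × Pt, ∀ x z, od x < (kap n).ord →
    od z < (kap n).ord → ∃ ν, od ν < (kap n).ord ∧ h ν = (x, z) := by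
  classical
  have h1 : #({x : Pt // od x < (kap n).ord} × {x : Pt // od x < (kap n).ord}) ≤
      #{x : Pt // od x < (kap n).ord} := by
    rw [mk_prod, Cardinal.lift_id, mk_od_lt (kap_le_muω n), mul_eq_self (aleph0_le_kap n)]
  obtain ⟨f⟩ := h1
  refine ⟨fun ν => if h : ∃ t, (f t).1 = ν then (h.choose.1.1, h.choose.2.1) else (ν, ν), ?_⟩
  intro x z hx hz
  refine ⟨(f (⟨x, hx⟩, ⟨z, hz⟩)).1, (f _).2, ?_⟩
  have h : ∃ t, (f t).1 = (f (⟨x, hx⟩, ⟨z, hz⟩)).1 := ⟨_, rfl⟩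
  simp only [dif_pos h]
  have := f.injective (Subtype.ext h.choose_spec)
  rw [this]

/-- decoding of pairs -/
noncomputable def prn (n : ℕ) : Pt → Pt × Pt := (exists_pairing n).choose

theorem prn_surj (n : ℕ) {x z : Pt} (hx : od x < (kap n).ord) (hz : od z < (kap n).ord) :
    ∃ ν, od ν < (kap n).ord ∧ prn n ν = (x, z) := (exists_pairing n).choose_spec x z hx hz

theorem mk_Iio_pt {c : Cardinal.{0}} (hc : c ≤ muω) {ν : Cardinal.{0}} (h : ν < c) :
    ∃ z : Pt, od z < c.ord ∧ #(Iio z) = ν := by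
  have h1 : ν.ord < c.ord := ord_lt_ord.2 h
  obtain ⟨z, hz⟩ := exists_od (h1.trans_le (ord_le_ord.2 hc))
  refine ⟨z, hz ▸ h1, ?_⟩
  have e : Iio z = {x : Pt | od x < ν.ord} := by
    ext x
    rw [mem_Iio, ← od_lt_od, hz]
    rfl
  rw [e]
  exact mk_od_lt (h.le.trans hc)

theorem exists_sur (n : ℕ) (α : Ordinal.{0}) (hα : α < (kap (n + 1)).ord) :
    ∃ s : Pt → Set Pt → Ordinal.{0}, ∀ β < α, ∃ z u, od z < (kap n).ord ∧ u ⊆ Iio z ∧
      s z u = β := by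
  classical
  let Sh : Type := {t : Pt × Set Pt // od t.1 < (kap n).ord ∧ t.2 ⊆ Iio t.1}
  have h1 : 2 ^< kap n ≤ #Sh := by
    rw [powerlt_le]
    intro ν hν
    obtain ⟨z, hz1, hz2⟩ := mk_Iio_pt (kap_le_muω n) hν
    rw [← hz2, ← mk_set]
    refine mk_le_of_injective (f := fun u : Set (Iio z) =>
      (⟨(z, Subtype.val '' u), hz1, by rintro _ ⟨a, -, rfl⟩; exact a.2⟩ : Sh)) ?_
    intro u v huv
    have h2 := congrArg (fun t : Sh => t.1.2) huv
    exact Subtype.val_injective.image_injective h2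
  have h2 : #α.ToType ≤ #Sh := by
    rw [mk_toType]
    refine le_trans ?_ h1
    exact Order.lt_succ_iff.1 (lt_ord.1 hα)
  obtain ⟨f⟩ := h2
  refine ⟨fun z u => if h : ∃ b : α.ToType, (f b).1 = (z, u) then (ToType.toOrd h.choose).1 else 0,
    ?_⟩
  intro β hβ
  refine ⟨(f (ToType.mk ⟨β, hβ⟩)).1.1, (f (ToType.mk ⟨β, hβ⟩)).1.2, (f _).2.1, (f _).2.2, ?_⟩
  have h : ∃ b : α.ToType, (f b).1 = ((f (ToType.mk ⟨β, hβ⟩)).1.1, (f (ToType.mk ⟨β, hβ⟩)).1.2) :=
    ⟨_, rfl⟩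
  simp only [dif_pos h]
  have := f.injective (Subtype.ext h.choose_spec)
  rw [this]
  simp

open Classical in
/-- decoding of ordinals -/
noncomputable def sur (n : ℕ) (α : Ordinal.{0}) : Pt → Set Pt → Ordinal.{0} :=
  if hα : α < (kap (n + 1)).ord then (exists_sur n α hα).choose else fun _ _ => 0

theorem sur_spec {n : ℕ} {α : Ordinal.{0}} (hα : α < (kap (n + 1)).ord) {β : Ordinal.{0}}
    (hβ : β < α) : ∃ z u, od z < (kap n).ord ∧ u ⊆ Iio z ∧ sur n α z u = β := by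
  rw [sur, dif_pos hα]
  exact (exists_sur n α hα).choose_spec β hβ

/-- name of a collapsing function -/
noncomputable def clN (n : ℕ) (α : Ordinal.{0}) : Nm Pos :=
  Nm.mk {t : Pt × Pos // od t.1 < (kap n).ord ∧ Dcd t.2 (.inl n) (prn n t.1).1 (prn n t.1).2}
    (fun t => pairN (oN t.1.1) (ordN Pos (sur n α (prn n t.1.1).2
      (rd t.1.2 (.inl n) (prn n t.1.1).1 (prn n t.1.1).2)))) (fun t => t.1.2)

/-- extending an untouched column -/
theorem ext_col (q : Pos) (i : Lv) (x : Pt) (hx : od x < (sig i).ord) (hno : ¬ Tch q i x) (z : Pt)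
    (hz : od z < (rho i).ord) (u : Set Pt) :
    ∃ q' ≤ q, Dcd q' i x z ∧ rd q' i x z = u ∩ Iio z := by
  classical
  let E : Set (Cell × Bool) := {t | t.1.1 = i ∧ t.1.2.1 = x ∧ t.1.2.2 < z ∧
    t.2 = decide (t.1.2.2 ∈ u)}
  have hE : IsCond E := by
    constructor
    · rintro c b b' ⟨-, -, -, h1⟩ ⟨-, -, -, h2⟩
      exact h1.trans h2.symm
    · rintro ⟨i', x', ε⟩ b ⟨h1, h2, h3, -⟩
      simp only at h1 h2 h3 ⊢
      subst h1 h2
      exact ⟨hx, (od_lt_od.2 h3).trans hz⟩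
    · intro j
      by_cases hj : j = i
      · subst hj
        refine lt_of_le_of_lt ?_ (mk_Iic_pt hz)
        refine mk_le_of_injective (f := fun t : {t : Cell × Bool | t ∈ E ∧ t.1.1 = j} =>
          (⟨t.1.1.2.2, t.2.1.2.2.1.le⟩ : Iic z)) ?_
        rintro ⟨⟨⟨i1, x1, ε1⟩, b1⟩, ⟨⟨h1, h2, h3, h4⟩, h6⟩⟩
          ⟨⟨⟨i2, x2, ε2⟩, b2⟩, ⟨⟨h1', h2', h3', h4'⟩, h6'⟩⟩ h
        simp only [Subtype.mk.injEq, Prod.mk.injEq] at h h1 h2 h4 h1' h2' h4' ⊢
        subst h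
        exact ⟨⟨h1.trans h1'.symm, h2.trans h2'.symm, rfl⟩, h4.trans h4'.symm⟩
      · have : {t : Cell × Bool | t ∈ E ∧ t.1.1 = j} = ∅ := by
          ext t
          simp only [mem_ofPred_eq, mem_empty_iff_false, iff_false]
          rintro ⟨h1, h2⟩
          exact hj (h2.symm.trans h1.1)
        rw [this, mk_eq_zero]
        exact rho_pos j
  refine ⟨⟨q.1 ∪ E, q.2.union hE ?_⟩, subset_union_left, ?_, ?_⟩
  · rintro ⟨i', x', ε⟩ b b' h1 ⟨h2, h3, -⟩
    simp only at h2 h3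
    subst h2 h3
    exact (hno ⟨ε, b, h1⟩).elim
  · intro ε hε
    exact ⟨decide (ε ∈ u), Or.inr ⟨rfl, rfl, hε, rfl⟩⟩
  · ext ε
    constructor
    · rintro ⟨h1, h2 | h2⟩
      · exact (hno ⟨ε, true, h2⟩).elim
      · exact ⟨of_decide_eq_true h2.2.2.2.symm, h1⟩
    · rintro ⟨h1, h2⟩
      exact ⟨h2, Or.inr ⟨rfl, rfl, h2, (decide_eq_true h1).symm⟩⟩

theorem dense_cl (n : ℕ) {α β : Ordinal.{0}} (hα : α < (kap (n + 1)).ord) (hβ : β < α) (q : Pos) :
    ∃ q' ≤ q, ∃ ν, od ν < (kap n).ord ∧ FMem (pairN (oN ν) (ordN Pos β)) (clN n α) q' := by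
  obtain ⟨z, u, hz, hu, hs⟩ := sur_spec hα hβ
  -- an untouched column
  have hx : ∃ x, od x < (kap n).ord ∧ ¬ Tch q (.inl n) x := by
    by_contra hcon
    push Not at hcon
    have h1 : #{x : Pt // od x < (kap n).ord} ≤ #{s : Pt | ∃ ε b, Bit q (.inl n) s ε b} :=
      mk_le_mk_of_subset (s := {x : Pt | od x < (kap n).ord}) (fun x hx => hcon x hx)
    rw [mk_od_lt (kap_le_muω n)] at h1
    exact absurd (mk_cols (q := q) (i := .inl n)) (not_lt.2 h1)
  obtain ⟨x, hx, hno⟩ := hx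
  obtain ⟨q', hq', hD, hrd⟩ := ext_col q (.inl n) x
    (hx.trans (ord_lt_ord.2 (kap_lt_lam n n))) hno z hz u
  obtain ⟨ν, hν, hν2⟩ := prn_surj n hx hz
  refine ⟨q', hq', ν, hν, ?_⟩
  have h1 : Dcd q' (.inl n) (prn n ν).1 (prn n ν).2 := by rw [hν2]; exact hD
  have h2 := FMem.of_fn (y := clN n α) (p := q') ⟨(ν, q'), hν, h1⟩ le_rfl
  have h3 : (clN n α).fn ⟨(ν, q'), hν, h1⟩ = pairN (oN ν) (ordN Pos β) := by
    change pairN (oN ν) (ordN Pos (sur n α (prn n ν).2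
      (rd q' (.inl n) (prn n ν).1 (prn n ν).2))) = _
    rw [hν2]
    simp only
    rw [hrd, inter_eq_left.2 hu, hs]
  rwa [h3] at h2

theorem dense_fd (i : Lv) {x y : Pt} (hx : od x < (sig i).ord) (hy : od y < (sig i).ord)
    (hxy : x ≠ y) (q : Pos) : ∃ q' ≤ q, ∃ δ, Fd q' i x y δ := by
  obtain ⟨q', hq', h, -⟩ := ext_all q (fun j => if j = i then {x, y} else ∅)
    (by
      intro j
      refine (lt_aleph0_iff_set_finite.2 ?_).trans_le (rho_reg j).aleph0_le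
      by_cases hj : j = i <;> simp [hj])
    (by
      intro j z hz
      by_cases hj : j = i
      · simp only [hj, if_true] at hz
        subst hj
        rcases hz with rfl | rfl
        · exact hx
        · exact hy
      · simp [hj] at hz)
  exact ⟨q', hq', h i x (by simp) y (by simp) hxy⟩

/-- **Preservation of cardinals.** -/
theorem no_surj (c : Cut) (Φ : Pos → Ordinal.{0} → Ordinal.{0} → Prop)
    (hmono : ∀ r r' β ξ, Φ r β ξ → r' ≤ r → Φ r' β ξ) {α : Ordinal.{0}} (hα : α < c.θ.ord)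
    {p : Pos} (hfun : ∀ q ≤ p, ∀ β ξ ξ', Φ q β ξ → Φ q β ξ' → ξ = ξ')
    (hp : ∀ ξ < c.θ.ord, ∀ q ≤ p, ∃ r ≤ q, ∃ β < α, Φ r β ξ) : False := by
  obtain ⟨b, r, d, hD⟩ := exists_desc c p (D := α.ToType)
    (fun η _ r d => Φ r (ToType.toOrd d).1 (ToType.toOrd η).1)
    (fun η b hb _ => by
      obtain ⟨r, hr, β, hβ, h⟩ := hp (ToType.toOrd η).1 (ToType.toOrd η).2 b hb
      refine ⟨r, hr, ToType.mk ⟨β, hβ⟩, ?_⟩
      have : (ToType.toOrd (ToType.mk (o := α) ⟨β, hβ⟩)).1 = β := by simp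
      rw [this]
      exact h)
  obtain ⟨ζ, η, hζη, hf, hc⟩ := cc c r (C := α.ToType)
    (by rw [mk_toType]; exact lt_ord.1 hα) d
  have hcpt : Cpt (r ζ).1 (r η).1 := cpt_of_parts hc (hD.chn _ _)
  let q : Pos := ⟨_, (r ζ).2.union (r η).2 hcpt⟩
  have h1 := hmono _ q _ _ (hD.psi ζ) subset_union_left
  have h2 := hmono _ q _ _ (hD.psi η) subset_union_right
  rw [← hf] at h2
  have h3 := hfun q ((show q ≤ r ζ from subset_union_left).trans (hD.rp ζ)) _ _ _ h1 h2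
  exact hζη.ne (ToType.mk.symm.injective (Subtype.ext h3))

end Pool.Agent.Helper96.Fc
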