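import Pool.Agent.Helper96.Fc.Model
import Pool.Agent.Helper96.Fc.Sq

/-!
# Names for the subsets of `λ_ω`, coded by elements of `∏ μ_n`
-/

open Cardinal Ordinal Set

set_option linter.unusedSectionVars false

namespace Pool.Agent.Helper96.Fc

/-- name of the subset of `λ_ω` coded by `c` -/
noncomputable def sqN (c : Sq) : Nm Pos :=
  Nm.mk (Σ n : ℕ, enc (.inr n) (c.v n)) (fun t => oN t.2.1.1) (fun t => t.2.1.2)

theorem Agn.mono {i : Lv} {y z : Nm Pos} {q r : Pos} (h : Agn i y z q) (hr : r ≤ q) :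
    Agn i y z r := fun ε hε s hs => h ε hε s (hs.trans hr)

theorem mem_cutL_J {n : ℕ} {i : Lv} : i ∈ (cutL n).J ↔ ∀ m, i = Sum.inr m → m ≤ n := Iff.rfl

/-- the level `i` is below the cut `n` from some `n` on -/
theorem exists_cutL (i : Lv) : ∃ n, ∀ k ≥ n, i ∈ (cutL k).J := by
  rcases i with m | m
  · exact ⟨0, fun k _ j hj => by cases hj⟩
  · refine ⟨m, fun k hk j hj => ?_⟩
    rw [← Sum.inr.inj hj]
    exact hk

/-- **Fusion.** Every name has below a dense set of conditions a code in `∏ μ_n`. -/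
theorem dense_fuse (y : Nm Pos) (q : Pos) :
    ∃ q' ≤ q, ∃ c : Sq, ∀ n, Agn (.inr n) y (cdN (enc (.inr n) (c.v n))) q' := by
  classical
  have step : ∀ (n : ℕ) (q : Pos), ∃ q' : Pos, ∃ x : Pt, q' ≤ q ∧
      lo (cutL n).J q'.1 = lo (cutL n).J q.1 ∧ od x < (mu n).ord ∧
        Agn (.inr n) y (cdN (enc (.inr n) x)) q' := by
    intro n q
    obtain ⟨q', hq', hlo, x, hx, h⟩ := dense_code' (.inr n) y q
    exact ⟨q', x, hq', hlo, hx, h⟩
  choose f g hf hlo hg hA using step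
  let s : ℕ → Pos := fun n => Nat.rec q (fun n p => f n p) n
  have hs0 : s 0 = q := rfl
  have hs : ∀ n, s (n + 1) = f n (s n) := fun n => rfl
  have hanti : Antitone s := antitone_nat_of_succ_le fun n => by
    rw [hs]
    exact hf n _
  have hsub : ∀ {m n : ℕ}, m ≤ n → (s m).1 ⊆ (s n).1 := fun h => hanti h
  have hstab : ∀ i, ∃ n, ∀ k, ∀ t ∈ (s k).1, t.1.1 = i → t ∈ (s n).1 := by
    intro i
    obtain ⟨n, hn⟩ := exists_cutL i
    refine ⟨n, ?_⟩
    intro k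
    induction k with
    | zero => exact fun t ht _ => hsub (Nat.zero_le n) ht
    | succ k ih =>
      intro t ht hti
      rcases le_or_gt n k with hk | hk
      · refine ih t ?_ hti
        have h1 : t ∈ lo (cutL k).J (s (k + 1)).1 := ⟨ht, by rw [hti]; exact hn k hk⟩
        rw [hs, hlo] at h1
        exact h1.1
      · exact hsub (m := k + 1) (n := n) hk ht
  have hcond : IsCond (⋃ n, (s n).1) := by
    refine ⟨?_, ?_, ?_⟩
    · intro c b b' h1 h2
      obtain ⟨n, hn⟩ := mem_iUnion.1 h1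
      obtain ⟨m, hm⟩ := mem_iUnion.1 h2
      exact (s (max n m)).2.func c b b' (hsub (le_max_left _ _) hn) (hsub (le_max_right _ _) hm)
    · intro c b h1
      obtain ⟨n, hn⟩ := mem_iUnion.1 h1
      exact (s n).2.dom c b hn
    · intro i
      obtain ⟨n, hn⟩ := hstab i
      refine (mk_le_mk_of_subset ?_).trans_lt ((s n).2.size i)
      rintro t ⟨ht, hti⟩
      obtain ⟨k, hk⟩ := mem_iUnion.1 ht
      exact ⟨hn k t hk hti, hti⟩
  refine ⟨⟨_, hcond⟩, ?_, ⟨fun n => g n (s n), fun n => hg n _⟩, ?_⟩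
  · intro t ht
    exact mem_iUnion.2 ⟨0, ht⟩
  · intro n
    refine (hA n (s n)).mono ?_
    intro t ht
    exact mem_iUnion.2 ⟨n + 1, ht⟩

/-- `p` forces that `y` is a subset of `λ_ω` -/
def FSub (y : Nm Pos) (p : Pos) : Prop :=
  ∀ q ≤ p, ∀ z, FMem z y q → FMem z (ordN Pos lamω.ord) q

theorem FSub.mono {y : Nm Pos} {p q : Pos} (h : FSub y p) (hq : q ≤ p) : FSub y q :=
  fun r hr => h r (hr.trans hq)

theorem lamω_le_muω : lamω ≤ muω := (lamω_lt_mu 0).le.trans (mu_le_muω 0)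

theorem exists_lam {x : Pt} (hx : od x < lamω.ord) : ∃ n, od x < (lam n).ord := by
  obtain ⟨m, hm⟩ := exists_At_of_lt hx
  exact ⟨m, hm.1⟩

/-- members of `λ_ω` -/
theorem mem_lamω {z : Nm Pos} {p : Pos} (h : FMem z (ordN Pos lamω.ord) p) :
    ∃ r ≤ p, ∃ x : Pt, od x < lamω.ord ∧ FEq z (oN x) r := by
  obtain ⟨r, hr, j, h1, h2⟩ := h p le_rfl
  obtain ⟨a, ha, h3, -⟩ := ordN_fn j
  rw [h3] at h2
  obtain ⟨x, rfl⟩ := exists_od (ha.trans_le (ord_le_ord.2 lamω_le_muω))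
  exact ⟨r, hr, x, ha, h2⟩

/-- a name with a code is forced to be equal to the name of its code -/
theorem FEq_sqN {y : Nm Pos} {p : Pos} (hy : FSub y p) {c : Sq}
    (hc : ∀ n, Agn (.inr n) y (cdN (enc (.inr n) (c.v n))) p) : FEq y (sqN c) p := by
  refine FEq_ext ?_ ?_
  · intro i q hq hqi
    have h0 : FMem (y.fn i) y q := FMem.of_fn i hqi
    apply FMem.dense
    intro r hr
    obtain ⟨s, hs, x, hx, hxe⟩ := mem_lamω (hy r (hr.trans hq) _ (h0.mono hr))
    obtain ⟨n, hn⟩ := exists_lam hx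
    refine ⟨s, hs, ?_⟩
    refine FMem.congr_left (x := oN x) ?_ hxe.symm
    have h1 : FMem (oN x) y s := (h0.mono (hs.trans hr)).congr_left hxe
    have h2 : FMem (oN x) (cdN (enc (.inr n) (c.v n))) s :=
      (hc n x hn s (hs.trans (hr.trans hq))).1 h1
    intro t ht
    obtain ⟨u, hu, j, h3, h4⟩ := h2 t ht
    exact ⟨u, hu, ⟨n, j⟩, h3, h4⟩
  · rintro ⟨n, t⟩ q hq hqt
    have h1 : FMem (oN t.1.1) (cdN (enc (.inr n) (c.v n))) q := by
      exact FMem.of_fn (y := cdN (enc (.inr n) (c.v n))) t hqt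
    exact (hc n t.1.1 ((enc_code (.inr n) (c.v n)).2 _ t.2).1 q hq).2 h1

/-- `p` forces that `c` is the least code of the set coded by `c` -/
def Lst (p : Pos) (c : Sq) : Prop := ∀ c' < c, ∀ q ≤ p, ¬ FEq (sqN c') (sqN c) q

theorem Lst.mono {p q : Pos} {c : Sq} (h : Lst p c) (hq : q ≤ p) : Lst q c :=
  fun c' hc' r hr => h c' hc' r (hr.trans hq)

/-- **Least codes.** -/
theorem exists_lst {y : Nm Pos} {p : Pos} (hy : FSub y p) :
    ∃ q ≤ p, ∃ c, FEq y (sqN c) q ∧ Lst q c := by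
  have hne : {c : Sq | ∃ q ≤ p, FEq y (sqN c) q}.Nonempty := by
    obtain ⟨q, hq, c, hc⟩ := dense_fuse y p
    exact ⟨c, q, hq, FEq_sqN (hy.mono hq) hc⟩
  obtain ⟨c, ⟨q, hq, hc⟩, hmin⟩ := (wellFounded_lt (α := Sq)).has_min _ hne
  refine ⟨q, hq, c, hc, ?_⟩
  intro c' hc' r hr he
  exact hmin c' ⟨r, hr.trans hq, (hc.mono hr).trans he.symm⟩ hc'

/-- two least codes of the same set are equal -/
theorem Lst.unique {p : Pos} {c c' : Sq} (h : Lst p c) (h' : Lst p c')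
    (he : FEq (sqN c) (sqN c') p) : c = c' := by
  rcases lt_trichotomy c c' with hlt | heq | hlt
  · exact (h' c hlt p le_rfl he).elim
  · exact heq
  · exact (h c' hlt p le_rfl he.symm).elim

/-- name of the set of the quadruples of colour 1 -/
noncomputable def FQN : Nm Pos :=
  Nm.mk {t : (Fin 4 → Sq) × Pos // Col4s t.2 (t.1 0) (t.1 1) (t.1 2) (t.1 3) ∧
      ∀ j, Lst t.2 (t.1 j)}
    (fun t => finN (fun j => sqN (t.1.1 j))) (fun t => t.1.2)

/-- `p` forces that the least code of `y` is `c` -/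
def RLst (p : Pos) (l : List (Obj Pos)) : Prop :=
  ∃ (c : Sq) (y : Nm Pos), l = [Sum.inl (sqN c), Sum.inl y] ∧ FEq y (sqN c) p ∧ Lst p c

/-- `p` forces that the ordinal `ξ ∈ T` is not a value of `f` on `H` -/
def ROntoG (p : Pos) (l : List (Obj Pos)) : Prop :=
  ∃ (ξ : Ordinal.{0}) (f H T : Nm Pos),
    l = [Sum.inl (ordN Pos ξ), Sum.inl f, Sum.inl H, Sum.inl T] ∧
      FMem (ordN Pos ξ) T p ∧ ∀ q ≤ p, ∀ y : Nm Pos,
        ¬ (FMem y H q ∧ FMem (pairN y (ordN Pos ξ)) f q)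

/-- `p` forces that `f` is not a function -/
def RFunG (p : Pos) (l : List (Obj Pos)) : Prop :=
  ∃ (y : Nm Pos) (ξ η : Ordinal.{0}) (f : Nm Pos),
    l = [Sum.inl (pairN y (pairN (ordN Pos ξ) (ordN Pos η))), Sum.inl f] ∧
      ξ ≠ η ∧ FMem (pairN y (ordN Pos ξ)) f p ∧ FMem (pairN y (ordN Pos η)) f p

/-- `p` forces that a quadruple of colour 1 is contained in `H` -/
def RQuad (p : Pos) (l : List (Obj Pos)) : Prop :=
  ∃ (v : Fin 4 → Sq) (H : Nm Pos), l = [Sum.inl (finN (fun j => sqN (v j))), Sum.inl H] ∧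
    (∀ j, FMem (sqN (v j)) H p) ∧ Col4s p (v 0) (v 1) (v 2) (v 3) ∧ ∀ j, Lst p (v j)

/-- the further genericity conditions -/
structure Gd2 (X : Set (Obj Pos)) (G : Set Pos) : Prop where
  fq : (Sum.inl FQN : Obj Pos) ∈ X
  gLst : GenR X G RLst
  gOntoG : GenR X G ROntoG
  gFunG : GenR X G RFunG
  gQuad : GenR X G RQuad

theorem exists_gd2 : ∃ (X : Set (Obj Pos)) (G : Set Pos), X.Countable ∧ Gd X G ∧ Gd2 X G := by
  obtain ⟨X, G, h1, h2, h3, h4⟩ := exists_gd' (K := Fin 4)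
    (fun k => match k with
      | 0 => RLst
      | 1 => ROntoG
      | 2 => RFunG
      | 3 => RQuad)
    (fun _ l z => l = [] ∧ z = Sum.inl FQN)
    (fun k l y z hy hz => by rw [hy.2, hz.2])
  exact ⟨X, G, h1, h2, h4 0 [] _ (by simp) ⟨rfl, rfl⟩, h3 0, h3 1, h3 2, h3 3⟩

end Pool.Agent.Helper96.Fc
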