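import Pool.Agent.Helper96.Fc.Cond

/-!
# The colourings, decided by conditions
-/

open Cardinal Ordinal Set

namespace Pool.Agent.Helper96.Fc

/-- `q` decides that the bit `ε` of the column `x` at the coordinate `i` is `b`. -/
def Bit (q : Pos) (i : Lv) (x ε : Pt) (b : Bool) : Prop := ((i, x, ε), b) ∈ q.1

/-- `q` decides that the columns of `x` and `y` at `i` agree below `δ`. -/
def Agr (q : Pos) (i : Lv) (x y δ : Pt) : Prop := ∀ ε < δ, ∃ b, Bit q i x ε b ∧ Bit q i y ε b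

/-- `q` decides that `δ` is the first difference of the columns of `x` and `y` at `i`, and that
`x` has the bit `b` there. -/
def Spl (q : Pos) (i : Lv) (x y δ : Pt) (b : Bool) : Prop :=
  Agr q i x y δ ∧ Bit q i x δ b ∧ Bit q i y δ (!b)

/-- `q` decides that `δ` is the first difference of the columns of `x` and `y` at `i`. -/
def Fd (q : Pos) (i : Lv) (x y δ : Pt) : Prop := ∃ b, Spl q i x y δ b

/-- `x` is of level `m`: `m` is least with `x < λ_m`. -/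
def At (m : ℕ) (x : Pt) : Prop := od x < (lam m).ord ∧ ∀ k < m, (lam k).ord ≤ od x

/-- `x` is of level `m`: `m` is least with `x < μ_m`. -/
def At2 (m : ℕ) (x : Pt) : Prop := od x < (mu m).ord ∧ ∀ k < m, (mu k).ord ≤ od x

/-- triples of type A: three points of the same level whose middle point splits first -/
def TA (q : Pos) (x y z : Pt) : Prop :=
  x < y ∧ y < z ∧ ∃ m, At m x ∧ At m y ∧ At m z ∧
    ∃ δ b, Spl q (.inl m) x y δ b ∧ Spl q (.inl m) z y δ b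

/-- pairs of type B: for a third point of level `n` -/
def TB (q : Pos) (n : ℕ) (x y : Pt) : Prop :=
  x < y ∧ ∃ m < n, At m x ∧ At m y ∧
    ∃ δ b ν, Spl q (.inl m) x y δ b ∧ od ν = n ∧ Bit q (.inl 0) δ ν b

/-- the triples of colour 1 -/
def Col3 (q : Pos) (x y z : Pt) : Prop := TA q x y z ∨ ∃ n, At n z ∧ TB q n x y

/-- quadruples, caterpillars -/
def Cat (q : Pos) (e x y z : Pt) : Prop :=
  ∃ m, At2 m e ∧ At2 m x ∧ At2 m y ∧ At2 m z ∧ e < x ∧ e < y ∧ e < z ∧ x < y ∧ x < z ∧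
    ∃ t₀ t₁ t₂, Fd q (.inr m) e x t₀ ∧ Fd q (.inr m) e y t₀ ∧ Fd q (.inr m) e z t₀ ∧
      Fd q (.inr m) x y t₁ ∧ Fd q (.inr m) x z t₁ ∧ Fd q (.inr m) y z t₂ ∧ TA q t₀ t₁ t₂

/-- quadruples, crossing balanced pairs -/
def Bal (q : Pos) (a b c d : Pt) : Prop :=
  ∃ m, At2 m a ∧ At2 m b ∧ At2 m c ∧ At2 m d ∧ a < c ∧ c < b ∧ b < d ∧
    ∃ t, Fd q (.inr m) a c t ∧ (∀ u ≤ t, ∃ β, Bit q (.inr m) a u β ∧ Bit q (.inr m) b u β) ∧
      (∀ u ≤ t, ∃ β, Bit q (.inr m) c u β ∧ Bit q (.inr m) d u β)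

/-- quadruples with one point of higher level -/
def Crs (q : Pos) (x y z w : Pt) : Prop :=
  ∃ m n, m < n ∧ At2 m x ∧ At2 m y ∧ At2 m z ∧ At2 n w ∧ x < y ∧ x < z ∧
    ∃ t₀ t₁, Fd q (.inr m) x y t₀ ∧ Fd q (.inr m) x z t₀ ∧ Fd q (.inr m) y z t₁ ∧ TB q n t₀ t₁

/-- the quadruples of colour 1 -/
def Col4 (q : Pos) (a b c d : Pt) : Prop := Cat q a b c d ∨ Bal q a b c d ∨ Crs q a b c d

theorem Bit.mono {q r : Pos} {i : Lv} {x ε : Pt} {b : Bool} (h : Bit q i x ε b) (hr : r ≤ q) :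
    Bit r i x ε b := hr h

theorem Bit.unique {q : Pos} {i : Lv} {x ε : Pt} {b b' : Bool} (h : Bit q i x ε b)
    (h' : Bit q i x ε b') : b = b' := q.2.func _ _ _ h h'

theorem Agr.mono {q r : Pos} {i : Lv} {x y δ : Pt} (h : Agr q i x y δ) (hr : r ≤ q) :
    Agr r i x y δ := fun ε hε => by
  obtain ⟨b, h1, h2⟩ := h ε hε
  exact ⟨b, h1.mono hr, h2.mono hr⟩

theorem Agr.symm {q : Pos} {i : Lv} {x y δ : Pt} (h : Agr q i x y δ) : Agr q i y x δ :=
  fun ε hε => by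
  obtain ⟨b, h1, h2⟩ := h ε hε
  exact ⟨b, h2, h1⟩

theorem Agr.trans {q : Pos} {i : Lv} {x y z δ : Pt} (h : Agr q i x y δ) (h' : Agr q i y z δ) :
    Agr q i x z δ := fun ε hε => by
  obtain ⟨b, h1, h2⟩ := h ε hε
  obtain ⟨b', h3, h4⟩ := h' ε hε
  have := h2.unique h3
  subst this
  exact ⟨b, h1, h4⟩

theorem Spl.mono {q r : Pos} {i : Lv} {x y δ : Pt} {b : Bool} (h : Spl q i x y δ b) (hr : r ≤ q) :
    Spl r i x y δ b := ⟨h.1.mono hr, h.2.1.mono hr, h.2.2.mono hr⟩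

theorem Spl.symm {q : Pos} {i : Lv} {x y δ : Pt} {b : Bool} (h : Spl q i x y δ b) :
    Spl q i y x δ (!b) := ⟨h.1.symm, h.2.2, by rw [Bool.not_not]; exact h.2.1⟩

theorem Spl.unique {q : Pos} {i : Lv} {x y δ δ' : Pt} {b b' : Bool} (h : Spl q i x y δ b)
    (h' : Spl q i x y δ' b') : δ = δ' ∧ b = b' := by
  have key : ∀ {δ δ' : Pt} {b b' : Bool}, Spl q i x y δ b → Spl q i x y δ' b' → ¬ δ < δ' := by
    intro δ δ' b b' h h' hlt
    obtain ⟨c, h1, h2⟩ := h'.1 δ hlt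
    have e1 := h1.unique h.2.1
    have e2 := h2.unique h.2.2
    rw [e1] at e2
    cases b <;> simp at e2
  have e : δ = δ' := le_antisymm (not_lt.1 (key h' h)) (not_lt.1 (key h h'))
  subst e
  exact ⟨rfl, h.2.1.unique h'.2.1⟩

theorem At.unique {m n : ℕ} {x : Pt} (h : At m x) (h' : At n x) : m = n := by
  rcases lt_trichotomy m n with hmn | hmn | hmn
  · exact absurd h.1 (not_lt.2 (h'.2 m hmn))
  · exact hmn
  · exact absurd h'.1 (not_lt.2 (h.2 n hmn))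

theorem At2.unique {m n : ℕ} {x : Pt} (h : At2 m x) (h' : At2 n x) : m = n := by
  rcases lt_trichotomy m n with hmn | hmn | hmn
  · exact absurd h.1 (not_lt.2 (h'.2 m hmn))
  · exact hmn
  · exact absurd h'.1 (not_lt.2 (h.2 n hmn))

theorem exists_At {x : Pt} (h : ∃ n, od x < (lam n).ord) : ∃ m, At m x := by
  classical
  exact ⟨Nat.find h, Nat.find_spec h, fun k hk => not_lt.1 (Nat.find_min h hk)⟩

theorem exists_At2 (x : Pt) : ∃ m, At2 m x := by
  classical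
  have h : ∃ n, od x < (mu n).ord := by
    have h1 : (od x).card < muω := lt_ord.1 (od_lt x)
    obtain ⟨n, hn⟩ := exists_lt_of_lt_ciSup h1
    exact ⟨n, lt_ord.2 hn⟩
  exact ⟨Nat.find h, Nat.find_spec h, fun k hk => not_lt.1 (Nat.find_min h hk)⟩

theorem exists_At_of_lt {x : Pt} (h : od x < lamω.ord) : ∃ m, At m x := by
  refine exists_At ?_
  have h1 : (od x).card < lamω := lt_ord.1 h
  obtain ⟨n, hn⟩ := exists_lt_of_lt_ciSup h1
  exact ⟨n, lt_ord.2 hn⟩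

theorem At.lt_of_lt {m n : ℕ} {x y : Pt} (h : At m x) (h' : At n y) (hmn : m < n) : x < y := by
  rw [← od_lt_od]
  exact h.1.trans_le (h'.2 m hmn)

end Pool.Agent.Helper96.Fc
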