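import Pool.Agent.Helper96.Fc.Card

/-!
# The forcing notion
-/

open Cardinal Ordinal Set

namespace Pool.Agent.Helper96.Fc

/-- coordinates -/
abbrev Lv : Type := ℕ ⊕ ℕ

/-- length of the added sets -/
noncomputable def rho : Lv → Cardinal.{0} := Sum.elim kap lam

/-- number of the added sets -/
noncomputable def sig : Lv → Cardinal.{0} := Sum.elim lam mu

/-- points: ordinals below `μ_ω` -/
abbrev Pt : Type := muω.ord.ToType

/-- the ordinal of a point -/
noncomputable def od (x : Pt) : Ordinal.{0} := (ToType.toOrd x).1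

theorem od_lt (x : Pt) : od x < muω.ord := (ToType.toOrd x).2

theorem od_lt_od {x y : Pt} : od x < od y ↔ x < y := by
  unfold od
  rw [Subtype.coe_lt_coe]
  exact ToType.mk.symm.lt_iff_lt

theorem od_inj {x y : Pt} (h : od x = od y) : x = y := by
  unfold od at h
  exact ToType.mk.symm.injective (Subtype.ext h)

theorem od_mk {a : Ordinal.{0}} (h : a < muω.ord) : od (ToType.mk ⟨a, h⟩) = a := by
  simp [od]

theorem exists_od {a : Ordinal.{0}} (h : a < muω.ord) : ∃ x, od x = a := by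
  refine ⟨ToType.mk ⟨a, h⟩, ?_⟩
  simp [od]

theorem mk_od_lt {c : Cardinal.{0}} (hc : c ≤ muω) : #{x : Pt // od x < c.ord} = c := by
  have e : {x : Pt // od x < c.ord} ≃ c.ord.ToType :=
    { toFun := fun x => ToType.mk ⟨od x.1, x.2⟩
      invFun := fun y => ⟨ToType.mk ⟨(ToType.toOrd y).1,
        show (ToType.toOrd y).1 < muω.ord from
          lt_of_lt_of_le (show (ToType.toOrd y).1 < c.ord from (ToType.toOrd y).2)
            (ord_le_ord.2 hc)⟩, by
          rw [od_mk]; exact (ToType.toOrd y).2⟩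
      left_inv := by
        intro x
        apply Subtype.ext
        simp [od]
      right_inv := by
        intro y
        simp [od] }
  rw [mk_congr e, mk_ord_toType]

/-- cells -/
abbrev Cell : Type := Lv × Pt × Pt

/-- conditions -/
structure IsCond (p : Set (Cell × Bool)) : Prop where
  func : ∀ c b b', (c, b) ∈ p → (c, b') ∈ p → b = b'
  dom : ∀ c b, (c, b) ∈ p → od c.2.1 < (sig c.1).ord ∧ od c.2.2 < (rho c.1).ord
  size : ∀ i, #{t : Cell × Bool | t ∈ p ∧ t.1.1 = i} < rho i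

/-- the forcing notion -/
def Pos : Type := {p : Set (Cell × Bool) // IsCond p}

noncomputable instance : PartialOrder Pos where
  le p q := q.1 ⊆ p.1
  le_refl _ := Subset.rfl
  le_trans p q r hpq hqr := Subset.trans hqr hpq
  le_antisymm p q hpq hqp := Subtype.ext (Subset.antisymm hqp hpq)

theorem Pos.le_def {p q : Pos} : p ≤ q ↔ q.1 ⊆ p.1 := Iff.rfl

theorem rho_reg (i : Lv) : (rho i).IsRegular := by
  rcases i with n | n
  · exact kap_reg n
  · exact lam_reg n

theorem rho_pos (i : Lv) : 0 < rho i := (rho_reg i).pos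

theorem rho_lt_sig (i : Lv) : rho i < sig i := by
  rcases i with n | n
  · exact kap_lt_lam n n
  · exact lam_lt_mu n n

theorem sig_le (i : Lv) : sig i ≤ muω := by
  rcases i with n | n
  · exact (lam_lt_mu n n).le.trans (mu_le_muω n)
  · exact mu_le_muω n

theorem IsCond.empty : IsCond ∅ where
  func := fun _ _ _ h => h.elim
  dom := fun _ _ h => h.elim
  size := fun i => by
    have : {t : Cell × Bool | t ∈ (∅ : Set (Cell × Bool)) ∧ t.1.1 = i} = ∅ := by
      ext t; simp
    rw [this, mk_eq_zero]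
    exact rho_pos i

noncomputable instance : OrderTop Pos where
  top := ⟨∅, IsCond.empty⟩
  le_top p := empty_subset _

/-- low part -/
def lo (J : Set Lv) (p : Set (Cell × Bool)) : Set (Cell × Bool) := {t | t ∈ p ∧ t.1.1 ∈ J}

/-- high part -/
def hi (J : Set Lv) (p : Set (Cell × Bool)) : Set (Cell × Bool) := {t | t ∈ p ∧ t.1.1 ∉ J}

theorem IsCond.mono {p q : Set (Cell × Bool)} (hq : IsCond q) (h : p ⊆ q) : IsCond p where
  func := fun c b b' h1 h2 => hq.func c b b' (h h1) (h h2)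
  dom := fun c b h1 => hq.dom c b (h h1)
  size := fun i => by
    have h1 : {t : Cell × Bool | t ∈ p ∧ t.1.1 = i} ⊆ {t : Cell × Bool | t ∈ q ∧ t.1.1 = i} :=
      fun _ ht => ⟨h ht.1, ht.2⟩
    exact (mk_le_mk_of_subset h1).trans_lt (hq.size i)

/-- compatibility -/
def Cpt (p q : Set (Cell × Bool)) : Prop := ∀ c b b', (c, b) ∈ p → (c, b') ∈ q → b = b'

theorem Cpt.symm {p q : Set (Cell × Bool)} (h : Cpt p q) : Cpt q p :=
  fun c b b' h1 h2 => (h c b' b h2 h1).symm

theorem IsCond.union {p q : Set (Cell × Bool)} (hp : IsCond p) (hq : IsCond q) (h : Cpt p q) :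
    IsCond (p ∪ q) where
  func := by
    rintro c b b' (h1 | h1) (h2 | h2)
    · exact hp.func c b b' h1 h2
    · exact h c b b' h1 h2
    · exact (h c b' b h2 h1).symm
    · exact hq.func c b b' h1 h2
  dom := by
    rintro c b (h1 | h1)
    · exact hp.dom c b h1
    · exact hq.dom c b h1
  size := by
    intro i
    have h1 : {t : Cell × Bool | t ∈ p ∪ q ∧ t.1.1 = i} ⊆
        {t : Cell × Bool | t ∈ p ∧ t.1.1 = i} ∪ {t : Cell × Bool | t ∈ q ∧ t.1.1 = i} := by
      rintro t ⟨ht | ht, hi⟩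
      · exact Or.inl ⟨ht, hi⟩
      · exact Or.inr ⟨ht, hi⟩
    refine (mk_le_mk_of_subset h1).trans_lt ((mk_union_le _ _).trans_lt ?_)
    exact add_lt_of_lt (rho_reg i).aleph0_le (hp.size i) (hq.size i)

theorem Pos.compat_iff {p q : Pos} : (∃ r, r ≤ p ∧ r ≤ q) ↔ Cpt p.1 q.1 := by
  constructor
  · rintro ⟨r, h1, h2⟩ c b b' hb hb'
    exact r.2.func c b b' (h1 hb) (h2 hb')
  · intro h
    exact ⟨⟨p.1 ∪ q.1, p.2.union q.2 h⟩, subset_union_left, subset_union_right⟩

/-- A cut of the forcing notion into a low and a high part. -/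
structure Cut where
  J : Set Lv
  τ : Cardinal.{0}
  θ : Cardinal.{0}
  cls : Cls τ θ
  low : ∀ p, IsCond p → #(lo J p) < τ
  high : ∀ i, i ∉ J → θ ≤ rho i

theorem low_of {J : Set Lv} {τ : Cardinal.{0}} (hτ : τ.IsRegular) (hJ : #J < τ)
    (h : ∀ i ∈ J, rho i ≤ τ) : ∀ p, IsCond p → #(lo J p) < τ := by
  intro p hp
  have h1 : lo J p = ⋃ i : J, {t : Cell × Bool | t ∈ p ∧ t.1.1 = i.1} := by
    ext t
    simp only [lo, mem_ofPred_eq, mem_iUnion]
    constructor
    · rintro ⟨h1, h2⟩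
      exact ⟨⟨_, h2⟩, h1, rfl⟩
    · rintro ⟨i, h1, h2⟩
      exact ⟨h1, h2 ▸ i.2⟩
  rw [h1, card_iUnion_lt_iff_forall_of_isRegular hτ hJ]
  exact fun i => (hp.size i.1).trans_le (h i.1 i.2)

/-- cut below `κ_{n+1}` -/
noncomputable def cutK (n : ℕ) : Cut where
  J := {i | ∃ m ≤ n, i = Sum.inl m}
  τ := kap n
  θ := kap (n + 1)
  cls := cls_kap n
  low := by
    refine low_of (kap_reg n) ?_ ?_
    · have : {i : Lv | ∃ m ≤ n, i = Sum.inl m}.Finite := by
        refine ((Set.finite_Iic n).image Sum.inl).subset ?_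
        rintro _ ⟨m, hm, rfl⟩
        exact ⟨m, hm, rfl⟩
      exact (lt_aleph0_iff_set_finite.2 this).trans_le (aleph0_le_kap n)
    · rintro _ ⟨m, hm, rfl⟩
      exact kap_strictMono.monotone hm
  high := by
    rintro (m | m) h
    · have : n < m := by
        by_contra hn
        exact h ⟨m, not_lt.1 hn, rfl⟩
      exact kap_strictMono.monotone this
    · exact (kap_lt_lam _ _).le

/-- cut below `λ_0` -/
noncomputable def cutM : Cut where
  J := Set.range Sum.inl
  τ := Order.succ kapω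
  θ := lam 0
  cls := cls_mid
  low := by
    refine low_of (isRegular_succ aleph0_le_kapω) ?_ ?_
    · refine (mk_le_aleph0_iff.2 ?_).trans_lt (Order.lt_succ_of_le aleph0_le_kapω)
      exact inferInstance
    · rintro _ ⟨m, rfl⟩
      exact (kap_le_kapω m).trans (Order.le_succ _)
  high := by
    rintro (m | m) h
    · exact (h ⟨m, rfl⟩).elim
    · exact lam_strictMono.monotone (Nat.zero_le m)

/-- cut below `λ_{n+1}` -/
noncomputable def cutL (n : ℕ) : Cut where
  J := {i | ∀ m, i = Sum.inr m → m ≤ n}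
  τ := lam n
  θ := lam (n + 1)
  cls := cls_lam n
  low := by
    refine low_of (lam_reg n) ?_ ?_
    · refine (mk_le_aleph0_iff.2 ?_).trans_lt (aleph0_le_kapω.trans_lt (kapω_lt_lam n))
      exact inferInstance
    · rintro (m | m) h
      · exact (kap_lt_lam _ _).le
      · exact lam_strictMono.monotone (h m rfl)
  high := by
    rintro (m | m) h
    · exact (h (fun k hk => by cases hk)).elim
    · have : n < m := by
        by_contra hn
        refine h (fun k hk => ?_)
        rw [← Sum.inr.inj hk]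
        exact not_lt.1 hn
      exact lam_strictMono.monotone this

/-- trivial cut, `μ_n` -/
noncomputable def cutT (n : ℕ) : Cut where
  J := Set.univ
  τ := Order.succ lamω
  θ := mu n
  cls := cls_mu n
  low := by
    refine low_of (isRegular_succ aleph0_le_lamω) ?_ ?_
    · refine (mk_le_aleph0_iff.2 ?_).trans_lt (Order.lt_succ_of_le aleph0_le_lamω)
      exact inferInstance
    · rintro (m | m) -
      · exact ((kap_lt_lam m 0).le.trans (lam_le_lamω 0)).trans (Order.le_succ _)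
      · exact (lam_le_lamω m).trans (Order.le_succ _)
  high := fun i h => (h (mem_univ _)).elim

section

variable (c : Cut)

theorem union_high {ι : Type} [LinearOrder ι] (hι : #ι < c.θ) (p : Pos) (r : ι → Pos)
    (hrp : ∀ j, r j ≤ p) (hmono : ∀ j k, j ≤ k → hi c.J (r j).1 ⊆ hi c.J (r k).1) :
    IsCond (p.1 ∪ ⋃ j, hi c.J (r j).1) where
  func := by
    rintro cc b b' (h1 | h1) (h2 | h2)
    · exact p.2.func cc b b' h1 h2
    · obtain ⟨j, hj⟩ := mem_iUnion.1 h2
      exact (r j).2.func cc b b' (hrp j h1) hj.1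
    · obtain ⟨j, hj⟩ := mem_iUnion.1 h1
      exact (r j).2.func cc b b' hj.1 (hrp j h2)
    · obtain ⟨j, hj⟩ := mem_iUnion.1 h1
      obtain ⟨k, hk⟩ := mem_iUnion.1 h2
      rcases le_total j k with h | h
      · exact (r k).2.func cc b b' (hmono j k h hj).1 hk.1
      · exact (r j).2.func cc b b' hj.1 (hmono k j h hk).1
  dom := by
    rintro cc b (h1 | h1)
    · exact p.2.dom cc b h1
    · obtain ⟨j, hj⟩ := mem_iUnion.1 h1
      exact (r j).2.dom cc b hj.1
  size := by
    intro i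
    by_cases hiJ : i ∈ c.J
    · refine (mk_le_mk_of_subset ?_).trans_lt (p.2.size i)
      rintro t ⟨h1 | h1, h2⟩
      · exact ⟨h1, h2⟩
      · obtain ⟨j, hj⟩ := mem_iUnion.1 h1
        exact (hj.2 (h2 ▸ hiJ)).elim
    · have h1 : {t : Cell × Bool | t ∈ p.1 ∪ ⋃ j, hi c.J (r j).1 ∧ t.1.1 = i} ⊆
          {t : Cell × Bool | t ∈ p.1 ∧ t.1.1 = i} ∪
            ⋃ j, {t : Cell × Bool | t ∈ (r j).1 ∧ t.1.1 = i} := by
        rintro t ⟨h1 | h1, h2⟩
        · exact Or.inl ⟨h1, h2⟩
        · obtain ⟨j, hj⟩ := mem_iUnion.1 h1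
          exact Or.inr (mem_iUnion.2 ⟨j, hj.1, h2⟩)
      refine (mk_le_mk_of_subset h1).trans_lt ((mk_union_le _ _).trans_lt ?_)
      refine add_lt_of_lt (rho_reg i).aleph0_le (p.2.size i) ?_
      rw [card_iUnion_lt_iff_forall_of_isRegular (rho_reg i) (hι.trans_le (c.high i hiJ))]
      exact fun j => (r j).2.size i

/-- the family of conditions obtained by descending through the high part -/
structure Desc (p : Pos) {D : Type*} (Ψ : c.θ.ord.ToType → Pos → Pos → D → Prop)
    (b r : c.θ.ord.ToType → Pos) (d : c.θ.ord.ToType → D) : Prop where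
  bp : ∀ η, b η ≤ p
  blo : ∀ η, lo c.J (b η).1 = lo c.J p.1
  rb : ∀ η, r η ≤ b η
  psi : ∀ η, Ψ η (b η) (r η) (d η)
  rhi : ∀ ζ η, ζ < η → hi c.J (r ζ).1 ⊆ (b η).1

/-- **Descending through the high part**, the relation may depend on the history. -/
theorem exists_desc_hist (p : Pos) {D : Type*}
    (Ψ : (η : c.θ.ord.ToType) → ((ζ : c.θ.ord.ToType) → ζ < η → Pos × D) →
      Pos → Pos → D → Prop)
    (h : ∀ η g b, b ≤ p → lo c.J b.1 = lo c.J p.1 → ∃ r ≤ b, ∃ d, Ψ η g b r d) :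
    ∃ (b r : c.θ.ord.ToType → Pos) (d : c.θ.ord.ToType → D),
      Desc c p (fun η b' r' d' => Ψ η (fun ζ _ => (r ζ, d ζ)) b' r' d') b r d := by
  classical
  rcases isEmpty_or_nonempty c.θ.ord.ToType with hE | hN
  · exact ⟨fun η => hE.elim η, fun η => hE.elim η, fun η => hE.elim η,
      ⟨fun η => hE.elim η, fun η => hE.elim η, fun η => hE.elim η, fun η => hE.elim η,
        fun η => hE.elim η⟩⟩
  have hne : Nonempty D := by
    by_contra hD
    obtain ⟨-, -, d, -⟩ := h (WellFounded.min (wellFounded_lt (α := c.θ.ord.ToType)) univ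
      ⟨Classical.arbitrary _, mem_univ _⟩)
      (fun ζ hζ => (WellFounded.not_lt_min (wellFounded_lt (α := c.θ.ord.ToType)) univ
        (mem_univ ζ) hζ).elim) p le_rfl rfl
    exact hD ⟨d⟩
  obtain ⟨d₀⟩ := hne
  let base : (η : c.θ.ord.ToType) → ((y : c.θ.ord.ToType) → y < η → Pos × Pos × D) →
      Set (Cell × Bool) := fun η g => p.1 ∪ ⋃ j : Iio η, hi c.J (g j.1 j.2).2.1.1
  let F : (η : c.θ.ord.ToType) → ((y : c.θ.ord.ToType) → y < η → Pos × Pos × D) →
      Pos × Pos × D := fun η g =>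
    if hb : IsCond (base η g) then
      if hx : ∃ x : Pos × D, x.1 ≤ ⟨base η g, hb⟩ ∧
          Ψ η (fun ζ hζ => (g ζ hζ).2) ⟨base η g, hb⟩ x.1 x.2 then
        (⟨base η g, hb⟩, hx.choose.1, hx.choose.2)
      else (p, p, d₀)
    else (p, p, d₀)
  let St : c.θ.ord.ToType → Pos × Pos × D := WellFoundedLT.fix F
  have hSt : ∀ η, St η = F η (fun y _ => St y) := fun η => WellFoundedLT.fix_eq _ _
  have key : ∀ η, (St η).1.1 = base η (fun y _ => St y) ∧ (St η).2.1 ≤ (St η).1 ∧
      Ψ η (fun ζ _ => (St ζ).2) (St η).1 (St η).2.1 (St η).2.2 := by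
    intro η
    induction η using WellFoundedLT.induction with
    | _ η ih =>
      have hsub : ∀ j < η, ∀ k < j, hi c.J (St k).2.1.1 ⊆ hi c.J (St j).2.1.1 := by
        intro j hj k hk t ht
        refine ⟨?_, ht.2⟩
        refine (ih j hj).2.1 ?_
        rw [(ih j hj).1]
        exact Or.inr (mem_iUnion.2 ⟨⟨k, hk⟩, ht⟩)
      have hb : IsCond (base η (fun y _ => St y)) := by
        refine union_high c (ι := Iio η) ((mk_Iio_lt' η)) p (fun j => (St j.1).2.1) ?_ ?_
        · intro j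
          refine (ih j.1 j.2).2.1.trans ?_
          intro t ht
          rw [(ih j.1 j.2).1]
          exact Or.inl ht
        · intro j k hjk
          rcases hjk.lt_or_eq with h1 | h1
          · exact hsub k.1 k.2 j.1 h1
          · rw [h1]
      have hlo : lo c.J (base η (fun y _ => St y)) = lo c.J p.1 := by
        ext t
        constructor
        · rintro ⟨h1 | h1, h2⟩
          · exact ⟨h1, h2⟩
          · obtain ⟨j, hj⟩ := mem_iUnion.1 h1
            exact (hj.2 h2).elim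
        · rintro ⟨h1, h2⟩
          exact ⟨Or.inl h1, h2⟩
      have hx : ∃ x : Pos × D, x.1 ≤ ⟨base η (fun y _ => St y), hb⟩ ∧
          Ψ η (fun ζ _ => (St ζ).2) ⟨base η (fun y _ => St y), hb⟩ x.1 x.2 := by
        obtain ⟨r, hr, d, hd⟩ := h η (fun ζ _ => (St ζ).2) ⟨base η (fun y _ => St y), hb⟩
          (fun t ht => Or.inl ht) hlo
        exact ⟨(r, d), hr, hd⟩
      have h1 : St η = (⟨base η (fun y _ => St y), hb⟩, hx.choose.1, hx.choose.2) := by
        rw [hSt]
        simp only [F]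
        rw [dif_pos hb, dif_pos hx]
      have h2 : (St η).1 = ⟨base η (fun y _ => St y), hb⟩ := by rw [h1]
      have h3 : (St η).2 = hx.choose := by rw [h1]
      rw [h2, h3]
      exact ⟨rfl, hx.choose_spec.1, hx.choose_spec.2⟩
  refine ⟨fun η => (St η).1, fun η => (St η).2.1, fun η => (St η).2.2, ?_, ?_, ?_, ?_, ?_⟩
  · intro η t ht
    rw [(key η).1]
    exact Or.inl ht
  · intro η
    rw [(key η).1]
    ext t
    constructor
    · rintro ⟨h1 | h1, h2⟩
      · exact ⟨h1, h2⟩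
      · obtain ⟨j, hj⟩ := mem_iUnion.1 h1
        exact (hj.2 h2).elim
    · rintro ⟨h1, h2⟩
      exact ⟨Or.inl h1, h2⟩
  · exact fun η => (key η).2.1
  · exact fun η => (key η).2.2
  · intro ζ η hζη t ht
    rw [(key η).1]
    exact Or.inr (mem_iUnion.2 ⟨⟨ζ, hζη⟩, ht⟩)

/-- **Descending through the high part.** -/
theorem exists_desc (p : Pos) {D : Type*} (Ψ : c.θ.ord.ToType → Pos → Pos → D → Prop)
    (h : ∀ η b, b ≤ p → lo c.J b.1 = lo c.J p.1 → ∃ r ≤ b, ∃ d, Ψ η b r d) :
    ∃ (b r : c.θ.ord.ToType → Pos) (d : c.θ.ord.ToType → D), Desc c p Ψ b r d :=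
  exists_desc_hist c p (fun η _ => Ψ η) (fun η _ => h η)

variable {c} {p : Pos} {D : Type*} {Ψ : c.θ.ord.ToType → Pos → Pos → D → Prop}
  {b r : c.θ.ord.ToType → Pos} {d : c.θ.ord.ToType → D}

theorem Desc.rp (h : Desc c p Ψ b r d) (η : c.θ.ord.ToType) : r η ≤ p := (h.rb η).trans (h.bp η)

theorem Desc.rhi' (h : Desc c p Ψ b r d) {ζ η : c.θ.ord.ToType} (hζη : ζ ≤ η) :
    hi c.J (r ζ).1 ⊆ (r η).1 := by
  rcases hζη.lt_or_eq with h1 | rfl
  · exact (h.rhi ζ η h1).trans (h.rb η)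
  · exact fun t ht => ht.1

/-- compatibility reduces to the low parts -/
theorem Desc.cpt (h : Desc c p Ψ b r d) {ζ η : c.θ.ord.ToType}
    (hlo : Cpt (lo c.J (r ζ).1) (lo c.J (r η).1)) : Cpt (r ζ).1 (r η).1 := by
  wlog hζη : ζ ≤ η generalizing ζ η
  · exact (this hlo.symm (le_of_not_ge hζη)).symm
  intro cc x y hx hy
  by_cases hJ : cc.1 ∈ c.J
  · exact hlo cc x y ⟨hx, hJ⟩ ⟨hy, hJ⟩
  · exact (r η).2.func cc x y (h.rhi' hζη ⟨hx, hJ⟩) hy

/-- two compatible members with the same type -/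
theorem Desc.two (h : Desc c p Ψ b r d) {C : Type} (hC : #C < c.θ) (f : c.θ.ord.ToType → C) :
    ∃ ζ η, ζ < η ∧ f ζ = f η ∧ Cpt (r ζ).1 (r η).1 := by
  obtain ⟨R, x, hR, hroot⟩ := c.cls.root (fun ξ => lo c.J (r ξ).1) (fun ξ => c.low _ (r ξ).2) f hC
  have hne : Nonempty c.θ.ord.ToType := by
    rw [nonempty_toType_iff]
    exact (c.cls.rθ.ord_pos).ne'
  obtain ⟨ζ, -, hζ1, hζ2⟩ := hroot R (hR.trans c.cls.lt) Subset.rfl (Classical.arbitrary _)
  have hs : #(lo c.J (r ζ).1) < c.τ := c.low _ (r ζ).2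
  have hs2 : #({t : Cell × Bool | (t.1, !t.2) ∈ lo c.J (r ζ).1}) < c.τ := by
    refine (mk_le_of_injective (f := fun t : {t : Cell × Bool | (t.1, !t.2) ∈ lo c.J (r ζ).1} =>
      (⟨(t.1.1, !t.1.2), t.2⟩ : lo c.J (r ζ).1)) ?_).trans_lt hs
    intro t t' htt'
    simp only [Subtype.mk.injEq, Prod.mk.injEq] at htt'
    apply Subtype.ext
    apply Prod.ext
    · exact htt'.1
    · have := htt'.2
      revert this
      cases t.1.2 <;> cases t'.1.2 <;> simp
  obtain ⟨η, hη0, hη1, hη2⟩ := hroot (R ∪ {t : Cell × Bool | (t.1, !t.2) ∈ lo c.J (r ζ).1})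
    ((mk_union_le _ _).trans_lt ((add_lt_of_lt c.cls.rτ.aleph0_le hR hs2).trans c.cls.lt))
    subset_union_left ζ
  refine ⟨ζ, η, hη0, hζ2.trans hη2.symm, h.cpt ?_⟩
  intro cc x y hx hy
  by_contra hxy
  have h1 : (cc, !y) ∈ lo c.J (r ζ).1 := by
    have : x = !y := by
      revert hxy
      cases x <;> cases y <;> simp
    rwa [← this]
  have h2 : (cc, y) ∈ lo c.J (r η).1 ∩ (R ∪ {t : Cell × Bool | (t.1, !t.2) ∈ lo c.J (r ζ).1}) :=
    ⟨hy, Or.inr h1⟩
  rw [hη1] at h2
  have h3 : (cc, y) ∈ lo c.J (r ζ).1 := by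
    have : R ⊆ lo c.J (r ζ).1 := by
      rw [← hζ1]
      exact inter_subset_left
    exact this h2
  exact hxy ((r ζ).2.func cc x y hx.1 h3.1)

end

end Pool.Agent.Helper96.Fc
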