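import Mathlib

/-!
# Transitive models of ZFC and some cardinal notions inside a model (definitions)

`ZFSet` is the type of sets of Mathlib. A model is a set (in the sense of Lean) `N` of `ZFSet`s
with the true membership relation.
-/

namespace Pool.Agent.Helper96.Fc

/-- First-order formulas of the language `{∈}` with `m` free variables. -/
inductive Fml : ℕ → Type
  /-- `x_i ∈ x_j` -/
  | mem {m : ℕ} (i j : Fin m) : Fml m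
  /-- `x_i = x_j` -/
  | eq {m : ℕ} (i j : Fin m) : Fml m
  /-- negation -/
  | neg {m : ℕ} (φ : Fml m) : Fml m
  /-- conjunction -/
  | and {m : ℕ} (φ ψ : Fml m) : Fml m
  /-- `∀ x, φ(x, x_0, ..., x_{m-1})`; the quantified variable is variable number `0` of `φ` -/
  | all {m : ℕ} (φ : Fml (m + 1)) : Fml m

/-- Satisfaction of a formula in the structure `⟨N, ∈⟩` under the assignment `v`. -/
def Sat (N : Set ZFSet.{0}) : {m : ℕ} → Fml m → (Fin m → ZFSet.{0}) → Prop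
  | _, .mem i j, v => v i ∈ v j
  | _, .eq i j, v => v i = v j
  | _, .neg φ, v => ¬ Sat N φ v
  | _, .and φ ψ, v => Sat N φ v ∧ Sat N ψ v
  | _, .all φ, v => ∀ x ∈ N, Sat N φ (Fin.cons x v)

/-- The set `f` belongs to `N`, is a function (it contains for every `x` at most one ordered pair
`⟨x, y⟩`), and every element of `b` is its value at some element of `a`. -/
def MapsOnto (N : Set ZFSet.{0}) (f a b : ZFSet.{0}) : Prop :=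
  f ∈ N ∧ (∀ x y z, ZFSet.pair x y ∈ f → ZFSet.pair x z ∈ f → y = z) ∧
    ∀ y ∈ b, ∃ x ∈ a, ZFSet.pair x y ∈ f

/-- In `N`, the set `b` is empty or an image of `a`; as `N` satisfies the axiom of choice, this
says that `|b| ≤ |a|` in `N`. -/
def Onto (N : Set ZFSet.{0}) (a b : ZFSet.{0}) : Prop := ∃ f, MapsOnto N f a b

/-- `N` is a transitive model of `ZFC`. The axiom of choice is stated in the form: every set is an
image of an ordinal. -/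
structure IsZFC (N : Set ZFSet.{0}) : Prop where
  trans : ∀ x ∈ N, ∀ y ∈ x, y ∈ N
  ext : ∀ x ∈ N, ∀ y ∈ N, (∀ z ∈ N, z ∈ x ↔ z ∈ y) → x = y
  found : ∀ x ∈ N, (∃ y ∈ N, y ∈ x) → ∃ y ∈ N, y ∈ x ∧ ∀ z ∈ N, ¬ (z ∈ y ∧ z ∈ x)
  pairing : ∀ x ∈ N, ∀ y ∈ N, ∃ z ∈ N, ∀ w ∈ N, w ∈ z ↔ (w = x ∨ w = y)
  union : ∀ x ∈ N, ∃ u ∈ N, ∀ w ∈ N, w ∈ u ↔ ∃ y ∈ N, y ∈ x ∧ w ∈ y
  power : ∀ x ∈ N, ∃ u ∈ N, ∀ w ∈ N, w ∈ u ↔ ∀ z ∈ N, z ∈ w → z ∈ x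
  infinity : ∃ w ∈ N, (∃ e ∈ N, (∀ z ∈ N, z ∉ e) ∧ e ∈ w) ∧
    ∀ x ∈ N, x ∈ w → ∃ y ∈ N, y ∈ w ∧ ∀ z ∈ N, z ∈ y ↔ (z ∈ x ∨ z = x)
  separation : ∀ (m : ℕ) (φ : Fml (m + 1)) (v : Fin m → ZFSet.{0}), (∀ i, v i ∈ N) →
    ∀ a ∈ N, ∃ b ∈ N, ∀ x ∈ N, x ∈ b ↔ (x ∈ a ∧ Sat N φ (Fin.cons x v))
  collection : ∀ (m : ℕ) (φ : Fml (m + 2)) (v : Fin m → ZFSet.{0}), (∀ i, v i ∈ N) →
    ∀ a ∈ N, (∀ x ∈ N, x ∈ a → ∃ y ∈ N, Sat N φ (Fin.cons y (Fin.cons x v))) →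
      ∃ b ∈ N, ∀ x ∈ N, x ∈ a → ∃ y ∈ N, y ∈ b ∧ Sat N φ (Fin.cons y (Fin.cons x v))
  choice : ∀ x ∈ N, ∃ α ∈ N, α.IsOrdinal ∧ Onto N α x

/-- `κ` is a cardinal of `N`: an ordinal of `N` that is not an image in `N` of a smaller one. -/
def IsCard (N : Set ZFSet.{0}) (κ : ZFSet.{0}) : Prop :=
  κ ∈ N ∧ κ.IsOrdinal ∧ ∀ α ∈ κ, ¬ Onto N α κ

/-- `μ` is the successor cardinal of `κ` in `N`: a cardinal of `N` above `κ` such that every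
smaller ordinal is (empty or) an image of `κ` in `N`. -/
def NextCard (N : Set ZFSet.{0}) (κ μ : ZFSet.{0}) : Prop :=
  IsCard N μ ∧ κ ∈ μ ∧ ∀ α ∈ μ, Onto N κ α

/-- `S` is the set of the subsets of `κ` in `N`. -/
def IsPow (N : Set ZFSet.{0}) (κ S : ZFSet.{0}) : Prop := S ∈ N ∧ ∀ z, z ∈ S ↔ z ∈ N ∧ z ⊆ κ

/-- `ν = 2 ^ κ` in `N`: the set of the subsets of `κ` in `N` and the cardinal `ν` of `N` are images
of each other in `N`. -/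
def PowCard (N : Set ZFSet.{0}) (κ ν : ZFSet.{0}) : Prop :=
  IsCard N ν ∧ ∃ S, IsPow N κ S ∧ Onto N ν S ∧ Onto N S ν

/-- `A` is the supremum of the ordinals `a n`, and it belongs to `N`. -/
def IsSup (N : Set ZFSet.{0}) (a : ℕ → ZFSet.{0}) (A : ZFSet.{0}) : Prop :=
  A ∈ N ∧ ∀ z, z ∈ A ↔ ∃ n, z ∈ a n

/-- The following hold in `N`: `a n = ℵ_n`, `A = ℵ_ω`, `b n = 2 ^ ℵ_n` (strictly increasing),
`B = sup_n 2 ^ ℵ_n` (the weak power `2 ^ (< ℵ_ω)`), `c n = 2 ^ 2 ^ ℵ_n` (strictly increasing);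
hypothesis (H) with the weak power: `ℵ_ω < 2 ^ (< ℵ_ω)`, and `2 ^ 2 ^ ℵ_n < 2 ^ (2 ^ (< ℵ_ω))` for
all `n` (the power set of `B` is not an image of `c n`); and hypothesis (H) with the full power: if
`P = 2 ^ ℵ_ω` and `Q = 2 ^ P` in `N` then `ℵ_ω < P` and `2 ^ 2 ^ ℵ_n < Q` for all `n`. -/
structure Hyp (N : Set ZFSet.{0}) (a b c : ℕ → ZFSet.{0}) (A B : ZFSet.{0}) : Prop where
  zero : a 0 = Ordinal.toZFSet Ordinal.omega0
  next : ∀ n, NextCard N (a n) (a (n + 1))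
  supA : IsSup N a A
  powb : ∀ n, PowCard N (a n) (b n)
  supB : IsSup N b B
  powc : ∀ n, PowCard N (b n) (c n)
  incb : ∀ n, b n ∈ b (n + 1)
  incc : ∀ n, c n ∈ c (n + 1)
  weakH : A ∈ B ∧ ∀ S, IsPow N B S → ∀ n, ¬ Onto N (c n) S
  fullH : ∀ P Q, PowCard N A P → PowCard N P Q → A ∈ P ∧ ∀ n, c n ∈ Q

end Pool.Agent.Helper96.Fc
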