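import Pool.Agent.Helper96.Fc.Col

/-!
# Amalgamation, extension of conditions, nice names
-/

open Cardinal Ordinal Set

namespace Pool.Agent.Helper96.Fc

/-- `r` has some information about the column `x` at `i` -/
def Tch (r : Pos) (i : Lv) (x : Pt) : Prop := ∃ ε b, Bit r i x ε b

theorem mk_flip {s : Set (Cell × Bool)} : #{t : Cell × Bool | (t.1, !t.2) ∈ s} ≤ #s := by
  refine mk_le_of_injective (f := fun t : {t : Cell × Bool | (t.1, !t.2) ∈ s} =>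
    (⟨(t.1.1, !t.1.2), t.2⟩ : s)) ?_
  intro t t' htt'
  simp only [Subtype.mk.injEq, Prod.mk.injEq] at htt'
  apply Subtype.ext
  apply Prod.ext
  · exact htt'.1
  · have := htt'.2
    revert this
    cases t.1.2 <;> cases t'.1.2 <;> simp

theorem noMax_toType {κ : Cardinal.{0}} (hκ : κ.IsRegular) : NoMaxOrder κ.ord.ToType :=
  ⟨fun a => exists_gt' hκ a⟩

/-- **Amalgamation with markers.** -/
theorem amalg (c : Cut) (r : c.θ.ord.ToType → Pos) (x : c.θ.ord.ToType → Pt)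
    (hx : Function.Injective x) {C : Type} (hC : #C < c.θ) (f : c.θ.ord.ToType → C) :
    ∃ e : c.θ.ord.ToType → c.θ.ord.ToType, StrictMono e ∧ (∃ v, ∀ k, f (e k) = v) ∧
      ∀ j k, j ≠ k → Cpt (lo c.J (r (e j)).1) (lo c.J (r (e k)).1) ∧
        ∀ i ∈ c.J, ¬ Tch (r (e j)) i (x (e k)) := by
  classical
  have hτ0 := c.cls.rτ.aleph0_le
  have hθ0 := c.cls.rθ.aleph0_le
  have hNM := noMax_toType c.cls.rθ
  let s : c.θ.ord.ToType → Set ((Cell × Bool) ⊕ (Lv × Pt) ⊕ Pt) := fun ξ =>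
    (Sum.inl '' lo c.J (r ξ).1) ∪
      ((fun t : Cell × Bool => Sum.inr (Sum.inl (t.1.1, t.1.2.1))) '' lo c.J (r ξ).1) ∪
      {Sum.inr (Sum.inr (x ξ))}
  let B : c.θ.ord.ToType → Set ((Cell × Bool) ⊕ (Lv × Pt) ⊕ Pt) := fun ξ =>
    (Sum.inl '' {t : Cell × Bool | (t.1, !t.2) ∈ lo c.J (r ξ).1}) ∪
      (Set.range (fun i : Lv => Sum.inr (Sum.inl (i, x ξ)))) ∪
      ((fun t : Cell × Bool => Sum.inr (Sum.inr t.1.2.1)) '' lo c.J (r ξ).1)
  have hs : ∀ ξ, #(s ξ) < c.τ := by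
    intro ξ
    have h0 := c.low _ (r ξ).2
    refine (mk_union_le _ _).trans_lt (add_lt_of_lt hτ0 ?_ ?_)
    · refine (mk_union_le _ _).trans_lt (add_lt_of_lt hτ0 ?_ ?_)
      · exact mk_image_le.trans_lt h0
      · exact mk_image_le.trans_lt h0
    · rw [mk_singleton]
      exact one_lt_aleph0.trans_le hτ0
  have hB : ∀ ξ, #(B ξ) < c.θ := by
    intro ξ
    have h0 := (c.low _ (r ξ).2).trans c.cls.lt
    refine (mk_union_le _ _).trans_lt (add_lt_of_lt hθ0 ?_ ?_)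
    · refine (mk_union_le _ _).trans_lt (add_lt_of_lt hθ0 ?_ ?_)
      · exact (mk_image_le.trans mk_flip).trans_lt h0
      · have h1 : #(Set.range (fun i : Lv => (Sum.inr (Sum.inl (i, x ξ)) :
            (Cell × Bool) ⊕ (Lv × Pt) ⊕ Pt))) ≤ ℵ₀ :=
          le_aleph0_iff_set_countable.2 (Set.countable_range _)
        exact h1.trans_lt (hτ0.trans_lt c.cls.lt)
    · exact mk_image_le.trans_lt h0
  obtain ⟨R, v, e, -, he, hf, hR⟩ := c.cls.thin s hs f hC B hB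
  have hne : Nonempty c.θ.ord.ToType := by
    rw [nonempty_toType_iff]
    exact (c.cls.rθ.ord_pos).ne'
  have hsp : ∀ y, Sum.inr (Sum.inr y) ∉ R := by
    intro y hy
    obtain ⟨a⟩ := hne
    obtain ⟨b, hb⟩ := exists_gt a
    have key : ∀ k, x (e k) = y := by
      intro k
      have h1 := (hf k).2 hy
      rcases h1 with (⟨t, -, ht⟩ | ⟨t, -, ht⟩) | ht
      · cases ht
      · cases ht
      · rw [mem_singleton_iff] at ht
        exact (Sum.inr.inj (Sum.inr.inj ht)).symm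
    exact (he hb).ne (hx ((key a).trans (key b).symm))
  have h1 : ∀ j k, j < k → Cpt (lo c.J (r (e j)).1) (lo c.J (r (e k)).1) := by
    intro j k hjk cc a b ha hb
    by_contra hab
    have hba : a = !b := by
      revert hab
      cases a <;> cases b <;> simp
    rw [hba] at ha
    have h2 : Sum.inl (cc, b) ∈ s (e k) ∩ B (e j) :=
      ⟨Or.inl (Or.inl ⟨_, hb, rfl⟩), Or.inl (Or.inl ⟨(cc, b), ha, rfl⟩)⟩
    have h3 := (hf j).2 (hR j k hjk h2)
    rcases h3 with (⟨t, ht1, ht2⟩ | ⟨t, -, ht⟩) | ht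
    · cases ht2
      have := (r (e j)).2.func _ _ _ ht1.1 ha.1
      cases b <;> simp at this
    · cases ht
    · cases ht
  have h2 : ∀ j k, j < k → ∀ i ∈ c.J, ¬ Tch (r (e j)) i (x (e k)) := by
    rintro j k hjk i hi ⟨ε, b, hb⟩
    refine hsp (x (e k)) (hR j k hjk ⟨Or.inr rfl, Or.inr ⟨_, ⟨hb, hi⟩, rfl⟩⟩)
  have h3 : ∀ l j k, l < j → j < k → ∀ i ∈ c.J, ¬ Tch (r (e k)) i (x (e j)) := by
    rintro l j k hlj hjk i hi ⟨ε, b, hb⟩
    have h4 : Sum.inr (Sum.inl (i, x (e j))) ∈ R :=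
      hR j k hjk ⟨Or.inl (Or.inr ⟨_, ⟨hb, hi⟩, rfl⟩), Or.inl (Or.inr ⟨i, rfl⟩)⟩
    have h5 := (hf l).2 h4
    rcases h5 with (⟨t, -, ht⟩ | ⟨t, ht1, ht⟩) | ht
    · cases ht
    · have h6 := Sum.inl.inj (Sum.inr.inj ht)
      rw [Prod.mk.injEq] at h6
      obtain ⟨⟨i', y, ε'⟩, b'⟩ := t
      obtain ⟨h7, h8⟩ := h6
      simp only at h7 h8
      subst h7 h8
      exact h2 l j hlj _ hi ⟨ε', b', ht1.1⟩
    · cases ht
  refine ⟨fun k => e (Order.succ k), fun a b hab => he (Order.succ_lt_succ hab),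
    ⟨v, fun k => (hf _).1⟩, ?_⟩
  intro j k hjk
  rcases lt_or_gt_of_ne hjk with h | h
  · refine ⟨h1 _ _ (Order.succ_lt_succ h), h2 _ _ (Order.succ_lt_succ h)⟩
  · refine ⟨(h1 _ _ (Order.succ_lt_succ h)).symm, h3 k _ _ (Order.lt_succ k)
      (Order.succ_lt_succ h)⟩

/-- bounds below `ρ_i` -/
theorem exists_pt_gt (i : Lv) (T : Set Pt) (hT : #T < rho i) :
    ∃ δ, od δ < (rho i).ord ∧ ∀ ε ∈ T, od ε < (rho i).ord → ε < δ := by
  have h1 : ⨆ ε : {ε : T // od ε.1 < (rho i).ord}, (od ε.1.1 + 1) < (rho i).ord := by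
    refine Ordinal.iSup_lt_of_lt_cof ?_ ?_
    · rw [(rho_reg i).cof_ord]
      exact (mk_subtype_le _).trans_lt hT
    · intro ε
      exact (isSuccLimit_ord (rho_reg i).aleph0_le).add_one_lt ε.2
  have h2 : (rho i).ord < muω.ord := ord_lt_ord.2 ((rho_lt_sig i).trans_le (sig_le i))
  obtain ⟨δ, hδ⟩ := exists_od (h1.trans h2)
  refine ⟨δ, hδ ▸ h1, ?_⟩
  intro ε hε hερ
  rw [← od_lt_od, hδ]
  have h3 := Ordinal.le_iSup (fun ε : {ε : T // od ε.1 < (rho i).ord} => (od ε.1.1 + 1))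
    ⟨⟨ε, hε⟩, hερ⟩
  exact (Order.lt_add_one_iff.2 le_rfl).trans_le h3

theorem mk_Iic_pt {i : Lv} {δ : Pt} (hδ : od δ < (rho i).ord) : #(Iic δ) < rho i := by
  have h1 : #(Iic δ) ≤ (od δ + 1).card := by
    have h2 : ∀ x : Iic δ, od x.1 < od δ + 1 := by
      intro x
      refine Order.lt_add_one_iff.2 ?_
      rw [← not_lt, od_lt_od, not_lt]
      exact x.2
    have h3 : #(Iic δ) ≤ #(od δ + 1).ToType := by
      refine mk_le_of_injective (f := fun x => ToType.mk ⟨od x.1, h2 x⟩) ?_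
      intro x y hxy
      have h4 := congrArg Subtype.val (ToType.mk.injective hxy)
      exact Subtype.ext (od_inj h4)
    rwa [mk_toType] at h3
  refine h1.trans_lt ?_
  exact lt_ord.1 ((isSuccLimit_ord (rho_reg i).aleph0_le).add_one_lt hδ)

/-- the second coordinates of the cells of `q` at `i` -/
def eps (q : Pos) (i : Lv) : Set Pt := {ε | ∃ x b, Bit q i x ε b}

theorem mk_eps (q : Pos) (i : Lv) : #(eps q i) < rho i := by
  refine lt_of_le_of_lt ?_ (q.2.size i)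
  have : eps q i ⊆ (fun t : Cell × Bool => t.1.2.2) '' {t : Cell × Bool | t ∈ q.1 ∧ t.1.1 = i} := by
    rintro ε ⟨x, b, hb⟩
    exact ⟨((i, x, ε), b), ⟨hb, rfl⟩, rfl⟩
  exact (mk_le_mk_of_subset this).trans mk_image_le

theorem Bit.lt {q : Pos} {i : Lv} {x ε : Pt} {b : Bool} (h : Bit q i x ε b) :
    od ε < (rho i).ord := (q.2.dom _ _ h).2

theorem Bit.lt' {q : Pos} {i : Lv} {x ε : Pt} {b : Bool} (h : Bit q i x ε b) :
    od x < (sig i).ord := (q.2.dom _ _ h).1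

/-- **Extending finitely many columns with the same information.** -/
theorem ext_same (q : Pos) (i : Lv) (X : Set Pt) (hX : X.Finite)
    (hXσ : ∀ x ∈ X, od x < (sig i).ord)
    (hsame : ∀ x ∈ X, ∀ y ∈ X, ∀ ε b, Bit q i x ε b → Bit q i y ε b)
    (S : Set Pt) (hS : #S < rho i) (v : Pt → Bool) :
    ∃ q' ≤ q, ∃ δ ∉ S, od δ < (rho i).ord ∧ (∀ x ∈ X, ∀ y ∈ X, Agr q' i x y δ) ∧
      (∀ x ∈ X, Bit q' i x δ (v x)) ∧ ∀ t ∈ q'.1, t ∈ q.1 ∨ (t.1.1 = i ∧ t.1.2.1 ∈ X) := by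
  classical
  obtain ⟨δ, hδ, hδ2⟩ := exists_pt_gt i (eps q i ∪ S)
    ((mk_union_le _ _).trans_lt (add_lt_of_lt (rho_reg i).aleph0_le (mk_eps q i) hS))
  let u : Pt → Bool := fun ε => decide (∃ x ∈ X, Bit q i x ε true)
  have hu : ∀ x ∈ X, ∀ ε b, Bit q i x ε b → b = u ε := by
    intro x hx ε b hb
    by_cases h : ∃ x ∈ X, Bit q i x ε true
    · have h1 : u ε = true := decide_eq_true h
      rw [h1]
      obtain ⟨y, hy, hy2⟩ := h
      exact hb.unique (hsame y hy x hx ε true hy2)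
    · have h1 : u ε = false := decide_eq_false h
      rw [h1]
      cases b
      · rfl
      · exact (h ⟨x, hx, hb⟩).elim
  let E : Set (Cell × Bool) := {t | t.1.1 = i ∧ t.1.2.1 ∈ X ∧
    ((t.1.2.2 < δ ∧ t.2 = u t.1.2.2) ∨ (t.1.2.2 = δ ∧ t.2 = v t.1.2.1))}
  have hE : IsCond E := by
    constructor
    · rintro ⟨i', x, ε⟩ b b' ⟨-, -, h1⟩ ⟨-, -, h2⟩
      simp only at h1 h2
      rcases h1 with ⟨h1, h3⟩ | ⟨h1, h3⟩ <;> rcases h2 with ⟨h2, h4⟩ | ⟨h2, h4⟩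
      · rw [h3, h4]
      · exact absurd h2 h1.ne
      · exact absurd h1 h2.ne
      · rw [h3, h4]
    · rintro ⟨i', x, ε⟩ b ⟨h1, h2, h3⟩
      simp only at h1 h2 h3
      subst h1
      refine ⟨hXσ x h2, ?_⟩
      have : ε ≤ δ := by
        rcases h3 with h3 | h3
        · exact h3.1.le
        · exact h3.1.le
      refine lt_of_le_of_lt ?_ hδ
      rw [← not_lt, od_lt_od, not_lt]
      exact this
    · intro i'
      by_cases hi : i' = i
      · subst hi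
        have h1 : #{t : Cell × Bool | t ∈ E ∧ t.1.1 = i'} ≤ #(X ×ˢ Iic δ : Set (Pt × Pt)) := by
          refine mk_le_of_injective (f := fun t : {t : Cell × Bool | t ∈ E ∧ t.1.1 = i'} =>
            (⟨(t.1.1.2.1, t.1.1.2.2), ⟨t.2.1.2.1, ?_⟩⟩ : (X ×ˢ Iic δ : Set (Pt × Pt)))) ?_
          · rcases t.2.1.2.2 with h | h
            · exact h.1.le
            · exact h.1.le
          · rintro ⟨⟨⟨i1, x1, ε1⟩, b1⟩, ⟨⟨h1, h2, h3⟩, h4⟩⟩ ⟨⟨⟨i2, x2, ε2⟩, b2⟩, ⟨⟨h5, h6, h7⟩, h8⟩⟩ h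
            simp only [Subtype.mk.injEq, Prod.mk.injEq] at h h1 h2 h3 h4 h5 h6 h7 h8 ⊢
            obtain ⟨rfl, rfl⟩ := h
            refine ⟨⟨h1.trans h5.symm, rfl, rfl⟩, ?_⟩
            rcases h3 with ⟨h9, h10⟩ | ⟨h9, h10⟩ <;> rcases h7 with ⟨h11, h12⟩ | ⟨h11, h12⟩
            · rw [h10, h12]
            · exact absurd h11 h9.ne
            · exact absurd h9 h11.ne
            · rw [h10, h12]
        refine h1.trans_lt ?_
        have h2 : #(X ×ˢ Iic δ : Set (Pt × Pt)) = #X * #(Iic δ) := by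
          rw [mk_setProd]
        rw [h2]
        refine mul_lt_of_lt (rho_reg i').aleph0_le ?_ (mk_Iic_pt hδ)
        exact (lt_aleph0_iff_set_finite.2 hX).trans_le (rho_reg i').aleph0_le
      · have : {t : Cell × Bool | t ∈ E ∧ t.1.1 = i'} = ∅ := by
          ext t
          simp only [mem_ofPred_eq, mem_empty_iff_false, iff_false]
          rintro ⟨h1, h2⟩
          exact hi (h2.symm.trans h1.1)
        rw [this, mk_eq_zero]
        exact rho_pos i'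
  have hcpt : Cpt q.1 E := by
    rintro ⟨i', x, ε⟩ b b' h1 ⟨h2, h3, h4⟩
    simp only at h2 h3 h4
    subst h2
    have h5 : Bit q i' x ε b := h1
    have h6 : ε < δ := hδ2 ε (Or.inl ⟨x, b, h5⟩) h5.lt
    rcases h4 with ⟨-, h7⟩ | ⟨h7, -⟩
    · rw [h7]
      exact hu x h3 ε b h5
    · exact absurd h7 h6.ne
  refine ⟨⟨q.1 ∪ E, q.2.union hE hcpt⟩, subset_union_left, δ, ?_, hδ, ?_, ?_, ?_⟩
  · intro hδS
    exact lt_irrefl _ (hδ2 δ (Or.inr hδS) hδ)
  · intro x hx y hy ε hε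
    exact ⟨u ε, Or.inr ⟨rfl, hx, Or.inl ⟨hε, rfl⟩⟩, Or.inr ⟨rfl, hy, Or.inl ⟨hε, rfl⟩⟩⟩
  · intro x hx
    exact Or.inr ⟨rfl, hx, Or.inr ⟨rfl, rfl⟩⟩
  · rintro t (ht | ht)
    · exact Or.inl ht
    · exact Or.inr ⟨ht.1, ht.2.1⟩

end Pool.Agent.Helper96.Fc
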