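import Pool.Agent.Helper96.Fc.Model

/-!
# Cardinals and powers in the generic extension
-/

open Cardinal Ordinal Set

set_option linter.unusedSectionVars false

namespace Pool.Agent.Helper96.Fc

/-- the value of the canonical name of an ordinal -/
noncomputable def vo (X : Set (Obj Pos)) (G : Set Pos) (a : Ordinal.{0}) : ZFSet.{0} :=
  val X G (ordN Pos a)

section

variable {X : Set (Obj Pos)} {G : Set Pos}

theorem l2X {a b : Obj Pos} (ha : a ∈ X) (hb : b ∈ X) : ∀ c ∈ [a, b], c ∈ X := by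
  intro c hc
  simp only [List.mem_cons, List.not_mem_nil, or_false] at hc
  rcases hc with rfl | rfl
  · exact ha
  · exact hb

theorem l1X {a : Obj Pos} (ha : a ∈ X) : ∀ c ∈ [a], c ∈ X := by
  intro c hc
  rw [List.mem_singleton] at hc
  rwa [hc]

theorem l4X {a b c d : Obj Pos} (ha : a ∈ X) (hb : b ∈ X) (hc : c ∈ X) (hd : d ∈ X) :
    ∀ e ∈ [a, b, c, d], e ∈ X := by
  intro e he
  simp only [List.mem_cons, List.not_mem_nil, or_false] at he
  rcases he with rfl | rfl | rfl | rfl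
  · exact ha
  · exact hb
  · exact hc
  · exact hd

theorem Gd.mem_vo (h : Gd X G) {a : Ordinal.{0}} {z : ZFSet.{0}} :
    z ∈ vo X G a ↔ ∃ b < a, (Sum.inl (ordN Pos b) : Obj Pos) ∈ X ∧ vo X G b = z :=
  val_ordN_mem h.basic.filt

theorem Gd.vo_inj (h : Gd X G) {a b : Ordinal.{0}} (ha : (Sum.inl (ordN Pos a) : Obj Pos) ∈ X)
    (hb : (Sum.inl (ordN Pos b) : Obj Pos) ∈ X) (he : vo X G a = vo X G b) : a = b :=
  val_ordN_inj h.basic ha hb he

theorem Gd.vo_mem_iff (h : Gd X G) {a b : Ordinal.{0}}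
    (ha : (Sum.inl (ordN Pos a) : Obj Pos) ∈ X) (hb : (Sum.inl (ordN Pos b) : Obj Pos) ∈ X) :
    vo X G a ∈ vo X G b ↔ a < b :=
  val_ordN_mem_iff h.basic ha hb

theorem Gd.vo_mod {a : Ordinal.{0}} (ha : (Sum.inl (ordN Pos a) : Obj Pos) ∈ X) : vo X G a ∈ Mod X G :=
  mem_Mod ha

theorem Gd.vo_ord (h : Gd X G) {a : Ordinal.{0}} : (vo X G a).IsOrdinal :=
  val_ordN_isOrdinal h.basic.filt

theorem Gd.natX (h : Gd X G) (n : ℕ) : (Sum.inl (ordN Pos (n : Ordinal.{0})) : Obj Pos) ∈ X := by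
  induction n with
  | zero =>
    rw [Nat.cast_zero]
    exact h.clos.zero
  | succ n ih =>
    rw [Nat.cast_add, Nat.cast_one]
    exact h.clos.succ _ ih

theorem Gd.vo_nat (h : Gd X G) (n : ℕ) : vo X G (n : Ordinal.{0}) =
    (n : Ordinal.{0}).toZFSet := by
  induction n with
  | zero =>
    rw [Nat.cast_zero, Ordinal.toZFSet_zero]
    exact val_ordN_zero h.basic.filt
  | succ n ih =>
    rw [Nat.cast_add, Nat.cast_one, Ordinal.toZFSet_add_one, ← ih]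
    exact val_ordN_succ h.basic.filt (h.natX n)

theorem Gd.vo_omega (h : Gd X G) : vo X G ω = Ordinal.toZFSet ω := by
  ext z
  rw [h.mem_vo, Ordinal.mem_toZFSet_iff]
  constructor
  · rintro ⟨b, hb, -, rfl⟩
    obtain ⟨n, rfl⟩ := lt_omega0.1 hb
    exact ⟨n, natCast_lt_omega0 n, (h.vo_nat n).symm⟩
  · rintro ⟨b, hb, rfl⟩
    obtain ⟨n, rfl⟩ := lt_omega0.1 hb
    exact ⟨n, natCast_lt_omega0 n, h.natX n, h.vo_nat n⟩

/-- membership of a pair in a function -/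
theorem Gd.pair_iff (h : Gd X G) {x y f : Nm Pos} (hx : (Sum.inl x : Obj Pos) ∈ X)
    (hy : (Sum.inl y : Obj Pos) ∈ X) (hf : (Sum.inl f : Obj Pos) ∈ X) :
    ZFSet.pair (val X G x) (val X G y) ∈ val X G f ↔ ∃ p ∈ G, FMem (pairN x y) f p := by
  rw [← val_pairN h.basic.filt h.clos hx hy]
  exact h.basic.mem_iff (h.clos.pair hx hy) hf

/-- a condition that forces what holds in the extension about a surjection -/
theorem Gd.exists_cond (h : Gd X G) {f H : Nm Pos} (hf : (Sum.inl f : Obj Pos) ∈ X)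
    (hH : (Sum.inl H : Obj Pos) ∈ X) {θ w : Ordinal.{0}}
    (hθ : (Sum.inl (ordN Pos θ) : Obj Pos) ∈ X) (hw : (Sum.inl (ordN Pos w) : Obj Pos) ∈ X)
    (hfun : ∀ x y z, ZFSet.pair x y ∈ val X G f → ZFSet.pair x z ∈ val X G f → y = z)
    (hon : ∀ y ∈ vo X G θ, ∃ x ∈ val X G H, ZFSet.pair x y ∈ val X G f)
    (hsub : ∀ x ∈ val X G H, x ∈ vo X G w) :
    ∃ p ∈ G, (∀ q ≤ p, ∀ β ξ η, FMem (pairN (ordN Pos β) (ordN Pos ξ)) f q →
      FMem (pairN (ordN Pos β) (ordN Pos η)) f q → ξ = η) ∧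
      ∀ ξ < θ, ∀ q ≤ p, ∃ r ≤ q, ∃ β < w, FMem (ordN Pos β) H r ∧
        FMem (pairN (ordN Pos β) (ordN Pos ξ)) f r := by
  obtain ⟨p1, hp1, h1⟩ := h.gOnto _ (l4X hf hH hθ hw)
  obtain ⟨p2, hp2, h2⟩ := h.gFun _ (l1X hf)
  obtain ⟨p, hp, hpp1, hpp2⟩ := h.basic.filt.compat hp1 hp2
  refine ⟨p, hp, ?_, ?_⟩
  · rcases h2 with ⟨y, hy, β, ξ, η, f', he, hne, h3, h4⟩ | h2
    · exfalso
      obtain ⟨he1, he2⟩ := List.cons.inj he
      obtain ⟨he2, -⟩ := List.cons.inj he2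
      have he3 := Sum.inl.inj he2
      subst he3
      rw [he1] at hy
      have hβ := h.clos.fst _ _ hy
      have hrest := h.clos.snd _ _ hy
      have hξ := h.clos.fst _ _ hrest
      have hη := h.clos.snd _ _ hrest
      have e1 := (h.pair_iff hβ hξ hf).2 ⟨p2, hp2, h3⟩
      have e2 := (h.pair_iff hβ hη hf).2 ⟨p2, hp2, h4⟩
      exact hne (h.vo_inj hξ hη (hfun _ _ _ e1 e2))
    · intro q hq β ξ η h3 h4
      by_contra hne
      exact h2 q (hq.trans hpp2) _ ⟨β, ξ, η, f, rfl, hne, h3, h4⟩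
  · rcases h1 with ⟨y, hy, ξ, f', H', T', W', he, h3, h4⟩ | h1
    · exfalso
      obtain ⟨he1, he2⟩ := List.cons.inj he
      obtain ⟨he2, he3⟩ := List.cons.inj he2
      obtain ⟨he3, he4⟩ := List.cons.inj he3
      obtain ⟨he4, he5⟩ := List.cons.inj he4
      obtain ⟨he5, -⟩ := List.cons.inj he5
      obtain rfl := Sum.inl.inj he2
      obtain rfl := Sum.inl.inj he3
      obtain rfl := Sum.inl.inj he4
      obtain rfl := Sum.inl.inj he5
      rw [he1] at hy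
      have h5 : vo X G ξ ∈ vo X G θ := (h.vo_mem_iff hy hθ).2 (ordN_mem_iff.1 h3)
      obtain ⟨x, hx, hxf⟩ := hon _ h5
      obtain ⟨β, hβ, hβX, rfl⟩ := h.mem_vo.1 (hsub x hx)
      obtain ⟨q1, hq1, h6⟩ := (h.basic.mem_iff hβX hH).1 hx
      obtain ⟨q2, hq2, h7⟩ := (h.pair_iff hβX hy hf).1 hxf
      obtain ⟨q3, hq3, h8, h9⟩ := h.basic.filt.compat hq1 hq2
      obtain ⟨q4, hq4, h10, h11⟩ := h.basic.filt.compat hq3 hp1
      exact h4 q4 h11 β (ordN_mem_iff.2 hβ) ⟨h6.mono (h10.trans h8), h7.mono (h10.trans h9)⟩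
    · intro ξ hξ q hq
      by_contra hcon
      push Not at hcon
      refine h1 q (hq.trans hpp1) _ ⟨ξ, f, H, _, _, rfl, ordN_mem_iff.2 hξ, ?_⟩
      rintro r hr β hβ ⟨h3, h4⟩
      exact hcon r hr β (ordN_mem_iff.1 hβ) h3 h4

/-- **Cardinals are preserved.** -/
theorem Gd.not_onto (h : Gd X G) (c : Cut) (hθ : (Sum.inl (ordN Pos c.θ.ord) : Obj Pos) ∈ X)
    {α : Ordinal.{0}} (hα : α < c.θ.ord) (hαX : (Sum.inl (ordN Pos α) : Obj Pos) ∈ X) :
    ¬ Onto (Mod X G) (vo X G α) (vo X G c.θ.ord) := by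
  rintro ⟨_, ⟨f, hf, rfl⟩, hfun, hon⟩
  obtain ⟨p, -, h1, h2⟩ := h.exists_cond hf hαX hθ hαX hfun hon (fun x hx => hx)
  refine no_surj c (fun r β ξ => FMem (pairN (ordN Pos β) (ordN Pos ξ)) f r)
    (fun r r' β ξ h3 hr => h3.mono hr) hα (p := p) (fun q hq β ξ η => h1 q hq β ξ η) ?_
  intro ξ hξ q hq
  obtain ⟨r, hr, β, hβ, -, h3⟩ := h2 ξ hξ q hq
  exact ⟨r, hr, β, hβ, h3⟩

theorem Gd.isCard (h : Gd X G) (c : Cut) (hθ : (Sum.inl (ordN Pos c.θ.ord) : Obj Pos) ∈ X) :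
    IsCard (Mod X G) (vo X G c.θ.ord) := by
  refine ⟨Gd.vo_mod hθ, h.vo_ord, ?_⟩
  intro a ha
  obtain ⟨α, hα, hαX, rfl⟩ := h.mem_vo.1 ha
  exact h.not_onto c hθ hα hαX

theorem Gd.isCard_kap (h : Gd X G) (n : ℕ) : IsCard (Mod X G) (vo X G (kap (n + 1)).ord) :=
  h.isCard (cutK n) (h.kapX (n + 1))

theorem Gd.isCard_lam (h : Gd X G) (n : ℕ) : IsCard (Mod X G) (vo X G (lam n).ord) := by
  cases n with
  | zero => exact h.isCard cutM (h.lamX 0)
  | succ n => exact h.isCard (cutL n) (h.lamX (n + 1))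

theorem Gd.isCard_mu (h : Gd X G) (n : ℕ) : IsCard (Mod X G) (vo X G (mu n).ord) :=
  h.isCard (cutT n) (h.muX n)

theorem Gd.isCard_sig (h : Gd X G) (i : Lv) : IsCard (Mod X G) (vo X G (sig i).ord) := by
  rcases i with n | n
  · exact h.isCard_lam n
  · exact h.isCard_mu n

/-- **Collapses.** -/
theorem Gd.onto_kap (h : Gd X G) (n : ℕ) {α : Ordinal.{0}} (hα : α < (kap (n + 1)).ord)
    (hαX : (Sum.inl (ordN Pos α) : Obj Pos) ∈ X) :
    Onto (Mod X G) (vo X G (kap n).ord) (vo X G α) := by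
  refine ⟨_, mem_Mod (h.cl n α hαX), ?_, ?_⟩
  · intro a b b' hb hb'
    obtain ⟨⟨⟨ν, q⟩, hν, hD⟩, h1, h2, h3⟩ := mem_val.1 hb
    obtain ⟨⟨⟨ν', q'⟩, hν', hD'⟩, h1', h2', h3'⟩ := mem_val.1 hb'
    change q ∈ G at h1
    change q' ∈ G at h1'
    change (Sum.inl (pairN (oN ν) (ordN Pos (sur n α (prn n ν).2
      (rd q (.inl n) (prn n ν).1 (prn n ν).2)))) : Obj Pos) ∈ X at h2
    change (Sum.inl (pairN (oN ν') (ordN Pos (sur n α (prn n ν').2
      (rd q' (.inl n) (prn n ν').1 (prn n ν').2)))) : Obj Pos) ∈ X at h2'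
    change val X G (pairN (oN ν) (ordN Pos (sur n α (prn n ν).2
      (rd q (.inl n) (prn n ν).1 (prn n ν).2)))) = _ at h3
    change val X G (pairN (oN ν') (ordN Pos (sur n α (prn n ν').2
      (rd q' (.inl n) (prn n ν').1 (prn n ν').2)))) = _ at h3'
    rw [val_pairN h.basic.filt h.clos (h.clos.fst _ _ h2) (h.clos.snd _ _ h2)] at h3
    rw [val_pairN h.basic.filt h.clos (h.clos.fst _ _ h2') (h.clos.snd _ _ h2')] at h3'
    obtain ⟨h4, h5⟩ := ZFSet.pair_injective h3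
    obtain ⟨h4', h5'⟩ := ZFSet.pair_injective h3'
    have hνν : ν = ν' := od_inj (h.vo_inj (h.clos.fst _ _ h2) (h.clos.fst _ _ h2')
      (h4.trans h4'.symm))
    subst hνν
    obtain ⟨r, -, hr1, hr2⟩ := h.basic.filt.compat h1 h1'
    have hrd : rd q (.inl n) (prn n ν).1 (prn n ν).2 = rd q' (.inl n) (prn n ν).1 (prn n ν).2 := by
      simp only at hD hD'
      ext ε
      constructor
      · rintro ⟨h6, h7⟩
        obtain ⟨c, hc⟩ := hD' ε h6
        have := (h7.mono hr1).unique (hc.mono hr2)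
        rw [← this] at hc
        exact ⟨h6, hc⟩
      · rintro ⟨h6, h7⟩
        obtain ⟨c, hc⟩ := hD ε h6
        have := (h7.mono hr2).unique (hc.mono hr1)
        rw [← this] at hc
        exact ⟨h6, hc⟩
    rw [← h5, ← h5', hrd]
  · intro b hb
    obtain ⟨β, hβ, hβX, rfl⟩ := h.mem_vo.1 hb
    obtain ⟨p, hp, h1⟩ := h.gCl n _ (l2X hαX hβX)
    rcases h1 with ⟨y, hy, ν, α', β', he, hν, h2⟩ | h1
    · obtain ⟨he1, he2⟩ := List.cons.inj he
      obtain ⟨he2, he3⟩ := List.cons.inj he2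
      obtain ⟨he3, -⟩ := List.cons.inj he3
      obtain rfl := ordN_inj' (Sum.inl.inj he2)
      obtain rfl := ordN_inj' (Sum.inl.inj he3)
      rw [he1] at hy
      refine ⟨vo X G (od ν), (h.vo_mem_iff hy (h.kapX n)).2 hν, ?_⟩
      exact (h.pair_iff hy hβX (h.cl n α hαX)).2 ⟨p, hp, h2⟩
    · exfalso
      obtain ⟨q', hq', ν, hν, h2⟩ := dense_cl n hα hβ p
      exact h1 q' hq' _ ⟨ν, α, β, rfl, hν, h2⟩

theorem Gd.nextCard (h : Gd X G) (n : ℕ) :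
    NextCard (Mod X G) (vo X G (kap n).ord) (vo X G (kap (n + 1)).ord) := by
  refine ⟨h.isCard_kap n, (h.vo_mem_iff (h.kapX n) (h.kapX (n + 1))).2
    (ord_lt_ord.2 (kap_lt_succ n)), ?_⟩
  intro a ha
  obtain ⟨α, hα, hαX, rfl⟩ := h.mem_vo.1 ha
  exact h.onto_kap n hα hαX

theorem Gd.rhoX (h : Gd X G) (i : Lv) : (Sum.inl (ordN Pos (rho i).ord) : Obj Pos) ∈ X := by
  rcases i with n | n
  · exact h.kapX n
  · exact h.lamX n

theorem Gd.sigX (h : Gd X G) (i : Lv) : (Sum.inl (ordN Pos (sig i).ord) : Obj Pos) ∈ X := by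
  rcases i with n | n
  · exact h.lamX n
  · exact h.muX n

/-- points below a cardinal -/
theorem Gd.mem_vo_pt (h : Gd X G) {c : Cardinal.{0}} (hc : c ≤ muω) {z : ZFSet.{0}} :
    z ∈ vo X G c.ord ↔ ∃ x : Pt, od x < c.ord ∧ (Sum.inl (oN x) : Obj Pos) ∈ X ∧
      vo X G (od x) = z := by
  rw [h.mem_vo]
  constructor
  · rintro ⟨b, hb, h1, h2⟩
    obtain ⟨x, rfl⟩ := exists_od (hb.trans_le (ord_le_ord.2 hc))
    exact ⟨x, hb, h1, h2⟩
  · rintro ⟨x, hx, h1, h2⟩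
    exact ⟨_, hx, h1, h2⟩

theorem Gd.val_clm_sub (h : Gd X G) (i : Lv) (x : Pt) {z : ZFSet.{0}}
    (hz : z ∈ val X G (clmN i x)) : z ∈ vo X G (rho i).ord := by
  obtain ⟨⟨⟨ε, q⟩, hb⟩, -, h2, rfl⟩ := mem_val.1 hz
  exact (h.vo_mem_iff h2 (h.rhoX i)).2 hb.lt

theorem Gd.val_cd_sub (h : Gd X G) (i : Lv) (x : Pt) {z : ZFSet.{0}}
    (hz : z ∈ val X G (cdN (enc i x))) : z ∈ vo X G (rho i).ord := by
  obtain ⟨⟨⟨ε, q⟩, hb⟩, -, h2, rfl⟩ := mem_val.1 hz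
  exact (h.vo_mem_iff h2 (h.rhoX i)).2 ((enc_code i x).2 _ hb).1

/-- different columns -/
theorem Gd.clm_inj (h : Gd X G) (i : Lv) {x y : Pt} (hx : od x < (sig i).ord)
    (hy : od y < (sig i).ord) (hxX : (Sum.inl (oN x) : Obj Pos) ∈ X)
    (hyX : (Sum.inl (oN y) : Obj Pos) ∈ X)
    (he : val X G (clmN i x) = val X G (clmN i y)) : x = y := by
  by_contra hxy
  obtain ⟨p, hp, h1⟩ := h.gFd i _ (l2X hxX hyX)
  rcases h1 with ⟨d, hd, δ, x', y', he', h2⟩ | h1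
  · obtain ⟨he1, he2⟩ := List.cons.inj he'
    obtain ⟨he2, he3⟩ := List.cons.inj he2
    obtain ⟨he3, -⟩ := List.cons.inj he3
    obtain rfl := oN_inj (Sum.inl.inj he2)
    obtain rfl := oN_inj (Sum.inl.inj he3)
    rw [he1] at hd
    have key : ∀ x y : Pt, Bit p i x δ true → Bit p i y δ false →
        (Sum.inl (oN x) : Obj Pos) ∈ X → (Sum.inl (oN y) : Obj Pos) ∈ X →
        val X G (clmN i x) = val X G (clmN i y) → False := by
      intro x y hb1 hb2 hxX hyX he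
      have h3 : vo X G (od δ) ∈ val X G (clmN i x) :=
        mem_val.2 ⟨⟨(δ, p), hb1⟩, hp, hd, rfl⟩
      rw [he] at h3
      obtain ⟨⟨⟨δ', q⟩, hb3⟩, h4, h5, h6⟩ := mem_val.1 h3
      have h7 := od_inj (h.vo_inj h5 hd h6)
      simp only at h7 hb3
      subst h7
      obtain ⟨r, -, hr1, hr2⟩ := h.basic.filt.compat hp h4
      exact absurd ((hb3.mono hr2).unique (hb2.mono hr1)) (by simp)
    obtain ⟨b, -, h3, h4⟩ := h2
    cases b
    · exact key y x h4 h3 hyX hxX he.symm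
    · exact key x y h3 h4 hxX hyX he
  · obtain ⟨q', hq', δ, h2⟩ := dense_fd i hx hy hxy p
    exact h1 q' hq' _ ⟨δ, x, y, rfl, h2⟩

/-- **Powers.** -/
theorem Gd.powCard (h : Gd X G) (i : Lv) :
    PowCard (Mod X G) (vo X G (rho i).ord) (vo X G (sig i).ord) := by
  refine ⟨h.isCard_sig i, ?_⟩
  obtain ⟨S, hS, hS2⟩ := Mod.powerset h.basic h.clos (Gd.vo_mod (G := G) (h.rhoX i))
  refine ⟨S, ⟨hS, hS2⟩, ?_, ?_⟩
  · refine ⟨_, mem_Mod (h.en i), ?_, ?_⟩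
    · intro a b b' hb hb'
      obtain ⟨⟨x, hx⟩, -, h2, h3⟩ := mem_val.1 hb
      obtain ⟨⟨x', hx'⟩, -, h2', h3'⟩ := mem_val.1 hb'
      change (Sum.inl (pairN (oN x) (cdN (enc i x))) : Obj Pos) ∈ X at h2
      change (Sum.inl (pairN (oN x') (cdN (enc i x'))) : Obj Pos) ∈ X at h2'
      change val X G (pairN (oN x) (cdN (enc i x))) = _ at h3
      change val X G (pairN (oN x') (cdN (enc i x'))) = _ at h3'
      rw [val_pairN h.basic.filt h.clos (h.clos.fst _ _ h2) (h.clos.snd _ _ h2)] at h3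
      rw [val_pairN h.basic.filt h.clos (h.clos.fst _ _ h2') (h.clos.snd _ _ h2')] at h3'
      obtain ⟨h4, h5⟩ := ZFSet.pair_injective h3
      obtain ⟨h4', h5'⟩ := ZFSet.pair_injective h3'
      have hxx : x = x' := od_inj (h.vo_inj (h.clos.fst _ _ h2) (h.clos.fst _ _ h2')
        (h4.trans h4'.symm))
      rw [← h5, ← h5', hxx]
    · intro b hb
      obtain ⟨⟨y, hy, rfl⟩, hsub⟩ := (hS2 b).1 hb
      obtain ⟨p, hp, h1⟩ := h.gAgn i _ (l1X hy)
      rcases h1 with ⟨t, ht, x, y', he, hx, h2⟩ | h1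
      · obtain ⟨he1, he2⟩ := List.cons.inj he
        obtain ⟨he2, -⟩ := List.cons.inj he2
        obtain rfl := Sum.inl.inj he2
        rw [he1] at ht
        have hcd := h.cd i x ht
        refine ⟨vo X G (od x), (h.vo_mem_iff ht (h.sigX i)).2 hx, ?_⟩
        have hval : val X G (cdN (enc i x)) = val X G y := by
          have key : ∀ u v : Nm Pos, (Sum.inl u : Obj Pos) ∈ X → (Sum.inl v : Obj Pos) ∈ X →
              Agn i u v p → ∀ ε, od ε < (rho i).ord → (Sum.inl (oN ε) : Obj Pos) ∈ X →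
              vo X G (od ε) ∈ val X G u → vo X G (od ε) ∈ val X G v := by
            intro u v hu hv huv ε hε hεX hm
            obtain ⟨q, hq, h3⟩ := (h.basic.mem_iff hεX hu).1 hm
            obtain ⟨r, hr, hr1, hr2⟩ := h.basic.filt.compat hp hq
            exact (h.basic.mem_iff hεX hv).2 ⟨r, hr, (huv ε hε r hr1).1 (h3.mono hr2)⟩
          have h2' : Agn i (cdN (enc i x)) y p := fun ε hε r hr => (h2 ε hε r hr).symm
          ext z
          constructor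
          · intro hz
            obtain ⟨ε, hε, hεX, rfl⟩ := (h.mem_vo_pt
              ((rho_lt_sig i).le.trans (sig_le i))).1 (h.val_cd_sub i x hz)
            exact key _ _ hcd hy h2' ε hε hεX hz
          · intro hz
            obtain ⟨ε, hε, hεX, rfl⟩ := (h.mem_vo_pt
              ((rho_lt_sig i).le.trans (sig_le i))).1 (hsub hz)
            exact key _ _ hy hcd h2 ε hε hεX hz
        rw [← hval]
        change ZFSet.pair (val X G (oN x)) (val X G (cdN (enc i x))) ∈ _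
        rw [← val_pairN h.basic.filt h.clos ht hcd]
        exact mem_val.2 ⟨⟨x, hx⟩, h.basic.filt.top, h.clos.pair ht hcd, rfl⟩
      · exfalso
        obtain ⟨q', hq', x, hx, h2⟩ := dense_code i y p
        exact h1 q' hq' _ ⟨x, y, rfl, hx, h2⟩
  · refine ⟨_, mem_Mod (h.inn i), ?_, ?_⟩
    · intro a b b' hb hb'
      obtain ⟨⟨x, hx⟩, -, h2, h3⟩ := mem_val.1 hb
      obtain ⟨⟨x', hx'⟩, -, h2', h3'⟩ := mem_val.1 hb'
      change (Sum.inl (pairN (clmN i x) (oN x)) : Obj Pos) ∈ X at h2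
      change (Sum.inl (pairN (clmN i x') (oN x')) : Obj Pos) ∈ X at h2'
      change val X G (pairN (clmN i x) (oN x)) = _ at h3
      change val X G (pairN (clmN i x') (oN x')) = _ at h3'
      rw [val_pairN h.basic.filt h.clos (h.clos.fst _ _ h2) (h.clos.snd _ _ h2)] at h3
      rw [val_pairN h.basic.filt h.clos (h.clos.fst _ _ h2') (h.clos.snd _ _ h2')] at h3'
      obtain ⟨h4, h5⟩ := ZFSet.pair_injective h3
      obtain ⟨h4', h5'⟩ := ZFSet.pair_injective h3'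
      have hxx := h.clm_inj i hx hx' (h.clos.snd _ _ h2) (h.clos.snd _ _ h2')
        (h4.trans h4'.symm)
      rw [← h5, ← h5', hxx]
    · intro b hb
      obtain ⟨x, hx, hxX, rfl⟩ := (h.mem_vo_pt (sig_le i)).1 hb
      have hc := h.clm i x hxX
      refine ⟨val X G (clmN i x), (hS2 _).2 ⟨mem_Mod hc, fun z hz => h.val_clm_sub i x hz⟩, ?_⟩
      change ZFSet.pair (val X G (clmN i x)) (val X G (oN x)) ∈ _
      rw [← val_pairN h.basic.filt h.clos hc hxX]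
      exact mem_val.2 ⟨⟨x, hx⟩, h.basic.filt.top, h.clos.pair hc hxX, rfl⟩

theorem exists_c3 {f : Nm Pos} {a b : ZFSet.{0}} (hab : ZFSet.pair a b ∈ val X G f) :
    (∃ s : Cmp3 f, (Sum.inl (c3 s) : Obj Pos) ∈ X ∧ val X G (c3 s) = a) ∧
      ∃ s : Cmp3 f, (Sum.inl (c3 s) : Obj Pos) ∈ X ∧ val X G (c3 s) = b := by
  obtain ⟨i, -, hi, he⟩ := mem_val.1 hab
  have h1 : ({a, b} : ZFSet.{0}) ∈ val X G (f.fn i) := by
    rw [he]
    unfold ZFSet.pair
    exact ZFSet.mem_pair.2 (Or.inr rfl)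
  obtain ⟨j, -, hj, hje⟩ := mem_val.1 h1
  constructor
  · have h2 : a ∈ val X G ((f.fn i).fn j) := by
      rw [hje]
      exact ZFSet.mem_pair.2 (Or.inl rfl)
    obtain ⟨k, -, hk, hke⟩ := mem_val.1 h2
    exact ⟨⟨i, j, k⟩, hk, hke⟩
  · have h2 : b ∈ val X G ((f.fn i).fn j) := by
      rw [hje]
      exact ZFSet.mem_pair.2 (Or.inr rfl)
    obtain ⟨k, -, hk, hke⟩ := mem_val.1 h2
    exact ⟨⟨i, j, k⟩, hk, hke⟩

theorem Gd.mem_cmp (h : Gd X G) {f g : Nm Pos} (hf : (Sum.inl f : Obj Pos) ∈ X)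
    (hg : (Sum.inl g : Obj Pos) ∈ X) {a c : ZFSet.{0}} :
    ZFSet.pair a c ∈ val X G (cmpN f g) ↔
      ∃ b, ZFSet.pair a b ∈ val X G f ∧ ZFSet.pair b c ∈ val X G g := by
  constructor
  · intro hac
    obtain ⟨⟨⟨⟨s, t, r⟩, p⟩, h1, h2⟩, hp, h3, h4⟩ := mem_val.1 hac
    simp only at h1 h2
    change p ∈ G at hp
    change (Sum.inl (pairN (c3 s) (c3 r)) : Obj Pos) ∈ X at h3
    change val X G (pairN (c3 s) (c3 r)) = _ at h4
    have hs := h.clos.fst _ _ h3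
    have hr := h.clos.snd _ _ h3
    rw [val_pairN h.basic.filt h.clos hs hr] at h4
    obtain ⟨rfl, rfl⟩ := ZFSet.pair_injective h4
    obtain ⟨p', hp', h5⟩ := h.gMid _ (l4X hs hr hf hg)
    rcases h5 with ⟨y, hy, y', u', w', f', g', he, h6, h7⟩ | h5
    · obtain ⟨he1, he2⟩ := List.cons.inj he
      obtain ⟨he2, he3⟩ := List.cons.inj he2
      obtain ⟨he3, he4⟩ := List.cons.inj he3
      obtain ⟨he4, he5⟩ := List.cons.inj he4
      obtain ⟨he5, -⟩ := List.cons.inj he5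
      obtain rfl := Sum.inl.inj he2
      obtain rfl := Sum.inl.inj he3
      obtain rfl := Sum.inl.inj he4
      obtain rfl := Sum.inl.inj he5
      rw [he1] at hy
      exact ⟨val X G y', (h.pair_iff hs hy hf).2 ⟨p', hp', h6⟩,
        (h.pair_iff hy hr hg).2 ⟨p', hp', h7⟩⟩
    · exfalso
      obtain ⟨q, -, hq1, hq2⟩ := h.basic.filt.compat hp hp'
      exact h5 q hq2 _ ⟨c3 t, _, _, f, g, rfl, h1.mono hq1, h2.mono hq1⟩
  · rintro ⟨b, hab, hbc⟩
    obtain ⟨⟨s, hs, rfl⟩, ⟨t, ht, rfl⟩⟩ := exists_c3 hab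
    obtain ⟨-, ⟨r, hr, rfl⟩⟩ := exists_c3 hbc
    obtain ⟨p, hp, h1⟩ := (h.pair_iff hs ht hf).1 hab
    obtain ⟨q, hq, h2⟩ := (h.pair_iff ht hr hg).1 hbc
    obtain ⟨p', hp', h3, h4⟩ := h.basic.filt.compat hp hq
    rw [← val_pairN h.basic.filt h.clos hs hr]
    exact mem_val.2 ⟨⟨((s, t, r), p'), h1.mono h3, h2.mono h4⟩, hp', h.clos.pair hs hr, rfl⟩

/-- **Composition.** -/
theorem Gd.onto_trans (h : Gd X G) {a b c : ZFSet.{0}} (hab : Onto (Mod X G) a b)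
    (hbc : Onto (Mod X G) b c) : Onto (Mod X G) a c := by
  obtain ⟨_, ⟨f, hf, rfl⟩, hf2, hf3⟩ := hab
  obtain ⟨_, ⟨g, hg, rfl⟩, hg2, hg3⟩ := hbc
  refine ⟨_, mem_Mod (h.cmp f g hf hg), ?_, ?_⟩
  · intro x y z hy hz
    obtain ⟨u, hu1, hu2⟩ := (h.mem_cmp hf hg).1 hy
    obtain ⟨v, hv1, hv2⟩ := (h.mem_cmp hf hg).1 hz
    obtain rfl := hf2 _ _ _ hu1 hv1
    exact hg2 _ _ _ hu2 hv2
  · intro y hy
    obtain ⟨x, hx, hxy⟩ := hg3 y hy
    obtain ⟨w, hw, hwx⟩ := hf3 x hx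
    exact ⟨w, hw, (h.mem_cmp hf hg).2 ⟨x, hwx, hxy⟩⟩

theorem PowCard.onto {N : Set ZFSet.{0}} {κ ν κ' ν' : ZFSet.{0}} (h : PowCard N κ ν)
    (h' : PowCard N κ' ν') (hsub : κ' ⊆ κ)
    (htr : ∀ {a b c : ZFSet.{0}}, Onto N a b → Onto N b c → Onto N a c) : ν' ⊆ ν := by
  obtain ⟨hν, S, ⟨-, hS⟩, h1, -⟩ := h
  obtain ⟨hν', S', ⟨-, hS'⟩, -, h2⟩ := h'
  have h3 : Onto N ν S' := by
    obtain ⟨f, hf1, hf2, hf3⟩ := h1
    refine ⟨f, hf1, hf2, fun y hy => hf3 y ((hS y).2 ⟨((hS' y).1 hy).1, ?_⟩)⟩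
    exact fun z hz => hsub (((hS' y).1 hy).2 hz)
  have h4 := htr h3 h2
  rcases hν'.2.1.mem_or_subset hν.2.1 with h5 | h5
  · exact hν.2.1.subset_of_mem h5
  · rcases (ZFSet.IsOrdinal.subset_iff_eq_or_mem hν.2.1 hν'.2.1).1 h5 with h6 | h6
    · rw [h6]
    · exact (hν'.2.2 ν h6 h4).elim

end

end Pool.Agent.Helper96.Fc
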