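import Pool.Agent.Helper96.Fc.Facts

/-!
# The first theorem
-/

open Cardinal Ordinal Set

set_option linter.unusedSectionVars false

namespace Pool.Agent.Helper96.Fc

theorem Col3.lt {q : Pos} {x y z : Pt} (h : Col3 q x y z) : x < y ∧ y < z := by
  rcases h with ⟨h1, h2, -⟩ | ⟨n, hn, h1, m, hmn, -, hm, -⟩
  · exact ⟨h1, h2⟩
  · exact ⟨h1, hm.lt_of_lt hn hmn⟩

theorem Col3.mono {q r : Pos} {x y z : Pt} (h : Col3 q x y z) (hr : r ≤ q) : Col3 r x y z := by
  rcases h with ⟨h1, h2, m, h3, h4, h5, δ, b, h6, h7⟩ | ⟨n, hn, h1, m, hmn, h2, h3, δ, b, ν, h4, h5, h6⟩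
  · exact Or.inl ⟨h1, h2, m, h3, h4, h5, δ, b, h6.mono hr, h7.mono hr⟩
  · exact Or.inr ⟨n, hn, h1, m, hmn, h2, h3, δ, b, ν, h4.mono hr, h5, h6.mono hr⟩

/-- no four points all of whose triples have colour 1 -/
theorem no4 (q : Pos) (x y z w : Pt) (h1 : Col3 q x y z) (h2 : Col3 q x y w)
    (h3 : Col3 q y z w) : False := by
  rcases h3 with ⟨-, -, m, h3y, h3z, h3w, δ, b, h4, h5⟩ | ⟨n, hnw, -, m, hmn, h3y, h3z, δ, b, ν, h4, h5, h6⟩
  · -- all of level m
    rcases h2 with ⟨-, -, m', h2x, h2y, h2w, δ', b', h6, h7⟩ | ⟨n, hnw, -, m', hmn, h2x, h2y, -⟩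
    · have e1 := h2y.unique h3y
      subst e1
      rcases h1 with ⟨-, -, m'', h1x, h1y, h1z, δ'', b'', h8, h9⟩ | ⟨n, hnw, -, m'', hmn, h2x, h2y, -⟩
      · have e2 := h1y.unique h3y
        subst e2
        obtain ⟨rfl, rfl⟩ := h6.unique h8
        obtain ⟨rfl, rfl⟩ := h4.unique h9.symm
        have := h5.2.1.unique h7.2.1
        cases b' <;> simp at this
      · have e1 := h2y.unique h3y
        have e2 := hnw.unique h3z
        omega
    · have e1 := h2y.unique h3y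
      have e2 := hnw.unique h3w
      omega
  · rcases h1 with ⟨-, -, m', h1x, h1y, h1z, δ', b', h7, h8⟩ | ⟨n', hnz, -, m', hmn', h2x, h2y, -⟩
    · have e1 := h1y.unique h3y
      subst e1
      rcases h2 with ⟨-, -, m'', h2x, h2y, h2w, -⟩ | ⟨n'', hnw', -, m'', hmn'', h2x, h2y, δ'', b'', ν', h9, h10, h11⟩
      · have e1 := h2y.unique h3y
        have e2 := h2w.unique hnw
        omega
      · have e1 := h2y.unique h3y
        subst e1
        have e2 := hnw'.unique hnw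
        subst e2
        obtain ⟨rfl, rfl⟩ := h9.unique h7
        obtain ⟨rfl, rfl⟩ := h4.unique h8.symm
        have e3 : ν = ν' := od_inj (h5.trans h10.symm)
        subst e3
        have := h6.unique h11
        cases b'' <;> simp at this
    · have e1 := h2y.unique h3y
      have e2 := hnz.unique h3z
      omega

section

variable {X : Set (Obj Pos)} {G : Set Pos}

theorem Gd.mem_finN (h : Gd X G) {k : ℕ} {v : Fin k → Nm Pos}
    (hv : ∀ j, (Sum.inl (v j) : Obj Pos) ∈ X) {z : ZFSet.{0}} :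
    z ∈ val X G (finN v) ↔ ∃ j, val X G (v j) = z := by
  rw [mem_val]
  constructor
  · rintro ⟨j, -, -, h1⟩
    exact ⟨j, h1⟩
  · rintro ⟨j, h1⟩
    exact ⟨j, h.basic.filt.top, hv j, h1⟩

theorem Gd.mem_FN (h : Gd X G) {k : ℕ} {t : ZFSet.{0}} :
    t ∈ val X G (FN k) ↔ ∃ (v : Fin k → Pt), ∃ q ∈ G, ColK k q v ∧
      (∀ j, (Sum.inl (oN (v j)) : Obj Pos) ∈ X) ∧ val X G (finN (fun j => oN (v j))) = t := by
  rw [mem_val]
  constructor
  · rintro ⟨⟨⟨v, q⟩, hc⟩, h1, h2, h3⟩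
    exact ⟨v, q, h1, hc, h.fin' k _ h2, h3⟩
  · rintro ⟨v, q, hq, hc, hv, h3⟩
    exact ⟨⟨⟨v, q⟩, hc⟩, hq, h.fin k _ hv, h3⟩

/-- the points of the extension -/
def Px (X : Set (Obj Pos)) : Set Pt := {x | (Sum.inl (oN x) : Obj Pos) ∈ X}

/-- the finite set of points `s` is in the set `t` -/
def Isf (X : Set (Obj Pos)) (G : Set Pos) (s : Finset Pt) (t : ZFSet.{0}) : Prop :=
  ∀ z, z ∈ t ↔ ∃ x ∈ s, vo X G (od x) = z

theorem Gd.isf_inj (h : Gd X G) {s s' : Finset Pt} {t : ZFSet.{0}} (hs : Isf X G s t)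
    (hs' : Isf X G s' t) (hX : ∀ x ∈ s, x ∈ Px X) (hX' : ∀ x ∈ s', x ∈ Px X) : s = s' := by
  have key : ∀ {s s' : Finset Pt}, Isf X G s t → Isf X G s' t → (∀ x ∈ s, x ∈ Px X) →
      (∀ x ∈ s', x ∈ Px X) → s ⊆ s' := by
    intro s s' hs hs' hX hX' x hx
    obtain ⟨y, hy, hyx⟩ := (hs' _).1 ((hs _).2 ⟨x, hx, rfl⟩)
    have := od_inj (h.vo_inj (hX' y hy) (hX x hx) hyx)
    rw [← this]
    exact hy
  exact Finset.Subset.antisymm (key hs hs' hX hX') (key hs' hs hX' hX)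

/-- **Colours of triples.** -/
theorem Gd.col3 (h : Gd X G) {x y z : Pt} (hx : x ∈ Px X) (hy : y ∈ Px X) (hz : z ∈ Px X)
    (hxy : x < y) (hyz : y < z) {t : ZFSet.{0}} (ht : Isf X G {x, y, z} t)
    (hF : t ∈ val X G (FN 3)) : ∃ q ∈ G, Col3 q x y z := by
  classical
  obtain ⟨v, q, hq, hc, hv, rfl⟩ := h.mem_FN.1 hF
  have h1 : Isf X G {v 0, v 1, v 2} (val X G (finN (fun j => oN (v j)))) := by
    intro w
    rw [h.mem_finN hv]
    constructor
    · rintro ⟨j, rfl⟩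
      refine ⟨v j, ?_, rfl⟩
      fin_cases j <;> simp
    · rintro ⟨u, hu, rfl⟩
      simp only [Finset.mem_insert, Finset.mem_singleton] at hu
      rcases hu with rfl | rfl | rfl
      · exact ⟨0, rfl⟩
      · exact ⟨1, rfl⟩
      · exact ⟨2, rfl⟩
  have hc3 : Col3 q (v 0) (v 1) (v 2) := hc
  have h2 := h.isf_inj ht h1 (by
    intro u hu
    simp only [Finset.mem_insert, Finset.mem_singleton] at hu
    rcases hu with rfl | rfl | rfl <;> assumption) (by
    intro u hu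
    simp only [Finset.mem_insert, Finset.mem_singleton] at hu
    rcases hu with rfl | rfl | rfl
    · exact hv 0
    · exact hv 1
    · exact hv 2)
  have h3 : StrictMono ![x, y, z] := by
    rw [Fin.strictMono_iff_lt_succ]
    intro i
    fin_cases i
    · exact hxy
    · exact hyz
  have h4 : StrictMono ![v 0, v 1, v 2] := by
    rw [Fin.strictMono_iff_lt_succ]
    intro i
    fin_cases i
    · exact hc3.lt.1
    · exact hc3.lt.2
  have h5 : Set.range ![x, y, z] = Set.range ![v 0, v 1, v 2] := by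
    have e := congrArg (fun s : Finset Pt => (s : Set Pt)) h2
    simp only [Finset.coe_insert, Finset.coe_singleton] at e
    simp only [Matrix.range_cons, Matrix.range_empty, Set.union_empty]
    rw [Set.singleton_union, Set.singleton_union, Set.singleton_union, Set.singleton_union]
    exact e
  have h6 := (h3.range_inj h4).1 h5
  have e0 := congrFun h6 0
  have e1 := congrFun h6 1
  have e2 := congrFun h6 2
  simp only [Matrix.cons_val_zero, Matrix.cons_val_one, Matrix.cons_val] at e0 e1 e2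
  rw [e0, e1, e2]
  exact ⟨q, hq, hc3⟩

/-- four points -/
theorem Gd.no4 (h : Gd X G) {S : Finset Pt} (hS : S.card = 4) (hX : ∀ x ∈ S, x ∈ Px X)
    (hF : ∀ s ⊆ S, s.card = 3 → ∃ t ∈ val X G (FN 3), Isf X G s t) : False := by
  classical
  let e := S.orderEmbOfFin hS
  have he : ∀ i, e i ∈ S := fun i => Finset.orderEmbOfFin_mem S hS i
  have key : ∀ i j k : Fin 4, i < j → j < k → ∃ q ∈ G, Col3 q (e i) (e j) (e k) := by
    intro i j k hij hjk
    have h1 : e i < e j := e.lt_iff_lt.2 hij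
    have h2 : e j < e k := e.lt_iff_lt.2 hjk
    obtain ⟨t, ht, h3⟩ := hF {e i, e j, e k} (by
      intro u hu
      simp only [Finset.mem_insert, Finset.mem_singleton] at hu
      rcases hu with rfl | rfl | rfl <;> exact he _) (Finset.card_eq_three.2
        ⟨_, _, _, h1.ne, (h1.trans h2).ne, h2.ne, rfl⟩)
    exact h.col3 (hX _ (he i)) (hX _ (he j)) (hX _ (he k)) h1 h2 h3 ht
  obtain ⟨q1, hq1, h1⟩ := key 0 1 2 (by decide) (by decide)
  obtain ⟨q2, hq2, h2⟩ := key 0 1 3 (by decide) (by decide)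
  obtain ⟨q3, hq3, h3⟩ := key 1 2 3 (by decide) (by decide)
  obtain ⟨r, hr, hr1, hr2⟩ := h.basic.filt.compat hq1 hq2
  obtain ⟨s, -, hs1, hs2⟩ := h.basic.filt.compat hr hq3
  exact Fc.no4 s _ _ _ _ (h1.mono (hs1.trans hr1)) (h2.mono (hs1.trans hr2)) (h3.mono hs2)

/-- **Large sets contain triples of colour 1.** -/
theorem Gd.triple (h : Gd X G) {H f : ZFSet.{0}} (hH : H ∈ Mod X G)
    (hsub : ∀ x ∈ H, x ∈ vo X G lamω.ord) (hf : MapsOnto (Mod X G) f H (vo X G kapω.ord)) :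
    ∃ x ∈ Px X, ∃ y ∈ Px X, ∃ z ∈ Px X, x < y ∧ y < z ∧ vo X G (od x) ∈ H ∧
      vo X G (od y) ∈ H ∧ vo X G (od z) ∈ H ∧
        val X G (finN ![oN x, oN y, oN z]) ∈ val X G (FN 3) := by
  obtain ⟨⟨f, hfX, rfl⟩, hfun, hon⟩ := hf
  obtain ⟨H, hHX, rfl⟩ := hH
  obtain ⟨p, hp, h1, h2⟩ := h.exists_cond hfX hHX h.kapωX h.lamωX hfun hon hsub
  obtain ⟨p3, hp3, h3⟩ := h.gCol 3 _ (l1X hHX)
  rcases h3 with ⟨y, hy, v, H', he, h4, h5⟩ | h3
  · obtain ⟨he1, he2⟩ := List.cons.inj he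
    obtain ⟨he2, -⟩ := List.cons.inj he2
    obtain rfl := Sum.inl.inj he2
    rw [he1] at hy
    have hv := h.fin' 3 _ hy
    have h6 : ∀ j, vo X G (od (v j)) ∈ val X G H := fun j =>
      (h.basic.mem_iff (hv j) hHX).2 ⟨p3, hp3, h4 j⟩
    have hc3 : Col3 p3 (v 0) (v 1) (v 2) := h5
    refine ⟨v 0, hv 0, v 1, hv 1, v 2, hv 2, hc3.lt.1, hc3.lt.2, h6 0, h6 1, h6 2, ?_⟩
    have e : ![oN (v 0), oN (v 1), oN (v 2)] = fun j => oN (v j) := by
      funext j
      fin_cases j <;> rfl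
    rw [e]
    exact h.mem_FN.2 ⟨v, p3, hp3, h5, hv, rfl⟩
  · exfalso
    obtain ⟨p', -, hp1, hp2⟩ := h.basic.filt.compat hp hp3
    obtain ⟨q, hq, x, y, z, ξ, η, ζ, ⟨-, hx, -⟩, ⟨-, hy, -⟩, ⟨-, hz, -⟩, hc⟩ := q1core (p := p')
      (Φ := fun r x ξ => (r ≤ p' ∧ od x < lamω.ord) ∧ FMem (oN x) H r ∧
        FMem (pairN (oN x) (oN ξ)) f r)
      (fun r r' x ξ h4 hr => ⟨⟨hr.trans h4.1.1, h4.1.2⟩, h4.2.1.mono hr, h4.2.2.mono hr⟩)
      (fun r x ξ η h4 h5 => od_inj (h1 r (h4.1.1.trans hp1) _ _ _ h4.2.2 h5.2.2))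
      (fun r x ξ h4 => h4.1.2)
      (by
        intro ξ hξ q hq
        obtain ⟨r, hr, β, hβ, h4, h5⟩ := h2 (od ξ) hξ q (hq.trans hp1)
        have hlm : lamω ≤ muω := (lamω_lt_mu 0).le.trans (mu_le_muω 0)
        obtain ⟨x, rfl⟩ := exists_od (hβ.trans_le (ord_le_ord.2 hlm))
        exact ⟨r, hr, x, ⟨hr.trans hq, hβ⟩, h4, h5⟩)
    refine h3 q (hq.trans hp2) _ ⟨![x, y, z], H, rfl, ?_, ?_⟩
    · intro j
      fin_cases j
      · exact hx
      · exact hy
      · exact hz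
    · exact hc

theorem Gd.isSup (h : Gd X G) {c : ℕ → Cardinal.{0}} {d : Cardinal.{0}}
    (hcd : ∀ o : Ordinal.{0}, o < d.ord ↔ ∃ n, o < (c n).ord)
    (hd : (Sum.inl (ordN Pos d.ord) : Obj Pos) ∈ X) :
    IsSup (Mod X G) (fun n => vo X G (c n).ord) (vo X G d.ord) := by
  refine ⟨Gd.vo_mod hd, ?_⟩
  intro z
  rw [h.mem_vo]
  constructor
  · rintro ⟨b, hb, h1, h2⟩
    obtain ⟨n, hn⟩ := (hcd b).1 hb
    exact ⟨n, h.mem_vo.2 ⟨b, hn, h1, h2⟩⟩
  · rintro ⟨n, hn⟩
    obtain ⟨b, hb, h1, h2⟩ := h.mem_vo.1 hn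
    exact ⟨b, (hcd b).2 ⟨n, hb⟩, h1, h2⟩

theorem lt_ord_iSup {c : ℕ → Cardinal.{0}} (o : Ordinal.{0}) :
    o < (⨆ n, c n).ord ↔ ∃ n, o < (c n).ord := by
  rw [lt_ord]
  constructor
  · intro h
    obtain ⟨n, hn⟩ := exists_lt_of_lt_ciSup h
    exact ⟨n, lt_ord.2 hn⟩
  · rintro ⟨n, hn⟩
    exact (lt_ord.1 hn).trans_le (le_ciSup Cardinal.bddAbove_of_small n)

/-- the cardinal arithmetic of the model -/
theorem Gd.hyp (h : Gd X G) : Hyp (Mod X G) (fun n => vo X G (kap n).ord)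
    (fun n => vo X G (lam n).ord) (fun n => vo X G (mu n).ord) (vo X G kapω.ord)
    (vo X G lamω.ord) where
  zero := by
    change vo X G (ℵ₀).ord = _
    rw [ord_aleph0]
    exact h.vo_omega
  next := h.nextCard
  supA := h.isSup (c := kap) (d := kapω) (fun o => lt_ord_iSup o) h.kapωX
  powb := fun n => h.powCard (.inl n)
  supB := h.isSup (c := lam) (d := lamω) (fun o => lt_ord_iSup o) h.lamωX
  powc := fun n => h.powCard (.inr n)
  incb := fun n => (h.vo_mem_iff (h.lamX n) (h.lamX (n + 1))).2 (ord_lt_ord.2 (lam_lt_succ n))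
  incc := fun n => (h.vo_mem_iff (h.muX n) (h.muX (n + 1))).2
    (ord_lt_ord.2 (mu_strictMono (Nat.lt_succ_self n)))
  weakH := by
    refine ⟨(h.vo_mem_iff h.kapωX h.lamωX).2
      (ord_lt_ord.2 ((kapω_lt_lam 0).trans_le (lam_le_lamω 0))), ?_⟩
    rintro S hS n ⟨f, hf1, hf2, hf3⟩
    obtain ⟨hc, S', hS', -, hon⟩ := h.powCard (.inr (n + 1))
    have h1 : Onto (Mod X G) (vo X G (mu n).ord) S' := by
      refine ⟨f, hf1, hf2, fun y hy => hf3 y ((hS.2 y).2 ⟨((hS'.2 y).1 hy).1, ?_⟩)⟩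
      intro z hz
      obtain ⟨o, ho, h1, h2⟩ := h.mem_vo.1 (((hS'.2 y).1 hy).2 hz)
      exact h.mem_vo.2 ⟨o, ho.trans_le (ord_le_ord.2 (lam_le_lamω (n + 1))), h1, h2⟩
    exact hc.2.2 _ ((h.vo_mem_iff (h.muX n) (h.muX (n + 1))).2
      (ord_lt_ord.2 (mu_strictMono (Nat.lt_succ_self n)))) (h.onto_trans h1 hon)
  fullH := by
    intro P Q hP hQ
    have hb : ∀ k, vo X G (lam k).ord ⊆ P := fun k =>
      PowCard.onto hP (h.powCard (.inl k)) (by
        intro z hz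
        obtain ⟨o, ho, h1, h2⟩ := h.mem_vo.1 hz
        exact h.mem_vo.2 ⟨o, ho.trans_le (ord_le_ord.2 (kap_le_kapω k)), h1, h2⟩)
        (fun h1 h2 => h.onto_trans h1 h2)
    have hc : ∀ k, vo X G (mu k).ord ⊆ Q := fun k =>
      PowCard.onto hQ (h.powCard (.inr k)) (hb k) (fun h1 h2 => h.onto_trans h1 h2)
    refine ⟨hb 0 ((h.vo_mem_iff h.kapωX (h.lamX 0)).2 (ord_lt_ord.2 (kapω_lt_lam 0))), ?_⟩
    exact fun n => hc (n + 1) ((h.vo_mem_iff (h.muX n) (h.muX (n + 1))).2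
      (ord_lt_ord.2 (mu_strictMono (Nat.lt_succ_self n))))

theorem Gd.val_fin3 (h : Gd X G) {x y z : Pt} (hx : x ∈ Px X) (hy : y ∈ Px X) (hz : z ∈ Px X) :
    val X G (finN ![oN x, oN y, oN z]) =
      {vo X G (od x), vo X G (od y), vo X G (od z)} := by
  have hv : ∀ j, (Sum.inl (![oN x, oN y, oN z] j) : Obj Pos) ∈ X := by
    intro j
    fin_cases j
    · exact hx
    · exact hy
    · exact hz
  ext w
  rw [h.mem_finN hv]
  simp only [ZFSet.mem_insert_iff, ZFSet.mem_singleton]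
  constructor
  · rintro ⟨j, rfl⟩
    fin_cases j
    · exact Or.inl rfl
    · exact Or.inr (Or.inl rfl)
    · exact Or.inr (Or.inr rfl)
  · rintro (rfl | rfl | rfl)
    · exact ⟨0, rfl⟩
    · exact ⟨1, rfl⟩
    · exact ⟨2, rfl⟩

theorem isf3 {x y z : Pt} :
    Isf X G {x, y, z} {vo X G (od x), vo X G (od y), vo X G (od z)} := by
  intro w
  simp only [ZFSet.mem_insert_iff, ZFSet.mem_singleton, Finset.mem_insert, Finset.mem_singleton]
  constructor
  · rintro (h | h | h)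
    · exact ⟨x, Or.inl rfl, h.symm⟩
    · exact ⟨y, Or.inr (Or.inl rfl), h.symm⟩
    · exact ⟨z, Or.inr (Or.inr rfl), h.symm⟩
  · rintro ⟨u, rfl | rfl | rfl, h⟩
    · exact Or.inl h.symm
    · exact Or.inr (Or.inl h.symm)
    · exact Or.inr (Or.inr h.symm)

/-- **The first theorem.** -/
theorem main1 : ∃ N : Set ZFSet.{0}, N.Countable ∧ IsZFC N ∧
    ∃ (a b c : ℕ → ZFSet.{0}) (A B : ZFSet.{0}), Hyp N a b c A B ∧
      ∃ F ∈ N,
        (∀ H ∈ N, (∀ x ∈ H, x ∈ B) → Onto N H A →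
          ∃ x ∈ H, ∃ y ∈ H, ∃ z ∈ H, x ≠ y ∧ x ≠ z ∧ y ≠ z ∧ ({x, y, z} : ZFSet.{0}) ∈ F) ∧
        (∀ w ∈ B, ∀ x ∈ B, ∀ y ∈ B, ∀ z ∈ B, w ≠ x → w ≠ y → w ≠ z → x ≠ y → x ≠ z → y ≠ z →
          ¬ (({w, x, y} : ZFSet.{0}) ∈ F ∧ ({w, x, z} : ZFSet.{0}) ∈ F ∧
            ({w, y, z} : ZFSet.{0}) ∈ F ∧ ({x, y, z} : ZFSet.{0}) ∈ F)) := by
  classical
  obtain ⟨X, G, hX, h⟩ := exists_gd
  have hlm : lamω ≤ muω := (lamω_lt_mu 0).le.trans (mu_le_muω 0)
  refine ⟨Mod X G, Mod_countable hX, Mod.isZFC h.basic h.clos, _, _, _, _, _, h.hyp,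
    val X G (FN 3), mem_Mod (h.F 3), ?_, ?_⟩
  · rintro H hH hsub ⟨f, hf⟩
    obtain ⟨x, hx, y, hy, z, hz, hxy, hyz, h1, h2, h3, h4⟩ := h.triple hH hsub hf
    refine ⟨_, h1, _, h2, _, h3, ?_, ?_, ?_, ?_⟩
    · exact fun he => hxy.ne (od_inj (h.vo_inj hx hy he))
    · exact fun he => (hxy.trans hyz).ne (od_inj (h.vo_inj hx hz he))
    · exact fun he => hyz.ne (od_inj (h.vo_inj hy hz he))
    · rw [← h.val_fin3 hx hy hz]
      exact h4
  · rintro w hw x hx y hy z hz n1 n2 n3 n4 n5 n6 ⟨f1, f2, f3, f4⟩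
    obtain ⟨w, -, hw, rfl⟩ := (h.mem_vo_pt hlm).1 hw
    obtain ⟨x, -, hx, rfl⟩ := (h.mem_vo_pt hlm).1 hx
    obtain ⟨y, -, hy, rfl⟩ := (h.mem_vo_pt hlm).1 hy
    obtain ⟨z, -, hz, rfl⟩ := (h.mem_vo_pt hlm).1 hz
    have m1 : w ≠ x := fun e => n1 (by rw [e])
    have m2 : w ≠ y := fun e => n2 (by rw [e])
    have m3 : w ≠ z := fun e => n3 (by rw [e])
    have m4 : x ≠ y := fun e => n4 (by rw [e])
    have m5 : x ≠ z := fun e => n5 (by rw [e])
    have m6 : y ≠ z := fun e => n6 (by rw [e])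
    have hS : ({w, x, y, z} : Finset Pt).card = 4 :=
      Finset.card_eq_four.2 ⟨w, x, y, z, m1, m2, m3, m4, m5, m6, rfl⟩
    refine h.no4 hS ?_ ?_
    · intro u hu
      simp only [Finset.mem_insert, Finset.mem_singleton] at hu
      rcases hu with rfl | rfl | rfl | rfl <;> assumption
    · intro s hs hsc
      obtain ⟨u, hu, rfl⟩ : ∃ u ∈ ({w, x, y, z} : Finset Pt), s = ({w, x, y, z} : Finset Pt).erase u := by
        have h1 : (({w, x, y, z} : Finset Pt) \ s).card = 1 := by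
          rw [Finset.card_sdiff_of_subset hs, hS, hsc]
        obtain ⟨u, hu⟩ := Finset.card_eq_one.1 h1
        refine ⟨u, ?_, ?_⟩
        · have : u ∈ ({w, x, y, z} : Finset Pt) \ s := by rw [hu]; simp
          exact (Finset.mem_sdiff.1 this).1
        · rw [← Finset.sdiff_singleton_eq_erase, ← hu, Finset.sdiff_sdiff_eq_self hs]
      simp only [Finset.mem_insert, Finset.mem_singleton] at hu
      rcases hu with rfl | rfl | rfl | rfl
      · have e : ({u, x, y, z} : Finset Pt).erase u = {x, y, z} := by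
          ext v
          simp only [Finset.mem_erase, Finset.mem_insert, Finset.mem_singleton]
          constructor
          · rintro ⟨h1, h2 | h2⟩
            · exact absurd h2 h1
            · exact h2
          · rintro (rfl | rfl | rfl) <;> tauto
        rw [e]
        exact ⟨_, f4, isf3⟩
      · have e : ({w, u, y, z} : Finset Pt).erase u = {w, y, z} := by
          ext v
          simp only [Finset.mem_erase, Finset.mem_insert, Finset.mem_singleton]
          constructor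
          · rintro ⟨h1, h2 | h2 | h2⟩
            · exact Or.inl h2
            · exact absurd h2 h1
            · exact Or.inr h2
          · rintro (rfl | rfl | rfl) <;> tauto
        rw [e]
        exact ⟨_, f3, isf3⟩
      · have e : ({w, x, u, z} : Finset Pt).erase u = {w, x, z} := by
          ext v
          simp only [Finset.mem_erase, Finset.mem_insert, Finset.mem_singleton]
          constructor
          · rintro ⟨h1, h2 | h2 | h2 | h2⟩
            · exact Or.inl h2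
            · exact Or.inr (Or.inl h2)
            · exact absurd h2 h1
            · exact Or.inr (Or.inr h2)
          · rintro (rfl | rfl | rfl) <;> tauto
        rw [e]
        exact ⟨_, f2, isf3⟩
      · have e : ({w, x, y, u} : Finset Pt).erase u = {w, x, y} := by
          ext v
          simp only [Finset.mem_erase, Finset.mem_insert, Finset.mem_singleton]
          constructor
          · rintro ⟨h1, h2 | h2 | h2 | h2⟩
            · exact Or.inl h2
            · exact Or.inr (Or.inl h2)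
            · exact Or.inr (Or.inr h2)
            · exact absurd h2 h1
          · rintro (rfl | rfl | rfl) <;> tauto
        rw [e]
        exact ⟨_, f1, isf3⟩

end

end Pool.Agent.Helper96.Fc
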