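import Pool.Agent.Helper96.Fc.Codes2
import Pool.Agent.Helper96.Fc.Final1

/-!
# The second theorem, names side
-/

open Cardinal Ordinal Set

set_option linter.unusedSectionVars false

namespace Pool.Agent.Helper96.Fc

/-- statement: large sets of codes contain quadruples of colour 1 -/
def Q3 : Prop := ∀ (Φ : Pos → Sq → Pt → Prop)
    (_ : ∀ r r' x ξ, Φ r x ξ → r' ≤ r → Φ r' x ξ)
    (_ : ∀ r x ξ ξ', Φ r x ξ → Φ r x ξ' → ξ = ξ')
    (p : Pos) (_ : ∀ ξ, od ξ < kapω.ord → ∀ q ≤ p, ∃ r ≤ q, ∃ x, Φ r x ξ),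
    ∃ q ≤ p, ∃ a b c d ξa ξb ξc ξd, Φ q a ξa ∧ Φ q b ξb ∧ Φ q c ξc ∧ Φ q d ξd ∧
      Col4s q a b c d

/-- statement: no five codes all of whose quadruples have colour 1 -/
def N5 : Prop := ∀ (q : Pos) (S : Finset Sq) (_ : S.card = 5)
    (_ : ∀ s ⊆ S, s.card = 4 → ∃ a b c d, s = {a, b, c, d} ∧ Col4s q a b c d), False

section

variable {X : Set (Obj Pos)} {G : Set Pos}

/-- a condition that forces what holds in the extension about a surjection, general names -/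
theorem Gd.exists_condG (h : Gd X G) (h2 : Gd2 X G) {f H : Nm Pos}
    (hf : (Sum.inl f : Obj Pos) ∈ X) (hH : (Sum.inl H : Obj Pos) ∈ X) {θ : Ordinal.{0}}
    (hθ : (Sum.inl (ordN Pos θ) : Obj Pos) ∈ X)
    (hfun : ∀ x y z, ZFSet.pair x y ∈ val X G f → ZFSet.pair x z ∈ val X G f → y = z)
    (hon : ∀ y ∈ vo X G θ, ∃ x ∈ val X G H, ZFSet.pair x y ∈ val X G f) :
    ∃ p ∈ G, (∀ q ≤ p, ∀ (y : Nm Pos) (ξ η : Ordinal.{0}), FMem (pairN y (ordN Pos ξ)) f q →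
      FMem (pairN y (ordN Pos η)) f q → ξ = η) ∧
      ∀ ξ < θ, ∀ q ≤ p, ∃ r ≤ q, ∃ y, FMem y H r ∧ FMem (pairN y (ordN Pos ξ)) f r := by
  obtain ⟨p1, hp1, h1⟩ := h2.gOntoG _ (l4X hf hH hθ hθ |> fun _ => by
    intro c hc
    simp only [List.mem_cons, List.not_mem_nil, or_false] at hc
    rcases hc with rfl | rfl | rfl
    · exact hf
    · exact hH
    · exact hθ : ∀ c ∈ ([Sum.inl f, Sum.inl H, Sum.inl (ordN Pos θ)] : List (Obj Pos)), c ∈ X)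
  obtain ⟨p2, hp2, h3⟩ := h2.gFunG _ (l1X hf)
  obtain ⟨p, hp, hpp1, hpp2⟩ := h.basic.filt.compat hp1 hp2
  refine ⟨p, hp, ?_, ?_⟩
  · rcases h3 with ⟨u, hu, y, ξ, η, f', he, hne, h4, h5⟩ | h3
    · exfalso
      obtain ⟨he1, he2⟩ := List.cons.inj he
      obtain ⟨he2, -⟩ := List.cons.inj he2
      obtain rfl := Sum.inl.inj he2
      rw [he1] at hu
      have hy := h.clos.fst _ _ hu
      have hrest := h.clos.snd _ _ hu
      have hξ := h.clos.fst _ _ hrest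
      have hη := h.clos.snd _ _ hrest
      have e1 := (h.pair_iff hy hξ hf).2 ⟨p2, hp2, h4⟩
      have e2 := (h.pair_iff hy hη hf).2 ⟨p2, hp2, h5⟩
      exact hne (h.vo_inj hξ hη (hfun _ _ _ e1 e2))
    · intro q hq y ξ η h4 h5
      by_contra hne
      exact h3 q (hq.trans hpp2) _ ⟨y, ξ, η, f, rfl, hne, h4, h5⟩
  · rcases h1 with ⟨u, hu, ξ, f', H', T', he, h4, h5⟩ | h1
    · exfalso
      obtain ⟨he1, he2⟩ := List.cons.inj he
      obtain ⟨he2, he3⟩ := List.cons.inj he2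
      obtain ⟨he3, he4⟩ := List.cons.inj he3
      obtain ⟨he4, -⟩ := List.cons.inj he4
      obtain rfl := Sum.inl.inj he2
      obtain rfl := Sum.inl.inj he3
      obtain rfl := Sum.inl.inj he4
      rw [he1] at hu
      have h6 : vo X G ξ ∈ vo X G θ := (h.vo_mem_iff hu hθ).2 (ordN_mem_iff.1 h4)
      obtain ⟨x, hx, hxf⟩ := hon _ h6
      obtain ⟨i, -, hiX, rfl⟩ := mem_val.1 hx
      obtain ⟨q1, hq1, h7⟩ := (h.basic.mem_iff hiX hH).1 hx
      obtain ⟨q2, hq2, h8⟩ := (h.pair_iff hiX hu hf).1 hxf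
      obtain ⟨q3, hq3, h9, h10⟩ := h.basic.filt.compat hq1 hq2
      obtain ⟨q4, hq4, h11, h12⟩ := h.basic.filt.compat hq3 hp1
      exact h5 q4 h12 _ ⟨h7.mono (h11.trans h9), h8.mono (h11.trans h10)⟩
    · intro ξ hξ q hq
      by_contra hcon
      push Not at hcon
      refine h1 q (hq.trans hpp1) _ ⟨ξ, f, H, _, rfl, ordN_mem_iff.2 hξ, ?_⟩
      rintro r hr y ⟨h3, h4⟩
      exact hcon r hr y h3 h4

/-- the members of `H` are forced to be subsets of `λ_ω` -/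
theorem Gd.exists_sub (h : Gd X G) {H : Nm Pos} (hH : (Sum.inl H : Obj Pos) ∈ X)
    (hsub : ∀ y ∈ val X G H, y ⊆ vo X G lamω.ord) :
    ∃ p ∈ G, ∀ q ≤ p, ∀ y, FMem y H q → FSub y q := by
  have h1 := h.basic.truth (Fml.all (Fml.all (Fml.neg (Fml.and (Fml.and (Fml.mem 1 2)
    (Fml.mem 0 1)) (Fml.neg (Fml.mem 0 3)))))) ![H, ordN Pos lamω.ord] (by
      intro i
      fin_cases i
      · exact hH
      · exact h.lamωX)
  obtain ⟨p, hp, h2⟩ := h1.1 (by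
    intro y hy z hz
    rintro ⟨⟨h3, h4⟩, h5⟩
    exact h5 (hsub y h3 h4))
  refine ⟨p, hp, ?_⟩
  intro q hq y hy q' hq' z hz
  apply FMem.dense
  intro q'' hq''
  by_contra hcon
  push Not at hcon
  refine h2 y z q'' (hq''.trans (hq'.trans hq)) ⟨⟨hy.mono (hq''.trans hq'), hz.mono hq''⟩, ?_⟩
  exact fun r hr h3 => hcon r hr h3

/-- a subset of `λ_ω` is forced to be one -/
theorem Gd.exists_sub1 (h : Gd X G) {y : Nm Pos} (hy : (Sum.inl y : Obj Pos) ∈ X)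
    (hsub : val X G y ⊆ vo X G lamω.ord) : ∃ p ∈ G, FSub y p := by
  have h1 := h.basic.truth (Fml.all (Fml.neg (Fml.and (Fml.mem 0 1) (Fml.neg (Fml.mem 0 2)))))
    ![y, ordN Pos lamω.ord] (by
      intro i
      fin_cases i
      · exact hy
      · exact h.lamωX)
  obtain ⟨p, hp, h2⟩ := h1.1 (by
    intro z hz
    rintro ⟨h3, h4⟩
    exact h4 (hsub h3))
  refine ⟨p, hp, ?_⟩
  intro q' hq' z hz
  apply FMem.dense
  intro q'' hq''
  by_contra hcon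
  push Not at hcon
  refine h2 z q'' (hq''.trans hq') ⟨hz.mono hq'', ?_⟩
  exact fun r hr h3 => hcon r hr h3

/-- every subset of `λ_ω` in the extension has a least code -/
theorem Gd.least (h : Gd X G) (h2 : Gd2 X G) {y : ZFSet.{0}} (hy : y ∈ Mod X G)
    (hsub : y ⊆ vo X G lamω.ord) :
    ∃ (c : Sq), (Sum.inl (sqN c) : Obj Pos) ∈ X ∧ val X G (sqN c) = y ∧ ∃ p ∈ G, Lst p c := by
  obtain ⟨y, hyX, rfl⟩ := hy
  obtain ⟨p1, hp1, h3⟩ := h.exists_sub1 hyX hsub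
  obtain ⟨p2, hp2, h4⟩ := h2.gLst _ (l1X hyX)
  rcases h4 with ⟨u, hu, c, y', he, h5, h6⟩ | h4
  · obtain ⟨he1, he2⟩ := List.cons.inj he
    obtain ⟨he2, -⟩ := List.cons.inj he2
    obtain rfl := Sum.inl.inj he2
    rw [he1] at hu
    exact ⟨c, hu, ((h.basic.eq_iff hyX hu).2 ⟨p2, hp2, h5⟩).symm, p2, hp2, h6⟩
  · exfalso
    obtain ⟨p, -, hpp1, hpp2⟩ := h.basic.filt.compat hp1 hp2
    obtain ⟨q, hq, c, h5, h6⟩ := exists_lst (h3.mono hpp1)
    exact h4 q (hq.trans hpp2) _ ⟨c, y, rfl, h5, h6⟩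

/-- uniqueness of the least code -/
theorem Gd.least_unique (h : Gd X G) {c c' : Sq} (hc : (Sum.inl (sqN c) : Obj Pos) ∈ X)
    (hc' : (Sum.inl (sqN c') : Obj Pos) ∈ X) {p p' : Pos} (hp : p ∈ G) (hp' : p' ∈ G)
    (hl : Lst p c) (hl' : Lst p' c') (he : val X G (sqN c) = val X G (sqN c')) : c = c' := by
  obtain ⟨q, hq, h1⟩ := (h.basic.eq_iff hc hc').1 he
  obtain ⟨r, hr, hr1, hr2⟩ := h.basic.filt.compat hp hp'
  obtain ⟨s, -, hs1, hs2⟩ := h.basic.filt.compat hq hr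
  exact (hl.mono (hs2.trans hr1)).unique (hl'.mono (hs2.trans hr2)) (h1.mono hs1)

theorem Gd.mem_FQN (h : Gd X G) {t : ZFSet.{0}} :
    t ∈ val X G FQN ↔ ∃ (v : Fin 4 → Sq), ∃ q ∈ G, Col4s q (v 0) (v 1) (v 2) (v 3) ∧
      (∀ j, Lst q (v j)) ∧ (∀ j, (Sum.inl (sqN (v j)) : Obj Pos) ∈ X) ∧
      val X G (finN (fun j => sqN (v j))) = t := by
  rw [mem_val]
  constructor
  · rintro ⟨⟨⟨v, q⟩, hc, hl⟩, h1, h2, h3⟩
    exact ⟨v, q, h1, hc, hl, h.fin' 4 _ h2, h3⟩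
  · rintro ⟨v, q, hq, hc, hl, hv, h3⟩
    exact ⟨⟨⟨v, q⟩, hc, hl⟩, hq, h.fin 4 _ hv, h3⟩

/-- **Large sets contain quadruples of colour 1.** -/
theorem Gd.quadG (h : Gd X G) (h2 : Gd2 X G) (hQ3 : Q3) {H f : ZFSet.{0}} (hH : H ∈ Mod X G)
    (hsub : ∀ y ∈ H, y ⊆ vo X G lamω.ord) (hf : MapsOnto (Mod X G) f H (vo X G kapω.ord)) :
    ∃ (v : Fin 4 → Sq), ∃ q ∈ G, Col4s q (v 0) (v 1) (v 2) (v 3) ∧ (∀ j, Lst q (v j)) ∧
      ∀ j, (Sum.inl (sqN (v j)) : Obj Pos) ∈ X ∧ val X G (sqN (v j)) ∈ H := by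
  obtain ⟨⟨f, hfX, rfl⟩, hfun, hon⟩ := hf
  obtain ⟨H, hHX, rfl⟩ := hH
  obtain ⟨p1, hp1, h3, h4⟩ := h.exists_condG h2 hfX hHX h.kapωX hfun hon
  obtain ⟨p2, hp2, h5⟩ := h.exists_sub hHX hsub
  obtain ⟨p3, hp3, h6⟩ := h2.gQuad _ (l1X hHX)
  rcases h6 with ⟨u, hu, v, H', he, h7, h8, h9⟩ | h6
  · obtain ⟨he1, he2⟩ := List.cons.inj he
    obtain ⟨he2, -⟩ := List.cons.inj he2
    obtain rfl := Sum.inl.inj he2
    rw [he1] at hu
    have hv := h.fin' 4 _ hu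
    exact ⟨v, p3, hp3, h8, h9, fun j => ⟨hv j, (h.basic.mem_iff (hv j) hHX).2 ⟨p3, hp3, h7 j⟩⟩⟩
  · exfalso
    obtain ⟨p', hp', hpp1, hpp2⟩ := h.basic.filt.compat hp1 hp2
    obtain ⟨p, -, hpp', hpp3⟩ := h.basic.filt.compat hp' hp3
    obtain ⟨q, hq, a, b, c, d, ξa, ξb, ξc, ξd, ⟨⟨-, ha⟩, ha', -⟩, ⟨⟨-, hb⟩, hb', -⟩,
        ⟨⟨-, hc⟩, hc', -⟩, ⟨⟨-, hd⟩, hd', -⟩, hcol⟩ :=
      hQ3 (fun r c ξ => (r ≤ p ∧ Lst r c) ∧ FMem (sqN c) H r ∧
          FMem (pairN (sqN c) (oN ξ)) f r)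
        (fun r r' x ξ h7 hr => ⟨⟨hr.trans h7.1.1, h7.1.2.mono hr⟩, h7.2.1.mono hr,
          h7.2.2.mono hr⟩)
        (fun r x ξ η h7 h8 => od_inj (h3 r (h7.1.1.trans (hpp'.trans hpp1)) _ _ _ h7.2.2 h8.2.2))
        p
        (by
          intro ξ hξ q hq
          obtain ⟨r, hr, y, h7, h8⟩ := h4 (od ξ) hξ q (hq.trans (hpp'.trans hpp1))
          have h9 := h5 r (hr.trans (hq.trans (hpp'.trans hpp2))) y h7
          obtain ⟨s, hs, c, h10, h11⟩ := exists_lst h9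
          exact ⟨s, hs.trans hr, c, ⟨hs.trans (hr.trans hq), h11⟩, (h7.mono hs).congr_left h10,
            (h8.mono hs).congr_left (FEq_pairN h10 (FEq.refl _ _))⟩)
    refine h6 q (hq.trans hpp3) _ ⟨![a, b, c, d], H, rfl, ?_, hcol, ?_⟩
    · intro j
      fin_cases j
      · exact ha'
      · exact hb'
      · exact hc'
      · exact hd'
    · intro j
      fin_cases j
      · exact ha
      · exact hb
      · exact hc
      · exact hd

theorem Gd.val_fin4 (h : Gd X G) {v : Fin 4 → Nm Pos}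
    (hv : ∀ j, (Sum.inl (v j) : Obj Pos) ∈ X) :
    val X G (finN v) = {val X G (v 0), val X G (v 1), val X G (v 2), val X G (v 3)} := by
  ext u
  rw [h.mem_finN hv]
  simp only [ZFSet.mem_insert_iff, ZFSet.mem_singleton]
  constructor
  · rintro ⟨j, rfl⟩
    fin_cases j
    · exact Or.inl rfl
    · exact Or.inr (Or.inl rfl)
    · exact Or.inr (Or.inr (Or.inl rfl))
    · exact Or.inr (Or.inr (Or.inr rfl))
  · rintro (rfl | rfl | rfl | rfl)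
    · exact ⟨0, rfl⟩
    · exact ⟨1, rfl⟩
    · exact ⟨2, rfl⟩
    · exact ⟨3, rfl⟩

/-- the set of the values of the codes of `s` is `t` -/
def Isq (X : Set (Obj Pos)) (G : Set Pos) (s : Finset Sq) (t : ZFSet.{0}) : Prop :=
  ∀ z, z ∈ t ↔ ∃ c ∈ s, val X G (sqN c) = z

/-- the good codes -/
def Gc (X : Set (Obj Pos)) (G : Set Pos) (c : Sq) : Prop :=
  (Sum.inl (sqN c) : Obj Pos) ∈ X ∧ ∃ p ∈ G, Lst p c

theorem Gd.gc_unique (h : Gd X G) {c c' : Sq} (hc : Gc X G c) (hc' : Gc X G c')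
    (he : val X G (sqN c) = val X G (sqN c')) : c = c' := by
  obtain ⟨h1, p, hp, h2⟩ := hc
  obtain ⟨h3, p', hp', h4⟩ := hc'
  exact h.least_unique h1 h3 hp hp' h2 h4 he

/-- colours of quadruples -/
theorem Gd.colG (h : Gd X G) {s : Finset Sq} (hs : ∀ c ∈ s, Gc X G c) {t : ZFSet.{0}}
    (ht : Isq X G s t) (hF : t ∈ val X G FQN) :
    ∃ q ∈ G, ∃ a b c d, s = {a, b, c, d} ∧ Col4s q a b c d := by
  classical
  obtain ⟨v, q, hq, hc, hl, hv, rfl⟩ := h.mem_FQN.1 hF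
  have hg : ∀ j, Gc X G (v j) := fun j => ⟨hv j, q, hq, hl j⟩
  refine ⟨q, hq, v 0, v 1, v 2, v 3, ?_, hc⟩
  have key : ∀ c, c ∈ s ↔ ∃ j, v j = c := by
    intro c
    constructor
    · intro hcs
      obtain ⟨j, hj⟩ := (h.mem_finN hv).1 ((ht _).2 ⟨c, hcs, rfl⟩)
      exact ⟨j, h.gc_unique (hg j) (hs c hcs) hj⟩
    · rintro ⟨j, rfl⟩
      obtain ⟨c, hcs, hce⟩ := (ht (val X G (sqN (v j)))).1 ((h.mem_finN hv).2 ⟨j, rfl⟩)
      rw [← h.gc_unique (hs c hcs) (hg j) hce]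
      exact hcs
  ext c
  rw [key]
  simp only [Finset.mem_insert, Finset.mem_singleton]
  constructor
  · rintro ⟨j, rfl⟩
    fin_cases j
    · exact Or.inl rfl
    · exact Or.inr (Or.inl rfl)
    · exact Or.inr (Or.inr (Or.inl rfl))
    · exact Or.inr (Or.inr (Or.inr rfl))
  · rintro (rfl | rfl | rfl | rfl)
    · exact ⟨0, rfl⟩
    · exact ⟨1, rfl⟩
    · exact ⟨2, rfl⟩
    · exact ⟨3, rfl⟩

/-- five points -/
theorem Gd.no5G (h : Gd X G) (hN5 : N5) {S : Finset Sq} (hS : S.card = 5)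
    (hX : ∀ c ∈ S, Gc X G c)
    (hF : ∀ s ⊆ S, s.card = 4 → ∃ t ∈ val X G FQN, Isq X G s t) : False := by
  classical
  have key : ∀ T : Finset (Finset Sq), T ⊆ S.powersetCard 4 →
      ∃ q ∈ G, ∀ s ∈ T, ∃ a b c d, s = {a, b, c, d} ∧ Col4s q a b c d := by
    intro T
    induction T using Finset.induction with
    | empty => exact fun _ => ⟨⊤, h.basic.filt.top, by simp⟩
    | insert s T hs ih =>
      intro hT
      obtain ⟨q, hq, h1⟩ := ih ((Finset.subset_insert _ _).trans hT)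
      obtain ⟨hsS, hsc⟩ := Finset.mem_powersetCard.1 (hT (Finset.mem_insert_self _ _))
      obtain ⟨t, ht, hst⟩ := hF s hsS hsc
      obtain ⟨q', hq', a, b, c, d, he, h2⟩ := h.colG (fun x hx => hX x (hsS hx)) hst ht
      obtain ⟨r, hr, hr1, hr2⟩ := h.basic.filt.compat hq hq'
      refine ⟨r, hr, ?_⟩
      intro s' hs'
      rcases Finset.mem_insert.1 hs' with rfl | hs'
      · exact ⟨a, b, c, d, he, h2.mono hr2⟩
      · obtain ⟨a, b, c, d, he, h3⟩ := h1 s' hs'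
        exact ⟨a, b, c, d, he, h3.mono hr1⟩
  obtain ⟨q, -, h1⟩ := key _ le_rfl
  exact hN5 q S hS (fun s hs hsc => h1 s (Finset.mem_powersetCard.2 ⟨hs, hsc⟩))

theorem isq4 {x y z w : Sq} :
    Isq X G {x, y, z, w} {val X G (sqN x), val X G (sqN y), val X G (sqN z),
      val X G (sqN w)} := by
  classical
  intro u
  simp only [ZFSet.mem_insert_iff, ZFSet.mem_singleton, Finset.mem_insert, Finset.mem_singleton]
  constructor
  · rintro (h | h | h | h)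
    · exact ⟨x, Or.inl rfl, h.symm⟩
    · exact ⟨y, Or.inr (Or.inl rfl), h.symm⟩
    · exact ⟨z, Or.inr (Or.inr (Or.inl rfl)), h.symm⟩
    · exact ⟨w, Or.inr (Or.inr (Or.inr rfl)), h.symm⟩
  · rintro ⟨u, rfl | rfl | rfl | rfl, h⟩
    · exact Or.inl h.symm
    · exact Or.inr (Or.inl h.symm)
    · exact Or.inr (Or.inr (Or.inl h.symm))
    · exact Or.inr (Or.inr (Or.inr h.symm))

/-- the four-element subsets of a five-element set -/
theorem four_of_five {α : Type} [DecidableEq α] {v w x y z : α} {s : Finset α}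
    (hS : ({v, w, x, y, z} : Finset α).card = 5) (hs : s ⊆ {v, w, x, y, z}) (hsc : s.card = 4) :
    s = {v, w, x, y} ∨ s = {v, w, x, z} ∨ s = {v, w, y, z} ∨ s = {v, x, y, z} ∨
      s = {w, x, y, z} := by
  obtain ⟨u, hu, rfl⟩ : ∃ u ∈ ({v, w, x, y, z} : Finset α),
      s = ({v, w, x, y, z} : Finset α).erase u := by
    have h1 : (({v, w, x, y, z} : Finset α) \ s).card = 1 := by
      rw [Finset.card_sdiff_of_subset hs, hS, hsc]
    obtain ⟨u, hu⟩ := Finset.card_eq_one.1 h1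
    refine ⟨u, ?_, ?_⟩
    · have : u ∈ ({v, w, x, y, z} : Finset α) \ s := by rw [hu]; simp
      exact (Finset.mem_sdiff.1 this).1
    · rw [← Finset.sdiff_singleton_eq_erase, ← hu, Finset.sdiff_sdiff_eq_self hs]
  have key : ∀ T : Finset α, T.card ≤ 4 → ({v, w, x, y, z} : Finset α).erase u ⊆ T →
      ({v, w, x, y, z} : Finset α).erase u = T := by
    intro T hT hsub
    exact Finset.eq_of_subset_of_card_le hsub (hT.trans hsc.ge)
  simp only [Finset.mem_insert, Finset.mem_singleton] at hu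
  rcases hu with rfl | rfl | rfl | rfl | rfl
  · refine Or.inr (Or.inr (Or.inr (Or.inr (key _ Finset.card_le_four ?_))))
    intro t ht
    simp only [Finset.mem_erase, Finset.mem_insert, Finset.mem_singleton] at ht ⊢
    tauto
  · refine Or.inr (Or.inr (Or.inr (Or.inl (key _ Finset.card_le_four ?_))))
    intro t ht
    simp only [Finset.mem_erase, Finset.mem_insert, Finset.mem_singleton] at ht ⊢
    tauto
  · refine Or.inr (Or.inr (Or.inl (key _ Finset.card_le_four ?_)))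
    intro t ht
    simp only [Finset.mem_erase, Finset.mem_insert, Finset.mem_singleton] at ht ⊢
    tauto
  · refine Or.inr (Or.inl (key _ Finset.card_le_four ?_))
    intro t ht
    simp only [Finset.mem_erase, Finset.mem_insert, Finset.mem_singleton] at ht ⊢
    tauto
  · refine Or.inl (key _ Finset.card_le_four ?_)
    intro t ht
    simp only [Finset.mem_erase, Finset.mem_insert, Finset.mem_singleton] at ht ⊢
    tauto

/-- **The colouring of the quadruples of the power set of `λ_ω`.** -/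
theorem Gd.main2 (h : Gd X G) (h2 : Gd2 X G) (hQ3 : Q3) (hN5 : N5) {S : ZFSet.{0}}
    (hS2 : ∀ z, z ∈ S ↔ z ∈ Mod X G ∧ z ⊆ vo X G lamω.ord) : ∃ F ∈ Mod X G,
        (∀ H ∈ Mod X G, (∀ x ∈ H, x ∈ S) → Onto (Mod X G) H (vo X G kapω.ord) →
          ∃ w ∈ H, ∃ x ∈ H, ∃ y ∈ H, ∃ z ∈ H, w ≠ x ∧ w ≠ y ∧ w ≠ z ∧ x ≠ y ∧ x ≠ z ∧ y ≠ z ∧
            ({w, x, y, z} : ZFSet.{0}) ∈ F) ∧
        (∀ v ∈ S, ∀ w ∈ S, ∀ x ∈ S, ∀ y ∈ S, ∀ z ∈ S, v ≠ w → v ≠ x → v ≠ y → v ≠ z →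
          w ≠ x → w ≠ y → w ≠ z → x ≠ y → x ≠ z → y ≠ z →
          ¬ (({v, w, x, y} : ZFSet.{0}) ∈ F ∧ ({v, w, x, z} : ZFSet.{0}) ∈ F ∧
            ({v, w, y, z} : ZFSet.{0}) ∈ F ∧ ({v, x, y, z} : ZFSet.{0}) ∈ F ∧
            ({w, x, y, z} : ZFSet.{0}) ∈ F)) := by
  classical
  refine ⟨val X G FQN, mem_Mod h2.fq, ?_, ?_⟩
  · rintro H hH hsub ⟨f, hf⟩
    obtain ⟨v, q, hq, hcol, hl, hv⟩ := h.quadG h2 hQ3 hH (fun y hy => ((hS2 y).1 (hsub y hy)).2) hf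
    obtain ⟨n1, n2, n3, n4, n5, n6⟩ := hcol.ne
    have hg : ∀ j, Gc X G (v j) := fun j => ⟨(hv j).1, q, hq, hl j⟩
    refine ⟨_, (hv 0).2, _, (hv 1).2, _, (hv 2).2, _, (hv 3).2, ?_, ?_, ?_, ?_, ?_, ?_, ?_⟩
    · exact fun he => n1 (h.gc_unique (hg 0) (hg 1) he)
    · exact fun he => n2 (h.gc_unique (hg 0) (hg 2) he)
    · exact fun he => n3 (h.gc_unique (hg 0) (hg 3) he)
    · exact fun he => n4 (h.gc_unique (hg 1) (hg 2) he)
    · exact fun he => n5 (h.gc_unique (hg 1) (hg 3) he)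
    · exact fun he => n6 (h.gc_unique (hg 2) (hg 3) he)
    · rw [← h.val_fin4 (v := fun j => sqN (v j)) (fun j => (hv j).1)]
      exact h.mem_FQN.2 ⟨v, q, hq, hcol, hl, fun j => (hv j).1, rfl⟩
  · rintro v hv w hw x hx y hy z hz n1 n2 n3 n4 n5 n6 n7 n8 n9 n10 ⟨f1, f2, f3, f4, f5⟩
    have key : ∀ y ∈ S, ∃ c, Gc X G c ∧ val X G (sqN c) = y := by
      intro y hy
      obtain ⟨c, hc, he, hl⟩ := h.least h2 ((hS2 y).1 hy).1 ((hS2 y).1 hy).2
      exact ⟨c, ⟨hc, hl⟩, he⟩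
    obtain ⟨v, hv, rfl⟩ := key v hv
    obtain ⟨w, hw, rfl⟩ := key w hw
    obtain ⟨x, hx, rfl⟩ := key x hx
    obtain ⟨y, hy, rfl⟩ := key y hy
    obtain ⟨z, hz, rfl⟩ := key z hz
    have m1 : v ≠ w := fun e => n1 (by rw [e])
    have m2 : v ≠ x := fun e => n2 (by rw [e])
    have m3 : v ≠ y := fun e => n3 (by rw [e])
    have m4 : v ≠ z := fun e => n4 (by rw [e])
    have m5 : w ≠ x := fun e => n5 (by rw [e])
    have m6 : w ≠ y := fun e => n6 (by rw [e])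
    have m7 : w ≠ z := fun e => n7 (by rw [e])
    have m8 : x ≠ y := fun e => n8 (by rw [e])
    have m9 : x ≠ z := fun e => n9 (by rw [e])
    have m10 : y ≠ z := fun e => n10 (by rw [e])
    have hS : ({v, w, x, y, z} : Finset Sq).card = 5 := by
      rw [Finset.card_insert_of_notMem (by simp [m1, m2, m3, m4]),
        Finset.card_eq_four.2 ⟨w, x, y, z, m5, m6, m7, m8, m9, m10, rfl⟩]
    refine h.no5G hN5 hS ?_ ?_
    · intro u hu
      simp only [Finset.mem_insert, Finset.mem_singleton] at hu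
      rcases hu with rfl | rfl | rfl | rfl | rfl <;> assumption
    · intro s hs hsc
      rcases four_of_five hS hs hsc with rfl | rfl | rfl | rfl | rfl
      · exact ⟨_, f1, isq4⟩
      · exact ⟨_, f2, isq4⟩
      · exact ⟨_, f3, isq4⟩
      · exact ⟨_, f4, isq4⟩
      · exact ⟨_, f5, isq4⟩


/-- **The second theorem.** -/
theorem main2' (hQ3 : Q3) (hN5 : N5) : ∃ N : Set ZFSet.{0}, N.Countable ∧ IsZFC N ∧
    ∃ (a b c : ℕ → ZFSet.{0}) (A B : ZFSet.{0}), Hyp N a b c A B ∧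
      ∃ S, IsPow N B S ∧ ∃ F ∈ N,
        (∀ H ∈ N, (∀ x ∈ H, x ∈ S) → Onto N H A →
          ∃ w ∈ H, ∃ x ∈ H, ∃ y ∈ H, ∃ z ∈ H, w ≠ x ∧ w ≠ y ∧ w ≠ z ∧ x ≠ y ∧ x ≠ z ∧ y ≠ z ∧
            ({w, x, y, z} : ZFSet.{0}) ∈ F) ∧
        (∀ v ∈ S, ∀ w ∈ S, ∀ x ∈ S, ∀ y ∈ S, ∀ z ∈ S, v ≠ w → v ≠ x → v ≠ y → v ≠ z →
          w ≠ x → w ≠ y → w ≠ z → x ≠ y → x ≠ z → y ≠ z →
          ¬ (({v, w, x, y} : ZFSet.{0}) ∈ F ∧ ({v, w, x, z} : ZFSet.{0}) ∈ F ∧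
            ({v, w, y, z} : ZFSet.{0}) ∈ F ∧ ({v, x, y, z} : ZFSet.{0}) ∈ F ∧
            ({w, x, y, z} : ZFSet.{0}) ∈ F)) := by
  obtain ⟨X, G, hX, h, h2⟩ := exists_gd2
  obtain ⟨S, hS1, hS2⟩ := Mod.powerset h.basic h.clos (Gd.vo_mod (G := G) h.lamωX)
  exact ⟨Mod X G, Mod_countable hX, Mod.isZFC h.basic h.clos, _, _, _, _, _, h.hyp,
    S, ⟨hS1, hS2⟩, h.main2 h2 hQ3 hN5 hS2⟩

end

end Pool.Agent.Helper96.Fc
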