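import Pool.Agent.Helper96.Fc.Codes2

/-!
# Codes for the sets of subsets of `κ_ω`
-/

open Cardinal Ordinal Set

set_option linter.unusedSectionVars false

namespace Pool.Agent.Helper96.Fc

/-- the trivial cut below `(2 ^ λ_ω)⁺` -/
noncomputable def cutU : Cut where
  J := Set.univ
  τ := Order.succ lamω
  θ := Order.succ (2 ^ lamω)
  cls := cls_two
  low := (cutT 0).low
  high := fun _ h => (h (mem_univ _)).elim

/-- codes of subsets of `κ_ω` -/
def IsCd1 (T : Set (Pt × Pos)) : Prop :=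
  #T < lam 0 ∧ ∀ t ∈ T, od t.1 < kapω.ord ∧ ∀ e ∈ t.2.1, e.1.1 ∈ cutM.J

/-- codes of subsets of `κ_ω` -/
def Cd1 : Type := {T : Set (Pt × Pos) // IsCd1 T}

theorem kapω_le_lamω : kapω ≤ lamω := (kapω_lt_lam 0).le.trans (lam_le_lamω 0)

theorem mk_low1 : #{l : Pos // ∀ e ∈ l.1, e.1.1 ∈ cutM.J} ≤ 2 ^ lamω := by
  let C : Type := ℕ × {x : Pt // od x < lamω.ord} × {x : Pt // od x < lamω.ord} × Bool
  have hC : #C ≤ lamω := by
    have h1 : #C = ℵ₀ * (lamω * (lamω * 2)) := by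
      simp only [C, mk_prod, Cardinal.lift_id]
      rw [mk_od_lt lamω_le_muω]
      simp
    rw [h1]
    refine (mul_le_mul' aleph0_le_lamω (mul_le_mul' le_rfl
      (mul_le_mul' le_rfl ((natCast_lt_aleph0 (n := 2)).le.trans aleph0_le_lamω)))).trans ?_
    rw [mul_eq_self aleph0_le_lamω, mul_eq_self aleph0_le_lamω, mul_eq_self aleph0_le_lamω]
  have h2 : #{l : Pos // ∀ e ∈ l.1, e.1.1 ∈ cutM.J} ≤ #(Set C) := by
    refine mk_le_of_injective (f := fun l => {c : C |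
      (((Sum.inl c.1, c.2.1.1, c.2.2.1.1) : Cell), c.2.2.2) ∈ l.1.1}) ?_
    intro l l' hll'
    simp only at hll'
    have key : ∀ l l' : {l : Pos // ∀ e ∈ l.1, e.1.1 ∈ cutM.J},
        {c : C | (((Sum.inl c.1, c.2.1.1, c.2.2.1.1) : Cell), c.2.2.2) ∈ l.1.1} =
        {c : C | (((Sum.inl c.1, c.2.1.1, c.2.2.1.1) : Cell), c.2.2.2) ∈ l'.1.1} →
          l.1.1 ⊆ l'.1.1 := by
      intro l l' h
      rintro ⟨⟨j, x, ε⟩, b⟩ ht
      obtain ⟨n, hn⟩ := l.2 _ ht
      simp only at hn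
      subst hn
      have h5 := l.1.2.dom _ _ ht
      have hx : od x < lamω.ord := h5.1.trans_le (ord_le_ord.2 (lam_le_lamω n))
      have hε : od ε < lamω.ord := h5.2.trans_le (ord_le_ord.2 ((kap_le_kapω n).trans kapω_le_lamω))
      have h6 : ((n, ⟨x, hx⟩, ⟨ε, hε⟩, b) : C) ∈
          {c : C | (((Sum.inl c.1, c.2.1.1, c.2.2.1.1) : Cell), c.2.2.2) ∈ l.1.1} := ht
      rw [h] at h6
      exact h6
    exact Subtype.ext (Subtype.ext (Subset.antisymm (key l l' hll') (key l' l hll'.symm)))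
  refine h2.trans ?_
  rw [mk_set]
  exact power_le_power_left two_ne_zero hC

theorem twolam_pow : ((2 : Cardinal.{0}) ^ lamω) ^ lamω ≤ 2 ^ lamω := by
  rw [← power_mul, mul_eq_self aleph0_le_lamω]

theorem mk_Cd1 : #Cd1 ≤ 2 ^ lamω := by
  let C : Type := {x : Pt // od x < kapω.ord} × {l : Pos // ∀ e ∈ l.1, e.1.1 ∈ cutM.J}
  have hC : #C ≤ 2 ^ lamω := by
    have h1 : #C = kapω * #{l : Pos // ∀ e ∈ l.1, e.1.1 ∈ cutM.J} := by
      simp only [C, mk_prod, Cardinal.lift_id]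
      rw [mk_od_lt (kapω_le_lamω.trans lamω_le_muω)]
    rw [h1]
    refine (mul_le_mul' (kapω_le_lamω.trans (cantor _).le) mk_low1).trans ?_
    rw [mul_eq_self aleph0_le_twolam]
  have h2 : #Cd1 ≤ #{T : Set C // #T ≤ lamω} := by
    refine mk_le_of_injective (f := fun T : Cd1 => ⟨{c : C | (c.1.1, c.2.1) ∈ T.1}, ?_⟩) ?_
    · refine le_trans ?_ (T.2.1.le.trans (lam_le_lamω 0))
      refine mk_le_of_injective (f := fun c : {c : C | (c.1.1, c.2.1) ∈ T.1} =>
        (⟨_, c.2⟩ : T.1)) ?_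
      rintro ⟨⟨⟨a1, ha1⟩, ⟨b1, hb1⟩⟩, h5⟩ ⟨⟨⟨a2, ha2⟩, ⟨b2, hb2⟩⟩, h6⟩ h
      simp only [Subtype.mk.injEq, Prod.mk.injEq] at h
      obtain ⟨rfl, rfl⟩ := h
      rfl
    · intro T T' hTT'
      have h3 := congrArg Subtype.val hTT'
      simp only at h3
      have key : ∀ T T' : Cd1,
          {c : C | (c.1.1, c.2.1) ∈ T.1} = {c : C | (c.1.1, c.2.1) ∈ T'.1} → T.1 ⊆ T'.1 := by
        intro T T' h
        rintro ⟨x, l⟩ ht
        have h6 : ((⟨x, (T.2.2 _ ht).1⟩, ⟨l, (T.2.2 _ ht).2⟩) : C) ∈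
            {c : C | (c.1.1, c.2.1) ∈ T.1} := ht
        rw [h] at h6
        exact h6
      exact Subtype.ext (Subset.antisymm (key T T' h3) (key T' T h3.symm))
  exact h2.trans (mk_small_le hC twolam_pow aleph0_le_twolam)

theorem aleph0_le_muω : ℵ₀ ≤ muω := (aleph0_le_mu 0).trans (mu_le_muω 0)

theorem muω_ne_zero : muω ≠ 0 := (aleph0_pos.trans_le aleph0_le_muω).ne'

theorem twolam_le_muω : 2 ^ lamω ≤ muω := (twolam_lt_mu 0).le.trans (mu_le_muω 0)

theorem mk_Pos : #Pos ≤ muω ^ ((2 : Cardinal.{0}) ^ lamω) := by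
  have h1 : #(Cell × Bool) ≤ muω := by
    have h2 : #(Cell × Bool) = #Lv * (muω * muω) * 2 := by
      simp only [Cell, mk_prod, Cardinal.lift_id]
      simp only [Pt, mk_ord_toType]
      simp
    rw [h2]
    refine (mul_le_mul' (mul_le_mul' (mk_le_aleph0.trans aleph0_le_muω) le_rfl)
      ((natCast_lt_aleph0 (n := 2)).le.trans aleph0_le_muω)).trans ?_
    rw [mul_eq_self aleph0_le_muω, mul_eq_self aleph0_le_muω, mul_eq_self aleph0_le_muω]
  have h2 : #Pos ≤ #{T : Set (Cell × Bool) // #T ≤ lamω} := by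
    refine mk_le_of_injective (f := fun p : Pos => ⟨p.1, ?_⟩) ?_
    · have h3 := cutU.low p.1 p.2
      have h4 : lo cutU.J p.1 = p.1 := by
        ext t
        exact ⟨fun h => h.1, fun h => ⟨h, mem_univ _⟩⟩
      rw [h4] at h3
      exact Order.lt_succ_iff.1 h3
    · intro p q h
      exact Subtype.ext (Subtype.mk.inj h)
  refine h2.trans ((mk_bounded_set_le _ _).trans ?_)
  refine (power_le_power_right (max_le h1 aleph0_le_muω)).trans ?_
  exact power_le_power_left muω_ne_zero (cantor _).le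

/-- codes of sets of subsets of `κ_ω` -/
def Cd2 : Type := {T : Set (Cd1 × Pos) // #T < cutU.θ}

theorem mk_Cd2 : #Cd2 ≤ muω ^ ((2 : Cardinal.{0}) ^ lamω) := by
  have h1 : #Cd2 ≤ #{T : Set (Cd1 × Pos) // #T ≤ 2 ^ lamω} := by
    refine mk_le_of_injective (f := fun T : Cd2 => ⟨T.1, Order.lt_succ_iff.1 T.2⟩) ?_
    intro T T' h
    exact Subtype.ext (Subtype.mk.inj h)
  have hsp : muω ≤ muω ^ ((2 : Cardinal.{0}) ^ lamω) :=
    self_le_power _ (Cardinal.one_lt_aleph0.le.trans aleph0_le_twolam)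
  have h3 : ℵ₀ ≤ muω ^ ((2 : Cardinal.{0}) ^ lamω) := aleph0_le_muω.trans hsp
  have h2 : #(Cd1 × Pos) ≤ muω ^ ((2 : Cardinal.{0}) ^ lamω) := by
    rw [mk_prod, Cardinal.lift_id, Cardinal.lift_id]
    exact (mul_le_mul' (mk_Cd1.trans (twolam_le_muω.trans hsp)) mk_Pos).trans
      (mul_eq_self h3).le
  refine h1.trans ((mk_bounded_set_le _ _).trans ?_)
  refine (power_le_power_right (max_le h2 h3)).trans ?_
  rw [← power_mul, mul_eq_self aleph0_le_twolam]

theorem mk_Sq : muω ^ ((2 : Cardinal.{0}) ^ lamω) ≤ #Sq := by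
  let A : ℕ → Type := fun n => {x : Pt // od x < (mu n).ord}
  have e : Sq ≃ ∀ n, A n :=
    { toFun := fun c n => ⟨c.v n, c.lt n⟩
      invFun := fun f => ⟨fun n => (f n).1, fun n => (f n).2⟩
      left_inv := fun c => by cases c; rfl
      right_inv := fun f => by rfl }
  have h1 : #((2 ^ lamω : Cardinal.{0}).out → ∀ n, A n) ≤ #(∀ n, A n) := by
    have h2 : ∀ n, Nonempty (((2 ^ lamω : Cardinal.{0}).out → A n) ↪ A n) := by
      intro n
      have h3 : #((2 ^ lamω : Cardinal.{0}).out → A n) ≤ #(A n) := by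
        rw [← power_def, mk_out, mk_od_lt (mu_le_muω n)]
        exact mu_pow2 n
      exact h3
    let g := fun n => Classical.choice (h2 n)
    refine mk_le_of_injective (f := fun F n => g n (fun a => F a n)) ?_
    intro F F' hF
    funext a n
    have h4 := (g n).injective (congrFun hF n)
    exact congrFun h4 a
  have h2 : muω ≤ #(∀ n, A n) := by
    refine ciSup_le' ?_
    intro n
    have hne : ∀ k, Nonempty (A k) := by
      intro k
      rw [← mk_ne_zero_iff, mk_od_lt (mu_le_muω k)]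
      exact (mu_reg k).pos.ne'
    have h3 : mu n = #(A n) := (mk_od_lt (mu_le_muω n)).symm
    rw [h3]
    classical
    refine mk_le_of_injective (f := fun x => Function.update (fun k => Classical.choice (hne k)) n x)
      ?_
    intro x y hxy
    have h4 := congrFun hxy n
    simpa using h4
  rw [mk_congr e]
  refine (power_le_power_right h2).trans ?_
  rw [← power_def, mk_out] at h1
  exact h1

theorem exists_enc2 : ∃ f : Sq → Cd2, Function.Surjective f := by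
  obtain ⟨f⟩ : Nonempty (Cd2 ↪ Sq) := mk_Cd2.trans mk_Sq
  have : Nonempty Cd2 := ⟨⟨∅, by rw [mk_eq_zero]; exact cutU.cls.rθ.pos⟩⟩
  exact ⟨Function.invFun f, Function.invFun_surjective f.injective⟩

/-- enumeration of the codes -/
noncomputable def enc2 : Sq → Cd2 := exists_enc2.choose

theorem enc2_surj (T : Cd2) : ∃ c, enc2 c = T := exists_enc2.choose_spec T

/-- name of a set of subsets of `κ_ω` -/
noncomputable def u2N (T : Cd2) : Nm Pos :=
  Nm.mk T.1 (fun t => cdN t.1.1.1) (fun t => t.1.2)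

/-- `p` forces that `y` is a subset of `κ_ω` -/
def FSubA (y : Nm Pos) (p : Pos) : Prop :=
  ∀ q ≤ p, ∀ z, FMem z y q → FMem z (ordN Pos kapω.ord) q

/-- `p` forces that `y` is a set of subsets of `κ_ω` -/
def FSub2 (y : Nm Pos) (p : Pos) : Prop :=
  ∀ q ≤ p, ∀ z, FMem z y q → FSubA z q

theorem FSubA.mono {y : Nm Pos} {p q : Pos} (h : FSubA y p) (hq : q ≤ p) : FSubA y q :=
  fun r hr => h r (hr.trans hq)

/-- members of `κ_ω` -/
theorem mem_kapω {z : Nm Pos} {p : Pos} (h : FMem z (ordN Pos kapω.ord) p) :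
    ∃ r ≤ p, ∃ x : Pt, od x < kapω.ord ∧ FEq z (oN x) r := by
  obtain ⟨r, hr, j, h1, h2⟩ := h p le_rfl
  obtain ⟨a, ha, h3, -⟩ := ordN_fn j
  rw [h3] at h2
  obtain ⟨x, rfl⟩ := exists_od (ha.trans_le (ord_le_ord.2 (kapω_le_lamω.trans lamω_le_muω)))
  exact ⟨r, hr, x, ha, h2⟩

/-- **Every name of a subset of `κ_ω` is below a dense set of conditions equal to a coded one.** -/
theorem dense_cd1 {y : Nm Pos} {p : Pos} (hy : FSubA y p) :
    ∃ q ≤ p, ∃ T : Cd1, FEq y (cdN T.1) q := by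
  obtain ⟨q, hq, -, T, hT1, hT2, hT3⟩ := nice cutM (Z := {ε : Pt // od ε < kapω.ord})
    (by
      rw [mk_od_lt (kapω_le_lamω.trans lamω_le_muω)]
      exact kapω_lt_lam 0)
    (fun ε r => FMem (oN ε.1) y r) (fun ε r r' h hr => h.mono hr) p
  have hcode : IsCd1 ((fun t : {ε : Pt // od ε < kapω.ord} × Pos => (t.1.1, t.2)) '' T) := by
    refine ⟨mk_image_le.trans_lt hT1, ?_⟩
    rintro _ ⟨t, ht, rfl⟩
    exact ⟨t.1.2, (hT2 t ht).1⟩
  refine ⟨q, hq, ⟨_, hcode⟩, FEq_ext ?_ ?_⟩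
  · intro i q1 hq1 hqi
    have h0 : FMem (y.fn i) y q1 := FMem.of_fn i hqi
    apply FMem.dense
    intro r hr
    obtain ⟨s, hs, x, hx, hxe⟩ := mem_kapω (hy r (hr.trans (hq1.trans hq)) _ (h0.mono hr))
    have h1 : FMem (oN x) y s := (h0.mono (hs.trans hr)).congr_left hxe
    obtain ⟨l, hl, hlc⟩ := hT3 ⟨x, hx⟩ s (hs.trans (hr.trans hq1)) h1
    obtain ⟨t, ht1, ht2⟩ := Pos.compat_iff.2 hlc
    refine ⟨t, ht2.trans hs, ?_⟩
    have h2 : FMem (oN x)
        (cdN ((fun t : {ε : Pt // od ε < kapω.ord} × Pos => (t.1.1, t.2)) '' T)) t :=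
      FMem.of_fn (y := cdN ((fun t : {ε : Pt // od ε < kapω.ord} × Pos => (t.1.1, t.2)) '' T))
        ⟨(x, l), ⟨_, hl, rfl⟩⟩ ht1
    exact h2.congr_left (hxe.mono ht2).symm
  · rintro ⟨⟨x, l⟩, ⟨⟨x', l'⟩, hl, he⟩⟩ q1 hq1 hq1l
    simp only [Prod.mk.injEq] at he
    obtain ⟨rfl, rfl⟩ := he
    change q1 ≤ l' at hq1l
    obtain ⟨-, s0, hs0, hA, hs0e⟩ := hT2 _ hl
    simp only at hA hs0e
    refine hA.mono ?_
    intro t ht
    rw [hs0e] at ht
    rcases ht with ht | ht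
    · exact hq1l ht
    · exact hq1 ht

/-- **Every name of a set of subsets of `κ_ω` is below a dense set of conditions equal to a coded
one.** -/
theorem dense_cd2 {y : Nm Pos} {p : Pos} (hy : FSub2 y p) :
    ∃ q ≤ p, ∃ c : Sq, FEq y (u2N (enc2 c)) q := by
  obtain ⟨q, hq, -, T, hT1, hT2, hT3⟩ := nice cutU (Z := Cd1)
    (mk_Cd1.trans_lt (Order.lt_succ _))
    (fun z r => FMem (cdN z.1) y r) (fun z r r' h hr => h.mono hr) p
  obtain ⟨c, hc⟩ := enc2_surj ⟨T, hT1⟩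
  refine ⟨q, hq, c, ?_⟩
  rw [hc]
  refine FEq_ext ?_ ?_
  · intro i q1 hq1 hqi
    have h0 : FMem (y.fn i) y q1 := FMem.of_fn i hqi
    apply FMem.dense
    intro r hr
    obtain ⟨s, hs, z, hze⟩ := dense_cd1 (hy r (hr.trans (hq1.trans hq)) _ (h0.mono hr))
    have h1 : FMem (cdN z.1) y s := (h0.mono (hs.trans hr)).congr_left hze
    obtain ⟨l, hl, hlc⟩ := hT3 z s (hs.trans (hr.trans hq1)) h1
    obtain ⟨t, ht1, ht2⟩ := Pos.compat_iff.2 hlc
    refine ⟨t, ht2.trans hs, ?_⟩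
    have h2 : FMem (cdN z.1) (u2N ⟨T, hT1⟩) t :=
      FMem.of_fn (y := u2N ⟨T, hT1⟩) ⟨(z, l), hl⟩ ht1
    exact h2.congr_left (hze.mono ht2).symm
  · rintro ⟨⟨z, l⟩, hl⟩ q1 hq1 hq1l
    change q1 ≤ l at hq1l
    obtain ⟨-, s0, hs0, hA, hs0e⟩ := hT2 _ hl
    simp only at hA hs0e
    refine hA.mono ?_
    intro t ht
    rw [hs0e] at ht
    rcases ht with ht | ht
    · exact hq1l ht
    · exact hq1 ht

end Pool.Agent.Helper96.Fc
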