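import Pool.Agent.Helper26.FV.DF

/-!
# Transfer of a colouring of quadruples along a surjection in a model of ZFC
-/

namespace Pool.Agent.Helper96.Fc

open Pool.Agent.Helper89.FV

/-- a surjection has a section -/
theorem exists_section {N : Set ZFSet.{0}} (hN : IsZFC N) {S U : ZFSet.{0}} (hS : S ∈ N)
    (hU : U ∈ N) (hSU : Onto N S U) :
    ∃ e ∈ N, (∀ u s s', ZFSet.pair u s ∈ e → ZFSet.pair u s' ∈ e → s = s') ∧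
      (∀ u u' s, ZFSet.pair u s ∈ e → ZFSet.pair u' s ∈ e → u = u') ∧
      (∀ u ∈ U, ∃ s, ZFSet.pair u s ∈ e) ∧
      (∀ u s, ZFSet.pair u s ∈ e → u ∈ U ∧ s ∈ S) := by
  obtain ⟨g, hg, hg1, hg2⟩ := hSU
  obtain ⟨α, hα, hαo, h, hh, hh1, hh2⟩ := hN.choice S hS
  obtain ⟨W, hW, hW1⟩ := exists_prod hN hU hS
  have hD : Dfb N (fun v => ∃ u ∈ v 5, ∃ s ∈ v 4, v 0 = ZFSet.pair u s ∧ ∃ β ∈ v 3,
      (ZFSet.pair β s ∈ v 1 ∧ ZFSet.pair s u ∈ v 2) ∧ ∀ γ ∈ β, ¬ ∃ s' ∈ v 4,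
        ZFSet.pair γ s' ∈ v 1 ∧ ZFSet.pair s' u ∈ v 2) :=
    .exB hN 5 (.exB hN 5 (.and (.pair hN 2 1 0) (.exB hN 5 (.and (.and (.pair_mem hN 0 1 4)
      (.pair_mem hN 1 2 5)) (.allB hN 0 (.neg (.exB hN 8 (.and (.pair_mem hN 1 0 6)
        (.pair_mem hN 0 4 7)))))))))
  obtain ⟨e, he, he1⟩ := hD.sep hN (v := cns h (cns g (cns α (cns S (fun _ => U)))))
    (cns_mem hh (cns_mem hg (cns_mem hα (cns_mem hS fun _ => hU)))) hW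
  have he2 : ∀ u s, ZFSet.pair u s ∈ e ↔ u ∈ U ∧ s ∈ S ∧ ∃ β ∈ α,
      (ZFSet.pair β s ∈ h ∧ ZFSet.pair s u ∈ g) ∧ ∀ γ ∈ β, ¬ ∃ s' ∈ S,
        ZFSet.pair γ s' ∈ h ∧ ZFSet.pair s' u ∈ g := by
    intro u s
    refine (he1 _).trans ?_
    constructor
    · rintro ⟨-, u', hu', s', hs', h0, h1⟩
      have h0' : ZFSet.pair u s = ZFSet.pair u' s' := h0
      obtain ⟨rfl, rfl⟩ := ZFSet.pair_injective h0'
      exact ⟨hu', hs', h1⟩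
    · rintro ⟨hu, hs, h1⟩
      exact ⟨(hW1 _).2 ⟨u, hu, s, hs, rfl⟩, u, hu, s, hs, rfl, h1⟩
  refine ⟨e, he, ?_, ?_, ?_, fun u s h0 => ⟨((he2 u s).1 h0).1, ((he2 u s).1 h0).2.1⟩⟩
  · intro u s s' h1 h2
    obtain ⟨hu, hs, β, hβ, ⟨h3, h4⟩, h5⟩ := (he2 u s).1 h1
    obtain ⟨-, hs', β', hβ', ⟨h3', h4'⟩, h5'⟩ := (he2 u s').1 h2
    have hb : β = β' := by
      rcases (hαo.mem hβ).mem_trichotomous (hαo.mem hβ') with h6 | h6 | h6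
      · exact (h5' β h6 ⟨s, hs, h3, h4⟩).elim
      · exact h6
      · exact (h5 β' h6 ⟨s', hs', h3', h4'⟩).elim
    subst hb
    exact hh1 _ _ _ h3 h3'
  · intro u u' s h1 h2
    obtain ⟨hu, hs, β, hβ, ⟨h3, h4⟩, h5⟩ := (he2 u s).1 h1
    obtain ⟨-, hs', β', hβ', ⟨h3', h4'⟩, h5'⟩ := (he2 u' s).1 h2
    exact hg1 _ _ _ h4 h4'
  · intro u hu
    obtain ⟨s, hs, hsu⟩ := hg2 u hu
    obtain ⟨β, hβ, hβs⟩ := hh2 s hs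
    have key : ∀ β : ZFSet.{0}, β ∈ α → (∃ s ∈ S, ZFSet.pair β s ∈ h ∧ ZFSet.pair s u ∈ g) →
        ∃ s, ZFSet.pair u s ∈ e := by
      intro β
      induction β using ZFSet.inductionOn with
      | _ β ih =>
        intro hβ hs
        by_cases h0 : ∃ γ ∈ β, ∃ s' ∈ S, ZFSet.pair γ s' ∈ h ∧ ZFSet.pair s' u ∈ g
        · obtain ⟨γ, hγ, h1⟩ := h0
          exact ih γ hγ (hαo.mem_trans hγ hβ) h1
        · obtain ⟨s, hs, h1, h2⟩ := hs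
          exact ⟨s, (he2 u s).2 ⟨hu, hs, β, hβ, ⟨h1, h2⟩, fun γ hγ h3 => h0 ⟨γ, hγ, h3⟩⟩⟩
    exact key β hβ ⟨s, hs, hβs, hsu⟩

theorem quad_mem {N : Set ZFSet.{0}} (hN : IsZFC N) {w x y z : ZFSet.{0}} (hw : w ∈ N) (hx : x ∈ N)
    (hy : y ∈ N) (hz : z ∈ N) : ({w, x, y, z} : ZFSet.{0}) ∈ N := by
  obtain ⟨c, hc, h⟩ := exists_union hN (upair_mem hN hw hx) (upair_mem hN hy hz)
  have : c = {w, x, y, z} := by
    ext u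
    rw [h]
    simp only [ZFSet.mem_insert_iff, ZFSet.mem_singleton]
    tauto
  rwa [← this]

/-- **Transfer.** -/
theorem transfer54 {N : Set ZFSet.{0}} (hN : IsZFC N) {A S U F : ZFSet.{0}} (hA : A ∈ N)
    (hS : S ∈ N) (hU : U ∈ N) (hSU : Onto N S U) (hF : F ∈ N)
    (h1 : ∀ H ∈ N, (∀ x ∈ H, x ∈ S) → Onto N H A →
      ∃ w ∈ H, ∃ x ∈ H, ∃ y ∈ H, ∃ z ∈ H, w ≠ x ∧ w ≠ y ∧ w ≠ z ∧ x ≠ y ∧ x ≠ z ∧ y ≠ z ∧
        ({w, x, y, z} : ZFSet.{0}) ∈ F)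
    (h2 : ∀ v ∈ S, ∀ w ∈ S, ∀ x ∈ S, ∀ y ∈ S, ∀ z ∈ S, v ≠ w → v ≠ x → v ≠ y → v ≠ z →
      w ≠ x → w ≠ y → w ≠ z → x ≠ y → x ≠ z → y ≠ z →
      ¬ (({v, w, x, y} : ZFSet.{0}) ∈ F ∧ ({v, w, x, z} : ZFSet.{0}) ∈ F ∧
        ({v, w, y, z} : ZFSet.{0}) ∈ F ∧ ({v, x, y, z} : ZFSet.{0}) ∈ F ∧
        ({w, x, y, z} : ZFSet.{0}) ∈ F)) :
    ∃ F' ∈ N, (∀ H ∈ N, (∀ x ∈ H, x ∈ U) → Onto N H A →
      ∃ w ∈ H, ∃ x ∈ H, ∃ y ∈ H, ∃ z ∈ H, w ≠ x ∧ w ≠ y ∧ w ≠ z ∧ x ≠ y ∧ x ≠ z ∧ y ≠ z ∧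
        ({w, x, y, z} : ZFSet.{0}) ∈ F') ∧
      ∀ v ∈ U, ∀ w ∈ U, ∀ x ∈ U, ∀ y ∈ U, ∀ z ∈ U, v ≠ w → v ≠ x → v ≠ y → v ≠ z →
      w ≠ x → w ≠ y → w ≠ z → x ≠ y → x ≠ z → y ≠ z →
      ¬ (({v, w, x, y} : ZFSet.{0}) ∈ F' ∧ ({v, w, x, z} : ZFSet.{0}) ∈ F' ∧
        ({v, w, y, z} : ZFSet.{0}) ∈ F' ∧ ({v, x, y, z} : ZFSet.{0}) ∈ F' ∧
        ({w, x, y, z} : ZFSet.{0}) ∈ F') := by
  obtain ⟨e, he, e1, e2, e3, e4⟩ := exists_section hN hS hU hSU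
  obtain ⟨P, hP, hP1⟩ := exists_powerset hN hU
  obtain ⟨F', hF', hF1⟩ := sep2 hN (R := fun t F e => ∃ t' ∈ F, ∀ s ∈ N,
    (s ∈ t' ↔ ∃ u ∈ t, ZFSet.pair u s ∈ e)) (.exB hN 1 (.all (.iff (.mem 0 1)
      (.exB hN 2 (.pair_mem hN 0 1 5))))) hP hF he
  have key : ∀ {w x y z w' x' y' z' : ZFSet.{0}}, ZFSet.pair w w' ∈ e → ZFSet.pair x x' ∈ e →
      ZFSet.pair y y' ∈ e → ZFSet.pair z z' ∈ e →
      (({w, x, y, z} : ZFSet.{0}) ∈ F' ↔ ({w', x', y', z'} : ZFSet.{0}) ∈ F) := by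
    intro w x y z w' x' y' z' hw hx hy hz
    have hmem : ∀ s, (∃ u ∈ ({w, x, y, z} : ZFSet.{0}), ZFSet.pair u s ∈ e) ↔
        s ∈ ({w', x', y', z'} : ZFSet.{0}) := by
      intro s
      simp only [ZFSet.mem_insert_iff, ZFSet.mem_singleton]
      constructor
      · rintro ⟨u, rfl | rfl | rfl | rfl, hu⟩
        · exact Or.inl (e1 _ _ _ hu hw)
        · exact Or.inr (Or.inl (e1 _ _ _ hu hx))
        · exact Or.inr (Or.inr (Or.inl (e1 _ _ _ hu hy)))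
        · exact Or.inr (Or.inr (Or.inr (e1 _ _ _ hu hz)))
      · rintro (rfl | rfl | rfl | rfl)
        · exact ⟨w, Or.inl rfl, hw⟩
        · exact ⟨x, Or.inr (Or.inl rfl), hx⟩
        · exact ⟨y, Or.inr (Or.inr (Or.inl rfl)), hy⟩
        · exact ⟨z, Or.inr (Or.inr (Or.inr rfl)), hz⟩
    have hNU : ∀ {u s}, ZFSet.pair u s ∈ e → u ∈ N ∧ s ∈ N := fun h =>
      ⟨hN.trans U hU _ (e4 _ _ h).1, hN.trans S hS _ (e4 _ _ h).2⟩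
    rw [hF1]
    constructor
    · rintro ⟨-, t', ht', h3⟩
      have : t' = {w', x', y', z'} := by
        ext s
        rw [← hmem]
        constructor
        · intro hs
          exact (h3 s (hN.trans t' (hN.trans F hF t' ht') s hs)).1 hs
        · rintro ⟨u, hu, hus⟩
          exact (h3 s (hNU hus).2).2 ⟨u, hu, hus⟩
      rwa [← this]
    · intro h3
      refine ⟨(hP1 _).2 ⟨quad_mem hN (hNU hw).1 (hNU hx).1 (hNU hy).1 (hNU hz).1, ?_⟩, _, h3,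
        fun s _ => (hmem s).symm⟩
      intro u hu
      simp only [ZFSet.mem_insert_iff, ZFSet.mem_singleton] at hu
      rcases hu with rfl | rfl | rfl | rfl
      · exact (e4 _ _ hw).1
      · exact (e4 _ _ hx).1
      · exact (e4 _ _ hy).1
      · exact (e4 _ _ hz).1
  refine ⟨F', hF', ?_, ?_⟩
  · rintro H hH hHU ⟨f, hf, hf1, hf2⟩
    -- the image of H
    obtain ⟨H', hH', hH1⟩ := sep2 hN (R := fun s H e => ∃ u ∈ H, ZFSet.pair u s ∈ e)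
      (.exB hN 1 (.pair_mem hN 0 1 3)) hS hH he
    obtain ⟨W, hW, hW1⟩ := exists_prod hN hS hA
    obtain ⟨f', hf', hf3⟩ := sep4 hN (R := fun t H e f A => ∃ u ∈ H, ∃ a ∈ A, ∃ s ∈ N,
      t = ZFSet.pair s a ∧ ZFSet.pair u s ∈ e ∧ ZFSet.pair u a ∈ f)
      (.exB hN 1 (.exB hN 5 (.ex (.and (.pair hN 3 0 1) (.and (.pair_mem hN 2 0 5)
        (.pair_mem hN 2 1 6)))))) hW hH he hf hA
    have hon : Onto N H' A := by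
      refine ⟨f', hf', ?_, ?_⟩
      · intro s a b hsa hsb
        obtain ⟨-, u, hu, a', ha', s', -, h3, h4, h5⟩ := (hf3 _).1 hsa
        obtain ⟨-, u', hu', b', hb', s'', -, h3', h4', h5'⟩ := (hf3 _).1 hsb
        obtain ⟨rfl, rfl⟩ := ZFSet.pair_injective h3
        obtain ⟨rfl, rfl⟩ := ZFSet.pair_injective h3'
        obtain rfl := e2 _ _ _ h4 h4'
        exact hf1 _ _ _ h5 h5'
      · intro a ha
        obtain ⟨u, hu, hua⟩ := hf2 a ha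
        obtain ⟨s, hs⟩ := e3 u (hHU u hu)
        have hsS := (e4 _ _ hs).2
        exact ⟨s, (hH1 s).2 ⟨hsS, u, hu, hs⟩, (hf3 _).2 ⟨(hW1 _).2 ⟨s, hsS, a, ha, rfl⟩, u, hu, a,
          ha, s, hN.trans S hS s hsS, rfl, hs, hua⟩⟩
    obtain ⟨w, hw, x, hx, y, hy, z, hz, n1, n2, n3, n4, n5, n6, hF2⟩ := h1 H' hH'
      (fun s hs => ((hH1 s).1 hs).1) hon
    obtain ⟨-, w', hw', hw2⟩ := (hH1 w).1 hw
    obtain ⟨-, x', hx', hx2⟩ := (hH1 x).1 hx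
    obtain ⟨-, y', hy', hy2⟩ := (hH1 y).1 hy
    obtain ⟨-, z', hz', hz2⟩ := (hH1 z).1 hz
    have ne : ∀ {u u' s s'}, ZFSet.pair u s ∈ e → ZFSet.pair u' s' ∈ e → s ≠ s' → u ≠ u' := by
      rintro u u' s s' h3 h4 h5 rfl
      exact h5 (e1 _ _ _ h3 h4)
    exact ⟨w', hw', x', hx', y', hy', z', hz', ne hw2 hx2 n1, ne hw2 hy2 n2, ne hw2 hz2 n3,
      ne hx2 hy2 n4, ne hx2 hz2 n5, ne hy2 hz2 n6, (key hw2 hx2 hy2 hz2).2 hF2⟩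
  · rintro v hv w hw x hx y hy z hz n1 n2 n3 n4 n5 n6 n7 n8 n9 n10 ⟨f1, f2, f3, f4, f5⟩
    obtain ⟨v', hv'⟩ := e3 v hv
    obtain ⟨w', hw'⟩ := e3 w hw
    obtain ⟨x', hx'⟩ := e3 x hx
    obtain ⟨y', hy'⟩ := e3 y hy
    obtain ⟨z', hz'⟩ := e3 z hz
    have ne : ∀ {u u' s s'}, ZFSet.pair u s ∈ e → ZFSet.pair u' s' ∈ e → u ≠ u' → s ≠ s' := by
      rintro u u' s s' h3 h4 h5 rfl
      exact h5 (e2 _ _ _ h3 h4)
    exact h2 v' (e4 _ _ hv').2 w' (e4 _ _ hw').2 x' (e4 _ _ hx').2 y' (e4 _ _ hy').2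
      z' (e4 _ _ hz').2 (ne hv' hw' n1) (ne hv' hx' n2) (ne hv' hy' n3) (ne hv' hz' n4)
      (ne hw' hx' n5) (ne hw' hy' n6) (ne hw' hz' n7) (ne hx' hy' n8) (ne hx' hz' n9)
      (ne hy' hz' n10) ⟨(key hv' hw' hx' hy').1 f1, (key hv' hw' hx' hz').1 f2,
        (key hv' hw' hy' hz').1 f3, (key hv' hx' hy' hz').1 f4, (key hw' hx' hy' hz').1 f5⟩

end Pool.Agent.Helper96.Fc
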