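import Pool.Agent.Helper96.Fc.Full1
import Pool.Agent.Helper96.Fc.Final2
import Pool.Agent.Helper96.Fc.Trans

/-!
# In the extension `2 ^ 2 ^ ℵ_ω ≤ 2 ^ 2 ^ (< ℵ_ω)`
-/

open Cardinal Ordinal Set

set_option linter.unusedSectionVars false

namespace Pool.Agent.Helper96.Fc

/-- name of the union of the shifted columns: a subset of `λ_ω` that determines `c` -/
noncomputable def blkN (c : Sq) : Nm Pos :=
  Nm.mk {t : ℕ × Pt × Pos // Bit t.2.2 (.inr t.1) (c.v t.1) t.2.1 true}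
    (fun t => ordN Pos ((lam t.1.1).ord + od t.1.2.1)) (fun t => t.1.2.2)

/-- name of a surjection -/
noncomputable def fN : Nm Pos :=
  Nm.mk Sq (fun c => pairN (blkN c) (u2N (enc2 c))) (fun _ => ⊤)

/-- `p` decides a difference of two coded sets -/
def RBlk (p : Pos) (l : List (Obj Pos)) : Prop :=
  ∃ (c d : Sq) (n : ℕ) (δ : Pt), l = [Sum.inl (ordN Pos ((lam n).ord + od δ)),
    Sum.inl (blkN c), Sum.inl (blkN d)] ∧ Fd p (.inr n) (c.v n) (d.v n) δ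

/-- `p` forces that `y` is a coded set of sets -/
def RU (p : Pos) (l : List (Obj Pos)) : Prop :=
  ∃ (c : Sq) (y : Nm Pos), l = [Sum.inl (pairN (blkN c) (u2N (enc2 c))), Sum.inl y] ∧
    FEq y (u2N (enc2 c)) p

/-- the further genericity conditions -/
structure Gd3 (X : Set (Obj Pos)) (G : Set Pos) : Prop where
  fX : (Sum.inl fN : Obj Pos) ∈ X
  gBlk : GenR X G RBlk
  gU : GenR X G RU

theorem exists_gd3 : ∃ (X : Set (Obj Pos)) (G : Set Pos), X.Countable ∧ Gd X G ∧ Gd2 X G ∧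
    Gd3 X G := by
  obtain ⟨X, G, h1, h2, h3, h4⟩ := exists_gd' (K := Fin 6)
    (fun k => match k with
      | 0 => RLst
      | 1 => ROntoG
      | 2 => RFunG
      | 3 => RQuad
      | 4 => RBlk
      | 5 => RU)
    (fun k l z => match k with
      | 0 => l = [] ∧ z = Sum.inl FQN
      | 1 => l = [] ∧ z = Sum.inl fN
      | _ => False)
    (fun k l y z hy hz => by
      fin_cases k
      · exact hy.2.trans hz.2.symm
      · exact hy.2.trans hz.2.symm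
      all_goals exact hy.elim)
  exact ⟨X, G, h1, h2, ⟨h4 0 [] _ (by simp) ⟨rfl, rfl⟩, h3 0, h3 1, h3 2, h3 3⟩,
    ⟨h4 1 [] _ (by simp) ⟨rfl, rfl⟩, h3 4, h3 5⟩⟩

theorem add_inj {m n : ℕ} {x y : Pt} (hx : od x < (lam m).ord) (hy : od y < (lam n).ord)
    (h : (lam m).ord + od x = (lam n).ord + od y) : m = n ∧ x = y := by
  have key : ∀ {m n : ℕ} {x y : Pt}, od x < (lam m).ord → m < n →
      (lam m).ord + od x < (lam n).ord + od y := by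
    intro m n x y hx hmn
    have h1 : (lam m).ord + od x < (lam n).ord :=
      isPrincipal_add_ord (aleph0_le_lam n) (ord_lt_ord.2 (lam_strictMono hmn))
        (hx.trans (ord_lt_ord.2 (lam_strictMono hmn)))
    exact h1.trans_le le_self_add
  rcases lt_trichotomy m n with hmn | rfl | hmn
  · exact absurd h (key hx hmn).ne
  · exact ⟨rfl, od_inj (add_left_cancel h)⟩
  · exact absurd h (key hy hmn).ne'

section

variable {X : Set (Obj Pos)} {G : Set Pos}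

theorem Gd.mem_blk (h : Gd X G) {c : Sq} {n : ℕ} {δ : Pt} (hδ : od δ < (lam n).ord)
    (hX : (Sum.inl (ordN Pos ((lam n).ord + od δ)) : Obj Pos) ∈ X) :
    vo X G ((lam n).ord + od δ) ∈ val X G (blkN c) ↔ ∃ p ∈ G, Bit p (.inr n) (c.v n) δ true := by
  constructor
  · intro h1
    obtain ⟨⟨⟨m, ε, p⟩, hb⟩, hp, h2, h3⟩ := mem_val.1 h1
    change Bit p (.inr m) (c.v m) ε true at hb
    change (Sum.inl (ordN Pos ((lam m).ord + od ε)) : Obj Pos) ∈ X at h2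
    have h4 := h.vo_inj h2 hX h3
    have hε : od ε < (lam m).ord := (p.2.dom _ _ hb).2
    obtain ⟨rfl, rfl⟩ := add_inj hε hδ h4
    exact ⟨p, hp, hb⟩
  · rintro ⟨p, hp, hb⟩
    exact mem_val.2 ⟨⟨(n, δ, p), hb⟩, hp, hX, rfl⟩

theorem Gd.blk_inj (h : Gd X G) (h3 : Gd3 X G) {c d : Sq} (hc : (Sum.inl (blkN c) : Obj Pos) ∈ X)
    (hd : (Sum.inl (blkN d) : Obj Pos) ∈ X) (he : val X G (blkN c) = val X G (blkN d)) :
    c = d := by
  by_contra hne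
  have hn : ∃ n, c.v n ≠ d.v n := by
    by_contra hcon
    push Not at hcon
    exact hne (Sq.ext' hcon)
  obtain ⟨n, hn⟩ := hn
  obtain ⟨p, hp, h1⟩ := h3.gBlk _ (l2X hc hd)
  rcases h1 with ⟨y, hy, c', d', m, δ, hl, b, h4⟩ | h1
  · obtain ⟨hl1, hl2⟩ := List.cons.inj hl
    obtain ⟨hl2, hl3⟩ := List.cons.inj hl2
    obtain ⟨hl3, -⟩ := List.cons.inj hl3
    have e1 := Sum.inl.inj hl2
    have e2 := Sum.inl.inj hl3
    rw [e1, e2] at he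
    rw [hl1] at hy
    have hδ : od δ < (lam m).ord := (p.2.dom _ _ h4.2.1).2
    have key : ∀ {c' d' : Sq}, Bit p (.inr m) (c'.v m) δ true → Bit p (.inr m) (d'.v m) δ false →
        val X G (blkN c') = val X G (blkN d') → False := by
      intro c' d' h5 h6 h7
      have h8 := (h.mem_blk (c := c') hδ hy).2 ⟨p, hp, h5⟩
      rw [h7] at h8
      obtain ⟨q, hq, h9⟩ := (h.mem_blk hδ hy).1 h8
      obtain ⟨r, -, hr1, hr2⟩ := h.basic.filt.compat hp hq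
      have := (h6.mono hr1).unique (h9.mono hr2)
      simp at this
    cases b
    · exact key h4.2.2 h4.2.1 he.symm
    · exact key h4.2.1 h4.2.2 he
  · obtain ⟨q, hq, δ, h4⟩ := dense_fd (.inr n) (c.lt n) (d.lt n) hn p
    exact h1 q hq _ ⟨c, d, n, δ, rfl, h4⟩

/-- the members of the members of `Y` are forced to be members of `κ_ω` -/
theorem Gd.exists_sub2 (h : Gd X G) {Y : Nm Pos} (hY : (Sum.inl Y : Obj Pos) ∈ X)
    (hsub : ∀ y ∈ val X G Y, y ⊆ vo X G kapω.ord) : ∃ p ∈ G, FSub2 Y p := by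
  have h1 := h.basic.truth (Fml.all (Fml.all (Fml.neg (Fml.and (Fml.and (Fml.mem 1 2)
    (Fml.mem 0 1)) (Fml.neg (Fml.mem 0 3)))))) ![Y, ordN Pos kapω.ord] (by
      intro i
      fin_cases i
      · exact hY
      · exact h.kapωX)
  obtain ⟨p, hp, h2⟩ := h1.1 (by
    intro y hy z hz
    rintro ⟨⟨h3, h4⟩, h5⟩
    exact h5 (hsub y h3 h4))
  refine ⟨p, hp, ?_⟩
  intro q hq y hy q' hq' z hz
  apply FMem.dense
  intro q'' hq''
  by_contra hcon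
  push Not at hcon
  refine h2 y z q'' (hq''.trans (hq'.trans hq)) ⟨⟨hy.mono (hq''.trans hq'), hz.mono hq''⟩, ?_⟩
  exact fun r hr h3 => hcon r hr h3

/-- **In the extension `2 ^ 2 ^ ℵ_ω ≤ 2 ^ 2 ^ (< ℵ_ω)`.** -/
theorem Gd.ontoU (h : Gd X G) (h3 : Gd3 X G) {S T U : ZFSet.{0}}
    (hS : ∀ z, z ∈ S ↔ z ∈ Mod X G ∧ z ⊆ vo X G lamω.ord)
    (hT : ∀ z, z ∈ T ↔ z ∈ Mod X G ∧ z ⊆ vo X G kapω.ord)
    (hU : ∀ z, z ∈ U ↔ z ∈ Mod X G ∧ z ⊆ T) : Onto (Mod X G) S U := by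
  refine ⟨val X G fN, mem_Mod h3.fX, ?_, ?_⟩
  · intro x y z hy hz
    obtain ⟨c, -, h1, h2⟩ := mem_val.1 hy
    obtain ⟨d, -, h4, h5⟩ := mem_val.1 hz
    change (Sum.inl (pairN (blkN c) (u2N (enc2 c))) : Obj Pos) ∈ X at h1
    change (Sum.inl (pairN (blkN d) (u2N (enc2 d))) : Obj Pos) ∈ X at h4
    change val X G (pairN (blkN c) (u2N (enc2 c))) = _ at h2
    change val X G (pairN (blkN d) (u2N (enc2 d))) = _ at h5
    have c1 := h.clos.fst _ _ h1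
    have c2 := h.clos.snd _ _ h1
    have d1 := h.clos.fst _ _ h4
    have d2 := h.clos.snd _ _ h4
    rw [val_pairN h.basic.filt h.clos c1 c2] at h2
    rw [val_pairN h.basic.filt h.clos d1 d2] at h5
    obtain ⟨h6, h7⟩ := ZFSet.pair_injective h2
    obtain ⟨h8, h9⟩ := ZFSet.pair_injective h5
    have e := h.blk_inj h3 c1 d1 (h6.trans h8.symm)
    rw [← h7, ← h9, e]
  · intro y hy
    obtain ⟨⟨Y, hY, rfl⟩, hsub⟩ := (hU y).1 hy
    obtain ⟨p1, hp1, h4⟩ := h.exists_sub2 hY (fun z hz => ((hT z).1 (hsub hz)).2)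
    obtain ⟨p2, hp2, h5⟩ := h3.gU _ (l1X hY)
    rcases h5 with ⟨u, hu, c, Y', he, h6⟩ | h5
    · obtain ⟨he1, he2⟩ := List.cons.inj he
      obtain ⟨he2, -⟩ := List.cons.inj he2
      obtain rfl := Sum.inl.inj he2
      rw [he1] at hu
      have c1 := h.clos.fst _ _ hu
      have c2 := h.clos.snd _ _ hu
      have h7 : val X G Y = val X G (u2N (enc2 c)) := (h.basic.eq_iff hY c2).2 ⟨p2, hp2, h6⟩
      refine ⟨val X G (blkN c), (hS _).2 ⟨mem_Mod c1, ?_⟩, ?_⟩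
      · intro z hz
        obtain ⟨⟨⟨m, ε, p⟩, hb⟩, hp, h8, rfl⟩ := mem_val.1 hz
        change Bit p (.inr m) (c.v m) ε true at hb
        change (Sum.inl (ordN Pos ((lam m).ord + od ε)) : Obj Pos) ∈ X at h8
        have hε : od ε < (lam m).ord := (p.2.dom _ _ hb).2
        have h9 : (lam m).ord + od ε < lamω.ord := by
          have h10 : (lam m).ord < lamω.ord :=
            ord_lt_ord.2 ((lam_lt_succ m).trans_le (lam_le_lamω _))
          exact isPrincipal_add_ord aleph0_le_lamω h10 (hε.trans h10)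
        exact (h.vo_mem_iff h8 h.lamωX).2 h9
      · rw [h7, ← val_pairN h.basic.filt h.clos c1 c2]
        exact mem_val.2 ⟨c, h.basic.filt.top, hu, rfl⟩
    · exfalso
      obtain ⟨p, -, hpp1, hpp2⟩ := h.basic.filt.compat hp1 hp2
      obtain ⟨q, hq, c, h6⟩ := dense_cd2 (y := Y) (p := p)
        (fun r hr z hz => h4 r (hr.trans hpp1) z hz)
      exact h5 q (hq.trans hpp2) _ ⟨c, Y, rfl, h6⟩

/-- **The second theorem, for the weak power and for the full power.** -/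
theorem main3 (hQ3 : Q3) (hN5 : N5) : ∃ N : Set ZFSet.{0}, N.Countable ∧ IsZFC N ∧
    ∃ (a b c : ℕ → ZFSet.{0}) (A B : ZFSet.{0}), Hyp N a b c A B ∧
      (∃ S, IsPow N B S ∧ ∃ F ∈ N,
        (∀ H ∈ N, (∀ x ∈ H, x ∈ S) → Onto N H A →
          ∃ w ∈ H, ∃ x ∈ H, ∃ y ∈ H, ∃ z ∈ H, w ≠ x ∧ w ≠ y ∧ w ≠ z ∧ x ≠ y ∧ x ≠ z ∧ y ≠ z ∧
            ({w, x, y, z} : ZFSet.{0}) ∈ F) ∧
        (∀ v ∈ S, ∀ w ∈ S, ∀ x ∈ S, ∀ y ∈ S, ∀ z ∈ S, v ≠ w → v ≠ x → v ≠ y → v ≠ z →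
          w ≠ x → w ≠ y → w ≠ z → x ≠ y → x ≠ z → y ≠ z →
          ¬ (({v, w, x, y} : ZFSet.{0}) ∈ F ∧ ({v, w, x, z} : ZFSet.{0}) ∈ F ∧
            ({v, w, y, z} : ZFSet.{0}) ∈ F ∧ ({v, x, y, z} : ZFSet.{0}) ∈ F ∧
            ({w, x, y, z} : ZFSet.{0}) ∈ F))) ∧
      ∃ T U, IsPow N A T ∧ IsPow N T U ∧ ∃ F ∈ N,
        (∀ H ∈ N, (∀ x ∈ H, x ∈ U) → Onto N H A →
          ∃ w ∈ H, ∃ x ∈ H, ∃ y ∈ H, ∃ z ∈ H, w ≠ x ∧ w ≠ y ∧ w ≠ z ∧ x ≠ y ∧ x ≠ z ∧ y ≠ z ∧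
            ({w, x, y, z} : ZFSet.{0}) ∈ F) ∧
        (∀ v ∈ U, ∀ w ∈ U, ∀ x ∈ U, ∀ y ∈ U, ∀ z ∈ U, v ≠ w → v ≠ x → v ≠ y → v ≠ z →
          w ≠ x → w ≠ y → w ≠ z → x ≠ y → x ≠ z → y ≠ z →
          ¬ (({v, w, x, y} : ZFSet.{0}) ∈ F ∧ ({v, w, x, z} : ZFSet.{0}) ∈ F ∧
            ({v, w, y, z} : ZFSet.{0}) ∈ F ∧ ({v, x, y, z} : ZFSet.{0}) ∈ F ∧
            ({w, x, y, z} : ZFSet.{0}) ∈ F)) := by
  obtain ⟨X, G, hX, h, h2, h3⟩ := exists_gd3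
  have hN := Mod.isZFC h.basic h.clos
  obtain ⟨S, hS1, hS2⟩ := Mod.powerset h.basic h.clos (Gd.vo_mod (G := G) h.lamωX)
  obtain ⟨T, hT1, hT2⟩ := Mod.powerset h.basic h.clos (Gd.vo_mod (G := G) h.kapωX)
  obtain ⟨U, hU1, hU2⟩ := Mod.powerset h.basic h.clos hT1
  obtain ⟨F, hF, hF1, hF2⟩ := h.main2 h2 hQ3 hN5 hS2
  refine ⟨Mod X G, Mod_countable hX, hN, _, _, _, _, _, h.hyp, ⟨S, ⟨hS1, hS2⟩, F, hF, hF1, hF2⟩,
    T, U, ⟨hT1, hT2⟩, ⟨hU1, hU2⟩, ?_⟩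
  exact transfer54 hN (Gd.vo_mod h.kapωX) hS1 hU1 (h.ontoU h3 hS2 hT2 hU2) hF hF1 hF2

end

end Pool.Agent.Helper96.Fc
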