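import Pool.Agent.Helper96.Fc.Names

/-!
# Countable sets of objects and generic filters
-/

namespace Pool.Agent.Helper96.Fc

theorem exists_lift {α : Type 1} {S : Set α} {l : List α} (h : ∀ a ∈ l, a ∈ S) :
    ∃ l' : List S, l'.map Subtype.val = l := by
  induction l with
  | nil => exact ⟨[], rfl⟩
  | cons a l ih =>
    obtain ⟨l', hl'⟩ := ih (fun b hb => h b (List.mem_cons_of_mem _ hb))
    exact ⟨⟨a, h a (by simp)⟩ :: l', by simp [hl']⟩

/-- stages of the closure -/
def stage {α : Type 1} {K : Type} (ops : K → List α → α) (base : Set α) : ℕ → Set α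
  | 0 => base
  | n + 1 => stage ops base n ∪
      Set.range (fun x : K × List (stage ops base n) => ops x.1 (x.2.map Subtype.val))

/-- closure of a countable set under countably many finitary operations -/
theorem exists_closed {α : Type 1} {K : Type} [Countable K] (ops : K → List α → α)
    (base : Set α) (hb : base.Countable) :
    ∃ X : Set α, X.Countable ∧ base ⊆ X ∧ ∀ k l, (∀ a ∈ l, a ∈ X) → ops k l ∈ X := by
  set S : ℕ → Set α := stage ops base with hSdef
  have hS0 : S 0 = base := rfl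
  have hS : ∀ n : ℕ, S (n + 1) = S n ∪
      Set.range (fun x : K × List (S n) => ops x.1 (x.2.map Subtype.val)) := fun n => rfl
  have hc : ∀ n, (S n).Countable := by
    intro n
    induction n with
    | zero => exact hb
    | succ n ih =>
      rw [hS]
      have : Countable (S n) := ih.to_subtype
      exact ih.union (Set.countable_range _)
  have hmono : Monotone S := monotone_nat_of_le_succ fun n => by
    rw [hS]; exact Set.subset_union_left
  refine ⟨⋃ n, S n, Set.countable_iUnion hc, ?_, ?_⟩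
  · intro x hx
    exact Set.mem_iUnion.2 ⟨0, hx⟩
  · intro k l hl
    have : ∃ n, ∀ a ∈ l, a ∈ S n := by
      induction l with
      | nil => exact ⟨0, by simp⟩
      | cons a l ih =>
        obtain ⟨n, hn⟩ := ih (fun b hb => hl b (List.mem_cons_of_mem _ hb))
        obtain ⟨m, hm⟩ := Set.mem_iUnion.1 (hl a (by simp))
        refine ⟨max n m, ?_⟩
        intro b hb
        rcases List.mem_cons.1 hb with rfl | hb
        · exact hmono (le_max_right _ _) hm
        · exact hmono (le_max_left _ _) (hn b hb)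
    obtain ⟨n, hn⟩ := this
    refine Set.mem_iUnion.2 ⟨n + 1, ?_⟩
    rw [hS]
    right
    obtain ⟨l', hl'⟩ := exists_lift hn
    exact ⟨⟨k, l'⟩, by simp only [hl']⟩

variable {P : Type} [PartialOrder P]

/-- Objects: names and conditions. -/
abbrev Obj (P : Type) : Type 1 := Nm P ⊕ P

/-- `G` is a filter generated by conditions that belong to `X`. -/
structure IsFilt (X : Set (Obj P)) (G : Set P) : Prop where
  up : ∀ p ∈ G, ∀ q, p ≤ q → q ∈ G
  dir : ∀ p ∈ G, ∀ q ∈ G, ∃ r ∈ G, r ≤ p ∧ r ≤ q ∧ Sum.inr r ∈ X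
  ne : ∃ p, p ∈ G

/-- `G` is generic for the relation `R` over `X`. -/
def GenR (X : Set (Obj P)) (G : Set P) (R : P → List (Obj P) → Prop) : Prop :=
  ∀ l : List (Obj P), (∀ a ∈ l, a ∈ X) →
    ∃ p ∈ G, (∃ y ∈ X, R p (y :: l)) ∨ (∀ q ≤ p, ∀ y, ¬ R q (y :: l))

theorem IsFilt.compat {X : Set (Obj P)} {G : Set P} (h : IsFilt X G) {p q : P} (hp : p ∈ G)
    (hq : q ∈ G) : ∃ r ∈ G, r ≤ p ∧ r ≤ q := by
  obtain ⟨r, hr, h1, h2, -⟩ := h.dir p hp q hq
  exact ⟨r, hr, h1, h2⟩

/-- **Generic filters exist.** -/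
theorem exists_generic {K : Type} [Countable K] (R : K → P → List (Obj P) → Prop)
    (ops : K → List (Obj P) → Obj P) (base : Set (Obj P)) (hb : base.Countable) (p₀ : P) :
    ∃ (X : Set (Obj P)) (G : Set P), X.Countable ∧ base ⊆ X ∧
      (∀ k l, (∀ a ∈ l, a ∈ X) → ops k l ∈ X) ∧ p₀ ∈ G ∧ IsFilt X G ∧ ∀ k, GenR X G (R k) := by
  classical
  -- witnessing operations
  let w : K → List (Obj P) → P × Obj P := fun k l =>
    match l with
    | Sum.inr p :: l' =>
      if h : ∃ x : P × Obj P, x.1 ≤ p ∧ R k x.1 (x.2 :: l') then h.choose else (p, Sum.inr p)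
    | _ => (p₀, Sum.inr p₀)
  let ops' : (K ⊕ (K ⊕ K)) → List (Obj P) → Obj P := fun k l =>
    match k with
    | Sum.inl k => ops k l
    | Sum.inr (Sum.inl k) => Sum.inr (w k l).1
    | Sum.inr (Sum.inr k) => (w k l).2
  obtain ⟨X, hXc, hbX, hX⟩ := exists_closed ops' (base ∪ {Sum.inr p₀})
    (hb.union (Set.countable_singleton _))
  have hp₀ : (Sum.inr p₀ : Obj P) ∈ X := hbX (Or.inr rfl)
  have hw1 : ∀ k (p : P) (l : List (Obj P)), (Sum.inr p : Obj P) ∈ X → (∀ a ∈ l, a ∈ X) →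
      (Sum.inr (w k (Sum.inr p :: l)).1 : Obj P) ∈ X ∧ (w k (Sum.inr p :: l)).2 ∈ X := by
    intro k p l hp hl
    have hl' : ∀ a ∈ (Sum.inr p :: l : List (Obj P)), a ∈ X := by
      intro a ha
      rcases List.mem_cons.1 ha with rfl | ha
      · exact hp
      · exact hl a ha
    exact ⟨hX (Sum.inr (Sum.inl k)) _ hl', hX (Sum.inr (Sum.inr k)) _ hl'⟩
  have hw2 : ∀ k (p : P) (l : List (Obj P)), (w k (Sum.inr p :: l)).1 ≤ p ∧
      (R k (w k (Sum.inr p :: l)).1 ((w k (Sum.inr p :: l)).2 :: l) ∨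
        (w k (Sum.inr p :: l)).1 = p ∧ ∀ q ≤ p, ∀ y, ¬ R k q (y :: l)) := by
    intro k p l
    by_cases h : ∃ x : P × Obj P, x.1 ≤ p ∧ R k x.1 (x.2 :: l)
    · have hw : w k (Sum.inr p :: l) = h.choose := dif_pos h
      rw [hw]
      exact ⟨h.choose_spec.1, Or.inl h.choose_spec.2⟩
    · have hw : w k (Sum.inr p :: l) = (p, Sum.inr p) := dif_neg h
      rw [hw]
      refine ⟨le_rfl, Or.inr ⟨rfl, fun q hq y hR => h ⟨(q, y), hq, hR⟩⟩⟩
  -- enumeration of the tasks
  have : Countable X := hXc.to_subtype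
  rcases isEmpty_or_nonempty K with hK | hK
  · refine ⟨X, {q | p₀ ≤ q}, hXc, (Set.subset_union_left).trans hbX, fun k => hK.elim k, le_rfl,
      ⟨fun p hp q hpq => le_trans (b := p) hp hpq, fun p hp q hq => ⟨p₀, le_rfl, hp, hq, hp₀⟩,
        ⟨p₀, le_rfl⟩⟩, fun k => hK.elim k⟩
  have : Nonempty (K × List X) := ⟨(Classical.arbitrary K, [])⟩
  obtain ⟨e, he⟩ := exists_surjective_nat (K × List X)
  let s : ℕ → P := fun n => Nat.rec p₀
    (fun n p => (w (e n).1 (Sum.inr p :: (e n).2.map Subtype.val)).1) n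
  have hs0 : s 0 = p₀ := rfl
  have hs : ∀ n, s (n + 1) = (w (e n).1 (Sum.inr (s n) :: (e n).2.map Subtype.val)).1 :=
    fun n => rfl
  have hlX : ∀ n, ∀ a ∈ (e n).2.map Subtype.val, a ∈ X := by
    intro n a ha
    obtain ⟨b, -, rfl⟩ := List.mem_map.1 ha
    exact b.2
  have hsX : ∀ n, (Sum.inr (s n) : Obj P) ∈ X := by
    intro n
    induction n with
    | zero => exact hp₀
    | succ n ih => rw [hs]; exact (hw1 _ _ _ ih (hlX n)).1
  have hanti : Antitone s := antitone_nat_of_succ_le fun n => by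
    rw [hs]; exact (hw2 _ _ _).1
  refine ⟨X, {q | ∃ n, s n ≤ q}, hXc, (Set.subset_union_left).trans hbX,
    fun k l hl => hX (Sum.inl k) l hl, ⟨0, le_rfl⟩, ⟨?_, ?_, ⟨p₀, 0, le_rfl⟩⟩, ?_⟩
  · rintro p ⟨n, hn⟩ q hpq
    exact ⟨n, hn.trans hpq⟩
  · rintro p ⟨n, hn⟩ q ⟨m, hm⟩
    exact ⟨s (max n m), ⟨max n m, le_rfl⟩, (hanti (le_max_left _ _)).trans hn,
      (hanti (le_max_right _ _)).trans hm, hsX _⟩
  · intro k l hl
    obtain ⟨l', hl'⟩ := exists_lift hl
    obtain ⟨n, hn⟩ := he (k, l')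
    have hen : (e n).2.map Subtype.val = l := by
      rw [hn]
      exact hl'
    have hek : (e n).1 = k := by rw [hn]
    have h1 := hw2 (e n).1 (s n) ((e n).2.map Subtype.val)
    have h2 := hw1 (e n).1 (s n) ((e n).2.map Subtype.val) (hsX n) (hlX n)
    have h3 := hs n
    rw [hen, hek] at h1 h2 h3
    refine ⟨s (n + 1), ⟨n + 1, le_rfl⟩, ?_⟩
    rcases h1.2 with h4 | ⟨h4, h5⟩
    · left
      exact ⟨_, h2.2, by rw [h3]; exact h4⟩
    · right
      intro q hq y
      refine h5 q (hq.trans ?_) y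
      rw [h3, h4]

end Pool.Agent.Helper96.Fc
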