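import Pool.Agent.Helper96.Fc.Codes

/-!
# The generic extension
-/

open Cardinal Ordinal Set

set_option linter.unusedSectionVars false

namespace Pool.Agent.Helper96.Fc

/-- the colourings of the triples and quadruples -/
def ColK : (k : ℕ) → Pos → (Fin k → Pt) → Prop
  | 3, q, v => Col3 q (v 0) (v 1) (v 2)
  | 4, q, v => Col4 q (v 0) (v 1) (v 2) (v 3)
  | _, _, _ => False

/-- name of the set of the `k`-sets of colour 1 -/
noncomputable def FN (k : ℕ) : Nm Pos :=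
  Nm.mk {t : (Fin k → Pt) × Pos // ColK k t.2 t.1} (fun t => finN (fun j => oN (t.1.1 j)))
    (fun t => t.1.2)

/-- name of the enumeration of the coded subsets of `ρ_i` -/
noncomputable def enN (i : Lv) : Nm Pos :=
  Nm.mk {x : Pt // od x < (sig i).ord} (fun x => pairN (oN x.1) (cdN (enc i x.1))) (fun _ => ⊤)

/-- name of the inverse of the enumeration of the columns -/
noncomputable def inN (i : Lv) : Nm Pos :=
  Nm.mk {x : Pt // od x < (sig i).ord} (fun x => pairN (clmN i x.1) (oN x.1)) (fun _ => ⊤)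

/-- `p` forces that the ordinal `ξ ∈ T` is not a value of `f` on `H ∩ W` -/
def ROnto (p : Pos) (l : List (Obj Pos)) : Prop :=
  ∃ (ξ : Ordinal.{0}) (f H T W : Nm Pos),
    l = [Sum.inl (ordN Pos ξ), Sum.inl f, Sum.inl H, Sum.inl T, Sum.inl W] ∧
      FMem (ordN Pos ξ) T p ∧ ∀ q ≤ p, ∀ β, FMem (ordN Pos β) W q →
        ¬ (FMem (ordN Pos β) H q ∧ FMem (pairN (ordN Pos β) (ordN Pos ξ)) f q)

/-- `p` forces that `f` is not a function -/
def RFun (p : Pos) (l : List (Obj Pos)) : Prop :=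
  ∃ (β ξ η : Ordinal.{0}) (f : Nm Pos),
    l = [Sum.inl (pairN (ordN Pos β) (pairN (ordN Pos ξ) (ordN Pos η))), Sum.inl f] ∧
      ξ ≠ η ∧ FMem (pairN (ordN Pos β) (ordN Pos ξ)) f p ∧
        FMem (pairN (ordN Pos β) (ordN Pos η)) f p

/-- `p` forces that a `k`-set of colour 1 is contained in `H` -/
def RCol (k : ℕ) (p : Pos) (l : List (Obj Pos)) : Prop :=
  ∃ (v : Fin k → Pt) (H : Nm Pos), l = [Sum.inl (finN (fun j => oN (v j))), Sum.inl H] ∧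
    (∀ j, FMem (oN (v j)) H p) ∧ ColK k p v

/-- `p` forces that `y ∩ ρ_i` is the coded set -/
def RAgn (i : Lv) (p : Pos) (l : List (Obj Pos)) : Prop :=
  ∃ (x : Pt) (y : Nm Pos), l = [Sum.inl (oN x), Sum.inl y] ∧ od x < (sig i).ord ∧
    Agn i y (cdN (enc i x)) p

/-- `p` forces that the value of the collapsing function at `ν` is `β` -/
def RCl (n : ℕ) (p : Pos) (l : List (Obj Pos)) : Prop :=
  ∃ (ν : Pt) (α β : Ordinal.{0}),
    l = [Sum.inl (oN ν), Sum.inl (ordN Pos α), Sum.inl (ordN Pos β)] ∧ od ν < (kap n).ord ∧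
      FMem (pairN (oN ν) (ordN Pos β)) (clN n α) p

/-- `p` decides the first difference of two columns -/
def RFd (i : Lv) (p : Pos) (l : List (Obj Pos)) : Prop :=
  ∃ (δ x y : Pt), l = [Sum.inl (oN δ), Sum.inl (oN x), Sum.inl (oN y)] ∧ Fd p i x y δ

/-- indices of the members of the members of the members -/
def Cmp3 (f : Nm Pos) : Type := Σ i : f.Ix, Σ j : (f.fn i).Ix, ((f.fn i).fn j).Ix

/-- a member of a member of a member -/
def c3 {f : Nm Pos} (t : Cmp3 f) : Nm Pos := ((f.fn t.1).fn t.2.1).fn t.2.2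

/-- name of a composition -/
noncomputable def cmpN (f g : Nm Pos) : Nm Pos :=
  Nm.mk {t : (Cmp3 f × Cmp3 f × Cmp3 g) × Pos //
      FMem (pairN (c3 t.1.1) (c3 t.1.2.1)) f t.2 ∧ FMem (pairN (c3 t.1.2.1) (c3 t.1.2.2)) g t.2}
    (fun t => pairN (c3 t.1.1.1) (c3 t.1.1.2.2)) (fun t => t.1.2)

/-- `p` forces that `y` is a value of `f` at `u` at which `g` has the value `w` -/
def RMid (p : Pos) (l : List (Obj Pos)) : Prop :=
  ∃ (y u w f g : Nm Pos), l = [Sum.inl y, Sum.inl u, Sum.inl w, Sum.inl f, Sum.inl g] ∧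
    FMem (pairN u y) f p ∧ FMem (pairN y w) g p

/-- all genericity and closure conditions -/
structure Gd (X : Set (Obj Pos)) (G : Set Pos) : Prop where
  basic : Basic X G
  clos : Clos X
  kapX : ∀ n, (Sum.inl (ordN Pos (kap n).ord) : Obj Pos) ∈ X
  lamX : ∀ n, (Sum.inl (ordN Pos (lam n).ord) : Obj Pos) ∈ X
  muX : ∀ n, (Sum.inl (ordN Pos (mu n).ord) : Obj Pos) ∈ X
  kapωX : (Sum.inl (ordN Pos kapω.ord) : Obj Pos) ∈ X
  lamωX : (Sum.inl (ordN Pos lamω.ord) : Obj Pos) ∈ X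
  muωX : (Sum.inl (ordN Pos muω.ord) : Obj Pos) ∈ X
  clm : ∀ i x, (Sum.inl (oN x) : Obj Pos) ∈ X → (Sum.inl (clmN i x) : Obj Pos) ∈ X
  cd : ∀ i x, (Sum.inl (oN x) : Obj Pos) ∈ X → (Sum.inl (cdN (enc i x)) : Obj Pos) ∈ X
  en : ∀ i, (Sum.inl (enN i) : Obj Pos) ∈ X
  inn : ∀ i, (Sum.inl (inN i) : Obj Pos) ∈ X
  cl : ∀ n α, (Sum.inl (ordN Pos α) : Obj Pos) ∈ X → (Sum.inl (clN n α) : Obj Pos) ∈ X
  fin : ∀ (k : ℕ) (v : Fin k → Nm Pos), (∀ j, (Sum.inl (v j) : Obj Pos) ∈ X) →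
    (Sum.inl (finN v) : Obj Pos) ∈ X
  fin' : ∀ (k : ℕ) (v : Fin k → Nm Pos), (Sum.inl (finN v) : Obj Pos) ∈ X →
    ∀ j, (Sum.inl (v j) : Obj Pos) ∈ X
  F : ∀ k, (Sum.inl (FN k) : Obj Pos) ∈ X
  cmp : ∀ f g, (Sum.inl f : Obj Pos) ∈ X → (Sum.inl g : Obj Pos) ∈ X →
    (Sum.inl (cmpN f g) : Obj Pos) ∈ X
  gOnto : GenR X G ROnto
  gFun : GenR X G RFun
  gCol : ∀ k, GenR X G (RCol k)
  gAgn : ∀ i, GenR X G (RAgn i)
  gCl : ∀ n, GenR X G (RCl n)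
  gFd : ∀ i, GenR X G (RFd i)
  gMid : GenR X G RMid

/-- the operations -/
noncomputable def OO : (ℕ × ℕ × Lv) → List (Obj Pos) → Obj Pos → Prop
  | (0, n, _), l, z => l = [] ∧ z = Sum.inl (ordN Pos (kap n).ord)
  | (1, n, _), l, z => l = [] ∧ z = Sum.inl (ordN Pos (lam n).ord)
  | (2, n, _), l, z => l = [] ∧ z = Sum.inl (ordN Pos (mu n).ord)
  | (3, _, _), l, z => l = [] ∧ z = Sum.inl (ordN Pos kapω.ord)
  | (4, _, _), l, z => l = [] ∧ z = Sum.inl (ordN Pos lamω.ord)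
  | (5, _, _), l, z => l = [] ∧ z = Sum.inl (ordN Pos muω.ord)
  | (6, _, i), l, z => ∃ x, l = [Sum.inl (oN x)] ∧ z = Sum.inl (clmN i x)
  | (7, _, i), l, z => ∃ x, l = [Sum.inl (oN x)] ∧ z = Sum.inl (cdN (enc i x))
  | (8, _, i), l, z => l = [] ∧ z = Sum.inl (enN i)
  | (9, _, i), l, z => l = [] ∧ z = Sum.inl (inN i)
  | (10, n, _), l, z => ∃ α, l = [Sum.inl (ordN Pos α)] ∧ z = Sum.inl (clN n α)
  | (11, k, _), l, z => ∃ v : Fin k → Nm Pos, l = List.ofFn (fun j => Sum.inl (v j)) ∧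
      z = Sum.inl (finN v)
  | (12, k, .inl j), l, z => ∃ (v : Fin k → Nm Pos) (h : j < k), l = [Sum.inl (finN v)] ∧
      z = Sum.inl (v ⟨j, h⟩)
  | (13, k, _), l, z => l = [] ∧ z = Sum.inl (FN k)
  | (14, _, _), l, z => ∃ f g, l = [Sum.inl f, Sum.inl g] ∧ z = Sum.inl (cmpN f g)
  | _, _, _ => False

theorem OO_fun : ∀ (k : ℕ × ℕ × Lv) (l : List (Obj Pos)) (y z : Obj Pos),
    OO k l y → OO k l z → y = z := by
  intro k l y z hy hz
  match k, hy, hz with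
  | (0, _, _), hy, hz => rw [hy.2, hz.2]
  | (1, _, _), hy, hz => rw [hy.2, hz.2]
  | (2, _, _), hy, hz => rw [hy.2, hz.2]
  | (3, _, _), hy, hz => rw [hy.2, hz.2]
  | (4, _, _), hy, hz => rw [hy.2, hz.2]
  | (5, _, _), hy, hz => rw [hy.2, hz.2]
  | (6, _, _), hy, hz =>
    obtain ⟨a, rfl, rfl⟩ := hy
    obtain ⟨c, h, rfl⟩ := hz
    simp only [List.cons.injEq, Sum.inl.injEq, and_true] at h
    rw [oN_inj h]
  | (7, _, _), hy, hz =>
    obtain ⟨a, rfl, rfl⟩ := hy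
    obtain ⟨c, h, rfl⟩ := hz
    simp only [List.cons.injEq, Sum.inl.injEq, and_true] at h
    rw [oN_inj h]
  | (8, _, _), hy, hz => rw [hy.2, hz.2]
  | (9, _, _), hy, hz => rw [hy.2, hz.2]
  | (10, _, _), hy, hz =>
    obtain ⟨a, rfl, rfl⟩ := hy
    obtain ⟨c, h, rfl⟩ := hz
    simp only [List.cons.injEq, Sum.inl.injEq, and_true] at h
    rw [ordN_inj' h]
  | (11, k, _), hy, hz =>
    obtain ⟨a, rfl, rfl⟩ := hy
    obtain ⟨c, h, rfl⟩ := hz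
    rw [ofFn_inl_inj h]
  | (12, k, .inl j), hy, hz =>
    obtain ⟨a, h0, rfl, rfl⟩ := hy
    obtain ⟨c, h1, h, rfl⟩ := hz
    simp only [List.cons.injEq, Sum.inl.injEq, and_true] at h
    rw [finN_inj h]
  | (12, k, .inr j), hy, hz => exact hy.elim
  | (13, _, _), hy, hz => rw [hy.2, hz.2]
  | (14, _, _), hy, hz =>
    obtain ⟨a, b, rfl, rfl⟩ := hy
    obtain ⟨c, d, h, rfl⟩ := hz
    simp only [List.cons.injEq, Sum.inl.injEq, and_true] at h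
    rw [h.1, h.2]
  | (n + 15, _, _), hy, hz => exact hy.elim

/-- the relations -/
noncomputable def RR : (ℕ × ℕ × Lv) → Pos → List (Obj Pos) → Prop
  | (0, _, _) => ROnto
  | (1, _, _) => RFun
  | (2, k, _) => RCol k
  | (3, _, i) => RAgn i
  | (4, n, _) => RCl n
  | (5, _, i) => RFd i
  | (_, _, _) => RMid

/-- **Existence of the extension**, with further closure and genericity conditions. -/
theorem exists_gd' {K : Type} [Countable K] (R' : K → Pos → List (Obj Pos) → Prop)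
    (O' : K → List (Obj Pos) → Obj Pos → Prop)
    (hO' : ∀ k l y z, O' k l y → O' k l z → y = z) :
    ∃ (X : Set (Obj Pos)) (G : Set Pos), X.Countable ∧ Gd X G ∧ (∀ k, GenR X G (R' k)) ∧
      ∀ k l y, (∀ a ∈ l, a ∈ X) → O' k l y → y ∈ X := by
  obtain ⟨X, G, hX, -, hb, hc, hR0, hO0⟩ := exists_good
    (K := (ℕ × ℕ × Lv) ⊕ K) (Sum.elim RR R') (Sum.elim OO O')
    (by
      rintro (k | k) l y z hy hz
      · exact OO_fun k l y z hy hz
      · exact hO' k l y z hy hz) (⊤ : Pos)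
  have hR : ∀ k, GenR X G (RR k) := fun k => hR0 (.inl k)
  have hO : ∀ k l y, (∀ a ∈ l, a ∈ X) → OO k l y → y ∈ X := fun k => hO0 (.inl k)
  have l0 : ∀ b ∈ ([] : List (Obj Pos)), b ∈ X := by simp
  have l1 : ∀ {a : Obj Pos}, a ∈ X → ∀ b ∈ [a], b ∈ X := by
    intro a ha b hb
    rw [List.mem_singleton] at hb
    rwa [hb]
  have l2 : ∀ {a c : Obj Pos}, a ∈ X → c ∈ X → ∀ b ∈ [a, c], b ∈ X := by
    intro a c ha hc b hb
    rcases List.mem_cons.1 hb with rfl | hb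
    · exact ha
    · exact l1 hc b hb
  refine ⟨X, G, hX, ⟨hb, hc, ?_, ?_, ?_, ?_, ?_, ?_, ?_, ?_, ?_, ?_, ?_, ?_, ?_, ?_, ?_,
    hR (0, 0, .inl 0), hR (1, 0, .inl 0), fun k => hR (2, k, .inl 0), fun i => hR (3, 0, i),
    fun n => hR (4, n, .inl 0), fun i => hR (5, 0, i), hR (6, 0, .inl 0)⟩,
    fun k => hR0 (.inr k), fun k => hO0 (.inr k)⟩
  · exact fun n => hO (0, n, .inl 0) [] _ l0 ⟨rfl, rfl⟩
  · exact fun n => hO (1, n, .inl 0) [] _ l0 ⟨rfl, rfl⟩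
  · exact fun n => hO (2, n, .inl 0) [] _ l0 ⟨rfl, rfl⟩
  · exact hO (3, 0, .inl 0) [] _ l0 ⟨rfl, rfl⟩
  · exact hO (4, 0, .inl 0) [] _ l0 ⟨rfl, rfl⟩
  · exact hO (5, 0, .inl 0) [] _ l0 ⟨rfl, rfl⟩
  · exact fun i x hx => hO (6, 0, i) _ _ (l1 hx) ⟨x, rfl, rfl⟩
  · exact fun i x hx => hO (7, 0, i) _ _ (l1 hx) ⟨x, rfl, rfl⟩
  · exact fun i => hO (8, 0, i) [] _ l0 ⟨rfl, rfl⟩
  · exact fun i => hO (9, 0, i) [] _ l0 ⟨rfl, rfl⟩
  · exact fun n α hα => hO (10, n, .inl 0) _ _ (l1 hα) ⟨α, rfl, rfl⟩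
  · exact fun k v hv => hO (11, k, .inl 0) _ _ (mem_ofFn hv) ⟨v, rfl, rfl⟩
  · exact fun k v hv j => hO (12, k, .inl j.1) _ _ (l1 hv) ⟨v, j.2, rfl, rfl⟩
  · exact fun k => hO (13, k, .inl 0) [] _ l0 ⟨rfl, rfl⟩
  · exact fun f g hf hg => hO (14, 0, .inl 0) _ _ (l2 hf hg) ⟨f, g, rfl, rfl⟩

theorem exists_gd : ∃ (X : Set (Obj Pos)) (G : Set Pos), X.Countable ∧ Gd X G := by
  obtain ⟨X, G, h1, h2, -⟩ := exists_gd' (K := Unit) (fun _ _ _ => False) (fun _ _ _ => False)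
    (fun _ _ _ _ h => h.elim)
  exact ⟨X, G, h1, h2⟩

end Pool.Agent.Helper96.Fc
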