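import Pool.Agent.Helper96.Fc.Defs

/-!
# Names for a forcing notion `P : Type` and the forcing relation for atomic formulas

`q ≤ p` means that `q` is stronger than `p`.
-/

namespace Pool.Agent.Helper96.Fc

/-- Names: a family of names `f i` with conditions `c i`. -/
inductive Nm (P : Type) : Type 1
  | mk (I : Type) (f : I → Nm P) (c : I → P) : Nm P

namespace Nm

variable {P : Type}

/-- index type -/
def Ix : Nm P → Type
  | mk I _ _ => I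

/-- members -/
def fn : (x : Nm P) → x.Ix → Nm P
  | mk _ f _ => f

/-- conditions -/
def cd : (x : Nm P) → x.Ix → P
  | mk _ _ c => c

@[simp] theorem mk_Ix (I : Type) (f : I → Nm P) (c : I → P) : (mk I f c).Ix = I := rfl
@[simp] theorem mk_fn (I : Type) (f : I → Nm P) (c : I → P) : (mk I f c).fn = f := rfl
@[simp] theorem mk_cd (I : Type) (f : I → Nm P) (c : I → P) : (mk I f c).cd = c := rfl

theorem eta (x : Nm P) : mk x.Ix x.fn x.cd = x := by cases x; rfl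

theorem ind {C : Nm P → Prop} (h : ∀ x : Nm P, (∀ i, C (x.fn i)) → C x) (x : Nm P) : C x := by
  induction x with
  | mk I f c ih => exact h _ ih

end Nm

variable {P : Type} [PartialOrder P]

/-- `p ⊩ x = y`. -/
def FEq : Nm P → Nm P → P → Prop
  | .mk I f c, .mk J g d => fun p =>
    (∀ i : I, ∀ q ≤ p, q ≤ c i → ∃ r ≤ q, ∃ j : J, r ≤ d j ∧ FEq (f i) (g j) r) ∧
    (∀ j : J, ∀ q ≤ p, q ≤ d j → ∃ r ≤ q, ∃ i : I, r ≤ c i ∧ FEq (f i) (g j) r)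

theorem FEq_iff (x y : Nm P) (p : P) : FEq x y p ↔
    (∀ i, ∀ q ≤ p, q ≤ x.cd i → ∃ r ≤ q, ∃ j, r ≤ y.cd j ∧ FEq (x.fn i) (y.fn j) r) ∧
    (∀ j, ∀ q ≤ p, q ≤ y.cd j → ∃ r ≤ q, ∃ i, r ≤ x.cd i ∧ FEq (x.fn i) (y.fn j) r) := by
  cases x; cases y; rw [FEq]; rfl

/-- `p ⊩ x ∈ y`. -/
def FMem (x y : Nm P) (p : P) : Prop :=
  ∀ q ≤ p, ∃ r ≤ q, ∃ j, r ≤ y.cd j ∧ FEq x (y.fn j) r

theorem FEq.mono {x y : Nm P} {p q : P} (h : FEq x y p) (hq : q ≤ p) : FEq x y q := by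
  rw [FEq_iff] at h ⊢
  exact ⟨fun i r hr => h.1 i r (hr.trans hq), fun j r hr => h.2 j r (hr.trans hq)⟩

theorem FMem.mono {x y : Nm P} {p q : P} (h : FMem x y p) (hq : q ≤ p) : FMem x y q :=
  fun r hr => h r (hr.trans hq)

theorem FEq.dense {x y : Nm P} {p : P} (h : ∀ q ≤ p, ∃ r ≤ q, FEq x y r) : FEq x y p := by
  rw [FEq_iff]
  constructor
  · intro i q hq hqi
    obtain ⟨r, hr, hxy⟩ := h q hq
    rw [FEq_iff] at hxy
    obtain ⟨s, hs, j, h1, h2⟩ := hxy.1 i r le_rfl (hr.trans hqi)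
    exact ⟨s, hs.trans hr, j, h1, h2⟩
  · intro i q hq hqi
    obtain ⟨r, hr, hxy⟩ := h q hq
    rw [FEq_iff] at hxy
    obtain ⟨s, hs, j, h1, h2⟩ := hxy.2 i r le_rfl (hr.trans hqi)
    exact ⟨s, hs.trans hr, j, h1, h2⟩

theorem FMem.dense {x y : Nm P} {p : P} (h : ∀ q ≤ p, ∃ r ≤ q, FMem x y r) : FMem x y p := by
  intro q hq
  obtain ⟨r, hr, h1⟩ := h q hq
  obtain ⟨s, hs, j, h2, h3⟩ := h1 r le_rfl
  exact ⟨s, hs.trans hr, j, h2, h3⟩

theorem FEq.refl (x : Nm P) : ∀ p, FEq x x p := by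
  induction x using Nm.ind with
  | h x ih =>
    intro p
    rw [FEq_iff]
    exact ⟨fun i q _ hqi => ⟨q, le_rfl, i, hqi, ih i q⟩,
      fun i q _ hqi => ⟨q, le_rfl, i, hqi, ih i q⟩⟩

theorem FEq.symm {x : Nm P} : ∀ {y : Nm P} {p : P}, FEq x y p → FEq y x p := by
  induction x using Nm.ind with
  | h x ih =>
    intro y p h
    rw [FEq_iff] at h ⊢
    constructor
    · intro j q hq hqj
      obtain ⟨r, hr, i, h1, h2⟩ := h.2 j q hq hqj
      exact ⟨r, hr, i, h1, ih i h2⟩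
    · intro i q hq hqi
      obtain ⟨r, hr, j, h1, h2⟩ := h.1 i q hq hqi
      exact ⟨r, hr, j, h1, ih i h2⟩

theorem FEq.trans {x : Nm P} : ∀ {y z : Nm P} {p : P}, FEq x y p → FEq y z p → FEq x z p := by
  induction x using Nm.ind with
  | h x ih =>
    intro y z p h1 h2
    rw [FEq_iff] at h1 h2 ⊢
    constructor
    · intro i q hq hqi
      obtain ⟨r, hr, j, a1, a2⟩ := h1.1 i q hq hqi
      obtain ⟨s, hs, k, b1, b2⟩ := h2.1 j r (hr.trans hq) a1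
      exact ⟨s, hs.trans hr, k, b1, ih i (a2.mono hs) b2⟩
    · intro k q hq hqk
      obtain ⟨r, hr, j, a1, a2⟩ := h2.2 k q hq hqk
      obtain ⟨s, hs, i, b1, b2⟩ := h1.2 j r (hr.trans hq) a1
      exact ⟨s, hs.trans hr, i, b1, ih i b2 (a2.mono hs)⟩

theorem FEq.comm {x y : Nm P} {p : P} : FEq x y p ↔ FEq y x p := ⟨FEq.symm, FEq.symm⟩

theorem FMem.of_fn {y : Nm P} {p : P} (j : y.Ix) (h : p ≤ y.cd j) : FMem (y.fn j) y p :=
  fun q hq => ⟨q, le_rfl, j, hq.trans h, FEq.refl _ _⟩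

theorem FMem.congr_left {x x' y : Nm P} {p : P} (h : FMem x y p) (hx : FEq x x' p) :
    FMem x' y p := by
  intro q hq
  obtain ⟨r, hr, j, h1, h2⟩ := h q hq
  exact ⟨r, hr, j, h1, (hx.mono (hr.trans hq)).symm.trans h2⟩

theorem FMem.congr_right {x y y' : Nm P} {p : P} (h : FMem x y p) (hy : FEq y y' p) :
    FMem x y' p := by
  intro q hq
  obtain ⟨r, hr, j, h1, h2⟩ := h q hq
  rw [FEq_iff] at hy
  obtain ⟨s, hs, k, h3, h4⟩ := hy.1 j r (hr.trans hq) h1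
  exact ⟨s, hs.trans hr, k, h3, (h2.mono hs).trans h4⟩

theorem FEq_ext {x y : Nm P} {p : P} (h1 : ∀ i, ∀ q ≤ p, q ≤ x.cd i → FMem (x.fn i) y q)
    (h2 : ∀ j, ∀ q ≤ p, q ≤ y.cd j → FMem (y.fn j) x q) : FEq x y p := by
  rw [FEq_iff]
  constructor
  · intro i q hq hqi
    exact h1 i q hq hqi q le_rfl
  · intro j q hq hqj
    obtain ⟨r, hr, i, h3, h4⟩ := h2 j q hq hqj q le_rfl
    exact ⟨r, hr, i, h3, h4.symm⟩

end Pool.Agent.Helper96.Fc
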