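import Pool.Agent.Helper96.Fc.Ext

/-!
# Chain condition of the low part, nice names, separating many columns
-/

open Cardinal Ordinal Set

namespace Pool.Agent.Helper96.Fc

theorem lo_lo {J : Set Lv} {p : Set (Cell × Bool)} : lo J (lo J p) = lo J p := by
  ext t; simp only [lo, mem_ofPred_eq]; tauto

theorem Cpt.mono {p q p' q' : Set (Cell × Bool)} (h : Cpt p q) (hp : p' ⊆ p) (hq : q' ⊆ q) :
    Cpt p' q' := fun c b b' h1 h2 => h c b b' (hp h1) (hq h2)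

/-- the low part satisfies the chain condition -/
theorem cc (c : Cut) (r : c.θ.ord.ToType → Pos) {C : Type} (hC : #C < c.θ)
    (f : c.θ.ord.ToType → C) :
    ∃ ζ η, ζ < η ∧ f ζ = f η ∧ Cpt (lo c.J (r ζ).1) (lo c.J (r η).1) := by
  have hne : Nonempty c.θ.ord.ToType := by
    rw [nonempty_toType_iff]
    exact (c.cls.rθ.ord_pos).ne'
  obtain ⟨R, v, e, -, he, hf, hR⟩ := c.cls.thin (fun ξ => lo c.J (r ξ).1)
    (fun ξ => c.low _ (r ξ).2) f hC (fun ξ => {t : Cell × Bool | (t.1, !t.2) ∈ lo c.J (r ξ).1})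
    (fun ξ => (mk_flip.trans_lt (c.low _ (r ξ).2)).trans c.cls.lt)
  obtain ⟨a⟩ := hne
  obtain ⟨b, hb⟩ := exists_gt' c.cls.rθ a
  refine ⟨e a, e b, he hb, (hf a).1.trans (hf b).1.symm, ?_⟩
  intro cc x y hx hy
  by_contra hxy
  have hba : x = !y := by
    revert hxy
    cases x <;> cases y <;> simp
  rw [hba] at hx
  have h3 := (hf a).2 (hR a b hb ⟨hy, hx⟩)
  have := (r (e a)).2.func _ _ _ h3.1 hx.1
  cases y <;> simp at this

theorem antichain_small (c : Cut) (T : Set Pos)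
    (hT : ∀ s ∈ T, ∀ t ∈ T, s ≠ t → ¬ Cpt (lo c.J s.1) (lo c.J t.1)) : #T < c.θ := by
  by_contra hcon
  rw [not_lt, ← mk_ord_toType c.θ] at hcon
  obtain ⟨e⟩ := hcon
  obtain ⟨ζ, η, hζη, -, h⟩ := cc c (fun ξ => (e ξ).1) (C := Unit)
    (by rw [mk_unit]; exact one_lt_aleph0.trans_le c.cls.rθ.aleph0_le) (fun _ => ())
  refine hT _ (e ζ).2 _ (e η).2 ?_ h
  intro h1
  exact hζη.ne (e.injective (Subtype.ext h1))

/-- gluing a low part and a high part -/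
def glue (J : Set Lv) (l h : Pos) : Pos :=
  ⟨lo J l.1 ∪ hi J h.1, (l.2.mono (fun _ ht => ht.1)).union (h.2.mono (fun _ ht => ht.1))
    (fun _ _ _ h1 h2 => (h2.2 h1.2).elim)⟩

theorem lo_glue {J : Set Lv} {l h : Pos} : lo J (glue J l h).1 = lo J l.1 := by
  ext t
  constructor
  · rintro ⟨h1 | h1, h2⟩
    · exact h1
    · exact (h1.2 h2).elim
  · intro h1
    exact ⟨Or.inl h1, h1.2⟩

theorem hi_glue {J : Set Lv} {l h : Pos} : hi J (glue J l h).1 = hi J h.1 := by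
  ext t
  constructor
  · rintro ⟨h1 | h1, h2⟩
    · exact (h2 h1.2).elim
    · exact h1
  · intro h1
    exact ⟨Or.inr h1, h1.2⟩

theorem le_of_parts {J : Set Lv} {p q : Pos} (h1 : lo J q.1 ⊆ lo J p.1)
    (h2 : hi J q.1 ⊆ hi J p.1) : p ≤ q := by
  intro t ht
  by_cases h : t.1.1 ∈ J
  · exact (h1 ⟨ht, h⟩).1
  · exact (h2 ⟨ht, h⟩).1

theorem lo_mono {J : Set Lv} {p q : Pos} (h : p ≤ q) : lo J q.1 ⊆ lo J p.1 :=
  fun _ ht => ⟨h ht.1, ht.2⟩

theorem hi_mono {J : Set Lv} {p q : Pos} (h : p ≤ q) : hi J q.1 ⊆ hi J p.1 :=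
  fun _ ht => ⟨h ht.1, ht.2⟩

theorem exists_stable (c : Cut) {Z : Type} (hZ : #Z < c.θ) (A : Z → Pos → Prop)
    (hA : ∀ z r r', A z r → r' ≤ r → A z r') (p : Pos) :
    ∃ q ≤ p, lo c.J q.1 = lo c.J p.1 ∧ ∀ z, ∀ r ≤ q, A z r →
      ∃ s ≤ q, hi c.J s.1 = hi c.J q.1 ∧ A z s ∧ Cpt (lo c.J r.1) (lo c.J s.1) := by
  by_contra hcon
  push Not at hcon
  obtain ⟨b, r, d, hD⟩ := exists_desc c p
    (fun _ b r (z : Z) => A z r ∧ ∀ s ≤ b, hi c.J s.1 = hi c.J b.1 → A z s →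
      ¬ Cpt (lo c.J r.1) (lo c.J s.1))
    (by
      intro η b hb hlo
      obtain ⟨z, r, hr, h1, h2⟩ := hcon b hb hlo
      exact ⟨r, hr, z, h1, h2⟩)
  obtain ⟨ζ, η, hζη, hd, hcpt⟩ := cc c r hZ d
  have h1 := (hD.psi ζ).1
  have h2 := (hD.psi η).2
  have h3 : hi c.J (r ζ).1 ⊆ hi c.J (b η).1 := fun t ht => ⟨hD.rhi ζ η hζη ht, ht.2⟩
  refine h2 (glue c.J (r ζ) (b η)) ?_ hi_glue ?_ ?_
  · refine le_of_parts (J := c.J) ?_ ?_
    · rw [lo_glue, hD.blo]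
      exact lo_mono (hD.rp ζ)
    · rw [hi_glue]
  · rw [← hd]
    refine hA _ _ _ h1 (le_of_parts (J := c.J) ?_ ?_)
    · rw [lo_glue]
    · rw [hi_glue]; exact h3
  · rw [lo_glue]
    exact hcpt.symm

/-- **Nice names.** -/
theorem nice (c : Cut) {Z : Type} (hZ : #Z < c.θ) (A : Z → Pos → Prop)
    (hA : ∀ z r r', A z r → r' ≤ r → A z r') (p : Pos) :
    ∃ q ≤ p, lo c.J q.1 = lo c.J p.1 ∧ ∃ T : Set (Z × Pos), #T < c.θ ∧
      (∀ t ∈ T, (∀ e ∈ t.2.1, e.1.1 ∈ c.J) ∧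
        ∃ s ≤ q, A t.1 s ∧ s.1 = t.2.1 ∪ q.1) ∧
      ∀ z, ∀ r ≤ q, A z r → ∃ l, (z, l) ∈ T ∧ Cpt l.1 r.1 := by
  classical
  obtain ⟨q, hq, hlo, hst⟩ := exists_stable c hZ A hA p
  -- maximal antichains
  have hmax : ∀ z, ∃ T : Set Pos, (∀ s ∈ T, s ≤ q ∧ hi c.J s.1 = hi c.J q.1 ∧ A z s) ∧
      (∀ s ∈ T, ∀ t ∈ T, s ≠ t → ¬ Cpt (lo c.J s.1) (lo c.J t.1)) ∧
      ∀ s ≤ q, hi c.J s.1 = hi c.J q.1 → A z s → ∃ t ∈ T, Cpt (lo c.J s.1) (lo c.J t.1) := by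
    intro z
    obtain ⟨T, hT⟩ := zorn_subset {T : Set Pos |
      (∀ s ∈ T, s ≤ q ∧ hi c.J s.1 = hi c.J q.1 ∧ A z s) ∧
      (∀ s ∈ T, ∀ t ∈ T, s ≠ t → ¬ Cpt (lo c.J s.1) (lo c.J t.1))} (by
        intro C hC hchain
        refine ⟨⋃₀ C, ⟨?_, ?_⟩, fun s hs => subset_sUnion_of_mem hs⟩
        · rintro s ⟨T, hT, hs⟩
          exact (hC hT).1 s hs
        · rintro s ⟨T, hT, hs⟩ t ⟨T', hT', ht⟩ hst
          rcases hchain.total hT hT' with h | h
          · exact (hC hT').2 s (h hs) t ht hst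
          · exact (hC hT).2 s hs t (h ht) hst)
    refine ⟨T, hT.prop.1, hT.prop.2, ?_⟩
    intro s hs1 hs2 hs3
    by_contra hcon
    push Not at hcon
    have h1 : insert s T ⊆ T := by
      refine hT.le_of_ge ⟨?_, ?_⟩ (subset_insert s T)
      · rintro t (rfl | ht)
        · exact ⟨hs1, hs2, hs3⟩
        · exact hT.prop.1 t ht
      · rintro t (rfl | ht) t' (rfl | ht') htt'
        · exact (htt' rfl).elim
        · exact hcon t' ht'
        · exact fun h => hcon t ht h.symm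
        · exact hT.prop.2 t ht t' ht' htt'
    exact hcon s (h1 (mem_insert s T)) (fun c b b' hb hb' => s.2.func c b b' hb.1 hb'.1)
  choose T hT1 hT2 hT3 using hmax
  let lw : Pos → Pos := fun s => ⟨lo c.J s.1, s.2.mono (fun _ ht => ht.1)⟩
  refine ⟨q, hq, hlo, ⋃ z, (fun s => (z, lw s)) '' T z, ?_, ?_, ?_⟩
  · rw [card_iUnion_lt_iff_forall_of_isRegular c.cls.rθ hZ]
    exact fun z => mk_image_le.trans_lt (antichain_small c _ (hT2 z))
  · intro t ht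
    obtain ⟨z, s, hs, rfl⟩ := mem_iUnion.1 ht
    refine ⟨fun e he => he.2, s, (hT1 z s hs).1, (hT1 z s hs).2.2, ?_⟩
    ext e
    constructor
    · intro he
      by_cases h : e.1.1 ∈ c.J
      · exact Or.inl ⟨he, h⟩
      · right
        have h1 : e ∈ hi c.J s.1 := ⟨he, h⟩
        rw [(hT1 z s hs).2.1] at h1
        exact h1.1
    · rintro (he | he)
      · exact he.1
      · exact (hT1 z s hs).1 he
  · intro z r hr hAr
    obtain ⟨s, hs1, hs2, hs3, hs4⟩ := hst z r hr hAr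
    have hc1 : IsCond (lo c.J r.1 ∪ s.1) := by
      refine (r.2.mono (fun _ ht => ht.1)).union s.2 ?_
      intro cc b b' h1 h2
      exact hs4 cc b b' h1 ⟨h2, h1.2⟩
    let s' : Pos := ⟨lo c.J r.1 ∪ s.1, hc1⟩
    have hs's : s' ≤ s := subset_union_right
    have hs'hi : hi c.J s'.1 = hi c.J q.1 := by
      rw [← hs2]
      ext t
      constructor
      · rintro ⟨h1 | h1, h2⟩
        · exact (h2 h1.2).elim
        · exact ⟨h1, h2⟩
      · rintro ⟨h1, h2⟩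
        exact ⟨Or.inr h1, h2⟩
    obtain ⟨t, ht, htc⟩ := hT3 z s' (hs's.trans hs1) hs'hi (hA _ _ _ hs3 hs's)
    refine ⟨lw t, mem_iUnion.2 ⟨z, t, ht, rfl⟩, ?_⟩
    intro cc b b' h1 h2
    exact (htc cc b' b ⟨Or.inl ⟨h2, h1.2⟩, h1.2⟩ h1).symm

/-- **Separating many columns.** -/
theorem ext_all (q : Pos) (X : Lv → Set Pt) (hX : ∀ i, #(X i) < rho i)
    (hσ : ∀ i, ∀ x ∈ X i, od x < (sig i).ord) :
    ∃ q' ≤ q, (∀ i, ∀ x ∈ X i, ∀ y ∈ X i, x ≠ y → ∃ δ, Fd q' i x y δ) ∧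
      (∀ t ∈ q'.1, t ∈ q.1 ∨ t.1.2.1 ∈ X t.1.1) := by
  classical
  have hβ : ∀ i, ∃ β, od β < (rho i).ord ∧ ∀ ε ∈ eps q i, od ε < (rho i).ord → ε < β :=
    fun i => exists_pt_gt i (eps q i) (mk_eps q i)
  choose β hβ1 hβ2 using hβ
  -- an injection into a short interval above `β i`
  have hj : ∀ i, ∃ (j : X i → Pt) (γ : Pt), Function.Injective j ∧ od γ < (rho i).ord ∧
      ∀ x, β i ≤ j x ∧ j x < γ := by
    intro i
    have h1 : #(X i) ≤ #((#(X i)).ord.ToType) := (mk_ord_toType _).symm.le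
    obtain ⟨e⟩ := h1
    have h2 : (#(X i)).ord < (rho i).ord := ord_lt_ord.2 (hX i)
    have h3 : od (β i) + (#(X i)).ord < (rho i).ord :=
      isPrincipal_add_ord (rho_reg i).aleph0_le (hβ1 i) h2
    have h4 : (rho i).ord < muω.ord := ord_lt_ord.2 ((rho_lt_sig i).trans_le (sig_le i))
    have h5 : ∀ y : (#(X i)).ord.ToType, od (β i) + (ToType.toOrd y).1 < muω.ord := by
      intro y
      have : (ToType.toOrd y).1 < (#(X i)).ord := (ToType.toOrd y).2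
      exact ((add_lt_add_right this _).trans h3).trans h4
    obtain ⟨γ, hγ⟩ := exists_od (h3.trans h4)
    refine ⟨fun x => ToType.mk ⟨od (β i) + (ToType.toOrd (e x)).1, h5 _⟩, γ, ?_, hγ ▸ h3, ?_⟩
    · intro x y hxy
      have h6 := congrArg Subtype.val (ToType.mk.injective hxy)
      simp only at h6
      have h7 := add_left_cancel h6
      exact e.injective (ToType.mk.symm.injective (Subtype.ext h7))
    · intro x
      constructor
      · rw [← not_lt, ← od_lt_od, od_mk, not_lt]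
        exact le_self_add
      · rw [← od_lt_od, od_mk, hγ]
        have : (ToType.toOrd (e x)).1 < (#(X i)).ord := (ToType.toOrd (e x)).2
        exact add_lt_add_right this _
  choose j γ hj1 hγ hj2 using hj
  let w : Lv → Pt → Pt → Bool := fun i x ε =>
    if ε < β i then decide (Bit q i x ε true) else decide (∃ h : x ∈ X i, j i ⟨x, h⟩ = ε)
  let E : Set (Cell × Bool) := {t | t.1.2.1 ∈ X t.1.1 ∧ t.1.2.2 < γ t.1.1 ∧
    t.2 = w t.1.1 t.1.2.1 t.1.2.2}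
  have hE : IsCond E := by
    constructor
    · rintro c b b' ⟨-, -, h1⟩ ⟨-, -, h2⟩
      exact h1.trans h2.symm
    · rintro ⟨i, x, ε⟩ b ⟨h1, h2, -⟩
      simp only at h1 h2 ⊢
      exact ⟨hσ i x h1, (od_lt_od.2 h2).trans (hγ i)⟩
    · intro i
      have h1 : #{t : Cell × Bool | t ∈ E ∧ t.1.1 = i} ≤ #(X i ×ˢ Iic (γ i) : Set (Pt × Pt)) := by
        have h0 : ∀ t : {t : Cell × Bool | t ∈ E ∧ t.1.1 = i},
            (t.1.1.2.1, t.1.1.2.2) ∈ (X i ×ˢ Iic (γ i) : Set (Pt × Pt)) := by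
          rintro ⟨t, ⟨h1, h2, -⟩, h3⟩
          subst h3
          exact ⟨h1, h2.le⟩
        refine mk_le_of_injective (f := fun t => ⟨_, h0 t⟩) ?_
        rintro ⟨⟨⟨i1, x1, ε1⟩, b1⟩, ⟨⟨h1, h2, h3⟩, h4⟩⟩ ⟨⟨⟨i2, x2, ε2⟩, b2⟩, ⟨⟨h5, h6, h7⟩, h8⟩⟩ h
        simp only [Subtype.mk.injEq, Prod.mk.injEq] at h h1 h2 h3 h4 h5 h6 h7 h8 ⊢
        obtain ⟨rfl, rfl⟩ := h
        subst h4 h8
        exact ⟨⟨rfl, rfl, rfl⟩, h3.trans h7.symm⟩
      refine h1.trans_lt ?_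
      rw [mk_setProd]
      exact mul_lt_of_lt (rho_reg i).aleph0_le (hX i) (mk_Iic_pt (hγ i))
  have hcpt : Cpt q.1 E := by
    rintro ⟨i, x, ε⟩ b b' h1 ⟨h2, h3, h4⟩
    simp only at h2 h3 h4
    have h5 : Bit q i x ε b := h1
    have h6 : ε < β i := hβ2 i ε ⟨x, b, h5⟩ h5.lt
    have h7 : w i x ε = decide (Bit q i x ε true) := if_pos h6
    rw [h4, h7]
    cases b
    · symm
      rw [decide_eq_false_iff_not]
      intro h8
      exact absurd (h5.unique h8) (by simp)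
    · symm
      rw [decide_eq_true_iff]
      exact h5
  refine ⟨⟨q.1 ∪ E, q.2.union hE hcpt⟩, subset_union_left, ?_, ?_⟩
  · intro i x hx y hy hxy
    have hin : ∀ x ∈ X i, ∀ ε < γ i, Bit ⟨q.1 ∪ E, q.2.union hE hcpt⟩ i x ε (w i x ε) :=
      fun x hx ε hε => Or.inr ⟨hx, hε, rfl⟩
    have hne : ∃ ε, ε < γ i ∧ w i x ε ≠ w i y ε := by
      refine ⟨j i ⟨x, hx⟩, (hj2 i _).2, ?_⟩
      have h1 : ¬ j i ⟨x, hx⟩ < β i := not_lt.2 (hj2 i _).1
      have h2 : w i x (j i ⟨x, hx⟩) = true := by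
        simp only [w, if_neg h1]
        exact decide_eq_true ⟨hx, trivial⟩
      have h3 : w i y (j i ⟨x, hx⟩) = false := by
        simp only [w, if_neg h1]
        apply decide_eq_false
        rintro ⟨h4, h5⟩
        exact hxy (Subtype.mk.inj (hj1 i h5)).symm
      rw [h2, h3]
      simp
    obtain ⟨δ, ⟨hδ1, hδ2⟩, hmin⟩ := (wellFounded_lt (α := Pt)).has_min
      {ε | ε < γ i ∧ w i x ε ≠ w i y ε} hne
    refine ⟨δ, w i x δ, ?_, hin x hx δ hδ1, ?_⟩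
    · intro ε hε
      have h1 : w i x ε = w i y ε := by
        by_contra h2
        exact hmin ε ⟨hε.trans hδ1, h2⟩ hε
      exact ⟨w i x ε, hin x hx ε (hε.trans hδ1), h1 ▸ hin y hy ε (hε.trans hδ1)⟩
    · have h1 := hin y hy δ hδ1
      have h2 : w i y δ = !(w i x δ) := by
        revert hδ2
        cases w i x δ <;> cases w i y δ <;> simp
      rwa [h2] at h1
  · rintro t (ht | ht)
    · exact Or.inl ht
    · exact Or.inr ht.1

end Pool.Agent.Helper96.Fc
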