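import Pool.Agent.Helper96.Fc.Truth

/-!
# Basic names
-/

open Ordinal

set_option linter.unusedSectionVars false

namespace Pool.Agent.Helper96.Fc

variable {P : Type} [PartialOrder P] [OrderTop P]

/-- the canonical name of an ordinal -/
noncomputable def ordN (P : Type) [PartialOrder P] [OrderTop P] (o : Ordinal.{0}) : Nm P :=
  Nm.mk o.ToType (fun i => ordN P (ToType.toOrd i).1) (fun _ => ⊤)
termination_by o
decreasing_by exact (ToType.toOrd i).2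

theorem ordN_mem {a b : Ordinal.{0}} (h : a < b) : ∃ i : (ordN P b).Ix,
    (ordN P b).fn i = ordN P a ∧ (ordN P b).cd i = ⊤ := by
  rw [ordN]
  refine ⟨ToType.mk ⟨a, h⟩, ?_, rfl⟩
  simp

theorem ordN_fn {b : Ordinal.{0}} (i : (ordN P b).Ix) : ∃ a < b, (ordN P b).fn i = ordN P a ∧
    (ordN P b).cd i = ⊤ := by
  revert i
  rw [ordN]
  intro i
  exact ⟨(ToType.toOrd i).1, (ToType.toOrd i).2, rfl, rfl⟩

theorem ordN_inj : ∀ {a b : Ordinal.{0}} {p : P}, FEq (ordN P a) (ordN P b) p → a = b := by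
  intro a
  induction a using WellFoundedLT.induction with
  | _ a ih =>
    intro b p h
    rw [FEq_iff] at h
    rcases lt_trichotomy a b with hab | hab | hab
    · exfalso
      obtain ⟨j, hj1, hj2⟩ := ordN_mem (P := P) hab
      obtain ⟨r, hr, i, h1, h2⟩ := h.2 j p le_rfl (by rw [hj2]; exact le_top)
      obtain ⟨c, hc, hi1, hi2⟩ := ordN_fn i
      rw [hj1, hi1] at h2
      exact (ih c hc h2 ▸ hc).ne rfl
    · exact hab
    · exfalso
      obtain ⟨i, hi1, hi2⟩ := ordN_mem (P := P) hab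
      obtain ⟨r, hr, j, h1, h2⟩ := h.1 i p le_rfl (by rw [hi2]; exact le_top)
      obtain ⟨c, hc, hj1, hj2⟩ := ordN_fn j
      rw [hi1, hj1] at h2
      exact (ih b hab h2 ▸ hc).ne rfl

theorem ordN_inj' {a b : Ordinal.{0}} (h : ordN P a = ordN P b) : a = b :=
  ordN_inj (P := P) (p := ⊤) (h ▸ FEq.refl _ _)

theorem ordN_mem_iff {a b : Ordinal.{0}} {p : P} : FMem (ordN P a) (ordN P b) p ↔ a < b := by
  constructor
  · intro h
    obtain ⟨r, hr, j, h1, h2⟩ := h p le_rfl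
    obtain ⟨c, hc, hj1, hj2⟩ := ordN_fn j
    rw [hj1] at h2
    rw [ordN_inj h2]
    exact hc
  · intro h
    obtain ⟨i, h1, h2⟩ := ordN_mem (P := P) h
    rw [← h1]
    exact FMem.of_fn i (by rw [h2]; exact le_top)

/-- name of an unordered pair -/
def upN (x y : Nm P) : Nm P := Nm.mk Bool (fun b => cond b x y) (fun _ => ⊤)

/-- name of a Kuratowski pair -/
def pairN (x y : Nm P) : Nm P := upN (upN x x) (upN x y)

theorem upN_inj {x y x' y' : Nm P} (h : upN x y = upN x' y') : x = x' ∧ y = y' := by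
  unfold upN at h
  have h1 := (Nm.mk.inj h).2.1
  have h2 := eq_of_heq h1
  exact ⟨congrFun h2 true, congrFun h2 false⟩

theorem pairN_inj {x y x' y' : Nm P} (h : pairN x y = pairN x' y') : x = x' ∧ y = y' :=
  upN_inj (upN_inj h).2

theorem FEq_upN {x y x' y' : Nm P} {p : P} (hx : FEq x x' p) (hy : FEq y y' p) :
    FEq (upN x y) (upN x' y') p := by
  rw [FEq_iff]
  constructor
  · rintro (_ | _) q hq _
    · exact ⟨q, le_rfl, false, le_top, hy.mono hq⟩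
    · exact ⟨q, le_rfl, true, le_top, hx.mono hq⟩
  · rintro (_ | _) q hq _
    · exact ⟨q, le_rfl, false, le_top, hy.mono hq⟩
    · exact ⟨q, le_rfl, true, le_top, hx.mono hq⟩

theorem FEq_pairN {x y x' y' : Nm P} {p : P} (hx : FEq x x' p) (hy : FEq y y' p) :
    FEq (pairN x y) (pairN x' y') p := FEq_upN (FEq_upN hx hx) (FEq_upN hx hy)

/-- name of a union (up to unneeded members) -/
def unN (x : Nm P) : Nm P :=
  Nm.mk (Σ i : x.Ix, {t : (x.fn i).Ix × P // t.2 ≤ x.cd i ∧ t.2 ≤ (x.fn i).cd t.1})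
    (fun t => (x.fn t.1).fn t.2.1.1) (fun t => t.2.1.2)

/-- name of a subset of `x` -/
def sN (x : Nm P) (s : {s : Set (x.Ix × P) // ∀ t ∈ s, t.2 ≤ x.cd t.1}) : Nm P :=
  Nm.mk s.1 (fun t => x.fn t.1.1) (fun t => t.1.2)

/-- name of the powerset -/
def powN (x : Nm P) : Nm P :=
  Nm.mk {s : Set (x.Ix × P) // ∀ t ∈ s, t.2 ≤ x.cd t.1} (fun s => sN x s) (fun _ => ⊤)

/-- name of `x ∩ z` that belongs to `powN x` -/
def subN (x z : Nm P) : Nm P :=
  sN x ⟨{t | t.2 ≤ x.cd t.1 ∧ FMem (x.fn t.1) z t.2}, fun _ ht => ht.1⟩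

/-- separation -/
def sepN {m : ℕ} (φ : Fml (m + 1)) (x : Nm P) (v : Fin m → Nm P) : Nm P :=
  sN x ⟨{t | t.2 ≤ x.cd t.1 ∧ Fo φ (Fin.cons (x.fn t.1) v) t.2}, fun _ ht => ht.1⟩

open Classical in
/-- witnesses -/
noncomputable def wit {m : ℕ} (φ : Fml (m + 2)) (p : P) (x : Nm P) (v : Fin m → Nm P) : Nm P :=
  if h : ∃ y, Fo φ (Fin.cons y (Fin.cons x v)) p then h.choose else x

/-- collection -/
noncomputable def colN {m : ℕ} (φ : Fml (m + 2)) (x : Nm P) (v : Fin m → Nm P) : Nm P :=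
  Nm.mk (x.Ix × P) (fun t => wit φ t.2 (x.fn t.1) v) (fun _ => ⊤)

/-- the length of a well-order of the index set -/
noncomputable def len (x : Nm P) : Ordinal.{0} := type (WellOrderingRel : x.Ix → x.Ix → Prop)

open Classical in
/-- index of a member -/
noncomputable def cidx (x y : Nm P) : Ordinal.{0} :=
  if h : ∃ i : x.Ix, x.fn i = y then typein (WellOrderingRel : x.Ix → x.Ix → Prop) h.choose else 0

theorem cidx_lt {x : Nm P} (i : x.Ix) : cidx x (x.fn i) < len x := by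
  have h : ∃ j : x.Ix, x.fn j = x.fn i := ⟨i, rfl⟩
  rw [cidx, dif_pos h]
  exact typein_lt_type _ _

theorem cidx_inj {x : Nm P} {i j : x.Ix} (h : cidx x (x.fn i) = cidx x (x.fn j)) :
    x.fn i = x.fn j := by
  have hi : ∃ k : x.Ix, x.fn k = x.fn i := ⟨i, rfl⟩
  have hj : ∃ k : x.Ix, x.fn k = x.fn j := ⟨j, rfl⟩
  rw [cidx, dif_pos hi, cidx, dif_pos hj] at h
  have h2 := typein_injective _ h
  rw [← hi.choose_spec, ← hj.choose_spec, h2]

/-- an enumeration of `x` by ordinals -/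
noncomputable def numN (x : Nm P) : Nm P :=
  Nm.mk x.Ix (fun i => pairN (ordN P (cidx x (x.fn i))) (x.fn i)) (fun _ => ⊤)

/-- Closure conditions on the set of objects. -/
structure Clos (X : Set (Obj P)) : Prop where
  up : ∀ x y, (Sum.inl x : Obj P) ∈ X → (Sum.inl y : Obj P) ∈ X → (Sum.inl (upN x y) : Obj P) ∈ X
  un : ∀ x, (Sum.inl x : Obj P) ∈ X → (Sum.inl (unN x) : Obj P) ∈ X
  pow : ∀ x, (Sum.inl x : Obj P) ∈ X → (Sum.inl (powN x) : Obj P) ∈ X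
  sub : ∀ x y, (Sum.inl x : Obj P) ∈ X → (Sum.inl y : Obj P) ∈ X →
    (Sum.inl (subN x y) : Obj P) ∈ X
  sep : ∀ (m : ℕ) (φ : Fml (m + 1)) (x : Nm P) (v : Fin m → Nm P), (Sum.inl x : Obj P) ∈ X →
    (∀ i, (Sum.inl (v i) : Obj P) ∈ X) → (Sum.inl (sepN φ x v) : Obj P) ∈ X
  col : ∀ (m : ℕ) (φ : Fml (m + 2)) (x : Nm P) (v : Fin m → Nm P), (Sum.inl x : Obj P) ∈ X →
    (∀ i, (Sum.inl (v i) : Obj P) ∈ X) → (Sum.inl (colN φ x v) : Obj P) ∈ X
  wit : ∀ (m : ℕ) (φ : Fml (m + 2)) (p : P) (x : Nm P) (v : Fin m → Nm P),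
    (Sum.inr p : Obj P) ∈ X → (Sum.inl x : Obj P) ∈ X → (∀ i, (Sum.inl (v i) : Obj P) ∈ X) →
      (Sum.inl (wit φ p x v) : Obj P) ∈ X
  num : ∀ x, (Sum.inl x : Obj P) ∈ X → (Sum.inl (numN x) : Obj P) ∈ X
  len : ∀ x, (Sum.inl x : Obj P) ∈ X → (Sum.inl (ordN P (len x)) : Obj P) ∈ X
  cidx : ∀ x y, (Sum.inl x : Obj P) ∈ X → (Sum.inl y : Obj P) ∈ X →
    (Sum.inl (ordN P (cidx x y)) : Obj P) ∈ X
  fst : ∀ x y, (Sum.inl (pairN x y) : Obj P) ∈ X → (Sum.inl x : Obj P) ∈ X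
  snd : ∀ x y, (Sum.inl (pairN x y) : Obj P) ∈ X → (Sum.inl y : Obj P) ∈ X
  zero : (Sum.inl (ordN P 0) : Obj P) ∈ X
  omega : (Sum.inl (ordN P ω) : Obj P) ∈ X
  succ : ∀ a, (Sum.inl (ordN P a) : Obj P) ∈ X → (Sum.inl (ordN P (a + 1)) : Obj P) ∈ X

section

variable {X : Set (Obj P)} {G : Set P}

theorem IsFilt.top (h : IsFilt X G) : (⊤ : P) ∈ G := by
  obtain ⟨p, hp⟩ := h.ne
  exact h.up p hp _ le_top

theorem IsFilt.below (h : IsFilt X G) {p : P} (hp : p ∈ G) :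
    ∃ r ∈ G, r ≤ p ∧ (Sum.inr r : Obj P) ∈ X := by
  obtain ⟨r, hr, h1, -, h2⟩ := h.dir p hp p hp
  exact ⟨r, hr, h1, h2⟩

theorem val_upN (h : IsFilt X G) {x y : Nm P} (hx : (Sum.inl x : Obj P) ∈ X)
    (hy : (Sum.inl y : Obj P) ∈ X) : val X G (upN x y) = {val X G x, val X G y} := by
  ext a
  rw [mem_val, ZFSet.mem_pair]
  constructor
  · rintro ⟨i, -, -, rfl⟩
    rcases i with _ | _
    · exact Or.inr rfl
    · exact Or.inl rfl
  · rintro (rfl | rfl)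
    · exact ⟨true, h.top, hx, rfl⟩
    · exact ⟨false, h.top, hy, rfl⟩

theorem val_pairN (h : IsFilt X G) (hc : Clos X) {x y : Nm P} (hx : (Sum.inl x : Obj P) ∈ X)
    (hy : (Sum.inl y : Obj P) ∈ X) :
    val X G (pairN x y) = ZFSet.pair (val X G x) (val X G y) := by
  rw [pairN, val_upN h (hc.up _ _ hx hx) (hc.up _ _ hx hy), val_upN h hx hx, val_upN h hx hy,
    ZFSet.pair_eq_singleton]
  rfl

theorem Clos.pair (hc : Clos X) {x y : Nm P} (hx : (Sum.inl x : Obj P) ∈ X)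
    (hy : (Sum.inl y : Obj P) ∈ X) : (Sum.inl (pairN x y) : Obj P) ∈ X :=
  hc.up _ _ (hc.up _ _ hx hx) (hc.up _ _ hx hy)

theorem val_ordN_mem (h : IsFilt X G) {a : Ordinal.{0}} {z : ZFSet.{0}} :
    z ∈ val X G (ordN P a) ↔ ∃ b < a, (Sum.inl (ordN P b) : Obj P) ∈ X ∧
      val X G (ordN P b) = z := by
  rw [mem_val]
  constructor
  · rintro ⟨i, -, h1, h2⟩
    obtain ⟨b, hb, h3, -⟩ := ordN_fn i
    rw [h3] at h1 h2
    exact ⟨b, hb, h1, h2⟩
  · rintro ⟨b, hb, h1, h2⟩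
    obtain ⟨i, h3, h4⟩ := ordN_mem (P := P) hb
    refine ⟨i, ?_, ?_, ?_⟩
    · rw [h4]; exact h.top
    · rw [h3]; exact h1
    · rw [h3]; exact h2

theorem val_ordN_inj (h : Basic X G) {a b : Ordinal.{0}} (ha : (Sum.inl (ordN P a) : Obj P) ∈ X)
    (hb : (Sum.inl (ordN P b) : Obj P) ∈ X) (he : val X G (ordN P a) = val X G (ordN P b)) :
    a = b := by
  obtain ⟨p, -, hp⟩ := (h.eq_iff ha hb).1 he
  exact ordN_inj hp

theorem val_ordN_mem_iff (h : Basic X G) {a b : Ordinal.{0}}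
    (ha : (Sum.inl (ordN P a) : Obj P) ∈ X) (hb : (Sum.inl (ordN P b) : Obj P) ∈ X) :
    val X G (ordN P a) ∈ val X G (ordN P b) ↔ a < b := by
  rw [h.mem_iff ha hb]
  constructor
  · rintro ⟨p, -, hp⟩
    exact ordN_mem_iff.1 hp
  · intro hab
    exact ⟨⊤, h.filt.top, ordN_mem_iff.2 hab⟩

theorem val_ordN_trans (h : IsFilt X G) {a : Ordinal.{0}} : (val X G (ordN P a)).IsTransitive := by
  intro y hy z hz
  obtain ⟨b, hb, h1, rfl⟩ := (val_ordN_mem h).1 hy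
  obtain ⟨c, hc, h2, rfl⟩ := (val_ordN_mem h).1 hz
  exact (val_ordN_mem h).2 ⟨c, hc.trans hb, h2, rfl⟩

theorem val_ordN_isOrdinal (h : IsFilt X G) {a : Ordinal.{0}} :
    (val X G (ordN P a)).IsOrdinal := by
  rw [ZFSet.isOrdinal_iff_forall_mem_isTransitive]
  refine ⟨val_ordN_trans h, ?_⟩
  intro y hy
  obtain ⟨b, hb, h1, rfl⟩ := (val_ordN_mem h).1 hy
  exact val_ordN_trans h

theorem val_ordN_zero (h : IsFilt X G) : val X G (ordN P 0) = ∅ := by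
  rw [ZFSet.eq_empty]
  intro z hz
  obtain ⟨b, hb, -⟩ := (val_ordN_mem h).1 hz
  exact absurd hb (not_lt.2 zero_le)

theorem val_ordN_succ (h : IsFilt X G) {a : Ordinal.{0}}
    (ha : (Sum.inl (ordN P a) : Obj P) ∈ X) :
    val X G (ordN P (a + 1)) = insert (val X G (ordN P a)) (val X G (ordN P a)) := by
  ext z
  rw [val_ordN_mem h, ZFSet.mem_insert_iff, val_ordN_mem h]
  constructor
  · rintro ⟨b, hb, h1, rfl⟩
    rcases (Order.lt_add_one_iff.1 hb).lt_or_eq with h2 | rfl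
    · exact Or.inr ⟨b, h2, h1, rfl⟩
    · exact Or.inl rfl
  · rintro (rfl | ⟨b, hb, h1, rfl⟩)
    · exact ⟨a, Order.lt_add_one_iff.2 le_rfl, ha, rfl⟩
    · exact ⟨b, hb.trans (Order.lt_add_one_iff.2 le_rfl), h1, rfl⟩

end

end Pool.Agent.Helper96.Fc
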