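import Pool.Agent.Helper96.Fc.Blk
import Pool.Agent.Helper96.Fc.Codes
import Pool.Agent.Helper27.Fc96.Basic

/-!
# Two consecutive blocks contain a quadruple of colour 1
-/

open Cardinal Ordinal Set

namespace Pool.Agent.Helper96.Fc

theorem Fd.bit {q : Pos} {i : Lv} {x y t : Pt} (h : Fd q i x y t) :
    ∀ u ≤ t, ∃ β, Bit q i x u β := by
  obtain ⟨b, h1, h2, h3⟩ := h
  intro u hu
  rcases hu.lt_or_eq with hu | rfl
  · obtain ⟨β, h4, -⟩ := h1 u hu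
    exact ⟨β, h4⟩
  · exact ⟨b, h2⟩

/-- replacing a column by another one that agrees beyond the split -/
theorem Fd.trans_lt {q : Pos} {i : Lv} {z x x₁ t d : Pt} (h : Fd q i z x t) (h' : Fd q i x x₁ d)
    (ht : t < d) : Fd q i z x₁ t := by
  obtain ⟨b, h1, h2, h3⟩ := h
  obtain ⟨b', h4, -, -⟩ := h'
  refine ⟨b, h1.trans (fun ε hε => h4 ε (hε.trans ht)), h2, ?_⟩
  obtain ⟨β, h5, h6⟩ := h4 t ht
  rw [h3.unique h5]
  exact h6

/-- two columns that split later agree -/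
theorem Fd.clo {q : Pos} {i : Lv} {x x₁ t d : Pt} (h : Fd q i x x₁ d) (ht : t < d) :
    ∀ u ≤ t, ∃ β, Bit q i x u β ∧ Bit q i x₁ u β := by
  obtain ⟨b', h4, -, -⟩ := h
  exact fun u hu => h4 u (hu.trans_lt ht)

section

variable {Φ : Pos → Sq → Pt → Prop} {M : ℕ} {q₂ q₃ : Pos} {n N : ℕ} {s : ℕ → Pt} {D : Set Pt}
  {y : Pt → Sq} {r : Pt → Pos}

theorem Blk.ne (h : Blk Φ M q₂ q₃ n N s D y r) : D.Nonempty := by
  obtain ⟨e, he, -⟩ := h.bdd ∅ (empty_subset _) (by rw [mk_eq_zero]; exact (kap_reg M).pos)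
  exact ⟨e, he⟩

theorem Blk.gt (h : Blk Φ M q₂ q₃ n N s D y r) {a b : Pt} (ha : a ∈ D) (hb : b ∈ D) :
    ∃ e ∈ D, a < e ∧ b < e := by
  obtain ⟨e, he, h1⟩ := h.bdd {a, b} (by
    intro x hx
    rcases hx with rfl | hx
    · exact ha
    · rw [mem_singleton_iff] at hx
      rw [hx]; exact hb) (by
    exact (lt_aleph0_of_finite _).trans_le (aleph0_le_kap M))
  exact ⟨e, he, h1 a (Or.inl rfl), h1 b (Or.inr rfl)⟩

theorem Blk.good (h : Blk Φ M q₂ q₃ n N s D y r) {q : Pos} (hq : q ≤ q₃) :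
    ∃ e ∈ D, ∀ d ∈ D, e ≤ d → Cpt q.1 (r d).1 := by
  obtain ⟨e, he, h1⟩ := h.bdd {d : Pt | d ∈ D ∧ ¬ Cpt q.1 (r d).1} (fun d hd => hd.1)
    (h.small q hq)
  refine ⟨e, he, fun d hd hed => ?_⟩
  by_contra hc
  exact absurd (h1 d ⟨hd, hc⟩) (not_lt.2 hed)

theorem Blk.avoid (h : Blk Φ M q₂ q₃ n N s D y r) (z : Pt) :
    ∃ e ∈ D, ∀ d ∈ D, e ≤ d → (y d).v n ≠ z := by
  obtain ⟨e, he, h1⟩ := h.bdd {d : Pt | d ∈ D ∧ (y d).v n = z} (fun d hd => hd.1) (by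
    have hsub : ({d : Pt | d ∈ D ∧ (y d).v n = z} : Set Pt).Subsingleton := by
      rintro a ⟨ha, ha'⟩ b ⟨hb, hb'⟩
      rcases lt_trichotomy a b with hab | hab | hab
      · exact ((h.fd a ha b hb hab).ne (ha'.trans hb'.symm)).elim
      · exact hab
      · exact ((h.fd b hb a ha hab).ne (hb'.trans ha'.symm)).elim
    exact (lt_aleph0_iff_set_finite.2 hsub.finite).trans_le (aleph0_le_kap M))
  refine ⟨e, he, fun d hd hed hz => ?_⟩
  exact absurd (h1 d ⟨hd, hz⟩) (not_lt.2 hed)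

/-- a common extension -/
theorem Blk.ext2 (h : Blk Φ M q₂ q₃ n N s D y r) {q : Pos} {d₁ d₂ : Pt} (h1 : d₁ ∈ D)
    (h2 : d₂ ∈ D) (hc1 : Cpt q.1 (r d₁).1) (hc2 : Cpt q.1 (r d₂).1) :
    ∃ q' ≤ q, q' ≤ r d₁ ∧ q' ≤ r d₂ ∧
      ∀ t ∈ q'.1, t ∈ q.1 ∨ t ∈ (r d₁).1 ∨ t ∈ (r d₂).1 := by
  obtain ⟨q', hq', h3⟩ := Q2c.exists_union ![q, r d₁, r d₂] (by
    intro j k
    fin_cases j <;> fin_cases k
    · exact Q2c.Cpt.refl _
    · exact hc1
    · exact hc2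
    · exact hc1.symm
    · exact h.cpt _ h1 _ h1
    · exact h.cpt _ h1 _ h2
    · exact hc2.symm
    · exact h.cpt _ h2 _ h1
    · exact h.cpt _ h2 _ h2)
  refine ⟨q', hq' 0, hq' 1, hq' 2, ?_⟩
  intro t ht
  obtain ⟨j, hj⟩ := h3 t ht
  fin_cases j
  · exact Or.inl hj
  · exact Or.inr (Or.inl hj)
  · exact Or.inr (Or.inr hj)

end

/-- making two columns equal on a finite set -/
theorem ext_F (q : Pos) (i : Lv) (d₁ d₂ : Pt) (h1 : od d₁ < (sig i).ord)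
    (h2 : od d₂ < (sig i).ord) (F : Set Pt) (hF : #F < rho i)
    (hsame : ∀ s ∈ F, ∀ b, Bit q i d₁ s b ↔ Bit q i d₂ s b) :
    ∃ q' ≤ q, (∀ s ∈ F, od s < (rho i).ord → ∃ b, Bit q' i d₁ s b ∧ Bit q' i d₂ s b) ∧
      ∀ t ∈ q'.1, t ∈ q.1 ∨ t.1.1 = i := by
  classical
  let E : Set (Cell × Bool) := {t | t.1.1 = i ∧ (t.1.2.1 = d₁ ∨ t.1.2.1 = d₂) ∧ t.1.2.2 ∈ F ∧
    od t.1.2.2 < (rho i).ord ∧ t.2 = false ∧ ∀ b, (t.1, b) ∉ q.1}
  have hE : IsCond E := by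
    refine ⟨?_, ?_, ?_⟩
    · rintro c b b' ⟨-, -, -, -, h3, -⟩ ⟨-, -, -, -, h4, -⟩
      exact h3.trans h4.symm
    · rintro ⟨i', x, ε⟩ b ⟨h3, h4, -, h5, -⟩
      simp only at h3 h4 h5 ⊢
      subst h3
      refine ⟨?_, h5⟩
      rcases h4 with rfl | rfl
      · exact h1
      · exact h2
    · intro j
      by_cases hj : j = i
      · subst hj
        have h3 : #{t : Cell × Bool | t ∈ E ∧ t.1.1 = j} ≤ #(({d₁, d₂} : Set Pt) ×ˢ F) := by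
          refine mk_le_of_injective (f := fun t : {t : Cell × Bool | t ∈ E ∧ t.1.1 = j} =>
            (⟨(t.1.1.2.1, t.1.1.2.2), t.2.1.2.1, t.2.1.2.2.1⟩ :
              (({d₁, d₂} : Set Pt) ×ˢ F : Set (Pt × Pt)))) ?_
          rintro ⟨⟨⟨i1, x1, ε1⟩, b1⟩, ⟨⟨h3, h4, h5, h6, h7, h8⟩, h9⟩⟩
            ⟨⟨⟨i2, x2, ε2⟩, b2⟩, ⟨⟨h3', h4', h5', h6', h7', h8'⟩, h9'⟩⟩ h
          simp only [Subtype.mk.injEq, Prod.mk.injEq] at h h3 h7 h3' h7' ⊢
          exact ⟨⟨h3.trans h3'.symm, h.1, h.2⟩, h7.trans h7'.symm⟩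
        refine h3.trans_lt ?_
        rw [mk_setProd]
        exact mul_lt_of_lt (rho_reg j).aleph0_le
          ((lt_aleph0_of_finite _).trans_le (rho_reg j).aleph0_le) hF
      · have : {t : Cell × Bool | t ∈ E ∧ t.1.1 = j} = ∅ := by
          ext t
          simp only [mem_ofPred_eq, mem_empty_iff_false, iff_false]
          rintro ⟨h3, h4⟩
          exact hj (h4.symm.trans h3.1)
        rw [this, mk_eq_zero]
        exact rho_pos j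
  have hcpt : Cpt q.1 E := by
    rintro c b b' h3 ⟨-, -, -, -, -, h4⟩
    exact (h4 b h3).elim
  refine ⟨⟨q.1 ∪ E, q.2.union hE hcpt⟩, subset_union_left, ?_, ?_⟩
  · intro s hs hsρ
    by_cases h : ∃ b, Bit q i d₁ s b
    · obtain ⟨b, hb⟩ := h
      exact ⟨b, Or.inl hb, Or.inl ((hsame s hs b).1 hb)⟩
    · push Not at h
      refine ⟨false, Or.inr ⟨rfl, Or.inl rfl, hs, hsρ, rfl, h⟩,
        Or.inr ⟨rfl, Or.inr rfl, hs, hsρ, rfl, ?_⟩⟩
      exact fun b hb => h b ((hsame s hs b).2 hb)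
  · rintro t (ht | ht)
    · exact Or.inl ht
    · exact Or.inr ht.1

section

variable {Φ : Pos → Sq → Pt → Prop} {M : ℕ} {q₂ q₃ : Pos} {n N : ℕ} {s : ℕ → Pt} {D : Set Pt}
  {y : Pt → Sq} {r : Pt → Pos}

/-- two nodes of the comb and two codes that follow its main branch -/
theorem Blk.caseB2 (hmono : ∀ r r' x ξ, Φ r x ξ → r' ≤ r → Φ r' x ξ) (p : Pos)
    (hI : ∀ q ≤ p, ∀ a b c d ξa ξb ξc ξd, Φ q a ξa → Φ q b ξb → Φ q c ξc → Φ q d ξd →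
      ¬ Col4s q a b c d)
    (h : Blk Φ M q₂ q₃ n N s D y r) (hM : 1 ≤ M) (hp : q₂ ≤ p) {q : Pos} (hq : q ≤ q₃)
    {c d : Sq} {ξc ξd : Pt} (hc : Φ q c ξc) (hd : Φ q d ξd)
    (hyc : ∀ e ∈ D, y e < c) (hyd : ∀ e ∈ D, y e < d) {m : ℕ} (hnm : n < m) (hNm : N ≤ m)
    (hcd : Dfn m c d) (hnode : ∀ e ∈ D, Eqb n (y e) c) {e₀ : Pt} (he₀ : e₀ ∈ D)
    (hfd : ∀ e ∈ D, e₀ ≤ e → Fd q (.inr n) ((y e).v n) (c.v n) e) : False := by
  classical
  obtain ⟨e₁, he₁, hgood⟩ := h.good hq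
  -- the columns touched at the lowest level
  let F : Set Pt := {x | ∃ ε b, Bit q (.inl 0) x ε b}
  have hF0 : #F < ℵ₀ := mk_cols (q := q) (i := .inl 0)
  have hFf : F.Finite := lt_aleph0_iff_set_finite.1 hF0
  have hFfin : Finite F := hFf
  let D₁ : Set Pt := {d | d ∈ D ∧ e₀ ≤ d ∧ e₁ ≤ d}
  have hinf : D₁.Infinite := by
    intro hfin
    obtain ⟨e₂, he₂, hb⟩ := h.bdd D₁ (fun d hd => hd.1)
      ((lt_aleph0_iff_set_finite.2 hfin).trans_le (aleph0_le_kap M))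
    obtain ⟨e₃, he₃, h31, h32⟩ := h.gt he₀ he₁
    obtain ⟨e₄, he₄, h41, h42⟩ := h.gt he₂ he₃
    exact absurd (hb e₄ ⟨he₄, (h31.trans h42).le, (h32.trans h42).le⟩) (not_lt.2 h41.le)
  have hinf' : Infinite D₁ := hinf.to_subtype
  obtain ⟨a, b, hab, hf⟩ := Finite.exists_ne_map_eq_of_infinite
    (fun d : D₁ => ({z : F × Bool | Bit q (.inl n) d.1 z.1.1 z.2} : Set (F × Bool)))
  obtain ⟨d₁, d₂, hd₁, hd₂, hlt, hf⟩ : ∃ d₁ d₂ : Pt, d₁ ∈ D₁ ∧ d₂ ∈ D₁ ∧ d₁ < d₂ ∧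
      ∀ s ∈ F, ∀ b, Bit q (.inl n) d₁ s b ↔ Bit q (.inl n) d₂ s b := by
    have key : ∀ a b : D₁, ({z : F × Bool | Bit q (.inl n) a.1 z.1.1 z.2} : Set (F × Bool)) =
        {z : F × Bool | Bit q (.inl n) b.1 z.1.1 z.2} →
        ∀ s ∈ F, ∀ β, Bit q (.inl n) a.1 s β ↔ Bit q (.inl n) b.1 s β := by
      intro a b hf s hs β
      exact Set.ext_iff.1 hf (⟨s, hs⟩, β)
    rcases lt_or_gt_of_ne (fun hh => hab (Subtype.ext hh) : a.1 ≠ b.1) with hlt | hlt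
    · exact ⟨a.1, b.1, a.2, b.2, hlt, key a b hf⟩
    · exact ⟨b.1, a.1, b.2, a.2, hlt, key b a hf.symm⟩
  obtain ⟨q', hq', hr1, hr2, hloc⟩ := h.ext2 hd₁.1 hd₂.1 (hgood _ hd₁.1 hd₁.2.2)
    (hgood _ hd₂.1 hd₂.2.2)
  have hnJ : (Sum.inl n : Lv) ∉ (cutK M).J := by
    rintro ⟨m', hm', he⟩
    have := Sum.inl.inj he
    have := h.lev
    omega
  have hlevn : ∀ x ε b, Bit q' (.inl n) x ε b → Bit q (.inl n) x ε b := by
    intro x ε b hb
    rcases hloc _ hb with h1 | h1 | h1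
    · exact h1
    · exact hq (h.high _ hd₁.1 ⟨h1, hnJ⟩)
    · exact hq (h.high _ hd₂.1 ⟨h1, hnJ⟩)
  -- the nodes are columns of the level `n`
  have hsig : ∀ e ∈ D₁, od e < (sig (.inl n)).ord := by
    intro e he
    exact (hfd e he.1 he.2.1).lt
  have hn0 : n ≠ 0 := by
    have := h.lev
    omega
  obtain ⟨q₄, hq₄, hdec, hloc4⟩ := ext_F q' (.inl n) d₁ d₂ (hsig _ hd₁) (hsig _ hd₂) F
    (hF0.trans_le (rho_reg _).aleph0_le) (by
      intro s hs b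
      constructor
      · intro hb
        exact ((hf s hs b).1 (hlevn _ _ _ hb)).mono hq'
      · intro hb
        exact ((hf s hs b).2 (hlevn _ _ _ hb)).mono hq')
  obtain ⟨q₅, hq₅, hall, hloc5⟩ := ext_all q₄ (fun i => if i = .inl n then {d₁, d₂} else ∅)
    (by
      intro i
      refine (lt_aleph0_iff_set_finite.2 ?_).trans_le (rho_reg i).aleph0_le
      by_cases hi : i = .inl n <;> simp [hi])
    (by
      intro i x hx
      by_cases hi : i = .inl n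
      · simp only [hi, if_true] at hx
        subst hi
        rcases hx with rfl | rfl
        · exact hsig _ hd₁
        · exact hsig _ hd₂
      · simp [hi] at hx)
  obtain ⟨δ, β, hspl⟩ := hall (.inl n) d₁ (by simp) d₂ (by simp) hlt.ne
  have hδF : δ ∉ F := by
    intro hδ
    obtain ⟨b, hb1, hb2⟩ := hdec δ hδ hspl.2.1.lt
    have e1 := (hb1.mono hq₅).unique hspl.2.1
    have e2 := (hb2.mono hq₅).unique hspl.2.2
    rw [e1] at e2
    cases β <;> simp at e2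
  have hmω : (m : Ordinal.{0}) < muω.ord := by
    have h2 : (m : Ordinal.{0}) < (kap 0).ord := by
      change (m : Ordinal.{0}) < (ℵ₀).ord
      rw [ord_aleph0]
      exact natCast_lt_omega0 m
    exact h2.trans_le (ord_le_ord.2 (kap_le_muω 0))
  obtain ⟨ν, hν⟩ := exists_od hmω
  have hrow : ∀ e ∈ D, ∀ b, ¬ Bit (r e) (.inl 0) δ ν b := by
    intro e he b hb
    have h1 := h.row e he _ _ _ hb
    rw [hν] at h1
    have h2 : m < N := by exact_mod_cast h1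
    omega
  obtain ⟨q₆, hq₆, hbit⟩ := ext_one q₅ (.inl 0) δ ν β
    (hspl.2.1.lt.trans (ord_lt_ord.2 (kap_lt_lam n 0)))
    (by
      rw [hν]
      change (m : Ordinal.{0}) < (kap 0).ord
      change (m : Ordinal.{0}) < (ℵ₀).ord
      rw [ord_aleph0]
      exact natCast_lt_omega0 m)
    (by
      intro b' hb'
      have h1 : Bit q₄ (.inl 0) δ ν b' := by
        rcases hloc5 _ hb' with h1 | h1
        · exact h1
        · simp only [Sum.inl.injEq, hn0.symm, if_false] at h1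
          exact h1.elim
      have h2 : Bit q' (.inl 0) δ ν b' := by
        rcases hloc4 _ h1 with h2 | h2
        · exact h2
        · exact (hn0 (Sum.inl.inj h2).symm).elim
      rcases hloc _ h2 with h3 | h3 | h3
      · exact hδF ⟨ν, b', h3⟩
      · exact hrow _ hd₁.1 _ h3
      · exact hrow _ hd₂.1 _ h3)
  have h6q : q₆ ≤ q := hq₆.trans (hq₅.trans (hq₄.trans hq'))
  have h6' : q₆ ≤ q' := hq₆.trans (hq₅.trans hq₄)
  obtain ⟨ξ₁, hξ₁⟩ := h.inn _ hd₁.1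
  obtain ⟨ξ₂, hξ₂⟩ := h.inn _ hd₂.1
  have hdn : c.v n = d.v n := hcd.1 n hnm
  have hEd : ∀ e ∈ D, Eqb n (y e) d := fun e he k hk =>
    (hnode e he k hk).trans (hcd.1 k (hk.trans hnm))
  have hfd1 := hfd _ hd₁.1 hd₁.2.1
  have hfd2 := hfd _ hd₂.1 hd₂.2.1
  refine hI q₆ (h6q.trans (hq.trans (h.le.trans hp))) (y d₁) (y d₂) c d ξ₁ ξ₂ ξc ξd
    (hmono _ _ _ _ hξ₁ (h6'.trans hr1)) (hmono _ _ _ _ hξ₂ (h6'.trans hr2))
    (hmono _ _ _ _ hc h6q) (hmono _ _ _ _ hd h6q) (Or.inr (Or.inl ⟨h.mono _ hd₁.1 _ hd₂.1 hlt,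
      hyc _ hd₂.1, hyd _ hd₂.1, n, m, d₁, d₂, ?_, ?_, ?_, ?_, ?_, hcd, hnm, hlt, δ, β, ν,
      hspl.mono hq₆, hν, hbit⟩))
  · exact ⟨fun k hk => (h.node _ hd₁.1 k hk).trans (h.node _ hd₂.1 k hk).symm,
      (h.fd _ hd₁.1 _ hd₂.1 hlt).mono (h6q.trans (hq.trans h.le))⟩
  · exact ⟨hnode _ hd₁.1, hfd1.mono h6q⟩
  · refine ⟨hEd _ hd₁.1, ?_⟩
    rw [← hdn]
    exact hfd1.mono h6q
  · exact ⟨hnode _ hd₂.1, hfd2.mono h6q⟩
  · refine ⟨hEd _ hd₂.1, ?_⟩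
    rw [← hdn]
    exact hfd2.mono h6q

/-- balanced quadruples -/
theorem Blk.caseN (hmono : ∀ r r' x ξ, Φ r x ξ → r' ≤ r → Φ r' x ξ) (p : Pos)
    (hI : ∀ q ≤ p, ∀ a b c d ξa ξb ξc ξd, Φ q a ξa → Φ q b ξb → Φ q c ξc → Φ q d ξd →
      ¬ Col4s q a b c d)
    (h : Blk Φ M q₂ q₃ n N s D y r) (hp : q₂ ≤ p) {q : Pos} (hq : q ≤ q₃)
    {c d : Sq} {ξc ξd : Pt} (hc : Φ q c ξc) (hd : Φ q d ξd)
    (hyc : ∀ e ∈ D, y e < c) (hyd : ∀ e ∈ D, y e < d) {m : ℕ} (hnm : n < m)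
    (hcd : Dfn m c d) {k : ℕ} (hkn : k ≤ n) {t : Pt} (hEq : ∀ e ∈ D, Eqb k (y e) c)
    {e₀ : Pt} (he₀ : e₀ ∈ D)
    (hfd : ∀ e ∈ D, e₀ ≤ e → Fd q (.inr k) ((y e).v k) (c.v k) t)
    (hclo : ∀ e ∈ D, ∀ e' ∈ D, e₀ ≤ e → e < e' → ∀ u ≤ t, ∃ β,
      Bit q (.inr k) ((y e).v k) u β ∧ Bit q (.inr k) ((y e').v k) u β) : False := by
  obtain ⟨e₁, he₁, hgood⟩ := h.good hq
  obtain ⟨d₁, hd₁, h11, h12⟩ := h.gt he₀ he₁
  obtain ⟨d₂, hd₂, h21, -⟩ := h.gt hd₁ hd₁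
  obtain ⟨q', hq', hr1, hr2, -⟩ := h.ext2 hd₁ hd₂ (hgood _ hd₁ h12.le)
    (hgood _ hd₂ (h12.trans h21).le)
  obtain ⟨ξ₁, hξ₁⟩ := h.inn _ hd₁
  obtain ⟨ξ₂, hξ₂⟩ := h.inn _ hd₂
  have hckd : c.v k = d.v k := hcd.1 k (hkn.trans_lt hnm)
  have hEcd : Eqb k c d := fun j hj => hcd.1 j (hj.trans (hkn.trans_lt hnm))
  have hf1 := hfd _ hd₁ h11.le
  refine hI q' (hq'.trans (hq.trans (h.le.trans hp))) (y d₁) (y d₂) c d ξ₁ ξ₂ ξc ξd
    (hmono _ _ _ _ hξ₁ hr1) (hmono _ _ _ _ hξ₂ hr2) (hmono _ _ _ _ hc hq')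
    (hmono _ _ _ _ hd hq') (Or.inr (Or.inr (Or.inr ⟨hyc _ hd₁, hyd _ hd₁, hyc _ hd₂, hyd _ hd₂,
      k, t, n, m, ⟨hEq _ hd₁, hf1.mono hq'⟩, ?_, ?_, ?_, hcd, hnm⟩)))
  · refine ⟨fun j hj => (hEq _ hd₁ j hj).trans (hEq _ hd₂ j hj).symm, ?_⟩
    intro u hu
    obtain ⟨β, h1, h2⟩ := hclo _ hd₁ _ hd₂ h11.le h21 u hu
    exact ⟨β, h1.mono hq', h2.mono hq'⟩
  · refine ⟨hEcd, ?_⟩
    intro u hu
    obtain ⟨β, h1⟩ := hf1.symm.bit u hu
    refine ⟨β, h1.mono hq', ?_⟩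
    rw [← hckd]
    exact h1.mono hq'
  · exact ⟨fun j hj => (h.node _ hd₁ j hj).trans (h.node _ hd₂ j hj).symm,
      (h.fd _ hd₁ _ hd₂ h21).ne⟩

/-- **Two blocks.** -/
theorem Blk.two (hmono : ∀ r r' x ξ, Φ r x ξ → r' ≤ r → Φ r' x ξ) (p : Pos)
    (hI : ∀ q ≤ p, ∀ a b c d ξa ξb ξc ξd, Φ q a ξa → Φ q b ξb → Φ q c ξc → Φ q d ξd →
      ¬ Col4s q a b c d)
    (h : Blk Φ M q₂ q₃ n N s D y r) (hM : 1 ≤ M) (hp : q₂ ≤ p)
    {M' : ℕ} {q₂' q₃' : Pos} {n' N' : ℕ} {s' : ℕ → Pt} {D' : Set Pt} {y' : Pt → Sq}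
    {r' : Pt → Pos} (h' : Blk Φ M' q₂' q₃' n' N' s' D' y' r') (hMM : M < M') (hq : q₂' ≤ q₃)
    (hn : n < n') (hN : N ≤ n') (hord : ∀ d ∈ D, ∃ e ∈ D', y d ≤ y' e) : False := by
  classical
  -- an element of the second block above the first block
  obtain ⟨e₁, he₁, hlt⟩ : ∃ e ∈ D', ∀ d ∈ D, y d < y' e := by
    have hch : ∀ d : D, ∃ e, e ∈ D' ∧ y d.1 ≤ y' e := fun d => by
      obtain ⟨e, he, h1⟩ := hord d.1 d.2
      exact ⟨e, he, h1⟩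
    choose f hf1 hf2 using hch
    obtain ⟨e, he, hb⟩ := h'.bdd (Set.range f) (by
      rintro _ ⟨d, rfl⟩
      exact hf1 d) (mk_range_le.trans_lt (h.card.trans_lt (kap_strictMono hMM)))
    refine ⟨e, he, fun d hd => ?_⟩
    exact (hf2 ⟨d, hd⟩).trans_lt (h'.mono _ (hf1 ⟨d, hd⟩) _ he (hb _ ⟨⟨d, hd⟩, rfl⟩))
  obtain ⟨e₂, he₂, h12, -⟩ := h'.gt he₁ he₁
  have hyy := h'.mono _ he₁ _ he₂ h12
  obtain ⟨q₀, hq01, hq02⟩ := Pos.compat_iff.2 (h'.cpt _ he₁ _ he₂)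
  obtain ⟨ξc, hξc⟩ := h'.inn _ he₁
  obtain ⟨ξd, hξd⟩ := h'.inn _ he₂
  have hq0 : q₀ ≤ q₃ := hq01.trans ((h'.rle _ he₁).trans hq)
  have hcd : Dfn n' (y' e₁) (y' e₂) :=
    ⟨fun k hk => (h'.node _ he₁ k hk).trans (h'.node _ he₂ k hk).symm, (h'.fd _ he₁ _ he₂ h12).ne⟩
  obtain ⟨d₀, hd₀⟩ := h.ne
  by_cases hA : ∀ k < n, s' k = s k
  · -- the node of the second block extends the node of the first block
    have hnode : ∀ e ∈ D, Eqb n (y e) (y' e₁) := by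
      intro e he k hk
      rw [h.node _ he k hk, h'.node _ he₁ k (hk.trans hn), hA k hk]
    let Y : Lv → Set Pt := fun i => if i = .inr n then
      insert ((y' e₁).v n) ((fun d => (y d).v n) '' D) else ∅
    obtain ⟨q₁, hq₁, hall, -⟩ := ext_all q₀ Y (by
      intro i
      by_cases hi : i = .inr n
      · simp only [Y, hi, if_true]
        refine (mk_insert_le).trans_lt (add_lt_of_lt (rho_reg _).aleph0_le ?_ ?_)
        · exact mk_image_le.trans_lt (h.card.trans_lt (kap_lt_lam M n))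
        · exact one_lt_aleph0.trans_le (rho_reg _).aleph0_le
      · simp only [Y, hi, if_false]
        rw [mk_eq_zero]
        exact rho_pos _) (by
      intro i x hx
      by_cases hi : i = .inr n
      · simp only [Y, hi, if_true] at hx
        subst hi
        rcases hx with rfl | ⟨d, -, rfl⟩
        · exact (y' e₁).lt n
        · exact (y d).lt n
      · simp only [Y, hi, if_false] at hx
        exact hx.elim)
    obtain ⟨e₀, he₀, hne⟩ := h.avoid ((y' e₁).v n)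
    have hex : ∀ d ∈ D, e₀ ≤ d → ∃ t, Fd q₁ (.inr n) ((y d).v n) ((y' e₁).v n) t := by
      intro d hd hed
      refine hall (.inr n) _ ?_ _ ?_ (hne d hd hed)
      · simp only [Y, if_true]
        exact Or.inr ⟨d, hd, rfl⟩
      · simp only [Y, if_true]
        exact Or.inl rfl
    have hq1 : q₁ ≤ q₃ := hq₁.trans hq0
    by_cases hB : ∃ d ∈ D, e₀ ≤ d ∧ ∃ t, Fd q₁ (.inr n) ((y d).v n) ((y' e₁).v n) t ∧ t < d
    · -- splits off from the comb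
      obtain ⟨d₀, hd₀, hed, t, ht, htd⟩ := hB
      obtain ⟨d₁, hd₁, h01, -⟩ := h.gt hd₀ hd₀
      refine h.caseN hmono p hI hp hq1 (hmono _ _ _ _ hξc (hq₁.trans hq01))
        (hmono _ _ _ _ hξd (hq₁.trans hq02)) hlt (fun d hd => (hlt d hd).trans hyy) hn hcd
        (k := n) le_rfl (t := t) hnode (e₀ := d₁) hd₁ ?_ ?_
      · intro e he hde
        have h1 : Fd q₁ (.inr n) ((y d₀).v n) ((y e).v n) d₀ :=
          (h.fd _ hd₀ _ he (h01.trans_le hde)).mono (hq1.trans h.le)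
        exact (ht.symm.trans_lt h1 htd).symm
      · intro e he e' he' hde hee' u hu
        exact (((h.fd _ he _ he' hee').mono (hq1.trans h.le)).clo
          (htd.trans (h01.trans_le hde))) u hu
    · -- follows the comb
      push Not at hB
      refine h.caseB2 hmono p hI hM hp hq1 (hmono _ _ _ _ hξc (hq₁.trans hq01))
        (hmono _ _ _ _ hξd (hq₁.trans hq02)) hlt (fun d hd => (hlt d hd).trans hyy) hn hN hcd
        hnode he₀ ?_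
      intro e he hee
      obtain ⟨e', he', h1, -⟩ := h.gt he he
      obtain ⟨t', ht'⟩ := hex e' he' (hee.trans h1.le)
      have h2 := hB e' he' (hee.trans h1.le) t' ht'
      exact ((h.fd _ he _ he' h1).mono (hq1.trans h.le)).trans_lt ht' (h1.trans_le h2)
  · -- the nodes are incomparable
    push Not at hA
    have hex : ∃ k, k < n ∧ s' k ≠ s k := hA
    obtain ⟨hkn, hks⟩ := Nat.find_spec hex
    set k := Nat.find hex with hk
    have hmin : ∀ j < k, s' j = s j := by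
      intro j hj
      by_contra hc
      exact Nat.find_min hex hj ⟨hj.trans hkn, hc⟩
    have hyk : ∀ e ∈ D, (y e).v k = s k := fun e he => h.node _ he k hkn
    have hck : (y' e₁).v k = s' k := h'.node _ he₁ k (hkn.trans hn)
    obtain ⟨q₁, hq₁, t, ht⟩ := dense_fd (.inr k) (x := s k) (y := s' k)
      (by rw [← hyk _ hd₀]; exact (y d₀).lt k) (by rw [← hck]; exact (y' e₁).lt k)
      (fun he => hks he.symm) q₀
    have hq1 : q₁ ≤ q₃ := hq₁.trans hq0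
    refine h.caseN hmono p hI hp hq1 (hmono _ _ _ _ hξc (hq₁.trans hq01))
      (hmono _ _ _ _ hξd (hq₁.trans hq02)) hlt (fun d hd => (hlt d hd).trans hyy) hn hcd
      (k := k) hkn.le (t := t) ?_ (e₀ := d₀) hd₀ ?_ ?_
    · intro e he j hj
      rw [h.node _ he j (hj.trans hkn), h'.node _ he₁ j (hj.trans (hkn.trans hn)), hmin j hj]
    · intro e he _
      rw [hyk e he, hck]
      exact ht
    · intro e he e' he' _ _ u hu
      rw [hyk e he, hyk e' he']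
      obtain ⟨β, hβ⟩ := ht.bit u hu
      exact ⟨β, hβ, hβ⟩

end

/-- data of a block -/
structure BD where
  /-- condition -/
  q₂ : Pos
  /-- condition -/
  q₃ : Pos
  /-- level -/
  n : ℕ
  /-- bound -/
  N : ℕ
  /-- node -/
  s : ℕ → Pt
  /-- nodes of the comb -/
  D : Set Pt
  /-- codes -/
  y : Pt → Sq
  /-- conditions -/
  r : Pt → Pos

/-- **Every large set contains a quadruple of colour 1**, from blocks. -/
theorem q3_of_blk (Φ : Pos → Sq → Pt → Prop)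
    (hmono : ∀ r r' x ξ, Φ r x ξ → r' ≤ r → Φ r' x ξ) (p : Pos)
    (hI : ∀ q ≤ p, ∀ a b c d ξa ξb ξc ξd, Φ q a ξa → Φ q b ξb → Φ q c ξc → Φ q d ξd →
      ¬ Col4s q a b c d)
    (hB : ∀ M, 1 ≤ M → ∀ p' ≤ p, ∃ q₂ ≤ p', ∃ q₃ n N s D y r, Blk Φ M q₂ q₃ n N s D y r) :
    False := by
  classical
  have hB' : ∀ (M : ℕ) (p' : Pos), ∃ t : BD, 1 ≤ M → p' ≤ p → t.q₂ ≤ p' ∧
      Blk Φ M t.q₂ t.q₃ t.n t.N t.s t.D t.y t.r := by
    intro M p'
    by_cases h : 1 ≤ M ∧ p' ≤ p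
    · obtain ⟨q₂, hq₂, q₃, n, N, s, D, y, r, hb⟩ := hB M h.1 p' h.2
      exact ⟨⟨q₂, q₃, n, N, s, D, y, r⟩, fun _ _ => ⟨hq₂, hb⟩⟩
    · obtain ⟨q₂, hq₂, q₃, n, N, s, D, y, r, hb⟩ := hB 1 le_rfl p le_rfl
      exact ⟨⟨q₂, q₃, n, N, s, D, y, r⟩, fun h1 h2 => (h ⟨h1, h2⟩).elim⟩
  choose F hF using hB'
  let St : ℕ → ℕ × BD := fun i => Nat.rec (1, F 1 p)
    (fun _ t => (max t.1 (max t.2.n t.2.N) + 1, F (max t.1 (max t.2.n t.2.N) + 1) t.2.q₃)) i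
  have hS0 : St 0 = (1, F 1 p) := rfl
  have hS : ∀ i, St (i + 1) = (max (St i).1 (max (St i).2.n (St i).2.N) + 1,
      F (max (St i).1 (max (St i).2.n (St i).2.N) + 1) (St i).2.q₃) := fun i => rfl
  have key : ∀ i, 1 ≤ (St i).1 ∧ (St i).2.q₂ ≤ p ∧
      Blk Φ (St i).1 (St i).2.q₂ (St i).2.q₃ (St i).2.n (St i).2.N (St i).2.s (St i).2.D
        (St i).2.y (St i).2.r := by
    intro i
    induction i with
    | zero =>
      rw [hS0]
      obtain ⟨h1, h2⟩ := hF 1 p le_rfl le_rfl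
      exact ⟨le_rfl, h1, h2⟩
    | succ i ih =>
      obtain ⟨h1, h2, h3⟩ := ih
      rw [hS]
      obtain ⟨h4, h5⟩ := hF (max (St i).1 (max (St i).2.n (St i).2.N) + 1) (St i).2.q₃ (by omega)
        (h3.le.trans h2)
      exact ⟨by omega, h4.trans (h3.le.trans h2), h5⟩
  have hnext : ∀ i, (St i).1 < (St (i + 1)).1 ∧ (St (i + 1)).2.q₂ ≤ (St i).2.q₃ ∧
      (St i).2.n < (St (i + 1)).2.n ∧ (St i).2.N ≤ (St (i + 1)).2.n := by
    intro i
    obtain ⟨h1, h2, h3⟩ := key i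
    obtain ⟨h1', h2', h3'⟩ := key (i + 1)
    have hlev := h3'.lev
    have e1 : (St (i + 1)).1 = max (St i).1 (max (St i).2.n (St i).2.N) + 1 := by rw [hS]
    have h4 : (St (i + 1)).2.q₂ ≤ (St i).2.q₃ := by
      rw [hS]
      exact (hF (max (St i).1 (max (St i).2.n (St i).2.N) + 1) (St i).2.q₃ (by omega)
        (h3.le.trans h2)).1
    have b1 : (St i).1 ≤ max (St i).1 (max (St i).2.n (St i).2.N) := le_max_left _ _
    have b2 : (St i).2.n ≤ max (St i).1 (max (St i).2.n (St i).2.N) :=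
      (le_max_left _ _).trans (le_max_right _ _)
    have b3 : (St i).2.N ≤ max (St i).1 (max (St i).2.n (St i).2.N) :=
      (le_max_right _ _).trans (le_max_right _ _)
    refine ⟨by omega, h4, by omega, by omega⟩
  obtain ⟨i, hi⟩ : ∃ i, ∀ d ∈ (St i).2.D, ∃ e ∈ (St (i + 1)).2.D,
      (St i).2.y d ≤ (St (i + 1)).2.y e := by
    by_contra hcon
    push Not at hcon
    choose d hd hlt using hcon
    obtain ⟨i, hi⟩ := WellFounded.not_rel_apply_succ (r := ((· < ·) : Sq → Sq → Prop))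
      (fun i => (St i).2.y (d i))
    exact hi (hlt i _ (hd (i + 1)))
  obtain ⟨h1, h2, h3⟩ := key i
  obtain ⟨h4, h5, h6, h7⟩ := hnext i
  exact h3.two hmono p hI h1 h2 (key (i + 1)).2.2 h4 h5 h6 h7 hi

end Pool.Agent.Helper96.Fc
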