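import Pool.Agent.Helper96.Fc.Blk3
import Pool.Agent.Helper96.Fc.Q3main
import Pool.Agent.Helper96.Fc.Final2

/-!
# The combinatorial core of the second theorem
-/

open Cardinal Ordinal Set

namespace Pool.Agent.Helper96.Fc

/-- **Large sets of codes contain quadruples of colour 1.** -/
theorem q3core : Q3 := by
  intro Φ hmono hfun p hp
  by_contra hno
  have hI : ∀ q ≤ p, ∀ a b c d ξa ξb ξc ξd, Φ q a ξa → Φ q b ξb → Φ q c ξc → Φ q d ξd →
      ¬ Col4s q a b c d := by
    intro q hq a b c d ξa ξb ξc ξd ha hb hc hd hcol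
    exact hno ⟨q, hq, a, b, c, d, ξa, ξb, ξc, ξd, ha, hb, hc, hd, hcol⟩
  exact q3_of_blk Φ hmono p hI (fun M hM p' hp' => exists_blk Φ hmono hfun p hp hI M hM p' hp')

end Pool.Agent.Helper96.Fc

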