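import Pool.Agent.Helper96.Fc.Gen

/-!
# Formulas, evaluation of names and the truth lemma
-/

namespace Pool.Agent.Helper96.Fc

variable {P : Type} [PartialOrder P]

/-- The forcing relation. -/
def Fo : {m : ℕ} → Fml m → (Fin m → Nm P) → P → Prop
  | _, .mem i j, v, p => FMem (v i) (v j) p
  | _, .eq i j, v, p => FEq (v i) (v j) p
  | _, .neg φ, v, p => ∀ q ≤ p, ¬ Fo φ v q
  | _, .and φ ψ, v, p => Fo φ v p ∧ Fo ψ v p
  | _, .all φ, v, p => ∀ x, Fo φ (Fin.cons x v) p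

theorem Fo.mono {m : ℕ} {φ : Fml m} : ∀ {v : Fin m → Nm P} {p q : P}, Fo φ v p → q ≤ p →
    Fo φ v q := by
  induction φ with
  | mem i j => exact fun h hq => FMem.mono h hq
  | eq i j => exact fun h hq => FEq.mono h hq
  | neg φ ih => exact fun h hq r hr => h r (hr.trans hq)
  | and φ ψ ih1 ih2 => exact fun h hq => ⟨ih1 h.1 hq, ih2 h.2 hq⟩
  | all φ ih => exact fun h hq x => ih (h x) hq

theorem Fo.dense {m : ℕ} {φ : Fml m} : ∀ {v : Fin m → Nm P} {p : P},
    (∀ q ≤ p, ∃ r ≤ q, Fo φ v r) → Fo φ v p := by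
  induction φ with
  | mem i j => exact fun h => FMem.dense h
  | eq i j => exact fun h => FEq.dense h
  | neg φ ih =>
    intro v p h q hq hqφ
    obtain ⟨r, hr, h1⟩ := h q hq
    exact h1 r le_rfl (Fo.mono hqφ hr)
  | and φ ψ ih1 ih2 =>
    intro v p h
    exact ⟨ih1 fun q hq => by obtain ⟨r, hr, h1⟩ := h q hq; exact ⟨r, hr, h1.1⟩,
      ih2 fun q hq => by obtain ⟨r, hr, h1⟩ := h q hq; exact ⟨r, hr, h1.2⟩⟩
  | all φ ih =>
    intro v p h x
    exact ih fun q hq => by obtain ⟨r, hr, h1⟩ := h q hq; exact ⟨r, hr, h1 x⟩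

/-- Evaluation of the names in `X` by the filter `G`. -/
noncomputable def val (X : Set (Obj P)) (G : Set P) : Nm P → ZFSet.{0}
  | .mk I f c => ZFSet.range
      (fun i : {i : I // c i ∈ G ∧ (Sum.inl (f i) : Obj P) ∈ X} => val X G (f i.1))

theorem mem_val {X : Set (Obj P)} {G : Set P} {x : Nm P} {a : ZFSet.{0}} :
    a ∈ val X G x ↔ ∃ i, x.cd i ∈ G ∧ (Sum.inl (x.fn i) : Obj P) ∈ X ∧ val X G (x.fn i) = a := by
  cases x with
  | mk I f c =>
    rw [val, ZFSet.mem_range]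
    constructor
    · rintro ⟨⟨i, h1, h2⟩, rfl⟩
      exact ⟨i, h1, h2, rfl⟩
    · rintro ⟨i, h1, h2, rfl⟩
      exact ⟨⟨i, h1, h2⟩, rfl⟩

/-- The sets of the generic extension. -/
def Mod (X : Set (Obj P)) (G : Set P) : Set ZFSet.{0} :=
  {a | ∃ x : Nm P, (Sum.inl x : Obj P) ∈ X ∧ val X G x = a}

/-- `y` is a member of the name `z` with a condition weaker than `p`, forced by `p` to be `x` -/
def RMem : P → List (Obj P) → Prop
  | p, [Sum.inl y, Sum.inl x, Sum.inl z] => ∃ j, y = z.fn j ∧ p ≤ z.cd j ∧ FEq x (z.fn j) p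
  | _, _ => False

/-- `y` is a member of `x` (by `p`) and `p` forces that it is not in `z` -/
def RNeq : P → List (Obj P) → Prop
  | p, [Sum.inl y, Sum.inl x, Sum.inl z] => ∃ i, y = x.fn i ∧ p ≤ x.cd i ∧
      ∀ q ≤ p, ∀ j, q ≤ z.cd j → ¬ FEq (x.fn i) (z.fn j) q
  | _, _ => False

/-- `p` forces `φ(v)` -/
def RDec {m : ℕ} (φ : Fml m) (p : P) (l : List (Obj P)) : Prop :=
  ∃ (y : Obj P) (v : Fin m → Nm P), l = y :: List.ofFn (fun i => Sum.inl (v i)) ∧ Fo φ v p

/-- `p` forces `¬ φ(y, v)` -/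
def RAll {m : ℕ} (φ : Fml (m + 1)) (p : P) (l : List (Obj P)) : Prop :=
  ∃ (y : Nm P) (v : Fin m → Nm P), l = Sum.inl y :: List.ofFn (fun i => Sum.inl (v i)) ∧
    ∀ q ≤ p, ¬ Fo φ (Fin.cons y v) q

/-- The basic genericity assumptions. -/
structure Basic (X : Set (Obj P)) (G : Set P) : Prop where
  filt : IsFilt X G
  mem : GenR X G RMem
  neq : GenR X G RNeq
  dec : ∀ (m : ℕ) (φ : Fml m), GenR X G (RDec φ)
  all : ∀ (m : ℕ) (φ : Fml (m + 1)), GenR X G (RAll φ)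

section

variable {X : Set (Obj P)} {G : Set P}

theorem mem2 {x z : Nm P} (hx : (Sum.inl x : Obj P) ∈ X) (hz : (Sum.inl z : Obj P) ∈ X) :
    ∀ a ∈ ([Sum.inl x, Sum.inl z] : List (Obj P)), a ∈ X := by
  intro a ha
  rcases List.mem_cons.1 ha with rfl | ha
  · exact hx
  · rw [List.mem_singleton] at ha
    rw [ha]; exact hz

theorem Basic.wit (h : Basic X G) {x z : Nm P} (hx : (Sum.inl x : Obj P) ∈ X)
    (hz : (Sum.inl z : Obj P) ∈ X) {p : P} (hp : p ∈ G) (hm : FMem x z p) :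
    ∃ q ∈ G, ∃ j, (Sum.inl (z.fn j) : Obj P) ∈ X ∧ z.cd j ∈ G ∧ q ≤ z.cd j ∧ q ≤ p ∧
      FEq x (z.fn j) q := by
  obtain ⟨p', hp', h1⟩ := h.mem _ (mem2 hx hz)
  obtain ⟨q, hq, hqp, hqp'⟩ := h.filt.compat hp hp'
  rcases h1 with ⟨y, hy, hR⟩ | h1
  · rcases y with y | y
    · obtain ⟨j, rfl, h2, h3⟩ := hR
      exact ⟨q, hq, j, hy, h.filt.up _ hp' _ h2, hqp'.trans h2, hqp, h3.mono hqp'⟩
    · exact hR.elim
  · exfalso
    obtain ⟨r, hr, j, h2, h3⟩ := hm q hqp
    exact h1 r (hr.trans hqp') (Sum.inl (z.fn j)) ⟨j, rfl, h2, h3⟩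

theorem Basic.eq_aux (h : Basic X G) (x : Nm P) : ∀ z : Nm P, (Sum.inl x : Obj P) ∈ X →
    (Sum.inl z : Obj P) ∈ X → (val X G x = val X G z ↔ ∃ p ∈ G, FEq x z p) := by
  induction x using Nm.ind with
  | h x ih =>
    intro z hx hz
    constructor
    · intro heq
      obtain ⟨p1, hp1, h1⟩ := h.neq _ (mem2 hx hz)
      obtain ⟨p2, hp2, h2⟩ := h.neq _ (mem2 hz hx)
      obtain ⟨p, hp, hpp1, hpp2⟩ := h.filt.compat hp1 hp2
      rcases h1 with ⟨y, hy, hR⟩ | h1
      · exfalso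
        rcases y with y | y
        · obtain ⟨i, rfl, h3, h4⟩ := hR
          have h5 : val X G (x.fn i) ∈ val X G z := by
            rw [← heq, mem_val]
            exact ⟨i, h.filt.up _ hp1 _ h3, hy, rfl⟩
          obtain ⟨j, hj1, hj2, hj3⟩ := mem_val.1 h5
          obtain ⟨q, hq, hqe⟩ := (ih i _ hy hj2).1 hj3.symm
          obtain ⟨r, hr, hr1, hr2⟩ := h.filt.compat hq hj1
          obtain ⟨s, hs, hs1, hs2⟩ := h.filt.compat hr hp1
          exact h4 s hs2 j (hs1.trans hr2) (hqe.mono (hs1.trans hr1))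
        · exact hR.elim
      · rcases h2 with ⟨y, hy, hR⟩ | h2
        · exfalso
          rcases y with y | y
          · obtain ⟨j, rfl, h3, h4⟩ := hR
            have h5 : val X G (z.fn j) ∈ val X G x := by
              rw [heq, mem_val]
              exact ⟨j, h.filt.up _ hp2 _ h3, hy, rfl⟩
            obtain ⟨i, hi1, hi2, hi3⟩ := mem_val.1 h5
            obtain ⟨q, hq, hqe⟩ := (ih i _ hi2 hy).1 hi3
            obtain ⟨r, hr, hr1, hr2⟩ := h.filt.compat hq hi1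
            obtain ⟨s, hs, hs1, hs2⟩ := h.filt.compat hr hp2
            exact h4 s hs2 i (hs1.trans hr2) (hqe.mono (hs1.trans hr1)).symm
          · exact hR.elim
        · refine ⟨p, hp, ?_⟩
          rw [FEq_iff]
          constructor
          · intro i q hq hqi
            by_contra hc
            push Not at hc
            exact h1 q (hq.trans hpp1) (Sum.inl (x.fn i)) ⟨i, rfl, hqi, fun r hr j hj => hc r hr j hj⟩
          · intro j q hq hqj
            by_contra hc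
            push Not at hc
            exact h2 q (hq.trans hpp2) (Sum.inl (z.fn j)) ⟨j, rfl, hqj,
              fun r hr i hi he => hc r hr i hi he.symm⟩
    · rintro ⟨p, hp, he⟩
      ext a
      constructor
      · intro ha
        obtain ⟨i, hi1, hi2, rfl⟩ := mem_val.1 ha
        obtain ⟨q, hq, hq1, hq2⟩ := h.filt.compat hp hi1
        have hm : FMem (x.fn i) z q := (FMem.of_fn i hq2).congr_right (he.mono hq1)
        obtain ⟨r, hr, j, h1, h2, h3, h4, h5⟩ := h.wit hi2 hz hq hm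
        exact mem_val.2 ⟨j, h2, h1, ((ih i _ hi2 h1).2 ⟨r, hr, h5⟩).symm⟩
      · intro ha
        obtain ⟨j, hj1, hj2, rfl⟩ := mem_val.1 ha
        obtain ⟨q, hq, hq1, hq2⟩ := h.filt.compat hp hj1
        have hm : FMem (z.fn j) x q := (FMem.of_fn j hq2).congr_right (he.mono hq1).symm
        obtain ⟨r, hr, i, h1, h2, h3, h4, h5⟩ := h.wit hj2 hx hq hm
        exact mem_val.2 ⟨i, h2, h1, (ih i _ h1 hj2).2 ⟨r, hr, h5.symm⟩⟩

theorem Basic.eq_iff (h : Basic X G) {x z : Nm P} (hx : (Sum.inl x : Obj P) ∈ X)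
    (hz : (Sum.inl z : Obj P) ∈ X) : val X G x = val X G z ↔ ∃ p ∈ G, FEq x z p :=
  h.eq_aux x z hx hz

theorem Basic.mem_iff (h : Basic X G) {x z : Nm P} (hx : (Sum.inl x : Obj P) ∈ X)
    (hz : (Sum.inl z : Obj P) ∈ X) : val X G x ∈ val X G z ↔ ∃ p ∈ G, FMem x z p := by
  constructor
  · intro hm
    obtain ⟨j, hj1, hj2, hj3⟩ := mem_val.1 hm
    obtain ⟨p, hp, he⟩ := (h.eq_iff hj2 hx).1 hj3
    obtain ⟨q, hq, hq1, hq2⟩ := h.filt.compat hp hj1
    exact ⟨q, hq, (FMem.of_fn j hq2).congr_left (he.mono hq1)⟩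
  · rintro ⟨p, hp, hm⟩
    obtain ⟨q, hq, j, h1, h2, h3, h4, h5⟩ := h.wit hx hz hp hm
    exact mem_val.2 ⟨j, h2, h1, ((h.eq_iff hx h1).2 ⟨q, hq, h5⟩).symm⟩

theorem cons_val {m : ℕ} (v : Fin m → Nm P) (x : Nm P) :
    (Fin.cons (val X G x) (fun i => val X G (v i)) : Fin (m + 1) → ZFSet.{0}) =
      fun i => val X G ((Fin.cons x v : Fin (m + 1) → Nm P) i) := by
  funext i
  refine Fin.cases ?_ ?_ i
  · rfl
  · intro j; rfl

theorem mem_ofFn {m : ℕ} {v : Fin m → Nm P} (hv : ∀ i, (Sum.inl (v i) : Obj P) ∈ X) :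
    ∀ a ∈ List.ofFn (fun i => (Sum.inl (v i) : Obj P)), a ∈ X := by
  intro a ha
  rw [List.mem_ofFn] at ha
  obtain ⟨i, rfl⟩ := ha
  exact hv i

/-- **Truth lemma.** -/
theorem Basic.truth (h : Basic X G) {m : ℕ} (φ : Fml m) : ∀ v : Fin m → Nm P,
    (∀ i, (Sum.inl (v i) : Obj P) ∈ X) →
      (Sat (Mod X G) φ (fun i => val X G (v i)) ↔ ∃ p ∈ G, Fo φ v p) := by
  induction φ with
  | mem i j => exact fun v hv => h.mem_iff (hv i) (hv j)
  | eq i j => exact fun v hv => h.eq_iff (hv i) (hv j)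
  | neg φ ih =>
    intro v hv
    rw [Sat, ih v hv]
    constructor
    · intro hn
      obtain ⟨p, hp, h1⟩ := h.dec _ φ _ (mem_ofFn hv)
      refine ⟨p, hp, ?_⟩
      rcases h1 with ⟨y, hy, y', v', he, h2⟩ | h1
      · exfalso
        apply hn
        have : v' = v := by
          have := (List.cons.inj he).2
          have h3 := List.ofFn_injective this
          funext i
          exact (Sum.inl.inj (congrFun h3 i)).symm
        subst this
        exact ⟨p, hp, h2⟩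
      · intro q hq hqφ
        exact h1 q hq (Sum.inr p) ⟨_, v, rfl, hqφ⟩
    · rintro ⟨p, hp, hn⟩ ⟨q, hq, hqφ⟩
      obtain ⟨r, -, hr1, hr2⟩ := h.filt.compat hp hq
      exact hn r hr1 (hqφ.mono hr2)
  | and φ ψ ih1 ih2 =>
    intro v hv
    rw [Sat, ih1 v hv, ih2 v hv]
    constructor
    · rintro ⟨⟨p, hp, h1⟩, ⟨q, hq, h2⟩⟩
      obtain ⟨r, hr, hr1, hr2⟩ := h.filt.compat hp hq
      exact ⟨r, hr, h1.mono hr1, h2.mono hr2⟩
    · rintro ⟨p, hp, h1, h2⟩
      exact ⟨⟨p, hp, h1⟩, ⟨p, hp, h2⟩⟩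
  | all φ ih =>
    intro v hv
    have key : ∀ x : Nm P, (Sum.inl x : Obj P) ∈ X →
        (Sat (Mod X G) φ (Fin.cons (val X G x) (fun i => val X G (v i))) ↔
          ∃ p ∈ G, Fo φ (Fin.cons x v) p) := by
      intro x hx
      rw [cons_val]
      apply ih
      intro i
      refine Fin.cases ?_ ?_ i
      · exact hx
      · exact hv
    constructor
    · intro hs
      obtain ⟨p, hp, h1⟩ := h.all _ φ _ (mem_ofFn hv)
      refine ⟨p, hp, ?_⟩
      rcases h1 with ⟨y, hy, y', v', he, h2⟩ | h1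
      · exfalso
        have e1 := (List.cons.inj he).1
        have : v' = v := by
          have := (List.cons.inj he).2
          have h3 := List.ofFn_injective this
          funext i
          exact (Sum.inl.inj (congrFun h3 i)).symm
        subst this
        subst e1
        obtain ⟨q, hq, h3⟩ := (key y' hy).1 (hs _ ⟨y', hy, rfl⟩)
        obtain ⟨r, -, hr1, hr2⟩ := h.filt.compat hp hq
        exact h2 r hr1 (h3.mono hr2)
      · intro x
        apply Fo.dense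
        intro q hq
        by_contra hc
        push Not at hc
        exact h1 q hq (Sum.inl x) ⟨x, v, rfl, hc⟩
    · rintro ⟨p, hp, h1⟩ a ⟨x, hx, rfl⟩
      exact (key x hx).2 ⟨p, hp, h1 x⟩

theorem Mod.trans' {a b : ZFSet.{0}} (ha : a ∈ Mod X G) (hb : b ∈ a) : b ∈ Mod X G := by
  obtain ⟨x, hx, rfl⟩ := ha
  obtain ⟨i, -, h2, rfl⟩ := mem_val.1 hb
  exact ⟨_, h2, rfl⟩

end

end Pool.Agent.Helper96.Fc
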