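import Pool.Agent.Helper96.Fc.Ops

/-!
# The generic extension is a model of ZFC
-/

open Ordinal

set_option linter.unusedSectionVars false

namespace Pool.Agent.Helper96.Fc

variable {P : Type} [PartialOrder P] [OrderTop P]

section

variable {X : Set (Obj P)} {G : Set P}

theorem mem_Mod {x : Nm P} (h : (Sum.inl x : Obj P) ∈ X) : val X G x ∈ Mod X G := ⟨x, h, rfl⟩

theorem exists_names {m : ℕ} {v : Fin m → ZFSet.{0}} (hv : ∀ i, v i ∈ Mod X G) :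
    ∃ u : Fin m → Nm P, (∀ i, (Sum.inl (u i) : Obj P) ∈ X) ∧ v = fun i => val X G (u i) := by
  choose u hu1 hu2 using hv
  exact ⟨u, hu1, funext fun i => (hu2 i).symm⟩

theorem val_sN (h : Basic X G) {x : Nm P} {s : {s : Set (x.Ix × P) // ∀ t ∈ s, t.2 ≤ x.cd t.1}}
    {a : ZFSet.{0}} : a ∈ val X G (sN x s) ↔ ∃ i, ∃ p ∈ G, (i, p) ∈ s.1 ∧
      (Sum.inl (x.fn i) : Obj P) ∈ X ∧ val X G (x.fn i) = a := by
  rw [mem_val]
  constructor
  · rintro ⟨⟨⟨i, p⟩, hip⟩, h1, h2, h3⟩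
    exact ⟨i, p, h1, hip, h2, h3⟩
  · rintro ⟨i, p, hp, hip, h1, h2⟩
    exact ⟨⟨⟨i, p⟩, hip⟩, hp, h1, h2⟩

theorem val_subN (h : Basic X G) {x z : Nm P} (hz : (Sum.inl z : Obj P) ∈ X) {a : ZFSet.{0}} :
    a ∈ val X G (subN x z) ↔ a ∈ val X G x ∧ a ∈ val X G z := by
  rw [subN, val_sN h]
  constructor
  · rintro ⟨i, p, hp, ⟨h1, h2⟩, h3, rfl⟩
    exact ⟨mem_val.2 ⟨i, h.filt.up _ hp _ h1, h3, rfl⟩, (h.mem_iff h3 hz).2 ⟨p, hp, h2⟩⟩
  · rintro ⟨h1, h2⟩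
    obtain ⟨i, h3, h4, rfl⟩ := mem_val.1 h1
    obtain ⟨p, hp, h5⟩ := (h.mem_iff h4 hz).1 h2
    obtain ⟨q, hq, h6, h7⟩ := h.filt.compat hp h3
    exact ⟨i, q, hq, ⟨h7, h5.mono h6⟩, h4, rfl⟩

theorem val_sepN (h : Basic X G) {m : ℕ} (φ : Fml (m + 1)) {x : Nm P} {v : Fin m → Nm P}
    (hv : ∀ i, (Sum.inl (v i) : Obj P) ∈ X) {a : ZFSet.{0}} :
    a ∈ val X G (sepN φ x v) ↔
      a ∈ val X G x ∧ Sat (Mod X G) φ (Fin.cons a (fun i => val X G (v i))) := by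
  have key : ∀ y : Nm P, (Sum.inl y : Obj P) ∈ X →
      (Sat (Mod X G) φ (Fin.cons (val X G y) (fun i => val X G (v i))) ↔
        ∃ p ∈ G, Fo φ (Fin.cons y v) p) := by
    intro y hy
    rw [cons_val]
    apply h.truth
    intro i
    refine Fin.cases ?_ ?_ i
    · exact hy
    · exact hv
  rw [sepN, val_sN h]
  constructor
  · rintro ⟨i, p, hp, ⟨h1, h2⟩, h3, rfl⟩
    exact ⟨mem_val.2 ⟨i, h.filt.up _ hp _ h1, h3, rfl⟩, (key _ h3).2 ⟨p, hp, h2⟩⟩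
  · rintro ⟨h1, h2⟩
    obtain ⟨i, h3, h4, rfl⟩ := mem_val.1 h1
    obtain ⟨p, hp, h5⟩ := (key _ h4).1 h2
    obtain ⟨q, hq, h6, h7⟩ := h.filt.compat hp h3
    exact ⟨i, q, hq, ⟨h7, h5.mono h6⟩, h4, rfl⟩

theorem val_unN (h : Basic X G) {x : Nm P} {a b : ZFSet.{0}} (hb : b ∈ val X G x) (ha : a ∈ b) :
    a ∈ val X G (unN x) := by
  obtain ⟨i, h1, h2, rfl⟩ := mem_val.1 hb
  obtain ⟨j, h3, h4, rfl⟩ := mem_val.1 ha
  obtain ⟨q, hq, h6, h7⟩ := h.filt.compat h1 h3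
  exact mem_val.2 ⟨⟨i, ⟨(j, q), h6, h7⟩⟩, hq, h4, rfl⟩

/-- separation in the extension, with a bound -/
theorem Mod.sep (h : Basic X G) (hc : Clos X) {m : ℕ} (φ : Fml (m + 1)) {v : Fin m → ZFSet.{0}}
    (hv : ∀ i, v i ∈ Mod X G) {a : ZFSet.{0}} (ha : a ∈ Mod X G) :
    ∃ b ∈ Mod X G, ∀ x, x ∈ b ↔ (x ∈ a ∧ Sat (Mod X G) φ (Fin.cons x v)) := by
  obtain ⟨u, hu1, rfl⟩ := exists_names hv
  obtain ⟨x, hx, rfl⟩ := ha
  exact ⟨_, mem_Mod (hc.sep m φ x u hx hu1), fun y => val_sepN h φ hu1⟩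

theorem Mod.powerset (h : Basic X G) (hc : Clos X) {a : ZFSet.{0}} (ha : a ∈ Mod X G) :
    ∃ u ∈ Mod X G, ∀ w, w ∈ u ↔ w ∈ Mod X G ∧ w ⊆ a := by
  obtain ⟨x, hx, rfl⟩ := ha
  refine ⟨_, mem_Mod (hc.pow x hx), ?_⟩
  intro w
  rw [mem_val]
  constructor
  · rintro ⟨s, -, h1, rfl⟩
    refine ⟨mem_Mod h1, ?_⟩
    intro b hb
    have hb' : b ∈ val X G (sN x s) := hb
    obtain ⟨i, p, hp, h2, h3, h4⟩ := (val_sN h).1 hb'
    exact mem_val.2 ⟨i, h.filt.up _ hp _ (s.2 _ h2), h3, h4⟩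
  · rintro ⟨⟨z, hz, rfl⟩, hsub⟩
    refine ⟨⟨{t | t.2 ≤ x.cd t.1 ∧ FMem (x.fn t.1) z t.2}, fun _ ht => ht.1⟩, h.filt.top,
      hc.sub x z hx hz, ?_⟩
    ext b
    have := val_subN h (x := x) hz (a := b)
    rw [subN] at this
    refine this.trans ⟨fun h1 => h1.2, fun h1 => ⟨hsub h1, h1⟩⟩

theorem Mod.onto_ordinal (h : Basic X G) (hc : Clos X) {a : ZFSet.{0}} (ha : a ∈ Mod X G) :
    ∃ α ∈ Mod X G, α.IsOrdinal ∧ Onto (Mod X G) α a := by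
  obtain ⟨x, hx, rfl⟩ := ha
  refine ⟨_, mem_Mod (hc.len x hx), val_ordN_isOrdinal h.filt, _, mem_Mod (hc.num x hx), ?_, ?_⟩
  · intro a b c hb hc'
    obtain ⟨i, -, h1, h2⟩ := mem_val.1 hb
    obtain ⟨j, -, h3, h4⟩ := mem_val.1 hc'
    change (Sum.inl (pairN (ordN P (cidx x (x.fn i))) (x.fn i)) : Obj P) ∈ X at h1
    change (Sum.inl (pairN (ordN P (cidx x (x.fn j))) (x.fn j)) : Obj P) ∈ X at h3
    change val X G (pairN (ordN P (cidx x (x.fn i))) (x.fn i)) = _ at h2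
    change val X G (pairN (ordN P (cidx x (x.fn j))) (x.fn j)) = _ at h4
    rw [val_pairN h.filt hc (hc.fst _ _ h1) (hc.snd _ _ h1)] at h2
    rw [val_pairN h.filt hc (hc.fst _ _ h3) (hc.snd _ _ h3)] at h4
    obtain ⟨h5, h6⟩ := ZFSet.pair_injective h2
    obtain ⟨h7, h8⟩ := ZFSet.pair_injective h4
    have h9 := val_ordN_inj h (hc.fst _ _ h1) (hc.fst _ _ h3) (h5.trans h7.symm)
    rw [← h6, ← h8, cidx_inj h9]
  · intro b hb
    obtain ⟨i, h1, h2, rfl⟩ := mem_val.1 hb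
    refine ⟨val X G (ordN P (cidx x (x.fn i))), ?_, ?_⟩
    · rw [val_ordN_mem_iff h (hc.cidx _ _ hx h2) (hc.len _ hx)]
      exact cidx_lt i
    · rw [← val_pairN h.filt hc (hc.cidx _ _ hx h2) h2]
      exact mem_val.2 ⟨i, h.filt.top, hc.pair (hc.cidx _ _ hx h2) h2, rfl⟩

/-- **The generic extension is a model of ZFC.** -/
theorem Mod.isZFC (h : Basic X G) (hc : Clos X) : IsZFC (Mod X G) where
  trans := fun x hx y hy => Mod.trans' hx hy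
  ext := by
    intro x hx y hy hxy
    ext z
    constructor
    · intro hz
      exact (hxy z (Mod.trans' hx hz)).1 hz
    · intro hz
      exact (hxy z (Mod.trans' hy hz)).2 hz
  found := by
    rintro x hx ⟨y, -, hy⟩
    obtain ⟨z, hz, h1⟩ := ZFSet.regularity x (by rintro rfl; exact ZFSet.notMem_empty _ hy)
    refine ⟨z, Mod.trans' hx hz, hz, ?_⟩
    rintro w - ⟨hw1, hw2⟩
    have : w ∈ x ∩ z := ZFSet.mem_inter.2 ⟨hw2, hw1⟩
    rw [h1] at this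
    exact ZFSet.notMem_empty _ this
  pairing := by
    rintro _ ⟨x, hx, rfl⟩ _ ⟨y, hy, rfl⟩
    refine ⟨_, mem_Mod (hc.up _ _ hx hy), fun w _ => ?_⟩
    rw [val_upN h.filt hx hy, ZFSet.mem_pair]
  union := by
    rintro _ ⟨x, hx, rfl⟩
    obtain ⟨b, hb, h1⟩ := Mod.sep h hc (m := 1) (Fml.neg (Fml.all (Fml.neg
      (Fml.and (Fml.mem 0 2) (Fml.mem 1 0))))) (v := fun _ => val X G x)
      (fun _ => mem_Mod hx) (mem_Mod (hc.un x hx))
    refine ⟨b, hb, fun w _ => ?_⟩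
    rw [h1]
    constructor
    · rintro ⟨-, h2⟩
      by_contra h3
      apply h2
      intro y hy hn
      exact h3 ⟨y, hy, hn.1, hn.2⟩
    · rintro ⟨y, hy, h2, h3⟩
      exact ⟨val_unN h h2 h3, fun h4 => h4 y hy ⟨h2, h3⟩⟩
  power := by
    intro x hx
    obtain ⟨u, hu, h1⟩ := Mod.powerset h hc hx
    refine ⟨u, hu, fun w hw => ?_⟩
    rw [h1]
    constructor
    · rintro ⟨-, h2⟩ z _ hz
      exact h2 hz
    · intro h2
      exact ⟨hw, fun z hz => h2 z (Mod.trans' hw hz) hz⟩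
  infinity := by
    refine ⟨_, mem_Mod hc.omega, ⟨_, mem_Mod hc.zero, ?_, ?_⟩, ?_⟩
    · intro z _ hz
      rw [val_ordN_zero h.filt] at hz
      exact ZFSet.notMem_empty _ hz
    · rw [val_ordN_mem_iff h hc.zero hc.omega]
      exact omega0_pos
    · intro x _ hx
      obtain ⟨a, ha, h1, rfl⟩ := (val_ordN_mem h.filt).1 hx
      refine ⟨_, mem_Mod (hc.succ a h1), ?_, ?_⟩
      · rw [val_ordN_mem_iff h (hc.succ a h1) hc.omega]
        exact (isSuccLimit_omega0).add_one_lt ha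
      · intro z _
        rw [val_ordN_succ h.filt h1, ZFSet.mem_insert_iff, or_comm]
  separation := by
    intro m φ v hv a ha
    obtain ⟨b, hb, h1⟩ := Mod.sep h hc φ hv ha
    exact ⟨b, hb, fun x _ => h1 x⟩
  collection := by
    intro m φ v hv a ha hs
    obtain ⟨u, hu1, rfl⟩ := exists_names hv
    obtain ⟨x, hx, rfl⟩ := ha
    refine ⟨_, mem_Mod (hc.col m φ x u hx hu1), ?_⟩
    rintro b hb hb2
    obtain ⟨i, h1, h2, rfl⟩ := mem_val.1 hb2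
    obtain ⟨_, ⟨y, hy, rfl⟩, hy2⟩ := hs _ hb hb2
    have key : ∀ y : Nm P, (Sum.inl y : Obj P) ∈ X →
        (Sat (Mod X G) φ (Fin.cons (val X G y) (Fin.cons (val X G (x.fn i))
          (fun i => val X G (u i)))) ↔
          ∃ p ∈ G, Fo φ (Fin.cons y (Fin.cons (x.fn i) u)) p) := by
      intro y hy
      rw [cons_val, cons_val]
      apply h.truth
      intro i
      refine Fin.cases ?_ ?_ i
      · exact hy
      · intro j
        refine Fin.cases ?_ ?_ j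
        · exact h2
        · exact hu1
    obtain ⟨p, hp, h3⟩ := (key y hy).1 hy2
    obtain ⟨q, hq, hqp, hqX⟩ := h.filt.below hp
    have h4 : ∃ y, Fo φ (Fin.cons y (Fin.cons (x.fn i) u)) q := ⟨y, h3.mono hqp⟩
    have h5 : Fo φ (Fin.cons (wit φ q (x.fn i) u) (Fin.cons (x.fn i) u)) q := by
      rw [wit, dif_pos h4]
      exact h4.choose_spec
    have h6 := hc.wit m φ q (x.fn i) u hqX h2 hu1
    exact ⟨_, mem_Mod h6, mem_val.2 ⟨(i, q), h.filt.top, h6, rfl⟩, (key _ h6).2 ⟨q, hq, h5⟩⟩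
  choice := fun x hx => Mod.onto_ordinal h hc hx

end

end Pool.Agent.Helper96.Fc
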